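import Pool.Agent.H75.Plc.P0
import Mathlib.RingTheory.Polynomial.GaussLemma

/-! # PLC, module BEZ: resultants -/

set_option autoImplicit false

namespace Pool.Agent.H75.Mono

open MvPolynomial Pool.Agent.H39.MonoR

section BEZ

variable {k : Type} [Field k]

private theorem bez_domain {R : Type} [CommRing R] [IsDomain R] [NormalizedGCDMonoid R]
    {p q : Polynomial R} (hp : Irreducible p) (hq : Irreducible q) (h : ¬ Associated p q) :
    ∃ (A B : Polynomial R) (r : R), r ≠ 0 ∧ A * p + B * q = Polynomial.C r := by
  classical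
  by_cases hp0 : p.natDegree = 0
  · rw [Polynomial.natDegree_eq_zero] at hp0
    obtain ⟨r, rfl⟩ := hp0
    refine ⟨1, 0, r, ?_, by simp⟩
    rintro rfl
    exact hp.ne_zero (by simp)
  by_cases hq0 : q.natDegree = 0
  · rw [Polynomial.natDegree_eq_zero] at hq0
    obtain ⟨r, rfl⟩ := hq0
    refine ⟨0, 1, r, ?_, by simp⟩
    rintro rfl
    exact hq.ne_zero (by simp)
  have pp : p.IsPrimitive := hp.isPrimitive hp0
  have pq : q.IsPrimitive := hq.isPrimitive hq0
  let K := FractionRing R
  have hpK : Irreducible (p.map (algebraMap R K)) :=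
    (pp.irreducible_iff_irreducible_map_fraction_map (K := K)).1 hp
  have hnd : ¬ p.map (algebraMap R K) ∣ q.map (algebraMap R K) := by
    intro hd
    have := pp.dvd_of_fraction_map_dvd_fraction_map (K := K) hd
    exact h (hp.associated_of_dvd hq this)
  have hco : IsCoprime (p.map (algebraMap R K)) (q.map (algebraMap R K)) :=
    (hpK.coprime_iff_not_dvd).2 hnd
  obtain ⟨a, b, hab⟩ := hco
  obtain ⟨s, hs⟩ := IsLocalization.integerNormalization_map_to_map (nonZeroDivisors R) a
  obtain ⟨t, ht⟩ := IsLocalization.integerNormalization_map_to_map (nonZeroDivisors R) b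
  set a' := IsLocalization.integerNormalization (nonZeroDivisors R) a
  set b' := IsLocalization.integerNormalization (nonZeroDivisors R) b
  refine ⟨Polynomial.C (t : R) * a', Polynomial.C (s : R) * b', s * t,
    mul_ne_zero (nonZeroDivisors.ne_zero s.2) (nonZeroDivisors.ne_zero t.2), ?_⟩
  have hinj : Function.Injective (Polynomial.map (algebraMap R K)) :=
    Polynomial.map_injective _ (IsFractionRing.injective R K)
  apply hinj
  have e1 : ∀ (c : R) (f : Polynomial K), c • f = Polynomial.C (algebraMap R K c) * f := by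
    intro c f
    rw [← Polynomial.smul_eq_C_mul, algebraMap_smul]
  rw [Polynomial.map_add, Polynomial.map_mul, Polynomial.map_mul, Polynomial.map_mul,
    Polynomial.map_mul, hs, ht, e1, e1, Polynomial.map_C, Polynomial.map_C, Polynomial.map_C,
    map_mul, Polynomial.C_mul]
  linear_combination (Polynomial.C (algebraMap R K (s : R)) *
    Polynomial.C (algebraMap R K (t : R))) * hab

private noncomputable def bezTo (i : Fin 2) :
    MvPolynomial (Fin 2) k →+* Polynomial (Polynomial k) :=
  eval₂Hom (Polynomial.C.comp Polynomial.C)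
    (fun j => if j = i then Polynomial.C Polynomial.X else Polynomial.X)

private noncomputable def bezOf (i : Fin 2) :
    Polynomial (Polynomial k) →+* MvPolynomial (Fin 2) k :=
  Polynomial.eval₂RingHom (Polynomial.eval₂RingHom C (X i)) (X (1 - i))

private theorem bez_to_of (i : Fin 2) : (bezTo i).comp (bezOf (k := k) i) = RingHom.id _ := by
  apply Polynomial.ringHom_ext'
  · apply Polynomial.ringHom_ext'
    · ext a
      simp [bezTo, bezOf]
    · simp [bezTo, bezOf]
  · fin_cases i <;> simp [bezTo, bezOf]

private theorem bez_of_to (i : Fin 2) : (bezOf i).comp (bezTo (k := k) i) = RingHom.id _ := by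
  apply MvPolynomial.ringHom_ext
  · intro a
    simp [bezTo, bezOf]
  · intro j
    fin_cases i <;> fin_cases j <;> simp [bezTo, bezOf]

private noncomputable def bezEq (i : Fin 2) :
    MvPolynomial (Fin 2) k ≃+* Polynomial (Polynomial k) :=
  RingEquiv.ofRingHom (bezTo i) (bezOf i) (bez_to_of i) (bez_of_to i)

theorem exists_res {P Q : MvPolynomial (Fin 2) k} (hP : Irreducible P) (hQ : Irreducible Q)
    (h : ¬ Associated P Q) (i : Fin 2) : ∃ (A B : MvPolynomial (Fin 2) k) (r : Polynomial k),
      r ≠ 0 ∧ A * P + B * Q = Polynomial.aeval (X i : MvPolynomial (Fin 2) k) r := by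
  classical
  let e := bezEq (k := k) i
  have hP' : Irreducible (e P) := (MulEquiv.irreducible_iff e).2 hP
  have hQ' : Irreducible (e Q) := (MulEquiv.irreducible_iff e).2 hQ
  have h' : ¬ Associated (e P) (e Q) := by
    intro ha
    apply h
    have := ha.map (e.symm : Polynomial (Polynomial k) →* MvPolynomial (Fin 2) k)
    simpa using this
  letI : NormalizedGCDMonoid (Polynomial k) :=
    Classical.choice (UniqueFactorizationMonoid.toNormalizedGCDMonoid _ |> Nonempty.intro)
  obtain ⟨A, B, r, hr, hAB⟩ := bez_domain hP' hQ' h'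
  refine ⟨e.symm A, e.symm B, r, hr, ?_⟩
  have := congrArg e.symm hAB
  rw [map_add, map_mul, map_mul, RingEquiv.symm_apply_apply, RingEquiv.symm_apply_apply] at this
  rw [this]
  change bezOf i (Polynomial.C r) = _
  simp only [bezOf, Polynomial.coe_eval₂RingHom, Polynomial.eval₂_C]
  rfl

end BEZ

end Pool.Agent.H75.Mono
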