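import Mathlib

/-! # A polynomial has finitely many critical values -/

set_option autoImplicit false

namespace Pool.Agent.H75.Mono

open MvPolynomial

section SARD

/-- a transcendental element has nonzero derivative for some derivation -/
theorem exists_der_of_transcendental {k K : Type} [Field k] [CharZero k] [Field K] [Algebra k K]
    [Algebra.EssFiniteType k K] {x : K} (hx : Transcendental k x) :
    ∃ D : Derivation k K K, D x = 1 := by
  classical
  -- `K` as an algebra over `k[X]`
  let a1 : Algebra (Polynomial k) K := (Polynomial.aeval x).toRingHom.toAlgebra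
  have ha1 : ∀ p : Polynomial k, algebraMap (Polynomial k) K p = Polynomial.aeval x p := fun p => rfl
  have t1 : IsScalarTower k (Polynomial k) K := IsScalarTower.of_algebraMap_eq fun c => by
    rw [ha1, Polynomial.algebraMap_apply, Polynomial.aeval_C]
    rfl
  have inj : Function.Injective (algebraMap (Polynomial k) K) := by
    rw [injective_iff_map_eq_zero]
    intro p hp
    by_contra h
    exact hx ⟨p, h, hp⟩
  have : FaithfulSMul (Polynomial k) K := (faithfulSMul_iff_algebraMap_injective _ _).2 inj
  let a2 : Algebra (FractionRing (Polynomial k)) K :=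
    (IsFractionRing.lift inj).toAlgebra
  have t2 : IsScalarTower (Polynomial k) (FractionRing (Polynomial k)) K :=
    IsScalarTower.of_algebraMap_eq fun p => by
      show _ = IsFractionRing.lift inj _
      rw [IsFractionRing.lift_algebraMap]
  have t3 : IsScalarTower k (FractionRing (Polynomial k)) K :=
    IsScalarTower.of_algebraMap_eq fun c => by
      rw [IsScalarTower.algebraMap_apply k (Polynomial k) (FractionRing (Polynomial k)),
        ← IsScalarTower.algebraMap_apply (Polynomial k) (FractionRing (Polynomial k)) K,
        ← IsScalarTower.algebraMap_apply k (Polynomial k) K]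
  have f1 : Algebra.EssFiniteType (FractionRing (Polynomial k)) K :=
    Algebra.EssFiniteType.of_comp k (FractionRing (Polynomial k)) K
  have c0 : CharZero (FractionRing (Polynomial k)) :=
    charZero_of_injective_algebraMap (algebraMap k (FractionRing (Polynomial k))).injective
  have s1 : Algebra.FormallySmooth (FractionRing (Polynomial k)) K :=
    Algebra.FormallySmooth.of_perfectField
  have s2 : Algebra.FormallySmooth (Polynomial k) (FractionRing (Polynomial k)) :=
    Algebra.FormallySmooth.of_isLocalization (nonZeroDivisors (Polynomial k))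
  have s3 : Algebra.FormallySmooth (Polynomial k) K :=
    Algebra.FormallySmooth.comp (Polynomial k) (FractionRing (Polynomial k)) K
  -- the dual numbers
  let y : TrivSqZeroExt K K := TrivSqZeroExt.inl x + TrivSqZeroExt.inr 1
  let a4 : Algebra (Polynomial k) (TrivSqZeroExt K K) :=
    (Polynomial.aeval (R := k) y).toRingHom.toAlgebra
  have ha4 : ∀ p : Polynomial k, algebraMap (Polynomial k) (TrivSqZeroExt K K) p =
    Polynomial.aeval y p := fun p => rfl
  let g : TrivSqZeroExt K K →ₐ[Polynomial k] K :=
    { (TrivSqZeroExt.fstHom k K K).toRingHom with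
      commutes' := fun p => by
        show TrivSqZeroExt.fstHom k K K (Polynomial.aeval y p) = Polynomial.aeval x p
        rw [← Polynomial.aeval_algHom_apply]
        congr 1
        simp [y] }
  have hg : Function.Surjective g := fun z => ⟨TrivSqZeroExt.inl z, TrivSqZeroExt.fst_inl K z⟩
  have hgf : ∀ z, g z = TrivSqZeroExt.fst z := fun z => rfl
  have hker : IsNilpotent (RingHom.ker (g : TrivSqZeroExt K K →+* K)) := by
    refine ⟨2, ?_⟩
    rw [Submodule.pow_succ, Submodule.pow_one, Ideal.zero_eq_bot, eq_bot_iff, Ideal.mul_le]
    intro r hr s hs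
    rw [RingHom.mem_ker] at hr hs
    have hr' : TrivSqZeroExt.fst r = 0 := hr
    have hs' : TrivSqZeroExt.fst s = 0 := hs
    rw [Ideal.mem_bot]
    apply TrivSqZeroExt.ext
    · simp [hr']
    · simp [hr', hs']
  let L := Algebra.FormallySmooth.liftOfSurjective (AlgHom.id (Polynomial k) K) g hg hker
  have hL : ∀ z, TrivSqZeroExt.fst (L z) = z := fun z => by
    have := Algebra.FormallySmooth.liftOfSurjective_apply (AlgHom.id (Polynomial k) K) g hg hker z
    exact this
  have hLx : L x = y := by
    have h1 := L.commutes Polynomial.X
    rw [ha1, ha4, Polynomial.aeval_X, Polynomial.aeval_X] at h1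
    exact h1
  have hLc : ∀ c : k, L (algebraMap k K c) = TrivSqZeroExt.inl (algebraMap k K c) := by
    intro c
    have h1 := L.commutes (Polynomial.C c)
    rw [ha1, ha4, Polynomial.aeval_C, Polynomial.aeval_C] at h1
    rw [h1]
    rfl
  refine ⟨Derivation.mk'
    { toFun := fun z => TrivSqZeroExt.snd (L z)
      map_add' := fun a b => by rw [map_add, TrivSqZeroExt.snd_add]
      map_smul' := fun c a => by
        rw [Algebra.smul_def, map_mul, hLc, RingHom.id_apply, TrivSqZeroExt.snd_mul,
          TrivSqZeroExt.fst_inl, TrivSqZeroExt.snd_inl, Algebra.smul_def]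
        rw [smul_zero, add_zero, Algebra.smul_def]
        rfl }
    fun a b => ?_, ?_⟩
  · simp only [LinearMap.coe_mk, AddHom.coe_mk]
    rw [map_mul, TrivSqZeroExt.snd_mul, hL, hL]
    simp [smul_eq_mul, mul_comm]
  · show TrivSqZeroExt.snd (L x) = 1
    rw [hLx]
    simp [y]

/-- **A polynomial has finitely many critical values** -/
theorem sard {k σ : Type} [Field k] [IsAlgClosed k] [CharZero k] [Finite σ] {R : Type} [Field R]
    [Algebra k R] (f : MvPolynomial σ k) : ∃ T : Finset k, ∀ x : σ → R,
      (∀ i, aeval x (pderiv i f) = 0) → ∃ a ∈ T, aeval x f = algebraMap k R a := by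
  classical
  let J : Ideal (MvPolynomial σ k) := Ideal.span (Set.range fun i => pderiv i f)
  have key : ∀ P : Ideal (MvPolynomial σ k), P.IsPrime → J ≤ P → ∃ c : k, f - C c ∈ P := by
    intro P hP hJ
    let A := MvPolynomial σ k ⧸ P
    let K := FractionRing A
    let φ : MvPolynomial σ k →ₐ[k] K :=
      (IsScalarTower.toAlgHom k A K).comp (Ideal.Quotient.mkₐ k P)
    have hφ : ∀ p, φ p = 0 → p ∈ P := by
      intro p hp
      have h1 : algebraMap A K (Ideal.Quotient.mk P p) = 0 := hp
      rw [map_eq_zero_iff _ (IsFractionRing.injective A K)] at h1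
      exact Ideal.Quotient.eq_zero_iff_mem.1 h1
    have halg : IsAlgebraic k (φ f) := by
      by_contra htr
      have : Algebra.EssFiniteType k K := by
        have := Algebra.EssFiniteType.of_isLocalization (S := K) (nonZeroDivisors A)
        exact Algebra.EssFiniteType.comp k A K
      obtain ⟨D, hD⟩ := exists_der_of_transcendental htr
      have h1 : ∀ p : MvPolynomial σ k, D (φ p) = ∑ᶠ i, φ (pderiv i p) * D (φ (X i)) := by
        intro p
        have := Fintype.ofFinite σ
        rw [finsum_eq_sum_of_fintype]
        induction p using MvPolynomial.induction_on with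
        | C c =>
          simp only [pderiv_C, map_zero, zero_mul, Finset.sum_const_zero]
          have : φ (C c) = algebraMap k K c := φ.commutes c
          rw [this, Derivation.map_algebraMap]
        | add p q hp hq =>
          simp only [map_add, hp, hq, add_mul, Finset.sum_add_distrib]
        | mul_X p i hp =>
          rw [map_mul, Derivation.leibniz, hp]
          simp only [smul_eq_mul, Derivation.leibniz, map_add, map_mul, pderiv_X, add_mul,
            Finset.sum_add_distrib]
          congr 1
          · rw [Finset.sum_eq_single i]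
            · simp
            · intro j _ hj
              simp [hj]
            · simp
          · rw [Finset.mul_sum]
            apply Finset.sum_congr rfl
            intro j _
            ring
      rw [h1 f] at hD
      have h2 : ∀ i, φ (pderiv i f) = 0 := by
        intro i
        show algebraMap A K (Ideal.Quotient.mk P (pderiv i f)) = 0
        rw [Ideal.Quotient.eq_zero_iff_mem.2 (hJ (Ideal.subset_span ⟨i, rfl⟩)), map_zero]
      simp [h2] at hD
    obtain ⟨c, hc⟩ : ∃ c : k, algebraMap k K c = φ f := by
      have hint : IsIntegral k (φ f) := halg.isIntegral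
      have h1 := IsAlgClosed.degree_eq_one_of_irreducible k (minpoly.irreducible hint)
      exact minpoly.mem_range_of_degree_eq_one k (φ f) h1
    refine ⟨c, hφ _ ?_⟩
    rw [map_sub, ← hc, sub_eq_zero]
    exact (φ.commutes c).symm
  have hfin : J.minimalPrimes.Finite := Ideal.finite_minimalPrimes_of_isNoetherianRing _ J
  choose! c hc using fun P : Ideal (MvPolynomial σ k) => fun hP : P ∈ J.minimalPrimes =>
    key P hP.1.1 hP.1.2
  refine ⟨hfin.toFinset.image c, fun x hx => ?_⟩
  let ψ : MvPolynomial σ k →ₐ[k] R := aeval x
  have hprime : (RingHom.ker ψ).IsPrime := RingHom.ker_isPrime _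
  have hle : J ≤ RingHom.ker ψ := by
    rw [Ideal.span_le]
    rintro _ ⟨i, rfl⟩
    exact hx i
  obtain ⟨P, hP, hPle⟩ := Ideal.exists_minimalPrimes_le hle
  refine ⟨c P, Finset.mem_image.2 ⟨P, hfin.mem_toFinset.2 hP, rfl⟩, ?_⟩
  have h1 : f - C (c P) ∈ RingHom.ker ψ := hPle (hc P hP)
  rw [RingHom.mem_ker, map_sub, sub_eq_zero] at h1
  rw [show aeval x f = ψ f from rfl, h1]
  exact ψ.commutes _

end SARD

end Pool.Agent.H75.Mono
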