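import Pool.Agent.H75.Plc.P0

/-! # PLC, module EV1: evaluation of power series at arcs -/

set_option autoImplicit false

namespace Pool.Agent.H75.Mono

open MvPolynomial Pool.Agent.H39.MonoR

section EV1

variable {k : Type} [Field k] [Algebra k ℂ] {x y : PowerSeries ℂ}

omit [Algebra k ℂ] in
theorem ev1_ix (e : Fin 2 →₀ ℕ) : ix (e 0) (e 1) = e := by
  ext i
  fin_cases i <;> simp [ix]

omit [Algebra k ℂ] in
theorem ev1_ix_inj {i j i' j' : ℕ} (h : ix i j = ix i' j') : i = i' ∧ j = j' := by
  have h0 := DFunLike.congr_fun h 0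
  have h1 := DFunLike.congr_fun h 1
  simp [ix] at h0 h1
  exact ⟨h0, h1⟩

omit [Algebra k ℂ] in
theorem ev1_coeff_tp (d : ℕ) (G : PS k) (i j : ℕ) :
    coeff (ix i j) (tp d G) = if i ≤ d ∧ j ≤ d then cf G i j else 0 := by
  classical
  unfold tp
  simp only [coeff_sum, coeff_monomial]
  by_cases h : i ≤ d ∧ j ≤ d
  · rw [if_pos h, Finset.sum_eq_single i, Finset.sum_eq_single j, if_pos rfl]
    · intro b _ hb
      rw [if_neg]
      intro e
      exact hb (ev1_ix_inj e).2
    · intro hn
      exact absurd (Finset.mem_range.2 (by omega)) hn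
    · intro b _ hb
      refine Finset.sum_eq_zero fun c _ => ?_
      rw [if_neg]
      intro e
      exact hb (ev1_ix_inj e).1
    · intro hn
      exact absurd (Finset.mem_range.2 (by omega)) hn
  · rw [if_neg h]
    refine Finset.sum_eq_zero fun b hb => Finset.sum_eq_zero fun c hc => ?_
    rw [if_neg]
    intro e
    obtain ⟨rfl, rfl⟩ := ev1_ix_inj e
    rw [Finset.mem_range] at hb hc
    exact h ⟨by omega, by omega⟩

theorem ev1_sub (hx : PowerSeries.constantCoeff x = 0) (hy : PowerSeries.constantCoeff y = 0) :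
    MvPowerSeries.HasSubst (![x, y] : Fin 2 → MvPowerSeries Unit ℂ) := by
  refine MvPowerSeries.hasSubst_of_constantCoeff_zero ?_
  intro s
  fin_cases s
  · exact hx
  · exact hy

theorem ev_add (hx : PowerSeries.constantCoeff x = 0) (hy : PowerSeries.constantCoeff y = 0)
    (G H : PS k) : ev (G + H) x y = ev G x y + ev H x y :=
  MvPowerSeries.subst_add (ev1_sub hx hy) G H

theorem ev_mul (hx : PowerSeries.constantCoeff x = 0) (hy : PowerSeries.constantCoeff y = 0)
    (G H : PS k) : ev (G * H) x y = ev G x y * ev H x y :=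
  MvPowerSeries.subst_mul (ev1_sub hx hy) G H

theorem ev_pow (hx : PowerSeries.constantCoeff x = 0) (hy : PowerSeries.constantCoeff y = 0)
    (G : PS k) (n : ℕ) : ev (G ^ n) x y = ev G x y ^ n :=
  MvPowerSeries.subst_pow (ev1_sub hx hy) G n

theorem ev_coe (hx : PowerSeries.constantCoeff x = 0) (hy : PowerSeries.constantCoeff y = 0)
    (f : MvPolynomial (Fin 2) k) : ev (f : PS k) x y = aeval ![x, y] f := by
  have _ := hx
  have _ := hy
  exact MvPowerSeries.subst_coe f

theorem ev_C (hx : PowerSeries.constantCoeff x = 0) (hy : PowerSeries.constantCoeff y = 0)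
    (c : k) : ev (MvPowerSeries.C c) x y = PowerSeries.C (algebraMap k ℂ c) := by
  rw [← MvPolynomial.coe_C, ev_coe hx hy, aeval_C, PowerSeries.algebraMap_apply]

theorem ev_X0 (hx : PowerSeries.constantCoeff x = 0) (hy : PowerSeries.constantCoeff y = 0) :
    ev (MvPowerSeries.X 0 : PS k) x y = x :=
  MvPowerSeries.subst_X (ev1_sub hx hy) 0

theorem ev_X1 (hx : PowerSeries.constantCoeff x = 0) (hy : PowerSeries.constantCoeff y = 0) :
    ev (MvPowerSeries.X 1 : PS k) x y = y :=
  MvPowerSeries.subst_X (ev1_sub hx hy) 1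

/-- composition -/
theorem ev_subst (hx : PowerSeries.constantCoeff x = 0) (hy : PowerSeries.constantCoeff y = 0)
    {a : Fin 2 → PS k} (ha : ∀ i, MvPowerSeries.constantCoeff (a i) = 0) (G : PS k) :
    ev (MvPowerSeries.subst a G) x y = ev G (ev (a 0) x y) (ev (a 1) x y) := by
  unfold ev
  rw [MvPowerSeries.subst_comp_subst_apply (MvPowerSeries.hasSubst_of_constantCoeff_zero ha)
    (ev1_sub hx hy)]
  congr 1
  funext i
  fin_cases i <;> rfl

/-- the value of a monomial -/
theorem ev1_prod (e : Fin 2 →₀ ℕ) : (e.prod fun s n => (![x, y] : Fin 2 → PowerSeries ℂ) s ^ n) =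
    x ^ e 0 * y ^ e 1 := by
  rw [Finsupp.prod_fintype _ _ (by intro i; simp)]
  simp [Fin.prod_univ_two]

/-- powers have high order -/
theorem ev1_ord (hx : PowerSeries.constantCoeff x = 0) (hy : PowerSeries.constantCoeff y = 0)
    {i j l : ℕ} (h : l < i + j) : PowerSeries.coeff l (x ^ i * y ^ j) = 0 := by
  have h1 : (PowerSeries.X : PowerSeries ℂ) ^ (i + j) ∣ x ^ i * y ^ j := by
    rw [pow_add]
    exact mul_dvd_mul (pow_dvd_pow_of_dvd (PowerSeries.X_dvd_iff.2 hx) i)
      (pow_dvd_pow_of_dvd (PowerSeries.X_dvd_iff.2 hy) j)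
  exact PowerSeries.X_pow_dvd_iff.1 h1 l h

/-- the coefficient of order `l ≤ d` is the one of the truncated polynomial -/
theorem coeff_ev (hx : PowerSeries.constantCoeff x = 0) (hy : PowerSeries.constantCoeff y = 0)
    (G : PS k) {l d : ℕ} (hl : l ≤ d) :
    PowerSeries.coeff l (ev G x y) = PowerSeries.coeff l (aeval ![x, y] (tp d G)) := by
  have e1 : G = (G - (tp d G : PS k)) + (tp d G : PS k) := by ring
  have h1 : PowerSeries.coeff l (ev (G - (tp d G : PS k)) x y) = 0 := by
    unfold ev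
    rw [PowerSeries.coeff, MvPowerSeries.coeff_subst (ev1_sub hx hy)]
    apply finsum_eq_zero_of_forall_eq_zero
    intro e
    by_cases h : e 0 ≤ d ∧ e 1 ≤ d
    · have h2 : MvPowerSeries.coeff e (G - (tp d G : PS k)) = 0 := by
        rw [map_sub, MvPolynomial.coeff_coe, ← ev1_ix e, ev1_coeff_tp, if_pos h]
        exact sub_self _
      rw [h2, zero_smul]
    · have h2 : l < e 0 + e 1 := by
        rw [not_and_or] at h
        omega
      have h3 := ev1_ord hx hy h2
      have h4 : MvPowerSeries.coeff (Finsupp.single () l)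
          (e.prod fun s n => (![x, y] : Fin 2 → MvPowerSeries Unit ℂ) s ^ n) = 0 := by
        have h5 := ev1_prod (x := x) (y := y) e
        refine Eq.trans (congrArg _ h5) ?_
        exact h3
      rw [h4, smul_zero]
  conv_lhs => rw [e1, ev_add hx hy, map_add, h1, zero_add, ev_coe hx hy]

theorem ev1_aeval_congr (f : MvPolynomial (Fin 2) k) {x' y' : PowerSeries ℂ} {n : ℕ}
    (h0 : ∀ l, l ≤ n → PowerSeries.coeff l x = PowerSeries.coeff l x')
    (h1 : ∀ l, l ≤ n → PowerSeries.coeff l y = PowerSeries.coeff l y') :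
    PowerSeries.coeff n (aeval ![x, y] f) = PowerSeries.coeff n (aeval ![x', y'] f) := by
  have h := arcEval_congr f ![x, y] ![x', y'] (n + 1) (by
    intro j
    rw [PowerSeries.X_pow_dvd_iff]
    intro m hm
    rw [map_sub, sub_eq_zero]
    fin_cases j
    · exact h0 m (by omega)
    · exact h1 m (by omega))
  rw [PowerSeries.X_pow_dvd_iff] at h
  have h2 := h n (by omega)
  rw [map_sub, sub_eq_zero] at h2
  exact h2

theorem constantCoeff_ev (hx : PowerSeries.constantCoeff x = 0)
    (hy : PowerSeries.constantCoeff y = 0) (G : PS k) :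
    PowerSeries.constantCoeff (ev G x y) = algebraMap k ℂ (MvPowerSeries.constantCoeff G) := by
  rw [← PowerSeries.coeff_zero_eq_constantCoeff_apply, coeff_ev hx hy G (le_refl 0)]
  unfold tp
  simp only [zero_add, Finset.range_one, Finset.sum_singleton]
  have e : ix 0 0 = 0 := by
    ext i
    simp [ix]
  have e2 : cf G 0 0 = MvPowerSeries.constantCoeff G := by
    unfold cf
    rw [e]
    simp
  rw [e, e2, ← C_apply, aeval_C, PowerSeries.coeff_zero_eq_constantCoeff_apply]
  rfl

theorem coeff_ev_congr (hx : PowerSeries.constantCoeff x = 0)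
    (hy : PowerSeries.constantCoeff y = 0) {x' y' : PowerSeries ℂ}
    (hx' : PowerSeries.constantCoeff x' = 0) (hy' : PowerSeries.constantCoeff y' = 0) (G : PS k)
    {n : ℕ} (h0 : ∀ l, l ≤ n → PowerSeries.coeff l x = PowerSeries.coeff l x')
    (h1 : ∀ l, l ≤ n → PowerSeries.coeff l y = PowerSeries.coeff l y') :
    PowerSeries.coeff n (ev G x y) = PowerSeries.coeff n (ev G x' y') := by
  rw [coeff_ev hx hy G (le_refl n), coeff_ev hx' hy' G (le_refl n)]
  exact ev1_aeval_congr _ h0 h1

theorem ev1_arc {d : ℕ} (φ : Fin 2 × Fin (d + 1) → ℂ) (hφ : org φ = 0) (i : Fin 2) :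
    PowerSeries.constantCoeff (arc φ i) = 0 := by
  rw [← PowerSeries.coeff_zero_eq_constantCoeff_apply, coeff_arc, dif_pos (by omega)]
  have := congrFun hφ i
  exact this

/-- the condition `X^N G = c t^d` in terms of `ev` -/
theorem hit_ev (N : ℕ) (G : PS k) {d : ℕ} (φ : Fin 2 × Fin (d + 1) → ℂ) (hφ : org φ = 0) (c : ℂ) :
    Hit (X 0 ^ N * tp d G) d φ c ↔ ∀ l, l ≤ d →
      PowerSeries.coeff l (arc φ 0 ^ N * ev G (arc φ 0) (arc φ 1)) = if l = d then c else 0 := by
  have h0 := ev1_arc φ hφ 0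
  have h1 := ev1_arc φ hφ 1
  have e1 : (![arc φ 0, arc φ 1] : Fin 2 → PowerSeries ℂ) = arc φ := by
    funext i
    fin_cases i <;> rfl
  have key : ∀ l, l ≤ d → PowerSeries.coeff l (arcEval k φ (X 0 ^ N * tp d G)) =
      PowerSeries.coeff l (arc φ 0 ^ N * ev G (arc φ 0) (arc φ 1)) := by
    intro l hl
    unfold arcEval
    rw [map_mul, map_pow, aeval_X, PowerSeries.coeff_mul, PowerSeries.coeff_mul]
    refine Finset.sum_congr rfl fun p hp => ?_
    rw [Finset.HasAntidiagonal.mem_antidiagonal] at hp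
    rw [coeff_ev h0 h1 G (show p.2 ≤ d by omega), e1]
  unfold Hit
  constructor
  · intro h l hl
    rw [← key l hl]
    exact h l hl
  · intro h l hl
    rw [key l hl]
    exact h l hl

end EV1

end Pool.Agent.H75.Mono
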