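import Pool.Agent.H75.Fib.F0

/-! # Gates which are smooth at a point -/

set_option autoImplicit false

namespace Pool.Agent.H75.Mono

open MvPolynomial Pool.Agent.H39.MonoR

section SWL

variable {k : Type} [Field k] [Algebra k ℂ] {r : ℕ}

theorem shf_eval (F : MvPolynomial (Fin r) k) (P : Fin r → k) :
    eval (0 : Fin r → k) (aeval (fun i => X i + C (P i)) F : MvPolynomial (Fin r) k) =
      eval P F := by
  rw [← MvPolynomial.coe_aeval_eq_eval, ← MvPolynomial.coe_aeval_eq_eval]
  have : (aeval (0 : Fin r → k)).comp (aeval (fun i => X i + C (P i)) :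
      MvPolynomial (Fin r) k →ₐ[k] MvPolynomial (Fin r) k) =
        (aeval P : MvPolynomial (Fin r) k →ₐ[k] k) := by
    ext i
    simp
  exact congrArg (fun g => g F) this

theorem shf_pderiv (F : MvPolynomial (Fin r) k) (P : Fin r → k) (i : Fin r) :
    pderiv i (aeval (fun i => X i + C (P i)) F : MvPolynomial (Fin r) k) =
      aeval (fun i => X i + C (P i)) (pderiv i F) := by
  induction F using MvPolynomial.induction_on with
  | C a => simp
  | add p q hp hq => rw [map_add, map_add, map_add, map_add, hp, hq]
  | mul_X p j hp =>
    simp only [map_mul, Derivation.leibniz, aeval_X, map_add, hp, pderiv_C, add_zero, smul_eq_mul]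
    by_cases h : j = i
    · subst h
      simp
    · rw [pderiv_X_of_ne h]
      simp

/-- a polynomial is semi-weighted homogeneous at points at which all derivatives do not vanish -/
theorem SWH.linear {G : MvPolynomial (Fin r) k} {b : Fin r → k} {a : k} (h0 : eval b G = a)
    (h1 : ∀ i, eval b (pderiv i G) ≠ 0) :
    SWH (fun _ => 1) 1 ∅ (aeval (fun i => X i + C (b i)) G - C a : MvPolynomial (Fin r) k) := by
  classical
  set P : MvPolynomial (Fin r) k := aeval (fun i => X i + C (b i)) G - C a with hP
  let H : MvPolynomial (Fin r) k := ∑ i, C (eval b (pderiv i G)) * X i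
  have hc0 : coeff 0 P = 0 := by
    have h2 : coeff 0 P = eval (0 : Fin r → k) P := by
      rw [← MvPolynomial.constantCoeff_eq, ← MvPolynomial.coe_aeval_eq_eval]
      simp
    rw [h2, hP, map_sub, shf_eval, h0, eval_C, sub_self]
  have hc1 : ∀ i, coeff (Finsupp.single i 1) P = eval b (pderiv i G) := by
    intro i
    have h2 : coeff 0 (pderiv i P) = eval (0 : Fin r → k) (pderiv i P) := by
      rw [← MvPolynomial.constantCoeff_eq, ← MvPolynomial.coe_aeval_eq_eval]
      simp
    have h3 : pderiv i P = aeval (fun i => X i + C (b i)) (pderiv i G) := by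
      rw [hP, map_sub, pderiv_C, sub_zero, shf_pderiv]
    rw [h3, shf_eval, ← h3, MvPolynomial.coeff_pderiv] at h2
    simpa using h2
  have hHc : ∀ m, coeff m H = ∑ i, if m = Finsupp.single i 1 then eval b (pderiv i G) else 0 := by
    intro m
    simp only [H, coeff_sum, coeff_C_mul, coeff_X']
    apply Finset.sum_congr rfl
    intro i _
    by_cases h : Finsupp.single i 1 = m
    · rw [if_pos h, if_pos h.symm, mul_one]
    · rw [if_neg h, if_neg (fun h' => h h'.symm), mul_zero]
  refine ⟨one_pos, fun _ => ⟨one_pos, le_rfl⟩, H, P - H, by ring, ?_, ?_, ?_⟩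
  · intro m hm
    rw [hHc] at hm
    obtain ⟨i, -, hi⟩ := Finset.exists_ne_zero_of_sum_ne_zero hm
    have : m = Finsupp.single i 1 := by
      by_contra h
      rw [if_neg h] at hi
      exact hi rfl
    rw [this]
    simp [Finsupp.weight_apply]
  · intro m hm
    by_contra hlt
    push Not at hlt
    apply hm
    have hdeg : m.sum (fun _ c => c) ≤ 1 := by
      have e : Finsupp.weight (fun _ : Fin r => 1) m = m.sum (fun _ c => c) := by
        rw [Finsupp.weight_apply]
        simp
      rw [← e]
      exact hlt
    rw [coeff_sub, hHc]
    by_cases hm0 : m = 0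
    · subst hm0
      rw [hc0, zero_sub, neg_eq_zero]
      apply Finset.sum_eq_zero
      intro i _
      rw [if_neg]
      intro h
      have := DFunLike.congr_fun h i
      simp at this
    · obtain ⟨i, hi⟩ : ∃ i, m i ≠ 0 := by
        by_contra h
        push Not at h
        exact hm0 (Finsupp.ext h)
      have hmi : m = Finsupp.single i 1 := by
        have h3 : m.sum (fun _ c => c) = ∑ j, m j := by
          rw [Finsupp.sum_fintype]
          simp
        rw [h3] at hdeg
        have h4 : ∀ j, j ≠ i → m j = 0 := by
          intro j hj
          by_contra hj0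
          have h5 : m i + m j ≤ ∑ j, m j := by
            have h6 := Finset.sum_le_sum_of_subset (f := fun j => m j)
              (Finset.subset_univ ({i, j} : Finset (Fin r)))
            rwa [Finset.sum_pair hj.symm] at h6
          omega
        have h5 : m i ≤ ∑ j, m j := Finset.single_le_sum (fun _ _ => Nat.zero_le _)
          (Finset.mem_univ i)
        ext j
        by_cases hj : j = i
        · subst hj
          simp
          omega
        · rw [h4 j hj, Finsupp.single_eq_of_ne hj]
      rw [hmi, hc1, Finset.sum_eq_single i]
      · simp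
      · intro j _ hj
        rw [if_neg]
        intro h
        have := Finsupp.single_left_injective one_ne_zero h
        exact hj this.symm
      · intro h
        exact absurd (Finset.mem_univ i) h
  · intro x _ hx
    funext i
    have h2 := hx i (by simp)
    have h3 : pderiv i H = C (eval b (pderiv i G)) := by
      simp only [H, map_sum]
      rw [Finset.sum_eq_single i]
      · simp
      · intro j _ hj
        simp [pderiv_X_of_ne hj]
      · intro h
        exact absurd (Finset.mem_univ i) h
    rw [h3, aeval_C] at h2
    rcases mul_eq_zero.1 h2 with h | h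
    · exact h
    · exact absurd ((map_eq_zero _).1 h) (h1 i)

end SWL

end Pool.Agent.H75.Mono
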