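import Pool.Agent.H75.Plc.PLN
import Pool.Agent.H75.Plc.SARD
import Pool.Agent.H75.Plc.SWL

/-! # Closure under sums, products and outer polynomials over algebraically closed fields -/

set_option autoImplicit false

namespace Pool.Agent.H75.Mono

open MvPolynomial Pool.Agent.H39.MonoR

section CLO

/-- Critical values are finite in number. -/
theorem exists_critical {k : Subfield ℂ} [IsAlgClosed k] {n : ℕ} (f : MvPolynomial (Fin n) k) :
    ∃ T : Finset k, ∀ a : ℂ, ¬ Sm f a → ∃ b ∈ T, a = (b : ℂ) := by
  have : CharZero k := charZero k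
  obtain ⟨T, hT⟩ := sard (R := ℂ) f
  refine ⟨T, fun a ha => ?_⟩
  unfold Sm at ha
  push Not at ha
  obtain ⟨x, hx, hx'⟩ := ha
  obtain ⟨b, hb, hb'⟩ := hT x hx'
  exact ⟨b, hb, by rw [← hx, hb']; rfl⟩

theorem aeval_coe_eq {k : Subfield ℂ} {r : ℕ} (b : Fin r → k) (P : MvPolynomial (Fin r) k) :
    aeval (fun i => (b i : ℂ)) P = ((eval b P : k) : ℂ) := by
  have h := MvPolynomial.aeval_algebraMap_apply (A := k) ℂ b P
  have h2 : aeval b P = eval b P := by
    rw [← MvPolynomial.coe_aeval_eq_eval]
    rfl
  rw [h2] at h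
  exact h

/-- Gates of two inputs which are smooth at the critical pairs. -/
theorem gate2 {k : Subfield ℂ} [IsAlgClosed k] {n : ℕ} {s t : Finset (Fin n)}
    {f g : MvPolynomial (Fin n) k} (hd : Disjoint s t) (hf : Nc f) (hg : Nc g)
    (h1 : ∀ a, Fibp s f a) (h2 : ∀ a, Fibp t g a) {G : MvPolynomial (Fin 2) k} {a : k}
    (hG : ∀ x : Fin 2 → ℂ, aeval x G = (a : ℂ) → ∀ i, aeval x (pderiv i G) ≠ 0) :
    Fibp (s ∪ t) (aeval ![f, g] G) a := by
  classical
  obtain ⟨T1, hT1⟩ := exists_critical f
  obtain ⟨T2, hT2⟩ := exists_critical g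
  let T : Finset (Fin 2 → k) := ((T1 ×ˢ T2).image fun z => ![z.1, z.2]).filter fun b => eval b G = a
  have hs : s ∪ t = Finset.univ.biUnion ![s, t] := by
    ext i
    simp [Fin.exists_fin_two]
  have hev : ∀ (b : Fin 2 → k) (P : MvPolynomial (Fin 2) k),
      aeval (fun i => (b i : ℂ)) P = ((eval b P : k) : ℂ) := by
    intro b P
    exact aeval_coe_eq b P
  rw [hs]
  refine Fibp.gate T (fun _ _ => 1) (fun _ => 1) (fun _ => ∅) ?_ ?_ ?_ (fun b _ i hi => absurd hi
    (by simp)) ?_ ?_ ?_ ?_
  · intro x hx hx'
    have h3 : ∀ i, ¬ Sm (![f, g] i) (x i) := fun i => (hx' i).resolve_left (hG x hx i)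
    obtain ⟨b1, hb1, e1⟩ := hT1 _ (h3 0)
    obtain ⟨b2, hb2, e2⟩ := hT2 _ (h3 1)
    have e : x = fun i => ((![b1, b2] : Fin 2 → k) i : ℂ) := by
      funext i
      fin_cases i
      · exact e1
      · exact e2
    refine ⟨![b1, b2], ?_, fun i => congrFun e i⟩
    rw [Finset.mem_filter, Finset.mem_image]
    refine ⟨⟨(b1, b2), Finset.mem_product.2 ⟨hb1, hb2⟩, rfl⟩, ?_⟩
    rw [e, hev] at hx
    exact Subtype.ext hx
  · intro b hb
    exact (Finset.mem_filter.1 hb).2
  · intro b hb
    have hba := (Finset.mem_filter.1 hb).2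
    have hp : ∀ i, eval b (pderiv i G) ≠ 0 := by
      intro i h0
      apply hG (fun i => (b i : ℂ)) (by rw [hev, hba]) i
      rw [hev, h0]
      rfl
    exact SWH.linear hba hp
  · intro i j hij
    fin_cases i <;> fin_cases j <;> first | exact absurd rfl hij | exact hd | exact hd.symm
  · intro i
    fin_cases i
    · exact hf
    · exact hg
  · intro i
    fin_cases i
    · exact (h1 0).p3.1
    · exact (h2 0).p3.1
  · intro b _ i
    fin_cases i
    · exact h1 _
    · exact h2 _

theorem Nc.mem_vars {k : Subfield ℂ} {n : ℕ} {f : MvPolynomial (Fin n) k} {i : Fin n}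
    (h : pderiv i f ≠ 0) : i ∈ f.vars := by
  by_contra h'
  exact h (pderiv_eq_zero_of_notMem_vars h')

/-- `f` is nonconstant and good at all values. -/
def AllFibp {k : Subfield ℂ} {n : ℕ} (s : Finset (Fin n)) (f : MvPolynomial (Fin n) k) : Prop :=
  Nc f ∧ ∀ a, Fibp s f a

/-- Polynomials in two variables. -/
theorem plane_mem {k : Subfield ℂ} [IsAlgClosed k] {n : ℕ} {s : Finset (Fin n)}
    {f : MvPolynomial (Fin n) k} (hs : s.card = 2) (hf : f.vars ⊆ s) (hc : Nc f) :
    AllFibp s f :=
  ⟨hc, fun a => Fibp.plane a inferInstance hs hf hc⟩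

/-- Sums in disjoint variables. -/
theorem add_mem {k : Subfield ℂ} [IsAlgClosed k] {n : ℕ} {s t : Finset (Fin n)}
    {f g : MvPolynomial (Fin n) k} (hd : Disjoint s t) (hf : AllFibp s f) (hg : AllFibp t g) :
    AllFibp (s ∪ t) (f + g) := by
  refine ⟨?_, fun a => ?_⟩
  · obtain ⟨i, hi⟩ := hf.1
    refine ⟨i, ?_⟩
    have h1 : i ∉ g.vars := fun h => Finset.disjoint_left.1 hd
      ((hf.2 0).p3.1 (Nc.mem_vars hi)) ((hg.2 0).p3.1 h)
    rw [map_add, pderiv_eq_zero_of_notMem_vars h1, add_zero]
    exact hi
  · have h := gate2 hd hf.1 hg.1 hf.2 hg.2 (G := X 0 + X 1) (a := a) (fun x _ i => by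
      fin_cases i <;> simp)
    simpa using h

/-- Products in disjoint variables. -/
theorem mul_mem {k : Subfield ℂ} [IsAlgClosed k] {n : ℕ} {s t : Finset (Fin n)}
    {f g : MvPolynomial (Fin n) k} (hd : Disjoint s t) (hf : AllFibp s f) (hg : AllFibp t g) :
    AllFibp (s ∪ t) (f * g) := by
  refine ⟨?_, fun a => ?_⟩
  · obtain ⟨i, hi⟩ := hf.1
    refine ⟨i, ?_⟩
    have h1 : i ∉ g.vars := fun h => Finset.disjoint_left.1 hd
      ((hf.2 0).p3.1 (Nc.mem_vars hi)) ((hg.2 0).p3.1 h)
    have hg0 : g ≠ 0 := by
      rintro rfl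
      obtain ⟨j, hj⟩ := hg.1
      simp at hj
    rw [Derivation.leibniz, pderiv_eq_zero_of_notMem_vars h1, smul_zero, zero_add, smul_eq_mul]
    exact mul_ne_zero hg0 hi
  · by_cases ha : a = 0
    · subst ha
      exact Fibp.mul hd hf.1 hg.1 (hf.2 0) (hg.2 0)
    · have h := gate2 hd hf.1 hg.1 hf.2 hg.2 (G := X 0 * X 1) (a := a) (fun x hx i => by
        have ha' : (a : ℂ) ≠ 0 := fun h => ha (Subtype.ext h)
        rw [map_mul, aeval_X, aeval_X] at hx
        have h0 : x 0 ≠ 0 := fun h => ha' (by rw [← hx, h, zero_mul])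
        have h1 : x 1 ≠ 0 := fun h => ha' (by rw [← hx, h, mul_zero])
        fin_cases i
        · simpa [pderiv_X_of_ne] using h1
        · simpa [pderiv_X_of_ne] using h0)
      simpa using h

theorem coeff_aeval_X {k : Subfield ℂ} (Q : Polynomial k) (e : Fin (0 + 1) →₀ ℕ) :
    coeff e (Polynomial.aeval (X 0 : MvPolynomial (Fin (0 + 1)) k) Q) = Q.coeff (e 0) := by
  classical
  have hsub : Subsingleton (Fin (0 + 1)) := inferInstanceAs (Subsingleton (Fin 1))
  induction Q using Polynomial.induction_on' with
  | add p q hp hq => rw [map_add, coeff_add, hp, hq, Polynomial.coeff_add]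
  | monomial m c =>
    rw [Polynomial.aeval_monomial, MvPolynomial.algebraMap_eq, coeff_C_mul, coeff_X_pow,
      Polynomial.coeff_monomial]
    have : (Finsupp.single (0 : Fin (0 + 1)) m = e) ↔ m = e 0 := by
      constructor
      · rintro rfl
        simp
      · intro h
        ext i
        have hi : i = 0 := Subsingleton.elim _ _
        rw [hi, h]
        simp
    by_cases h : m = e 0
    · rw [if_pos (this.2 h), if_pos h, mul_one]
    · rw [if_neg (fun h' => h (this.1 h')), if_neg h, mul_zero]

/-- Nc polynomials in one variable which are evaluated at `f`. -/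
theorem outer_mem {k : Subfield ℂ} [IsAlgClosed k] {n : ℕ} {s : Finset (Fin n)}
    {f : MvPolynomial (Fin n) k} {p : Polynomial k} (hp : 0 < p.natDegree) (hf : AllFibp s f) :
    AllFibp s (Polynomial.aeval f p) := by
  classical
  have hsub : Subsingleton (Fin (0 + 1)) := inferInstanceAs (Subsingleton (Fin 1))
  have hch : CharZero k := charZero k
  have hs : s = Finset.univ.biUnion fun _ : Fin (0 + 1) => s := by
    ext i
    simp
  let G : MvPolynomial (Fin (0 + 1)) k := Polynomial.aeval (X 0) p
  have hG : aeval (fun _ : Fin (0 + 1) => f) G = Polynomial.aeval f p := by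
    have h := Polynomial.aeval_algHom_apply (aeval (fun _ : Fin (0 + 1) => f) :
      MvPolynomial (Fin (0 + 1)) k →ₐ[k] MvPolynomial (Fin n) k) (X 0) p
    rw [aeval_X] at h
    exact h.symm
  have hGx : ∀ x : Fin (0 + 1) → ℂ, aeval x G = Polynomial.aeval (x 0) p := by
    intro x
    have h := Polynomial.aeval_algHom_apply (aeval x : MvPolynomial (Fin (0 + 1)) k →ₐ[k] ℂ) (X 0) p
    rw [aeval_X] at h
    exact h.symm
  refine ⟨?_, fun a => ?_⟩
  · -- the outer polynomial is not constant
    have htr : ∀ q : Polynomial k, q ≠ 0 → Polynomial.aeval f q ≠ 0 := by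
      intro q hq h0
      obtain ⟨c, hc⟩ : ∃ c : k, f = C c := by
        have hsp := (IsAlgClosed.splits q).eq_prod_roots
        rw [hsp, map_mul, Polynomial.aeval_C, map_multiset_prod, mul_eq_zero] at h0
        rcases h0 with h0 | h0
        · exfalso
          apply hq
          have h2 : (C q.leadingCoeff : MvPolynomial (Fin n) k) = 0 := h0
          rw [map_eq_zero_iff _ (MvPolynomial.C_injective _ _)] at h2
          exact Polynomial.leadingCoeff_eq_zero.1 h2
        · rw [Multiset.prod_eq_zero_iff, Multiset.map_map, Multiset.mem_map] at h0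
          obtain ⟨r, -, hr⟩ := h0
          refine ⟨r, ?_⟩
          simp only [Function.comp_apply, map_sub, Polynomial.aeval_X, Polynomial.aeval_C] at hr
          rw [sub_eq_zero] at hr
          exact hr
      obtain ⟨i, hi⟩ := hf.1
      rw [hc, pderiv_C] at hi
      exact hi rfl
    obtain ⟨i, hi⟩ := hf.1
    refine ⟨i, ?_⟩
    have h1 : pderiv i (Polynomial.aeval f p) =
        Polynomial.aeval f (Polynomial.derivative p) * pderiv i f := by
      rw [Derivation.map_aeval, smul_eq_mul]
    rw [h1]
    refine mul_ne_zero (htr _ ?_) hi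
    intro h0
    have := Polynomial.derivative_eq_zero.1 h0
    omega
  · have hpa : p - Polynomial.C a ≠ 0 := by
      intro h
      rw [sub_eq_zero] at h
      rw [h, Polynomial.natDegree_C] at hp
      exact lt_irrefl _ hp
    let T : Finset (Fin (0 + 1) → k) := (p - Polynomial.C a).roots.toFinset.image fun z => fun _ => z
    let Q : (Fin (0 + 1) → k) → Polynomial k := fun b => Polynomial.taylor (b 0) (p - Polynomial.C a)
    have hT : ∀ b ∈ T, (p - Polynomial.C a).eval (b 0) = 0 := by
      intro b hb
      obtain ⟨z, hz, rfl⟩ := Finset.mem_image.1 hb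
      rw [Multiset.mem_toFinset, Polynomial.mem_roots hpa] at hz
      exact hz
    have h := Fibp.gate (s := fun _ : Fin (0 + 1) => s) (f := fun _ => f)
      (G := G) (a := a) T (fun _ _ => 1) (fun b => (Q b).natTrailingDegree) (fun _ => ∅)
      ?_ ?_ ?_ (fun b _ i hi => absurd hi (by simp))
      (fun i j hij => absurd (Subsingleton.elim i j) hij) (fun _ => hf.1)
      (fun _ => (hf.2 0).p3.1) (fun b _ i => hf.2 _)
    · rw [← hs, hG] at h
      exact h
    · intro x hx _
      rw [hGx] at hx
      have hx2 : Polynomial.aeval (x 0) (p - Polynomial.C a) = 0 := by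
        rw [map_sub, hx, Polynomial.aeval_C, sub_eq_zero]
      obtain ⟨z, hz, hz'⟩ : ∃ z ∈ (p - Polynomial.C a).roots, x 0 = (z : ℂ) := by
        have hsp := (IsAlgClosed.splits (p - Polynomial.C a)).eq_prod_roots
        rw [hsp, map_mul, Polynomial.aeval_C, map_multiset_prod, mul_eq_zero] at hx2
        rcases hx2 with h0 | h0
        · exfalso
          apply hpa
          rw [map_eq_zero] at h0
          exact Polynomial.leadingCoeff_eq_zero.1 h0
        · rw [Multiset.prod_eq_zero_iff, Multiset.map_map, Multiset.mem_map] at h0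
          obtain ⟨r, hr1, hr⟩ := h0
          refine ⟨r, hr1, ?_⟩
          simp only [Function.comp_apply, map_sub, Polynomial.aeval_X, Polynomial.aeval_C] at hr
          rw [sub_eq_zero] at hr
          exact hr
      refine ⟨fun _ => z, Finset.mem_image.2 ⟨z, Multiset.mem_toFinset.2 hz, rfl⟩, fun i => ?_⟩
      have hi : i = 0 := Subsingleton.elim _ _
      rw [hi]
      exact hz'
    · intro b hb
      have h1 : eval b G = p.eval (b 0) := by
        have h := Polynomial.aeval_algHom_apply (aeval b : MvPolynomial (Fin (0 + 1)) k →ₐ[k] k)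
          (X 0) p
        rw [aeval_X] at h
        rw [← MvPolynomial.coe_aeval_eq_eval]
        exact h.symm
      have h2 := hT b hb
      rw [Polynomial.eval_sub, Polynomial.eval_C, sub_eq_zero] at h2
      rw [h1, h2]
    · intro b hb
      have hQ0 : Q b ≠ 0 := by
        intro h
        exact hpa ((Polynomial.taylor_eq_zero _ _).1 h)
      have hm : 0 < (Q b).natTrailingDegree := by
        rw [Nat.pos_iff_ne_zero]
        intro h
        rcases Polynomial.natTrailingDegree_eq_zero.1 h with h | h
        · exact hQ0 h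
        · apply h
          rw [Polynomial.taylor_coeff_zero]
          exact hT b hb
      set m := (Q b).natTrailingDegree with hmd
      have hc : (Q b).coeff m ≠ 0 := by
        have := Polynomial.trailingCoeff_nonzero_iff_nonzero.2 hQ0
        exact this
      have hshift : aeval (fun i => X i + C (b i)) G - C a =
          Polynomial.aeval (X 0 : MvPolynomial (Fin (0 + 1)) k) (Q b) := by
        have h := Polynomial.aeval_algHom_apply (aeval (fun i => X i + C (b i)) :
          MvPolynomial (Fin (0 + 1)) k →ₐ[k] MvPolynomial (Fin (0 + 1)) k) (X 0) p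
        rw [aeval_X] at h
        show aeval (fun i => X i + C (b i)) (Polynomial.aeval (X 0) p) - C a = _
        rw [← h]
        simp only [Q, Polynomial.taylor_apply, Polynomial.aeval_comp, map_sub, map_add,
          Polynomial.aeval_X, Polynomial.aeval_C, MvPolynomial.algebraMap_eq]
      have hw : ∀ e : Fin (0 + 1) →₀ ℕ, Finsupp.weight (fun _ : Fin (0 + 1) => 1) e = e 0 := by
        intro e
        rw [Finsupp.weight_apply, Finsupp.sum_fintype _ _ (by simp)]
        have : (Finset.univ : Finset (Fin (0 + 1))) = {0} := by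
          ext i
          simp [Subsingleton.elim i 0]
        rw [this, Finset.sum_singleton]
        simp
      refine ⟨hm, fun _ => ⟨one_pos, hm⟩, C ((Q b).coeff m) * X 0 ^ m,
        Polynomial.aeval (X 0) (Q b - Polynomial.monomial m ((Q b).coeff m)), ?_, ?_, ?_, ?_⟩
      · show aeval (fun i => X i + C (b i)) G - C a = _
        rw [hshift, map_sub, Polynomial.aeval_monomial, MvPolynomial.algebraMap_eq]
        ring
      · have := ((isWeightedHomogeneous_X k (fun _ : Fin (0 + 1) => 1) 0).pow m).C_mul
          ((Q b).coeff m)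
        simpa using this
      · intro e he
        rw [coeff_aeval_X, Polynomial.coeff_sub, Polynomial.coeff_monomial] at he
        rw [hw]
        by_contra hlt
        push Not at hlt
        apply he
        rcases Nat.lt_or_ge (e 0) m with h | h
        · rw [Polynomial.coeff_eq_zero_of_lt_natTrailingDegree h, if_neg (by omega), sub_zero]
        · have : e 0 = m := by omega
          rw [this, if_pos rfl, sub_self]
      · intro x _ hx
        funext i
        have hi : i = 0 := Subsingleton.elim _ _
        have h2 := hx 0 (by simp)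
        rw [Derivation.leibniz, pderiv_C, Derivation.leibniz_pow, pderiv_X_self] at h2
        simp only [smul_eq_mul, nsmul_eq_mul, map_mul, map_pow, map_natCast, aeval_X, mul_one,
          mul_zero, add_zero, aeval_C] at h2
        rw [hi]
        rcases mul_eq_zero.1 h2 with h | h
        · exact h
        · rcases mul_eq_zero.1 h with h | h
          · exact absurd ((map_eq_zero _).1 h) hc
          · by_contra h3
            rcases mul_eq_zero.1 h with h | h
            · exact hm.ne' (by exact_mod_cast h)
            · exact pow_ne_zero _ h3 h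


end CLO

end Pool.Agent.H75.Mono
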