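import Pool.Agent.H75.Fib.DIF
import Pool.Agent.H75.Fib.EQV
import Pool.Agent.H75.Mono.BP

/-! # Project PLC (plane curves as base objects, MP_432c1b_ag): definitions

The coordinates are `X = X 0` and `Y = X 1`. -/

set_option autoImplicit false

namespace Pool.Agent.H75.Mono

open MvPolynomial Pool.Agent.H39.MonoR

/-- power series in two variables -/
abbrev PS (k : Type) [Field k] := MvPowerSeries (Fin 2) k

section P0

variable {k : Type} [Field k]

/-- the exponent of `X^i Y^j` -/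
noncomputable def ix (i j : ℕ) : Fin 2 →₀ ℕ := Finsupp.single 0 i + Finsupp.single 1 j

/-- the coefficient of `X^i Y^j` -/
noncomputable def cf (G : PS k) (i j : ℕ) : k := MvPowerSeries.coeff (ix i j) G

/-- truncation: a polynomial which agrees with `G` up to total degree `d` -/
noncomputable def tp (d : ℕ) (G : PS k) : MvPolynomial (Fin 2) k :=
  ∑ i ∈ Finset.range (d + 1), ∑ j ∈ Finset.range (d + 1), monomial (ix i j) (cf G i j)

/-- `(a, b)` is the initial exponent for all weights slightly beyond the ray `(p, q)` -/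
def Vtx (G : PS k) (p q a b : ℕ) : Prop :=
  cf G a b ≠ 0 ∧ ∀ i j, cf G i j ≠ 0 → a * p + b * q ≤ i * p + j * q ∧
    (i * p + j * q = a * p + b * q → b ≤ j)

/-- the points of the support of minimal weight for the weights `(p, q)` are
`(a + q n, b - p n)`, `0 ≤ n ≤ E`, and the first and the last of them belong to the support -/
structure Edge (G : PS k) (a b p q E : ℕ) : Prop where
  p0 : 0 < p
  q0 : 0 < q
  cop : Nat.Coprime p q
  e0 : 0 < E
  eb : p * E ≤ b
  top : cf G a b ≠ 0
  bot : cf G (a + q * E) (b - p * E) ≠ 0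
  wt : ∀ i j, cf G i j ≠ 0 → a * p + b * q ≤ i * p + j * q
  lin : ∀ i j, cf G i j ≠ 0 → i * p + j * q = a * p + b * q → b - p * E ≤ j ∧ j ≤ b

/-- the polynomial of an edge: `∑_n c_n z^(E-n)`, `c_n` the coefficient at `(a + q n, b - p n)` -/
noncomputable def edp (G : PS k) (a b p q E : ℕ) : Polynomial k :=
  ∑ n ∈ Finset.range (E + 1), Polynomial.C (cf G (a + q * n) (b - p * n)) *
    Polynomial.X ^ (E - n)

open Classical in
/-- the set of roots -/
noncomputable def rts (Q : Polynomial k) : Finset k := Q.roots.toFinset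

/-- the substitution `X ↦ X`, `Y ↦ Y + h(X)` -/
noncomputable def shv (h : PowerSeries k) : Fin 2 → PS k :=
  ![MvPowerSeries.X 0, MvPowerSeries.X 1 + PowerSeries.subst (MvPowerSeries.X 0 : PS k) h]

/-- `G(X, Y + h(X))` -/
noncomputable def shr (h : PowerSeries k) (G : PS k) : PS k := MvPowerSeries.subst (shv h) G

/-- `G(Y, X)` -/
noncomputable def swp (G : PS k) : PS k :=
  MvPowerSeries.subst (![MvPowerSeries.X 1, MvPowerSeries.X 0] : Fin 2 → PS k) G

/-- division by `X^c` (the coefficients at `X^i`, `i < c`, are dropped) -/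
noncomputable def dvX (c : ℕ) (G : PS k) : PS k :=
  fun n => MvPowerSeries.coeff (n + Finsupp.single 0 c) G

/-- the substitution `X ↦ X^p (μ + Y)^r`, `Y ↦ X^q (μ + Y)^s` -/
noncomputable def tov (p q r s : ℕ) (μ : k) : Fin 2 → PS k :=
  ![MvPowerSeries.X 0 ^ p * (MvPowerSeries.C μ + MvPowerSeries.X 1) ^ r,
    MvPowerSeries.X 0 ^ q * (MvPowerSeries.C μ + MvPowerSeries.X 1) ^ s]

/-- the transform at the point `μ` of the divisor with weights `(p, q)`:
`X^N G` becomes `X^(N p + c) chd` -/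
noncomputable def chd (N p q c r s : ℕ) (μ : k) (G : PS k) : PS k :=
  dvX c ((MvPowerSeries.C μ + MvPowerSeries.X 1) ^ (r * N) *
    MvPowerSeries.subst (tov p q r s μ) G)

/-- a chart at `P`: `(x_0, x_1)` power series with `F(x) = X^N G` and Jacobian
`X^(ν-1) j`, `j(0) ≠ 0` -/
def Cht (F : MvPolynomial (Fin 2) k) (P : Fin 2 → k) (N ν : ℕ) (G : PS k) : Prop :=
  ∃ (x : Fin 2 → PS k) (j : PS k), (∀ i, MvPowerSeries.constantCoeff (x i) = P i) ∧
    aeval x F = MvPowerSeries.X 0 ^ N * G ∧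
    MvPowerSeries.pderiv k 0 (x 0) * MvPowerSeries.pderiv k 1 (x 1) -
      MvPowerSeries.pderiv k 1 (x 0) * MvPowerSeries.pderiv k 0 (x 1) =
        MvPowerSeries.X 0 ^ (ν - 1) * j ∧ MvPowerSeries.constantCoeff j ≠ 0

/-- the Taylor expansion of `F` at `P` -/
noncomputable def tay (F : MvPolynomial (Fin 2) k) (P : Fin 2 → k) : PS k :=
  ((aeval (fun i => X i + C (P i)) F : MvPolynomial (Fin 2) k) : PS k)

/-- a derivation of `K` applied to the coefficients -/
noncomputable def cdr {K : Type} [Field K] [Algebra k K] (δ : Derivation k K K) :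
    Derivation k (PowerSeries K) (PowerSeries K) :=
  Derivation.mk'
    { toFun := fun f => PowerSeries.mk fun n => δ (PowerSeries.coeff n f)
      map_add' := fun f g => by
        ext n
        simp only [PowerSeries.coeff_mk, map_add]
      map_smul' := fun c f => by
        ext n
        simp only [PowerSeries.coeff_mk, PowerSeries.coeff_smul, RingHom.id_apply,
          Derivation.map_smul] }
    (fun f g => by
      ext n
      simp only [LinearMap.coe_mk, AddHom.coe_mk, PowerSeries.coeff_mk, PowerSeries.coeff_mul,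
        map_sum, Derivation.leibniz, smul_eq_mul, map_add, Finset.sum_add_distrib]
      congr 1
      rw [← Finset.Nat.sum_antidiagonal_swap]
      rfl)

theorem coeff_cdr {K : Type} [Field K] [Algebra k K] (δ : Derivation k K K) (f : PowerSeries K)
    (n : ℕ) : PowerSeries.coeff n (cdr δ f) = δ (PowerSeries.coeff n f) := by
  show PowerSeries.coeff n (PowerSeries.mk fun n => δ (PowerSeries.coeff n f)) = _
  rw [PowerSeries.coeff_mk]

variable [Algebra k ℂ]

/-- `G(x, y)` for power series `x, y` without constant term -/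
noncomputable def ev (G : PS k) (x y : PowerSeries ℂ) : PowerSeries ℂ :=
  MvPowerSeries.subst (![x, y] : Fin 2 → MvPowerSeries Unit ℂ) G

/-- `φ_i` has order `n` -/
def ordc {N : ℕ} (φ : Fin 2 × Fin N → ℂ) (i : Fin 2) (n : ℕ) : Prop :=
  (∀ l : Fin N, (l : ℕ) < n → φ (i, l) = 0) ∧ ∃ h : n < N, φ (i, ⟨n, h⟩) ≠ 0

/-- `ord X = m` and `ord Y > q m / p` -/
def rgn {N : ℕ} (p q m : ℕ) (φ : Fin 2 × Fin N → ℂ) : Prop :=
  ordc φ 0 m ∧ ∀ l : Fin N, (l : ℕ) * p ≤ q * m → φ (1, l) = 0

/-- the arcs in the region with `X^N G = c t^d` -/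
noncomputable def dm (N : ℕ) (G : PS k) (p q m d : ℕ) (t : Test k) : M k :=
  mo k {x : (Fin 2 × Fin (d + 1) → ℂ) × t.E | x.2 ∈ t.W ∧ rgn p q m x.1 ∧
    Hit (X 0 ^ N * tp d G) d x.1 (t.c x.2)}

/-- the contribution of the region beyond the ray `(p, q)`, where the initial exponent is `(a, b)` -/
noncomputable def bey (N ν : ℕ) (G : PS k) (p q a b d : ℕ) (t : Test k) : M k :=
  ∑ m ∈ (Finset.Icc 1 d).filter (fun m => ((N + a) * p + b * q) * m < p * d),
    ↑(Lu k ^ (-(((ν : ℤ) - 1) * m + 2 * d))) * (dm N G p q m d t - dm N G p q m d t.zr)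

/-- the arcs on the ray, at the root `μ` of the edge polynomial -/
noncomputable def rpt (N : ℕ) (G : PS k) (p q : ℕ) (μ : k) (m d : ℕ) (t : Test k) : M k :=
  mo k {x : (Fin 2 × Fin (d + 1) → ℂ) × t.E | x.2 ∈ t.W ∧ ordc x.1 0 (p * m) ∧
    ordc x.1 1 (q * m) ∧ (∀ (h : p * m < d + 1) (h' : q * m < d + 1),
      x.1 (1, ⟨q * m, h'⟩) ^ p = algebraMap k ℂ μ * x.1 (0, ⟨p * m, h⟩) ^ q) ∧
    Hit (X 0 ^ N * tp d G) d x.1 (t.c x.2)}

/-- the classes of `{(α, β) : α ≠ 0, P(α, β) = c}`, as a difference -/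
noncomputable def Del (P : MvPolynomial (Fin 2) k) (t : Test k) : M k :=
  mo k {x : (Fin 2 → ℂ) × t.E | x.2 ∈ t.W ∧ x.1 0 ≠ 0 ∧ aeval x.1 P = t.c x.2} -
  mo k {x : (Fin 2 → ℂ) × t.E | x.2 ∈ t.W ∧ x.1 0 ≠ 0 ∧ aeval x.1 P = 0}

/-- the classes of `{(α, β) : P(α, β) = c}`, as a difference -/
noncomputable def Dlt (P : MvPolynomial (Fin 2) k) (t : Test k) : M k :=
  mo k {x : (Fin 2 → ℂ) × t.E | x.2 ∈ t.W ∧ aeval x.1 P = t.c x.2} -
  mo k {x : (Fin 2 → ℂ) × t.E | x.2 ∈ t.W ∧ aeval x.1 P = 0}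

/-- the leading form at the top level, in the cone between the vertex and the edge `(p, q)`,
`x = d - (N + a) m` -/
noncomputable def ldf (N : ℕ) (G : PS k) (a b p q E m x : ℕ) : MvPolynomial (Fin 2) k :=
  if p * x = b * q * m then
    X 0 ^ N * ∑ n ∈ Finset.range (E + 1), if b ∣ x ∨ b = p * n then
      monomial (ix (a + q * n) (b - p * n)) (cf G (a + q * n) (b - p * n)) else 0
  else if b ∣ x then monomial (ix (N + a) b) (cf G a b) else 0

/-- the contribution of the cone between the rays `(p, q)` and `(p', q')` -/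
noncomputable def cne (N ν : ℕ) (G : PS k) (p q a b p' q' E d : ℕ) (t : Test k) : M k :=
  ∑ m ∈ (Finset.Icc 1 d).filter (fun m => ((N + a) * p + b * q) * m < p * d ∧
      p' * d ≤ ((N + a) * p' + b * q') * m),
    ↑(Lu k ^ (-((ν : ℤ) * m + ((d - (N + a) * m + b - 1) / b : ℕ)))) *
      Del (ldf N G a b p' q' E m (d - (N + a) * m)) t

/-- the contribution of the cone between the rays `(p, q)` and `(0, 1)` -/
noncomputable def cnd (N ν : ℕ) (G : PS k) (p q a b d : ℕ) (t : Test k) : M k :=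
  ∑ m ∈ (Finset.Icc 1 d).filter (fun m => ((N + a) * p + b * q) * m < p * d),
    ↑(Lu k ^ (-((ν : ℤ) * m + ((d - (N + a) * m + b - 1) / b : ℕ)))) *
      Del (if b ∣ d - (N + a) * m then monomial (ix (N + a) b) (cf G a b) else 0) t

/-- the arcs with origin `0` and `G = c t^d` -/
noncomputable def loc (G : PS k) (d : ℕ) (t : Test k) : M k :=
  mo k {x : (Fin 2 × Fin (d + 1) → ℂ) × t.E | x.2 ∈ t.W ∧ org x.1 = 0 ∧
    Hit (tp d G) d x.1 (t.c x.2)} * ↑(Lu k ^ (-((2 * d : ℕ) : ℤ)))

/-- the leading form at the top level for the weights `(p, q)` of the first edge -/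
noncomputable def ltf (G : PS k) (a b p q E d : ℕ) : MvPolynomial (Fin 2) k :=
  ∑ n ∈ Finset.range (E + 1),
    if (a * p + b * q ∣ d * p ∨ a + q * n = 0) ∧ (a * p + b * q ∣ d * q ∨ b = p * n) then
      monomial (ix (a + q * n) (b - p * n)) (cf G (a + q * n) (b - p * n)) else 0

/-- the contribution of the top level for the weights `(p, q)` of the first edge -/
noncomputable def tpw (G : PS k) (a b p q E d : ℕ) (t : Test k) : M k :=
  ↑(Lu k ^ (-(((d * p + (a * p + b * q) - 1) / (a * p + b * q) +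
    (d * q + (a * p + b * q) - 1) / (a * p + b * q) : ℕ) : ℤ))) * Dlt (ltf G a b p q E d) t

/-- a finite set of pairs all of which give roots -/
def Gds (F : MvPolynomial (Fin 2) k) (S : Finset (ℤ × ℕ)) : Prop :=
  ∀ p ∈ S, p.1 < 0 ∧ 0 < p.2 ∧ SRs k F (-(p.1 : ℚ) / p.2)

end P0

end Pool.Agent.H75.Mono
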