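import Pool.Agent.H75.Plc.CN1
import Pool.Agent.H75.Plc.P0

/-! # PLC, module CN2: the cones are rational -/

set_option autoImplicit false

namespace Pool.Agent.H75.Mono

open MvPolynomial Pool.Agent.H39.MonoR

section CN2

theorem cn2_lin2 {R : Type*} [CommRing R] (s : Finset ℕ) (c1 c2 : R) (f1 f2 g : ℕ → R)
    (h : ∀ m ∈ s, c1 * f1 m + c2 * f2 m = g m) :
    c1 * ∑ m ∈ s, f1 m + c2 * ∑ m ∈ s, f2 m = ∑ m ∈ s, g m := by
  rw [Finset.mul_sum, Finset.mul_sum, ← Finset.sum_add_distrib]
  exact Finset.sum_congr rfl h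

theorem cn2_lin4 {R : Type*} [CommRing R] (s s' : Finset ℕ) (on : ℕ → Prop)
    (c1 c2 c3 c4 : R) (f1 f2 g : ℕ → R) (hs : ∀ m, m ∈ s' ↔ m ∈ s ∧ ¬ on m)
    (h1 : ∀ m ∈ s, on m → c1 * f1 m + c3 * f2 m = g m)
    (h2 : ∀ m ∈ s, ¬ on m → c2 * f1 m + c4 * f2 m = g m) :
    c1 * ∑ m ∈ s, f1 m - c1 * ∑ m ∈ s', f1 m + c2 * ∑ m ∈ s', f1 m +
      (c3 * ∑ m ∈ s, f2 m - c3 * ∑ m ∈ s', f2 m + c4 * ∑ m ∈ s', f2 m) = ∑ m ∈ s, g m := by
  classical
  have e : ∀ f : ℕ → R, ∑ m ∈ s', f m = ∑ m ∈ s, if on m then 0 else f m := by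
    intro f
    have h3 : s' = s.filter (fun m => ¬ on m) := by
      ext m
      rw [hs, Finset.mem_filter]
    rw [h3, Finset.sum_filter]
    refine Finset.sum_congr rfl (fun m _ => ?_)
    by_cases h4 : on m
    · rw [if_neg (fun h => h h4), if_pos h4]
    · rw [if_pos h4, if_neg h4]
  rw [e, e]
  simp only [Finset.mul_sum]
  rw [← Finset.sum_sub_distrib, ← Finset.sum_sub_distrib, ← Finset.sum_add_distrib,
    ← Finset.sum_add_distrib, ← Finset.sum_add_distrib]
  refine Finset.sum_congr rfl (fun m hm => ?_)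
  by_cases h4 : on m
  · rw [if_pos h4, if_pos h4, ← h1 m hm h4]
    ring
  · rw [if_neg h4, if_neg h4, ← h2 m hm h4]
    ring

theorem cn2_r1 {R : Type*} [CommRing R] (a b w : R) : a * w + b * 0 = w * a := by ring

theorem cn2_r2 {R : Type*} [CommRing R] (a b w : R) : a * 0 + b * w = w * b := by ring

variable {k : Type} [Field k] [Algebra k ℂ] {N ν a b p q p' q' E : ℕ} {G : PS k}

/-- the weight of the point `(m, x)`, for `b ∣ x` or for `¬ b ∣ x` -/
noncomputable def cn2f (k : Type) [Field k] [Algebra k ℂ] (ν b : ℕ) (dv : Prop) (m x : ℕ) : M k := by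
  classical
  exact if (b ∣ x ↔ dv) then ↑(Lu k ^ (-((ν : ℤ) * m + ((x + b - 1) / b : ℕ)))) else 0

theorem cn2f_eq (dv : Prop) (m x : ℕ) (h : b ∣ x ↔ dv) :
    cn2f k ν b dv m x = ↑(Lu k ^ (-((ν : ℤ) * m + ((x + b - 1) / b : ℕ)))) := by
  classical
  unfold cn2f
  rw [if_pos h]

theorem cn2f_ne (dv : Prop) (m x : ℕ) (h : ¬ (b ∣ x ↔ dv)) : cn2f k ν b dv m x = 0 := by
  classical
  unfold cn2f
  rw [if_neg h]

theorem cn2f_shift (hb : 0 < b) (dv : Prop) (P Q : ℕ) (m x : ℕ) :
    cn2f k ν b dv (m + P) (x + b * Q) =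
      ↑(Lu k ^ (-((ν * P + Q : ℕ) : ℤ))) * cn2f k ν b dv m x := by
  classical
  have hdv : b ∣ x + b * Q ↔ b ∣ x := by
    rw [Nat.dvd_add_left (Dvd.intro _ rfl)]
  have hceil : (x + b * Q + b - 1) / b = (x + b - 1) / b + Q := by
    have e1 : x + b * Q + b - 1 = x + b - 1 + b * Q := by omega
    rw [e1, Nat.add_mul_div_left _ _ hb]
  by_cases h : b ∣ x ↔ dv
  · rw [cn2f_eq dv _ _ (hdv.trans h), cn2f_eq dv _ _ h, hceil, ← Units.val_mul, ← zpow_add]
    congr 2
    push_cast
    ring
  · rw [cn2f_ne dv _ _ (fun h' => h (hdv.symm.trans h')), cn2f_ne dv _ _ h, mul_zero]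

theorem cn2_cone (hb : 0 < b) {n P Q P' Q' θ : ℕ} (hn : 0 < n)
    (hdet : b * Q * P' < P * (b * Q')) (dv : Prop) (c : Test k → M k) :
    RatF (Lu k) {(-((ν * P + Q : ℕ) : ℤ), n * P + b * Q), (-((ν * P' + Q' : ℕ) : ℤ), n * P' + b * Q')}
      (fun t : Test k => PowerSeries.mk fun d =>
        c t * ∑ m ∈ (Finset.range (d + 1)).filter (fun m => n * m ≤ d ∧
          b * Q * m < P * (d - n * m) ∧ P' * (d - n * m) + θ ≤ b * Q' * m),
            cn2f k ν b dv m (d - n * m)) :=
  RatF.cone hn hdet (cn2f_shift hb dv P Q) (cn2f_shift hb dv P' Q') c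

theorem cnd_rat (hp : 0 < p) (hb : 0 < b) (hN : 1 ≤ N + a) :
    RatF (Lu k) {(-((ν * p + q : ℕ) : ℤ), (N + a) * p + b * q), (-1, b)}
      (fun t : Test k => PowerSeries.mk fun d => cnd N ν G p q a b d t) := by
  classical
  have hdet : b * q * 0 < p * (b * 1) := by
    rw [mul_zero, mul_one]
    exact Nat.mul_pos hp hb
  have h1 := cn2_cone (k := k) (ν := ν) (P := p) (Q := q) (P' := 0) (Q' := 1) (θ := 1) hb
    (n := N + a) (by omega) hdet True
    (fun t => Del (monomial (ix (N + a) b) (cf G a b)) t)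
  have h2 := cn2_cone (k := k) (ν := ν) (P := p) (Q := q) (P' := 0) (Q' := 1) (θ := 1) hb
    (n := N + a) (by omega) hdet False (fun t => Del (0 : MvPolynomial (Fin 2) k) t)
  have h3 := h1.add h2
  rw [Set.union_self] at h3
  have hS : ({(-((ν * p + q : ℕ) : ℤ), (N + a) * p + b * q),
      (-((ν * 0 + 1 : ℕ) : ℤ), (N + a) * 0 + b * 1)} : Set (ℤ × ℕ)) =
      {(-((ν * p + q : ℕ) : ℤ), (N + a) * p + b * q), (-1, b)} := by
    norm_num
  rw [hS] at h3
  refine h3.congr fun t => ?_
  ext d
  rw [map_add, PowerSeries.coeff_mk, PowerSeries.coeff_mk, PowerSeries.coeff_mk]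
  unfold cnd
  have hset : (Finset.Icc 1 d).filter (fun m => ((N + a) * p + b * q) * m < p * d) =
      (Finset.range (d + 1)).filter (fun m => (N + a) * m ≤ d ∧
        b * q * m < p * (d - (N + a) * m) ∧ 0 * (d - (N + a) * m) + 1 ≤ b * 1 * m) := by
    ext m
    rw [Finset.mem_filter, Finset.mem_filter, Finset.mem_Icc, Finset.mem_range]
    constructor
    · rintro ⟨⟨hm1, hm2⟩, h⟩
      have hle : (N + a) * m ≤ d := by
        by_contra hcon
        rw [not_le] at hcon
        have : p * d < p * ((N + a) * m) := Nat.mul_lt_mul_of_pos_left hcon hp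
        have e1 : ((N + a) * p + b * q) * m = p * ((N + a) * m) + b * q * m := by ring
        omega
      obtain ⟨x, hx⟩ := Nat.exists_eq_add_of_le hle
      have hx' : d - (N + a) * m = x := by omega
      refine ⟨by omega, hle, ?_, ?_⟩
      · rw [hx']
        rw [hx] at h
        have e1 : ((N + a) * p + b * q) * m = p * ((N + a) * m) + b * q * m := by ring
        have e2 : p * ((N + a) * m + x) = p * ((N + a) * m) + p * x := by ring
        omega
      · have : 1 ≤ b * m := Nat.mul_pos hb hm1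
        simpa using this
    · rintro ⟨h1, hle, h2, h3⟩
      obtain ⟨x, hx⟩ := Nat.exists_eq_add_of_le hle
      have hx' : d - (N + a) * m = x := by omega
      rw [hx'] at h2
      have hm1 : 1 ≤ m := by
        rcases Nat.eq_zero_or_pos m with h | h
        · rw [h] at h3
          simp at h3
        · exact h
      refine ⟨⟨hm1, by omega⟩, ?_⟩
      rw [hx]
      have e1 : ((N + a) * p + b * q) * m = p * ((N + a) * m) + b * q * m := by ring
      have e2 : p * ((N + a) * m + x) = p * ((N + a) * m) + p * x := by ring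
      omega
  rw [hset]
  refine cn2_lin2 _ _ _ _ _ _ (fun m _ => ?_)
  by_cases h : b ∣ d - (N + a) * m
  · rw [cn2f_eq True _ _ (by simpa using h), cn2f_ne False _ _ (by simpa using h), if_pos h]
    exact cn2_r1 _ _ _
  · rw [cn2f_ne True _ _ (by simpa using h), cn2f_eq False _ _ (by simpa using h), if_neg h]
    exact cn2_r2 _ _ _

/-- the four leading forms -/
noncomputable def cn2P (N : ℕ) (G : PS k) (a b p q E : ℕ) (dv on : Prop) :
    MvPolynomial (Fin 2) k := by
  classical
  exact if on then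
    X 0 ^ N * ∑ n ∈ Finset.range (E + 1), if dv ∨ b = p * n then
      monomial (ix (a + q * n) (b - p * n)) (cf G (a + q * n) (b - p * n)) else 0
  else if dv then monomial (ix (N + a) b) (cf G a b) else 0

theorem ldf_eq (m x : ℕ) (dv on : Prop) (h1 : b ∣ x ↔ dv) (h2 : p * x = b * q * m ↔ on) :
    ldf N G a b p q E m x = cn2P N G a b p q E dv on := by
  classical
  unfold ldf cn2P
  by_cases ho : on
  · rw [if_pos (h2.2 ho), if_pos ho]
    congr 1
    refine Finset.sum_congr rfl (fun n _ => ?_)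
    by_cases h3 : dv ∨ b = p * n
    · rw [if_pos h3, if_pos (by rwa [h1])]
    · rw [if_neg h3, if_neg (by rwa [h1])]
  · rw [if_neg (fun h => ho (h2.1 h)), if_neg ho]
    by_cases hd : dv
    · rw [if_pos hd, if_pos (h1.2 hd)]
    · rw [if_neg hd, if_neg (fun h => hd (h1.1 h))]

theorem cne_rat (hp : 0 < p) (hp' : 0 < p') (hb : 0 < b) (hκ : q * p' < q' * p)
    (hN : 1 ≤ N + a) :
    RatF (Lu k) {(-((ν * p + q : ℕ) : ℤ), (N + a) * p + b * q),
      (-((ν * p' + q' : ℕ) : ℤ), (N + a) * p' + b * q')}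
      (fun t : Test k => PowerSeries.mk fun d => cne N ν G p q a b p' q' E d t) := by
  classical
  have hdet : b * q * p' < p * (b * q') := by
    have h1 : b * (q * p') < b * (q' * p) := Nat.mul_lt_mul_of_pos_left hκ hb
    have e1 : b * q * p' = b * (q * p') := by ring
    have e2 : p * (b * q') = b * (q' * p) := by ring
    omega
  have hn : 0 < N + a := by omega
  -- θ = 0, 1; dv = True, False; on = True (difference), False (θ = 1)
  have A0 := fun (dv : Prop) => cn2_cone (k := k) (ν := ν) (P := p) (Q := q) (P' := p') (Q' := q')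
    (θ := 0) hb hn hdet dv (fun t => Del (cn2P N G a b p' q' E dv True) t)
  have A1 := fun (dv : Prop) => cn2_cone (k := k) (ν := ν) (P := p) (Q := q) (P' := p') (Q' := q')
    (θ := 1) hb hn hdet dv (fun t => Del (cn2P N G a b p' q' E dv True) t)
  have B1 := fun (dv : Prop) => cn2_cone (k := k) (ν := ν) (P := p) (Q := q) (P' := p') (Q' := q')
    (θ := 1) hb hn hdet dv (fun t => Del (cn2P N G a b p' q' E dv False) t)
  have h1 := (((A0 True).sub (A1 True)).add (B1 True)).add (((A0 False).sub (A1 False)).add (B1 False))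
  simp only [Set.union_self] at h1
  refine h1.congr fun t => ?_
  ext d
  simp only [map_add, map_sub, PowerSeries.coeff_mk]
  unfold cne
  have hset : (Finset.Icc 1 d).filter (fun m => ((N + a) * p + b * q) * m < p * d ∧
      p' * d ≤ ((N + a) * p' + b * q') * m) =
      (Finset.range (d + 1)).filter (fun m => (N + a) * m ≤ d ∧
        b * q * m < p * (d - (N + a) * m) ∧ p' * (d - (N + a) * m) + 0 ≤ b * q' * m) := by
    ext m
    rw [Finset.mem_filter, Finset.mem_filter, Finset.mem_Icc, Finset.mem_range]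
    constructor
    · rintro ⟨⟨hm1, hm2⟩, h, h'⟩
      have hle : (N + a) * m ≤ d := by
        by_contra hcon
        rw [not_le] at hcon
        have : p * d < p * ((N + a) * m) := Nat.mul_lt_mul_of_pos_left hcon hp
        have e1 : ((N + a) * p + b * q) * m = p * ((N + a) * m) + b * q * m := by ring
        omega
      obtain ⟨x, hx⟩ := Nat.exists_eq_add_of_le hle
      have hx' : d - (N + a) * m = x := by omega
      refine ⟨by omega, hle, ?_, ?_⟩
      · rw [hx']
        rw [hx] at h
        have e1 : ((N + a) * p + b * q) * m = p * ((N + a) * m) + b * q * m := by ring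
        have e2 : p * ((N + a) * m + x) = p * ((N + a) * m) + p * x := by ring
        omega
      · rw [hx']
        rw [hx] at h'
        have e1 : ((N + a) * p' + b * q') * m = p' * ((N + a) * m) + b * q' * m := by ring
        have e2 : p' * ((N + a) * m + x) = p' * ((N + a) * m) + p' * x := by ring
        omega
    · rintro ⟨h1, hle, h2, h3⟩
      obtain ⟨x, hx⟩ := Nat.exists_eq_add_of_le hle
      have hx' : d - (N + a) * m = x := by omega
      rw [hx'] at h2 h3
      have hm1 : 1 ≤ m := by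
        rcases Nat.eq_zero_or_pos m with h | h
        · exfalso
          rw [h] at h3 h2
          simp only [mul_zero, add_zero, Nat.le_zero, mul_eq_zero] at h3
          rcases h3 with h3 | h3
          · omega
          · rw [h3] at h2
            simp at h2
        · exact h
      refine ⟨⟨hm1, by omega⟩, ?_, ?_⟩
      · rw [hx]
        have e1 : ((N + a) * p + b * q) * m = p * ((N + a) * m) + b * q * m := by ring
        have e2 : p * ((N + a) * m + x) = p * ((N + a) * m) + p * x := by ring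
        omega
      · rw [hx]
        have e1 : ((N + a) * p' + b * q') * m = p' * ((N + a) * m) + b * q' * m := by ring
        have e2 : p' * ((N + a) * m + x) = p' * ((N + a) * m) + p' * x := by ring
        omega
  rw [hset]
  refine cn2_lin4 _ _ (fun m => p' * (d - (N + a) * m) = b * q' * m) _ _ _ _ _ _ _ ?_ ?_ ?_
  · intro m
    simp only [Finset.mem_filter]
    constructor
    · rintro ⟨h1, h2, h3, h4⟩
      exact ⟨⟨h1, h2, h3, by omega⟩, by omega⟩
    · rintro ⟨⟨h1, h2, h3, h4⟩, h5⟩
      exact ⟨h1, h2, h3, by omega⟩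
  · intro m _ ho
    by_cases h : b ∣ d - (N + a) * m
    · rw [cn2f_eq True _ _ (by simpa using h), cn2f_ne False _ _ (by simpa using h),
        ldf_eq m _ True True (by simpa using h) (by simpa using ho)]
      exact cn2_r1 _ _ _
    · rw [cn2f_ne True _ _ (by simpa using h), cn2f_eq False _ _ (by simpa using h),
        ldf_eq m _ False True (by simpa using h) (by simpa using ho)]
      exact cn2_r2 _ _ _
  · intro m _ ho
    by_cases h : b ∣ d - (N + a) * m
    · rw [cn2f_eq True _ _ (by simpa using h), cn2f_ne False _ _ (by simpa using h),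
        ldf_eq m _ True False (by simpa using h) (by simpa using ho)]
      exact cn2_r1 _ _ _
    · rw [cn2f_ne True _ _ (by simpa using h), cn2f_eq False _ _ (by simpa using h),
        ldf_eq m _ False False (by simpa using h) (by simpa using ho)]
      exact cn2_r2 _ _ _

end CN2

end Pool.Agent.H75.Mono
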