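import Pool.Agent.H75.Plc.P0

/-! # PLC, module VTX: edges and vertices of Newton polygons -/

set_option autoImplicit false
set_option linter.unusedVariables false

namespace Pool.Agent.H75.Mono

open MvPolynomial Pool.Agent.H39.MonoR

section VTX

variable {k : Type} [Field k] {G : PS k} {a b p q E : ℕ}

theorem vtx_ix_zero (i j : ℕ) : ix i j 0 = i := by simp [ix]

theorem vtx_ix_one (i j : ℕ) : ix i j 1 = j := by simp [ix]

theorem vtx_ix_eta (e : Fin 2 →₀ ℕ) : ix (e 0) (e 1) = e := by
  ext i
  fin_cases i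
  · exact vtx_ix_zero _ _
  · exact vtx_ix_one _ _

theorem vtx_ix_inj {i j i' j' : ℕ} (h : ix i j = ix i' j') : i = i' ∧ j = j' := by
  have h0 := congrArg (fun e : Fin 2 →₀ ℕ => e 0) h
  have h1 := congrArg (fun e : Fin 2 →₀ ℕ => e 1) h
  simp only [vtx_ix_zero, vtx_ix_one] at h0 h1
  exact ⟨h0, h1⟩

theorem vtx_ext {F G : PS k} (h : ∀ i j, cf F i j = cf G i j) : F = G := by
  ext e
  have := h (e 0) (e 1)
  unfold cf at this
  rwa [vtx_ix_eta] at this

theorem cf_swp (G : PS k) (i j : ℕ) : cf (swp G) i j = cf G j i := by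
  classical
  unfold cf swp
  rw [MvPowerSeries.coeff_subst (MvPowerSeries.HasSubst.X_X (R := k) (i := (1 : Fin 2)) (j := 0))]
  rw [finsum_eq_single _ (ix j i)]
  · rw [Finsupp.prod_fintype _ _ (fun _ => pow_zero _), Fin.prod_univ_two, vtx_ix_zero, vtx_ix_one]
    simp only [Matrix.cons_val_zero, Matrix.cons_val_one]
    rw [MvPowerSeries.X_pow_eq, MvPowerSeries.X_pow_eq, MvPowerSeries.monomial_mul_monomial,
      MvPowerSeries.coeff_monomial, if_pos]
    · simp
    · unfold ix
      rw [add_comm]
  · intro d hd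
    rw [Finsupp.prod_fintype _ _ (fun _ => pow_zero _), Fin.prod_univ_two]
    simp only [Matrix.cons_val_zero, Matrix.cons_val_one]
    rw [MvPowerSeries.X_pow_eq, MvPowerSeries.X_pow_eq, MvPowerSeries.monomial_mul_monomial,
      MvPowerSeries.coeff_monomial, if_neg, smul_zero]
    intro he
    apply hd
    have h2 : ix i j = ix (d 1) (d 0) := by
      rw [he]
      unfold ix
      rw [add_comm]
    obtain ⟨h3, h4⟩ := vtx_ix_inj h2
    rw [← vtx_ix_eta d, ← h3, ← h4]

theorem swp_swp (G : PS k) : swp (swp G) = G :=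
  vtx_ext fun i j => by rw [cf_swp, cf_swp]

/-- the support on an edge -/
theorem Edge.support (h : Edge G a b p q E) {i j : ℕ} (hij : cf G i j ≠ 0)
    (he : i * p + j * q = a * p + b * q) : ∃ n, n ≤ E ∧ i = a + q * n ∧ j = b - p * n := by
  obtain ⟨h1, h2⟩ := h.lin i j hij he
  obtain ⟨d, hd⟩ := Nat.exists_eq_add_of_le h2
  have h3 : i * p = a * p + d * q := by
    rw [hd] at he
    nlinarith
  have h4 : p ∣ d * q := by
    have : p ∣ a * p + d * q := by rw [← h3]; exact Dvd.intro_left i rfl
    exact (Nat.dvd_add_right (Dvd.intro_left a rfl)).1 this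
  have h5 : p ∣ d := h.cop.dvd_of_dvd_mul_right h4
  obtain ⟨n, hn⟩ := h5
  refine ⟨n, ?_, ?_, ?_⟩
  · have h6 : p * n ≤ p * E := by
      have := h.eb
      omega
    exact Nat.le_of_mul_le_mul_left h6 h.p0
  · have h6 : i * p = (a + q * n) * p := by
      rw [h3, hn]
      ring
    exact Nat.eq_of_mul_eq_mul_right h.p0 h6
  · omega

theorem Edge.vtx (h : Edge G a b p q E) : Vtx G p q (a + q * E) (b - p * E) := by
  refine ⟨h.bot, fun i j hij => ?_⟩
  have h1 : (a + q * E) * p + (b - p * E) * q = a * p + b * q := by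
    obtain ⟨c, hc⟩ := Nat.exists_eq_add_of_le h.eb
    have : b - p * E = c := by omega
    rw [this, hc]
    ring
  rw [h1]
  exact ⟨h.wt i j hij, fun he => (h.lin i j hij he).1⟩

theorem Edge.vtx_swp (h : Edge G a b p q E) : Vtx (swp G) q p b a := by
  refine ⟨by rw [cf_swp]; exact h.top, fun i j hij => ?_⟩
  rw [cf_swp] at hij
  have h1 := h.wt j i hij
  refine ⟨by linarith, fun he => ?_⟩
  have h2 := (h.lin j i hij (by linarith)).2
  by_contra hc
  push Not at hc
  have h3 : j * p < a * p := Nat.mul_lt_mul_of_pos_right hc h.p0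
  have h4 : i * q ≤ b * q := Nat.mul_le_mul_right q h2
  omega

theorem Edge.edp_coeff (h : Edge G a b p q E) {n : ℕ} (hn : n ≤ E) :
    (edp G a b p q E).coeff (E - n) = cf G (a + q * n) (b - p * n) := by
  unfold edp
  rw [Polynomial.finsetSum_coeff, Finset.sum_eq_single n]
  · rw [Polynomial.coeff_C_mul_X_pow, if_pos rfl]
  · intro m hm hne
    rw [Finset.mem_range] at hm
    rw [Polynomial.coeff_C_mul_X_pow, if_neg]
    omega
  · intro hm
    exact absurd (Finset.mem_range.2 (by omega)) hm

theorem Edge.edp_natDegree (h : Edge G a b p q E) : (edp G a b p q E).natDegree = E := by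
  apply le_antisymm
  · unfold edp
    apply Polynomial.natDegree_sum_le_of_forall_le
    intro n _
    refine (Polynomial.natDegree_C_mul_X_pow_le _ _).trans (by omega)
  · apply Polynomial.le_natDegree_of_ne_zero
    have h1 := h.edp_coeff (Nat.zero_le E)
    simp only [Nat.sub_zero, Nat.mul_zero, Nat.add_zero] at h1
    rw [h1]
    exact h.top

theorem Edge.edp_zero (h : Edge G a b p q E) : (edp G a b p q E).eval 0 ≠ 0 := by
  rw [← Polynomial.coeff_zero_eq_eval_zero]
  have h1 := h.edp_coeff (le_refl E)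
  rw [Nat.sub_self] at h1
  rw [h1]
  exact h.bot

theorem vtx_edp_ne (h : Edge G a b p q E) : edp G a b p q E ≠ 0 := by
  intro h0
  apply h.edp_zero
  rw [h0]
  simp

theorem Edge.mult_le (h : Edge G a b p q E) (μ : k) :
    p * (edp G a b p q E).rootMultiplicity μ ≤ b := by
  have h1 : (edp G a b p q E).rootMultiplicity μ ≤ E := by
    have h2 := Polynomial.natDegree_le_of_dvd
      (Polynomial.pow_rootMultiplicity_dvd (edp G a b p q E) μ) (vtx_edp_ne h)
    rw [h.edp_natDegree, Polynomial.natDegree_pow, Polynomial.natDegree_X_sub_C, mul_one] at h2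
    exact h2
  exact (Nat.mul_le_mul_left p h1).trans h.eb

/-- a polynomial with a root of full multiplicity -/
theorem vtx_full (h : Edge G a b p q E) (μ : k)
    (hm : E ≤ (edp G a b p q E).rootMultiplicity μ) :
    edp G a b p q E = Polynomial.C (cf G a b) * (Polynomial.X - Polynomial.C μ) ^ E := by
  have h1 : (Polynomial.X - Polynomial.C μ) ^ E ∣ edp G a b p q E :=
    (pow_dvd_pow _ hm).trans (Polynomial.pow_rootMultiplicity_dvd _ _)
  obtain ⟨Q, hQ⟩ := h1
  have hne := vtx_edp_ne h
  have hQ0 : Q ≠ 0 := by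
    rintro rfl
    rw [mul_zero] at hQ
    exact hne hQ
  have hmon : ((Polynomial.X - Polynomial.C μ) ^ E).Monic := (Polynomial.monic_X_sub_C μ).pow E
  have hdeg := congrArg Polynomial.natDegree hQ
  rw [h.edp_natDegree, hmon.natDegree_mul' hQ0, Polynomial.natDegree_pow,
    Polynomial.natDegree_X_sub_C, mul_one] at hdeg
  have hQd : Q.natDegree = 0 := by omega
  obtain ⟨c, hc⟩ := Polynomial.natDegree_eq_zero.1 hQd
  have hlc := congrArg Polynomial.leadingCoeff hQ
  rw [Polynomial.leadingCoeff_mul, hmon.leadingCoeff, one_mul, ← hc, Polynomial.leadingCoeff_C,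
    Polynomial.leadingCoeff, h.edp_natDegree] at hlc
  have h2 := h.edp_coeff (Nat.zero_le E)
  simp only [Nat.sub_zero, Nat.mul_zero, Nat.add_zero] at h2
  rw [h2] at hlc
  rw [hQ, ← hc, ← hlc, mul_comm]

/-- multiplicities of roots of edge polynomials are smaller than `b`, except in one case -/
theorem Edge.mult_lt (h : Edge G a b p q E) (hb : ¬ (p = 1 ∧ E = b ∧ ∃ μ : k, edp G a b p q E =
    Polynomial.C (cf G a b) * (Polynomial.X - Polynomial.C μ) ^ b)) (μ : k) :
    (edp G a b p q E).rootMultiplicity μ < b := by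
  by_contra hc
  push Not at hc
  apply hb
  have h1 := h.mult_le μ
  have hb0 : 0 < b := lt_of_lt_of_le (Nat.mul_pos h.p0 h.e0) h.eb
  have hp : p = 1 := by
    have h2 : p * b ≤ 1 * b := by
      rw [one_mul]
      exact (Nat.mul_le_mul_left p hc).trans h1
    have h3 := Nat.le_of_mul_le_mul_right h2 hb0
    have := h.p0
    omega
  have hEb : E ≤ b := by
    have := h.eb
    rw [hp, one_mul] at this
    exact this
  have hmE : (edp G a b p q E).rootMultiplicity μ ≤ E := by
    have h2 := Polynomial.natDegree_le_of_dvd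
      (Polynomial.pow_rootMultiplicity_dvd (edp G a b p q E) μ) (vtx_edp_ne h)
    rw [h.edp_natDegree, Polynomial.natDegree_pow, Polynomial.natDegree_X_sub_C, mul_one] at h2
    exact h2
  have hE : E = b := by omega
  refine ⟨hp, hE, μ, ?_⟩
  have h3 := vtx_full h μ (by omega)
  rw [h3]
  congr 2

theorem Edge.card_pos [IsAlgClosed k] (h : Edge G a b p q E) :
    1 ≤ (rts (edp G a b p q E)).card := by
  classical
  have h1 : (edp G a b p q E).degree ≠ 0 := by
    rw [Polynomial.degree_eq_natDegree (vtx_edp_ne h), h.edp_natDegree]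
    exact_mod_cast h.e0.ne'
  obtain ⟨μ, hμ⟩ := IsAlgClosed.exists_root _ h1
  rw [Nat.one_le_iff_ne_zero, ← Nat.pos_iff_ne_zero, Finset.card_pos]
  refine ⟨μ, ?_⟩
  unfold rts
  rw [Multiset.mem_toFinset, Polynomial.mem_roots (vtx_edp_ne h)]
  exact hμ

/-- a single root -/
theorem Edge.card_ne_one [IsAlgClosed k] (h : Edge G a b p q E) (hb : ¬ (p = 1 ∧ E = b ∧
    ∃ μ : k, edp G a b p q E = Polynomial.C (cf G a b) * (Polynomial.X - Polynomial.C μ) ^ b))
    (h1 : p = 1) (h2 : E = b) : 2 ≤ (rts (edp G a b p q E)).card := by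
  classical
  by_contra hc
  push Not at hc
  have h3 := h.card_pos
  have h4 : (rts (edp G a b p q E)).card = 1 := by omega
  obtain ⟨μ, hμ⟩ := Finset.card_eq_one.1 h4
  have hroots : ∀ x ∈ (edp G a b p q E).roots, x = μ := by
    intro x hx
    have : x ∈ rts (edp G a b p q E) := by
      unfold rts
      exact Multiset.mem_toFinset.2 hx
    rw [hμ] at this
    exact Finset.mem_singleton.1 this
  have hrep := Multiset.eq_replicate_card.2 hroots
  have hcard : (edp G a b p q E).roots.card = E := by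
    exact (IsAlgClosed.splits (edp G a b p q E)).natDegree_eq_card_roots.symm.trans h.edp_natDegree
  have hcount : (edp G a b p q E).rootMultiplicity μ = E := by
    rw [← Polynomial.count_roots, hrep, Multiset.count_replicate_self, hcard]
  apply hb
  refine ⟨h1, h2, μ, ?_⟩
  have h5 := vtx_full h μ hcount.ge
  rw [h5]
  congr 2

end VTX

end Pool.Agent.H75.Mono
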