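import Pool.Agent.H75.Plc.VTX

/-! # PLC, module GO1: shears and weights -/

set_option autoImplicit false

namespace Pool.Agent.H75.Mono

open MvPolynomial Pool.Agent.H39.MonoR

section GO1

variable {k : Type} [Field k] {G : PS k} {p q a b : ℕ} {h : PowerSeries k}

/-- all terms have weight at least `c` -/
private def go1_M (p q c : ℕ) (G : PS k) : Prop :=
  ∀ n : Fin 2 →₀ ℕ, MvPowerSeries.coeff n G ≠ 0 → c ≤ n 0 * p + n 1 * q

private theorem go1_mul {c d : ℕ} {G H : PS k} (hG : go1_M p q c G) (hH : go1_M p q d H) :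
    go1_M p q (c + d) (G * H) := by
  classical
  intro n hn
  rw [MvPowerSeries.coeff_mul] at hn
  obtain ⟨x, hx, hx2⟩ := Finset.exists_ne_zero_of_sum_ne_zero hn
  have h1 := hG x.1 (left_ne_zero_of_mul hx2)
  have h2 := hH x.2 (right_ne_zero_of_mul hx2)
  have h3 := Finset.HasAntidiagonal.mem_antidiagonal.1 hx
  have h4 : n 0 = x.1 0 + x.2 0 := by rw [← h3]; rfl
  have h5 : n 1 = x.1 1 + x.2 1 := by rw [← h3]; rfl
  rw [h4, h5]
  nlinarith

private theorem go1_add {c : ℕ} {G H : PS k} (hG : go1_M p q c G) (hH : go1_M p q c H) :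
    go1_M p q c (G + H) := by
  intro n hn
  by_cases h1 : MvPowerSeries.coeff n G = 0
  · rw [map_add, h1, zero_add] at hn
    exact hH n hn
  · exact hG n h1

private theorem go1_mono {c d : ℕ} {G : PS k} (hcd : c ≤ d) (hG : go1_M p q d G) :
    go1_M p q c G := fun n hn => hcd.trans (hG n hn)

private theorem go1_X0 (p q : ℕ) : go1_M p q p (MvPowerSeries.X 0 : PS k) := by
  classical
  intro n hn
  rw [MvPowerSeries.coeff_X] at hn
  split_ifs at hn with h1
  · rw [h1]
    simp
  · exact absurd rfl hn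

private theorem go1_X1 (p q : ℕ) : go1_M p q q (MvPowerSeries.X 1 : PS k) := by
  classical
  intro n hn
  rw [MvPowerSeries.coeff_X] at hn
  split_ifs at hn with h1
  · rw [h1]
    simp
  · exact absurd rfl hn

private theorem go1_pow {c : ℕ} {G : PS k} (hG : go1_M p q c G) (n : ℕ) :
    go1_M p q (n * c) (G ^ n) := by
  induction n with
  | zero =>
    intro m _
    simp
  | succ n ih =>
    rw [pow_succ, add_mul, one_mul]
    exact go1_mul ih hG

private theorem go1_hs : PowerSeries.HasSubst (MvPowerSeries.X 0 : PS k) := by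
  refine PowerSeries.HasSubst.of_constantCoeff_zero ?_
  simp

/-- the terms of `h(X)` -/
private theorem go1_h (hh : ∀ i, PowerSeries.coeff i h ≠ 0 → q < i * p) :
    go1_M p q (q + 1) (PowerSeries.subst (MvPowerSeries.X 0 : PS k) h) := by
  classical
  intro n hn
  rw [PowerSeries.coeff_subst go1_hs] at hn
  by_contra hlt
  apply hn
  rw [finsum_eq_zero_of_forall_eq_zero]
  intro d
  by_cases h1 : PowerSeries.coeff d h = 0
  · rw [h1, zero_smul]
  · have h2 := hh d h1
    by_cases h3 : MvPowerSeries.coeff n ((MvPowerSeries.X 0 : PS k) ^ d) = 0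
    · rw [h3, smul_zero]
    · exfalso
      have := go1_pow (go1_X0 (k := k) p q) d n h3
      omega

private theorem go1_shv1 (hh : ∀ i, PowerSeries.coeff i h ≠ 0 → q < i * p) :
    go1_M p q q (MvPowerSeries.X 1 + PowerSeries.subst (MvPowerSeries.X 0 : PS k) h) :=
  go1_add (go1_X1 p q) (go1_mono (Nat.le_succ q) (go1_h hh))

private theorem go1_diff (hh : ∀ i, PowerSeries.coeff i h ≠ 0 → q < i * p) (j : ℕ) :
    go1_M p q (j * q + 1) ((MvPowerSeries.X 1 + PowerSeries.subst (MvPowerSeries.X 0 : PS k) h) ^ j -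
      MvPowerSeries.X 1 ^ j) := by
  set Y : PS k := MvPowerSeries.X 1 with hY
  set H : PS k := PowerSeries.subst (MvPowerSeries.X 0 : PS k) h with hH
  induction j with
  | zero =>
    intro n hn
    simp at hn
  | succ j ih =>
    have e : (Y + H) ^ (j + 1) - Y ^ (j + 1) = ((Y + H) ^ j - Y ^ j) * (Y + H) + Y ^ j * H := by
      ring
    rw [e]
    refine go1_add ?_ ?_
    · have := go1_mul ih (go1_shv1 hh)
      refine go1_mono ?_ this
      rw [add_mul]
      omega
    · have := go1_mul (go1_pow (go1_X1 (k := k) p q) j) (go1_h hh)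
      refine go1_mono ?_ this
      rw [add_mul]
      omega

private theorem go1_hasSubst (hh : PowerSeries.constantCoeff h = 0) :
    MvPowerSeries.HasSubst (shv h) := by
  refine MvPowerSeries.hasSubst_of_constantCoeff_zero ?_
  intro i
  fin_cases i
  · simp [shv]
  · have h1 : ∀ i, PowerSeries.coeff i h ≠ 0 → 0 < i * 1 := by
      intro i hi
      rcases Nat.eq_zero_or_pos i with e | e
      · rw [e, PowerSeries.coeff_zero_eq_constantCoeff, hh] at hi
        exact absurd rfl hi
      · omega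
    have h2 : MvPowerSeries.constantCoeff (PowerSeries.subst (MvPowerSeries.X 0 : PS k) h) = 0 := by
      by_contra hne
      have := go1_h h1 0 hne
      simp at this
    show MvPowerSeries.constantCoeff
      (MvPowerSeries.X 1 + PowerSeries.subst (MvPowerSeries.X 0 : PS k) h) = 0
    rw [map_add, h2]
    simp

private theorem go1_const (_hp : 0 < p) (hh : ∀ i, PowerSeries.coeff i h ≠ 0 → q < i * p) :
    PowerSeries.constantCoeff h = 0 := by
  by_contra hne
  have := hh 0 (by simpa using hne)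
  omega

private theorem go1_prod (d : Fin 2 →₀ ℕ) (u : Fin 2 → PS k) :
    (d.prod fun s e => u s ^ e) = u 0 ^ d 0 * u 1 ^ d 1 := by
  rw [Finsupp.prod_fintype _ _ (by simp)]
  simp [Fin.prod_univ_two]

private theorem go1_mon (d : Fin 2 →₀ ℕ) :
    (MvPowerSeries.X 0 ^ d 0 * MvPowerSeries.X 1 ^ d 1 : PS k) = MvPowerSeries.monomial d 1 := by
  have e : Finsupp.single (0 : Fin 2) (d 0) + Finsupp.single 1 (d 1) = d := by
    refine Finsupp.ext fun i => ?_
    fin_cases i <;> simp
  rw [MvPowerSeries.X_pow_eq, MvPowerSeries.X_pow_eq, MvPowerSeries.monomial_mul_monomial,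
    one_mul, e]

private theorem go1_main (hh0 : PowerSeries.constantCoeff h = 0)
    (hh : ∀ i, PowerSeries.coeff i h ≠ 0 → q < i * p) {c : ℕ} (hc : go1_M p q c G) :
    go1_M p q c (shr h G) ∧ ∀ n : Fin 2 →₀ ℕ, n 0 * p + n 1 * q = c →
      MvPowerSeries.coeff n (shr h G) = MvPowerSeries.coeff n G := by
  classical
  have hs := go1_hasSubst hh0
  have hterm : ∀ d : Fin 2 →₀ ℕ, (d.prod fun s e => shv h s ^ e) =
      MvPowerSeries.X 0 ^ d 0 * (MvPowerSeries.X 1 +
        PowerSeries.subst (MvPowerSeries.X 0 : PS k) h) ^ d 1 := by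
    intro d
    rw [go1_prod]
    rfl
  have hM : ∀ d : Fin 2 →₀ ℕ, go1_M p q (d 0 * p + d 1 * q) (MvPowerSeries.X 0 ^ d 0 *
      (MvPowerSeries.X 1 + PowerSeries.subst (MvPowerSeries.X 0 : PS k) h) ^ d 1) := fun d =>
    go1_mul (go1_pow (go1_X0 (k := k) p q) _) (go1_pow (go1_shv1 hh) _)
  have hD : ∀ d : Fin 2 →₀ ℕ, go1_M p q (d 0 * p + d 1 * q + 1) (MvPowerSeries.X 0 ^ d 0 *
      (MvPowerSeries.X 1 + PowerSeries.subst (MvPowerSeries.X 0 : PS k) h) ^ d 1 -
        MvPowerSeries.monomial d 1) := by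
    intro d
    rw [← go1_mon, ← mul_sub, add_assoc]
    exact go1_mul (go1_pow (go1_X0 (k := k) p q) _) (go1_diff hh _)
  have hco : ∀ n, MvPowerSeries.coeff n (shr h G) = finsum (fun d : Fin 2 →₀ ℕ =>
      MvPowerSeries.coeff d G • MvPowerSeries.coeff n (MvPowerSeries.X 0 ^ d 0 *
      (MvPowerSeries.X 1 + PowerSeries.subst (MvPowerSeries.X 0 : PS k) h) ^ d 1)) := by
    intro n
    unfold shr
    rw [MvPowerSeries.coeff_subst hs]
    simp only [hterm]
  refine ⟨?_, ?_⟩
  · intro n hn
    by_contra hlt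
    apply hn
    rw [hco, finsum_eq_zero_of_forall_eq_zero]
    intro d
    by_cases h1 : MvPowerSeries.coeff d G = 0
    · rw [h1, zero_smul]
    · by_cases h2 : MvPowerSeries.coeff n (MvPowerSeries.X 0 ^ d 0 *
        (MvPowerSeries.X 1 + PowerSeries.subst (MvPowerSeries.X 0 : PS k) h) ^ d 1) = 0
      · rw [h2, smul_zero]
      · exfalso
        have := hM d n h2
        have := hc d h1
        omega
  · intro n hn
    rw [hco, finsum_eq_single _ n]
    · have h1 : MvPowerSeries.coeff n (MvPowerSeries.X 0 ^ n 0 *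
          (MvPowerSeries.X 1 + PowerSeries.subst (MvPowerSeries.X 0 : PS k) h) ^ n 1 -
            MvPowerSeries.monomial n 1) = 0 := by
        by_contra hne
        have := hD n n hne
        omega
      rw [map_sub, sub_eq_zero, MvPowerSeries.coeff_monomial_same] at h1
      rw [h1, smul_eq_mul, mul_one]
    · intro d hd
      by_cases h1 : MvPowerSeries.coeff d G = 0
      · rw [h1, zero_smul]
      · have h2 := hc d h1
        have h3 : MvPowerSeries.coeff n (MvPowerSeries.X 0 ^ d 0 *
            (MvPowerSeries.X 1 + PowerSeries.subst (MvPowerSeries.X 0 : PS k) h) ^ d 1) = 0 := by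
          by_contra hne
          have h4 := hM d n hne
          have h5 : MvPowerSeries.coeff n (MvPowerSeries.X 0 ^ d 0 *
            (MvPowerSeries.X 1 + PowerSeries.subst (MvPowerSeries.X 0 : PS k) h) ^ d 1 -
              MvPowerSeries.monomial d 1) = 0 := by
            by_contra hne2
            have := hD d n hne2
            omega
          rw [map_sub, sub_eq_zero] at h5
          rw [h5, MvPowerSeries.coeff_monomial_ne hd.symm] at hne
          exact hne rfl
        rw [h3, smul_zero]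

private theorem go1_ix0 (i j : ℕ) : ix i j 0 = i := by simp [ix]

private theorem go1_ix1 (i j : ℕ) : ix i j 1 = j := by simp [ix]

private theorem go1_ix (n : Fin 2 →₀ ℕ) : ix (n 0) (n 1) = n := by
  ext i
  fin_cases i
  · exact go1_ix0 _ _
  · exact go1_ix1 _ _

private theorem go1_M_iff {c : ℕ} : go1_M p q c G ↔ ∀ i j, cf G i j ≠ 0 → c ≤ i * p + j * q := by
  constructor
  · intro h1 i j hij
    have := h1 (ix i j) hij
    rwa [go1_ix0, go1_ix1] at this
  · intro h1 n hn
    refine h1 (n 0) (n 1) ?_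
    unfold cf
    rwa [go1_ix]

/-- terms of higher weight in the shear do not change the initial form -/
theorem shr_wt (hp : 0 < p) (hh : ∀ i, PowerSeries.coeff i h ≠ 0 → q < i * p) {c : ℕ}
    (hc : ∀ i j, cf G i j ≠ 0 → c ≤ i * p + j * q) :
    (∀ i j, cf (shr h G) i j ≠ 0 → c ≤ i * p + j * q) ∧
      ∀ i j, i * p + j * q = c → cf (shr h G) i j = cf G i j := by
  obtain ⟨h1, h2⟩ := go1_main (go1_const hp hh) hh (go1_M_iff.2 hc)
  refine ⟨go1_M_iff.1 h1, ?_⟩
  intro i j hij
  exact h2 (ix i j) (by rw [go1_ix0, go1_ix1]; exact hij)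

theorem Vtx.shr (hV : Vtx G p q a b) (hp : 0 < p)
    (hh : ∀ i, PowerSeries.coeff i h ≠ 0 → q < i * p) : Vtx (Mono.shr h G) p q a b := by
  obtain ⟨h1, h2⟩ := hV
  obtain ⟨h3, h4⟩ := shr_wt (c := a * p + b * q) hp hh (fun i j hij => (h2 i j hij).1)
  refine ⟨by rw [h4 a b rfl]; exact h1, ?_⟩
  intro i j hij
  refine ⟨h3 i j hij, ?_⟩
  intro he
  rw [h4 i j he] at hij
  exact (h2 i j hij).2 he

/-- divisibility by `X^n` -/
theorem shr_left {n : ℕ} (hh : PowerSeries.constantCoeff h = 0)
    (hn : ∀ i j, cf G i j ≠ 0 → n ≤ i) (i j : ℕ) (hij : cf (shr h G) i j ≠ 0) : n ≤ i := by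
  have h1 : ∀ i, PowerSeries.coeff i h ≠ 0 → 0 < i * 1 := by
    intro i hi
    rcases Nat.eq_zero_or_pos i with e | e
    · rw [e, PowerSeries.coeff_zero_eq_constantCoeff, hh] at hi
      exact absurd rfl hi
    · omega
  have h2 := (shr_wt (G := G) (p := 1) (q := 0) (c := n) one_pos h1
    (fun i j hij => by simpa using hn i j hij)).1 i j hij
  simpa using h2

theorem shr_shr {h' : PowerSeries k} (hh : PowerSeries.constantCoeff h = 0)
    (hh' : PowerSeries.constantCoeff h' = 0) : shr h' (shr h G) = shr (h + h') G := by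
  have hs := go1_hasSubst hh
  have hs' := go1_hasSubst hh'
  unfold shr
  rw [MvPowerSeries.subst_comp_subst_apply hs hs']
  congr 1
  funext i
  fin_cases i
  · show MvPowerSeries.subst (shv h') (MvPowerSeries.X 0 : PS k) = MvPowerSeries.X 0
    rw [MvPowerSeries.subst_X hs']
    rfl
  · show MvPowerSeries.subst (shv h') (MvPowerSeries.X 1 +
      PowerSeries.subst (MvPowerSeries.X 0 : PS k) h) = MvPowerSeries.X 1 +
        PowerSeries.subst (MvPowerSeries.X 0 : PS k) (h + h')
    have e1 : MvPowerSeries.subst (shv h') (PowerSeries.subst (MvPowerSeries.X 0 : PS k) h) =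
        PowerSeries.subst (MvPowerSeries.X 0 : PS k) h := by
      unfold PowerSeries.subst
      rw [MvPowerSeries.subst_comp_subst_apply go1_hs.const hs']
      congr 1
      funext _
      rw [MvPowerSeries.subst_X hs']
      rfl
    rw [MvPowerSeries.subst_add hs', MvPowerSeries.subst_X hs', e1,
      PowerSeries.subst_add go1_hs]
    show (MvPowerSeries.X 1 + PowerSeries.subst (MvPowerSeries.X 0 : PS k) h') +
      PowerSeries.subst (MvPowerSeries.X 0 : PS k) h = _
    ring

end GO1
end Pool.Agent.H75.Mono
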