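import Pool.Agent.H75.Plc.DER

/-! # PLC, module CH1: charts: Taylor expansion, automorphisms, shears -/

set_option autoImplicit false

namespace Pool.Agent.H75.Mono

open MvPolynomial Pool.Agent.H39.MonoR

section CH1

variable {k : Type} [Field k] {F : MvPolynomial (Fin 2) k} {P : Fin 2 → k} {G : PS k}

theorem ch1_const {a : Fin 2 → PS k} (ha0 : ∀ i, MvPowerSeries.constantCoeff (a i) = 0)
    (f : PS k) : MvPowerSeries.constantCoeff (MvPowerSeries.subst a f) =
      MvPowerSeries.constantCoeff f := by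
  have ha := MvPowerSeries.hasSubst_of_constantCoeff_zero ha0
  have h : f = MvPowerSeries.C (MvPowerSeries.constantCoeff f) +
      (f - MvPowerSeries.C (MvPowerSeries.constantCoeff f)) := by ring
  have h1 : MvPowerSeries.constantCoeff (MvPowerSeries.subst a
      (f - MvPowerSeries.C (MvPowerSeries.constantCoeff f))) = 0 :=
    MvPowerSeries.constantCoeff_subst_eq_zero ha ha0 (by simp)
  calc MvPowerSeries.constantCoeff (MvPowerSeries.subst a f)
      = MvPowerSeries.constantCoeff (MvPowerSeries.subst a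
          (MvPowerSeries.C (MvPowerSeries.constantCoeff f) +
            (f - MvPowerSeries.C (MvPowerSeries.constantCoeff f)))) := by rw [← h]
    _ = MvPowerSeries.constantCoeff f := by
        rw [MvPowerSeries.subst_add ha, map_add, h1, add_zero, MvPowerSeries.subst_C,
          MvPowerSeries.constantCoeff_C]

theorem ch1_aeval {a : Fin 2 → PS k} (ha0 : ∀ i, MvPowerSeries.constantCoeff (a i) = 0)
    (x : Fin 2 → PS k) (F : MvPolynomial (Fin 2) k) :
    aeval (fun i => MvPowerSeries.subst a (x i)) F = MvPowerSeries.subst a (aeval x F) := by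
  have ha := MvPowerSeries.hasSubst_of_constantCoeff_zero ha0
  have h := MvPolynomial.map_aeval (R := k) x
    ((MvPowerSeries.substAlgHom ha : PS k →ₐ[k] PS k) : PS k →+* PS k) F
  have h2 : (MvPowerSeries.substAlgHom ha : PS k →ₐ[k] PS k) (aeval x F) =
      aeval (fun i => (MvPowerSeries.substAlgHom ha : PS k →ₐ[k] PS k) (x i)) F := by
    rw [← MvPolynomial.comp_aeval_apply]
  simp only [MvPowerSeries.substAlgHom_apply] at h2
  exact h2.symm

/-- the Jacobian -/
noncomputable def ch1J (x : Fin 2 → PS k) : PS k :=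
  MvPowerSeries.pderiv k 0 (x 0) * MvPowerSeries.pderiv k 1 (x 1) -
      MvPowerSeries.pderiv k 1 (x 0) * MvPowerSeries.pderiv k 0 (x 1)

theorem ch1_jac {a : Fin 2 → PS k} (ha0 : ∀ i, MvPowerSeries.constantCoeff (a i) = 0)
    (x : Fin 2 → PS k) :
    ch1J (fun i => MvPowerSeries.subst a (x i)) = MvPowerSeries.subst a (ch1J x) * ch1J a := by
  have ha := MvPowerSeries.hasSubst_of_constantCoeff_zero ha0
  unfold ch1J
  rw [pderiv_subst ha0, pderiv_subst ha0, pderiv_subst ha0, pderiv_subst ha0,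
    MvPowerSeries.subst_sub ha, MvPowerSeries.subst_mul ha, MvPowerSeries.subst_mul ha]
  ring

theorem ch1_comp {N ν N' ν' : ℕ} {G' : PS k} (hC : Cht F P N ν G) {a : Fin 2 → PS k}
    (ha0 : ∀ i, MvPowerSeries.constantCoeff (a i) = 0)
    (hG : MvPowerSeries.subst a (MvPowerSeries.X 0 ^ N * G) = MvPowerSeries.X 0 ^ N' * G')
    (hJ : ∃ u : PS k, MvPowerSeries.constantCoeff u ≠ 0 ∧
      MvPowerSeries.subst a ((MvPowerSeries.X 0 : PS k) ^ (ν - 1)) * ch1J a =
        MvPowerSeries.X 0 ^ (ν' - 1) * u) : Cht F P N' ν' G' := by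
  obtain ⟨x, j, hx, hF, hj, hj0⟩ := hC
  obtain ⟨u, hu0, hu⟩ := hJ
  have ha := MvPowerSeries.hasSubst_of_constantCoeff_zero ha0
  refine ⟨fun i => MvPowerSeries.subst a (x i), MvPowerSeries.subst a j * u, ?_, ?_, ?_, ?_⟩
  · intro i
    rw [ch1_const ha0, hx]
  · rw [ch1_aeval ha0, hF, hG]
  · have h1 := ch1_jac ha0 x
    have h2 : ch1J x = MvPowerSeries.X 0 ^ (ν - 1) * j := hj
    rw [h2, MvPowerSeries.subst_mul ha] at h1
    show ch1J (fun i => MvPowerSeries.subst a (x i)) = _
    rw [h1]
    calc _ = MvPowerSeries.subst a ((MvPowerSeries.X 0 : PS k) ^ (ν - 1)) * ch1J a *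
          MvPowerSeries.subst a j := by ring
      _ = _ := by rw [hu]; ring
  · rw [map_mul, ch1_const ha0]
    exact mul_ne_zero hj0 hu0

theorem Cht.tay (F : MvPolynomial (Fin 2) k) (P : Fin 2 → k) : Cht F P 0 1 (Mono.tay F P) := by
  refine ⟨fun i => MvPowerSeries.X i + MvPowerSeries.C (P i), 1, ?_, ?_, ?_, ?_⟩
  · intro i
    simp
  · rw [pow_zero, one_mul]
    unfold Mono.tay
    have h : MvPolynomial.aeval (fun i => (MvPowerSeries.X i + MvPowerSeries.C (P i) : PS k)) F =
        MvPolynomial.coeToMvPowerSeries.algHom k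
          (aeval (fun i => (X i + C (P i) : MvPolynomial (Fin 2) k)) F) := by
      rw [MvPolynomial.comp_aeval_apply]
      congr 2
      funext i
      simp [MvPolynomial.coeToMvPowerSeries.algHom_apply]
    rw [h]
    simp [MvPolynomial.coeToMvPowerSeries.algHom_apply]
  · simp
  · simp

theorem Cht.aut (hC : Cht F P 0 1 G) {a : Fin 2 → PS k}
    (ha : ∀ i, MvPowerSeries.constantCoeff (a i) = 0)
    (hJ : cf (a 0) 1 0 * cf (a 1) 0 1 - cf (a 0) 0 1 * cf (a 1) 1 0 ≠ 0) :
    Cht F P 0 1 (MvPowerSeries.subst a G) := by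
  have hs := MvPowerSeries.hasSubst_of_constantCoeff_zero ha
  refine ch1_comp hC ha (by rw [pow_zero, one_mul, one_mul]) ⟨ch1J a, ?_, ?_⟩
  · have h0 : ∀ f : PS k, MvPowerSeries.constantCoeff (MvPowerSeries.pderiv k 0 f) = cf f 1 0 := by
      intro f
      rw [← MvPowerSeries.coeff_zero_eq_constantCoeff_apply, MvPowerSeries.coeff_pderiv]
      simp [cf, ix]
    have h1 : ∀ f : PS k, MvPowerSeries.constantCoeff (MvPowerSeries.pderiv k 1 f) = cf f 0 1 := by
      intro f
      rw [← MvPowerSeries.coeff_zero_eq_constantCoeff_apply, MvPowerSeries.coeff_pderiv]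
      simp [cf, ix]
    unfold ch1J
    rw [map_sub, map_mul, map_mul, h0, h1, h0, h1]
    exact hJ
  · have h1 : MvPowerSeries.subst a ((MvPowerSeries.X 0 : PS k) ^ (1 - 1)) = 1 := by
      rw [Nat.sub_self, pow_zero, ← MvPowerSeries.substAlgHom_apply hs, map_one]
    rw [h1]
    simp

theorem Cht.swp (hC : Cht F P 0 1 G) : Cht F P 0 1 (Mono.swp G) := by
  refine Cht.aut hC ?_ ?_
  · intro i
    fin_cases i <;> simp
  · have h00 : cf (MvPowerSeries.X 1 : PS k) 1 0 = 0 := by
      unfold cf ix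
      rw [MvPowerSeries.coeff_X, if_neg]
      intro h
      have := DFunLike.congr_fun h 0
      simp at this
    have h01 : cf (MvPowerSeries.X 1 : PS k) 0 1 = 1 := by
      unfold cf ix
      rw [MvPowerSeries.coeff_X, if_pos]
      simp
    have h10 : cf (MvPowerSeries.X 0 : PS k) 1 0 = 1 := by
      unfold cf ix
      rw [MvPowerSeries.coeff_X, if_pos]
      simp
    simp only [Matrix.cons_val_zero, Matrix.cons_val_one]
    rw [h00, h01, h10]
    simp

theorem ch1_pderiv_subst_X {h : PowerSeries k} :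
    MvPowerSeries.pderiv k 1 (PowerSeries.subst (MvPowerSeries.X 0 : PS k) h) = 0 := by
  have hs : PowerSeries.HasSubst (MvPowerSeries.X 0 : PS k) :=
    PowerSeries.HasSubst.of_constantCoeff_zero (by simp)
  ext n
  rw [MvPowerSeries.coeff_pderiv, PowerSeries.coeff_subst hs, finsum_eq_zero_of_forall_eq_zero,
    zero_mul, map_zero]
  intro d
  rw [MvPowerSeries.coeff_X_pow, if_neg, smul_zero]
  intro e
  have := DFunLike.congr_fun e 1
  simp at this

theorem Cht.shr {N ν : ℕ} (hC : Cht F P N ν G) {h : PowerSeries k}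
    (hh : PowerSeries.constantCoeff h = 0) : Cht F P N ν (Mono.shr h G) := by
  have ha0 : ∀ i, MvPowerSeries.constantCoeff (shv h i) = 0 := by
    have h1 : MvPowerSeries.constantCoeff (PowerSeries.subst (MvPowerSeries.X 0 : PS k) h) = 0 :=
      MvPowerSeries.constantCoeff_subst_eq_zero
        (PowerSeries.HasSubst.of_constantCoeff_zero (a := (MvPowerSeries.X 0 : PS k)) (by simp)).const
        (fun _ => by simp) hh
    intro i
    fin_cases i
    · simp [shv]
    · simp [shv, h1]
  have hs := MvPowerSeries.hasSubst_of_constantCoeff_zero ha0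
  refine ch1_comp hC ha0 ?_ ⟨1, by simp, ?_⟩
  · rw [MvPowerSeries.subst_mul hs, MvPowerSeries.subst_pow hs, MvPowerSeries.subst_X hs]
    rfl
  · rw [MvPowerSeries.subst_pow hs, MvPowerSeries.subst_X hs]
    have h1 : ch1J (shv h) = 1 := by
      unfold ch1J
      have e0 : shv h 0 = MvPowerSeries.X 0 := rfl
      have e1 : shv h 1 = MvPowerSeries.X 1 + PowerSeries.subst (MvPowerSeries.X 0 : PS k) h := rfl
      rw [e0, e1, map_add, ch1_pderiv_subst_X, MvPowerSeries.pderiv_X_self,
        MvPowerSeries.pderiv_X_self, MvPowerSeries.pderiv_X_of_ne (by decide)]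
      ring
    rw [h1]
    rfl

end CH1

end Pool.Agent.H75.Mono
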