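import Pool.Agent.H75.Plc.VTX

/-! # PLC, module CHV: the transform at a point of a divisor -/

set_option autoImplicit false
set_option linter.unusedVariables false

namespace Pool.Agent.H75.Mono

open MvPolynomial Pool.Agent.H39.MonoR

section CHV

variable {k : Type} [Field k] {G : PS k} {a b p q E r s : ℕ}

theorem chv_cf_av (P : Polynomial k) (i j : ℕ) :
    cf (Polynomial.aeval (MvPowerSeries.X 1 : PS k) P) i j = if i = 0 then P.coeff j else 0 := by
  classical
  induction P using Polynomial.induction_on' with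
  | add P Q hP hQ =>
    unfold cf at hP hQ ⊢
    rw [map_add, map_add, hP, hQ, Polynomial.coeff_add]
    split_ifs <;> simp
  | monomial n c =>
    unfold cf
    rw [Polynomial.aeval_monomial, Polynomial.coeff_monomial, MvPowerSeries.algebraMap_apply,
      MvPowerSeries.coeff_C_mul, MvPowerSeries.coeff_X_pow]
    have h1 : (ix i j = Finsupp.single 1 n) ↔ (i = 0 ∧ j = n) := by
      constructor
      · intro h
        have h0 := congrArg (fun e : Fin 2 →₀ ℕ => e 0) h
        have h1 := congrArg (fun e : Fin 2 →₀ ℕ => e 1) h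
        simp only [vtx_ix_zero, vtx_ix_one] at h0 h1
        simp at h0 h1
        exact ⟨h0, h1⟩
      · rintro ⟨rfl, rfl⟩
        simp [ix]
    by_cases h2 : i = 0
    · by_cases h3 : j = n
      · rw [if_pos (h1.2 ⟨h2, h3⟩), if_pos h2, if_pos h3.symm]
        simp
      · rw [if_neg (fun h => h3 (h1.1 h).2), if_pos h2, if_neg (fun h => h3 h.symm)]
        simp
    · rw [if_neg (fun h => h2 (h1.1 h).1), if_neg h2]
      simp

theorem chv_ix_add (i j c : ℕ) : ix (i + c) j = ix i j + Finsupp.single 0 c := by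
  ext l
  fin_cases l <;> simp [ix]

theorem chv_cf_mul (c : ℕ) (F : PS k) (i j : ℕ) :
    cf (MvPowerSeries.X 0 ^ c * F) (i + c) j = cf F i j := by
  unfold cf
  rw [chv_ix_add, MvPowerSeries.X_pow_eq, add_comm, MvPowerSeries.coeff_add_monomial_mul, one_mul]

theorem chv_cf_mul_lt (c : ℕ) (F : PS k) {i : ℕ} (j : ℕ) (hi : i < c) :
    cf (MvPowerSeries.X 0 ^ c * F) i j = 0 := by
  unfold cf
  refine (MvPowerSeries.X_pow_dvd_iff (s := (0 : Fin 2)) (n := c)).1 (Dvd.intro _ rfl) (ix i j) ?_
  rw [vtx_ix_zero]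
  exact hi

theorem chv_dvX (c : ℕ) (F : PS k) : dvX c (MvPowerSeries.X 0 ^ c * F) = F := by
  apply vtx_ext
  intro i j
  have h1 : cf (dvX c (MvPowerSeries.X 0 ^ c * F)) i j = cf (MvPowerSeries.X 0 ^ c * F) (i + c) j := by
    unfold cf dvX
    rw [chv_ix_add]
    rfl
  rw [h1, chv_cf_mul]

theorem chv_hasSubst (hp : 0 < p) (hq : 0 < q) (r s : ℕ) (μ : k) :
    MvPowerSeries.HasSubst (tov p q r s μ) := by
  apply MvPowerSeries.hasSubst_of_constantCoeff_zero
  intro i
  fin_cases i
  · simp only [tov, Fin.zero_eta, Matrix.cons_val_zero, map_mul, map_pow,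
      MvPowerSeries.constantCoeff_X]
    rw [zero_pow hp.ne', zero_mul]
  · simp only [tov, Fin.mk_one, Matrix.cons_val_one, Matrix.cons_val_zero, map_mul, map_pow,
      MvPowerSeries.constantCoeff_X]
    rw [zero_pow hq.ne', zero_mul]

theorem chv_prod (p q r s : ℕ) (μ : k) (d : Fin 2 →₀ ℕ) :
    (d.prod fun t e => (tov p q r s μ t) ^ e) =
      MvPowerSeries.X 0 ^ (d 0 * p + d 1 * q) *
        (MvPowerSeries.C μ + MvPowerSeries.X 1) ^ (r * d 0 + s * d 1) := by
  rw [Finsupp.prod_fintype _ _ (fun _ => pow_zero _), Fin.prod_univ_two]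
  simp only [tov, Matrix.cons_val_zero, Matrix.cons_val_one]
  ring

theorem chv_dvd {c : ℕ} (hp : 0 < p) (hq : 0 < q) {μ : k}
    (hc : ∀ i j, cf G i j ≠ 0 → c ≤ i * p + j * q) :
    MvPowerSeries.X 0 ^ c ∣ MvPowerSeries.subst (tov p q r s μ) G := by
  rw [MvPowerSeries.X_pow_dvd_iff]
  intro m hm
  rw [MvPowerSeries.coeff_subst (chv_hasSubst hp hq r s μ)]
  apply finsum_eq_zero_of_forall_eq_zero
  intro d
  by_cases h : MvPowerSeries.coeff d G = 0
  · rw [h, zero_smul]
  · have h1 : c ≤ d 0 * p + d 1 * q := by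
      apply hc
      unfold cf
      rw [vtx_ix_eta]
      exact h
    rw [chv_prod]
    have h2 : MvPowerSeries.coeff m ((MvPowerSeries.X 0 : PS k) ^ (d 0 * p + d 1 * q) *
        (MvPowerSeries.C μ + MvPowerSeries.X 1) ^ (r * d 0 + s * d 1)) = 0 := by
      refine (MvPowerSeries.X_pow_dvd_iff (s := (0 : Fin 2))).1 (Dvd.intro _ rfl) m ?_
      omega
    rw [h2, smul_zero]

theorem chd_spec {N c : ℕ} (hp : 0 < p) (hq : 0 < q) {μ : k}
    (hc : ∀ i j, cf G i j ≠ 0 → c ≤ i * p + j * q) :
    MvPowerSeries.X 0 ^ c * chd N p q c r s μ G =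
      (MvPowerSeries.C μ + MvPowerSeries.X 1) ^ (r * N) *
        MvPowerSeries.subst (tov p q r s μ) G := by
  obtain ⟨F, hF⟩ := chv_dvd (r := r) (s := s) (μ := μ) hp hq hc
  unfold chd
  rw [hF]
  have h1 : (MvPowerSeries.C μ + MvPowerSeries.X 1) ^ (r * N) * (MvPowerSeries.X 0 ^ c * F) =
      MvPowerSeries.X 0 ^ c * ((MvPowerSeries.C μ + MvPowerSeries.X 1) ^ (r * N) * F) := by ring
  rw [h1, chv_dvX]

/-- the part of the series on the edge -/
noncomputable def chv_edge (G : PS k) (a b p q E : ℕ) : PS k :=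
  ∑ n ∈ Finset.range (E + 1), MvPowerSeries.monomial (ix (a + q * n) (b - p * n))
    (cf G (a + q * n) (b - p * n))

theorem chv_cf_edge (hE : Edge G a b p q E) {i j : ℕ} (hij : i * p + j * q = a * p + b * q) :
    cf (chv_edge G a b p q E) i j = cf G i j := by
  classical
  unfold chv_edge
  have h0 : cf (∑ n ∈ Finset.range (E + 1), MvPowerSeries.monomial (ix (a + q * n) (b - p * n))
      (cf G (a + q * n) (b - p * n))) i j = ∑ n ∈ Finset.range (E + 1),
        (if ix i j = ix (a + q * n) (b - p * n) then cf G (a + q * n) (b - p * n) else 0) := by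
    unfold cf
    rw [map_sum]
    apply Finset.sum_congr rfl
    intro n _
    rw [MvPowerSeries.coeff_monomial]
  rw [h0]
  by_cases h1 : ∃ n, n ≤ E ∧ i = a + q * n ∧ j = b - p * n
  · obtain ⟨n, hn, hi, hj⟩ := h1
    rw [Finset.sum_eq_single n]
    · rw [if_pos (by rw [hi, hj]), hi, hj]
    · intro m _ hne
      rw [if_neg]
      intro h
      obtain ⟨h2, -⟩ := vtx_ix_inj h
      apply hne
      have h3 : q * m = q * n := by omega
      exact Nat.eq_of_mul_eq_mul_left hE.q0 h3
    · intro h
      exact absurd (Finset.mem_range.2 (by omega)) h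
  · have h2 : cf G i j = 0 := by
      by_contra h3
      exact h1 (hE.support h3 hij)
    rw [h2]
    apply Finset.sum_eq_zero
    intro n hn
    rw [if_neg]
    intro h
    obtain ⟨h3, h4⟩ := vtx_ix_inj h
    exact h1 ⟨n, by rw [Finset.mem_range] at hn; omega, h3, h4⟩

theorem chv_cf_edge_wt (hE : Edge G a b p q E) {i j : ℕ} (h : cf (chv_edge G a b p q E) i j ≠ 0) :
    i * p + j * q = a * p + b * q := by
  classical
  by_contra hne
  apply h
  unfold chv_edge cf
  rw [map_sum]
  apply Finset.sum_eq_zero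
  intro n hn
  rw [Finset.mem_range] at hn
  rw [MvPowerSeries.coeff_monomial, if_neg]
  intro he
  obtain ⟨h3, h4⟩ := vtx_ix_inj he
  apply hne
  have h5 : p * n ≤ b := (Nat.mul_le_mul_left p (by omega)).trans hE.eb
  obtain ⟨c, hc⟩ := Nat.exists_eq_add_of_le h5
  have h6 : b - p * n = c := by omega
  rw [h3, h4, h6, hc]
  ring

theorem chv_rest (hE : Edge G a b p q E) {i j : ℕ} (h : cf (G - chv_edge G a b p q E) i j ≠ 0) :
    a * p + b * q + 1 ≤ i * p + j * q := by
  have h0 : cf (G - chv_edge G a b p q E) i j = cf G i j - cf (chv_edge G a b p q E) i j := by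
    unfold cf
    rw [map_sub]
  rw [h0] at h
  by_cases h1 : i * p + j * q = a * p + b * q
  · rw [chv_cf_edge hE h1, sub_self] at h
    exact absurd rfl h
  · have h2 : cf (chv_edge G a b p q E) i j = 0 := by
      by_contra h3
      exact h1 (chv_cf_edge_wt hE h3)
    rw [h2, sub_zero] at h
    have := hE.wt i j h
    omega

theorem chv_av_pow (μ : k) (n : ℕ) : (MvPowerSeries.C μ + MvPowerSeries.X 1 : PS k) ^ n =
    Polynomial.aeval (MvPowerSeries.X 1 : PS k) ((Polynomial.C μ + Polynomial.X) ^ n) := by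
  rw [map_pow, map_add, Polynomial.aeval_X, Polynomial.aeval_C, MvPowerSeries.algebraMap_apply]
  rfl

/-- the transform of the edge part -/
theorem chv_subst_edge (hE : Edge G a b p q E) (hrs : p * s = q * r + 1) (μ : k) (N : ℕ) :
    (MvPowerSeries.C μ + MvPowerSeries.X 1) ^ (r * N) *
      MvPowerSeries.subst (tov p q r s μ) (chv_edge G a b p q E) =
    MvPowerSeries.X 0 ^ (a * p + b * q) * Polynomial.aeval (MvPowerSeries.X 1 : PS k)
      ((Polynomial.X ^ (r * (N + a) + s * b - E) * edp G a b p q E).comp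
        (Polynomial.X + Polynomial.C μ)) := by
  have hsub := chv_hasSubst hE.p0 hE.q0 r s μ
  have hs : 0 < s := by
    rcases Nat.eq_zero_or_pos s with h | h
    · rw [h] at hrs
      omega
    · exact h
  have hEb : E ≤ s * b := by
    have h1 : E ≤ p * E := Nat.le_mul_of_pos_left E hE.p0
    have h2 : b ≤ s * b := Nat.le_mul_of_pos_left b hs
    have := hE.eb
    omega
  unfold chv_edge
  rw [← MvPowerSeries.coe_substAlgHom hsub, map_sum, Finset.mul_sum]
  unfold edp
  rw [Finset.mul_sum, Polynomial.sum_comp, map_sum, Finset.mul_sum]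
  apply Finset.sum_congr rfl
  intro n hn
  rw [Finset.mem_range] at hn
  rw [MvPowerSeries.coe_substAlgHom hsub, MvPowerSeries.subst_monomial hsub, chv_prod,
    vtx_ix_zero, vtx_ix_one]
  have hpn : p * n ≤ b := (Nat.mul_le_mul_left p (by omega)).trans hE.eb
  have hw : (a + q * n) * p + (b - p * n) * q = a * p + b * q := by
    obtain ⟨c, hc⟩ := Nat.exists_eq_add_of_le hpn
    have h6 : b - p * n = c := by omega
    rw [h6, hc]
    ring
  rw [hw]
  have hexp : r * N + (r * (a + q * n) + s * (b - p * n)) =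
      (r * (N + a) + s * b - E) + (E - n) := by
    obtain ⟨c, hc⟩ := Nat.exists_eq_add_of_le hpn
    have h6 : b - p * n = c := by omega
    have h7 : s * b = s * (p * n) + s * c := by rw [hc]; ring
    have h8 : s * (p * n) = (q * r + 1) * n := by
      rw [← hrs]
      ring
    have h9 : (q * r + 1) * n = r * (q * n) + n := by ring
    have h10 : r * (a + q * n) = r * a + r * (q * n) := by ring
    have h11 : r * (N + a) = r * N + r * a := by ring
    rw [h6, h10, h11]
    omega
  have h12 : (MvPowerSeries.C μ + MvPowerSeries.X 1 : PS k) ^ (r * N) *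
      (MvPowerSeries.C μ + MvPowerSeries.X 1) ^ (r * (a + q * n) + s * (b - p * n)) =
      (MvPowerSeries.C μ + MvPowerSeries.X 1) ^ (r * (N + a) + s * b - E) *
      (MvPowerSeries.C μ + MvPowerSeries.X 1) ^ (E - n) := by
    rw [← pow_add, ← pow_add, hexp]
  rw [Polynomial.mul_comp, Polynomial.mul_comp, Polynomial.pow_comp, Polynomial.pow_comp,
    Polynomial.X_comp, Polynomial.C_comp, map_mul, map_mul]
  have h13 : Polynomial.aeval (MvPowerSeries.X 1 : PS k) (Polynomial.C (cf G (a + q * n) (b - p * n)))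
      = MvPowerSeries.C (cf G (a + q * n) (b - p * n)) := by
    rw [Polynomial.aeval_C, MvPowerSeries.algebraMap_apply]
    rfl
  have h14 : (algebraMap k (MvPowerSeries (Fin 2) k)) (cf G (a + q * n) (b - p * n)) =
      MvPowerSeries.C (cf G (a + q * n) (b - p * n)) := by
    rw [MvPowerSeries.algebraMap_apply]
    rfl
  rw [h13, add_comm (Polynomial.X) (Polynomial.C μ), ← chv_av_pow, ← chv_av_pow, h14]
  linear_combination (MvPowerSeries.C (cf G (a + q * n) (b - p * n)) *
    MvPowerSeries.X 0 ^ (a * p + b * q)) * h12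

theorem vtx_chd (hE : Edge G a b p q E) (hrs : p * s = q * r + 1) {μ : k} (hμ : μ ≠ 0) (N : ℕ) :
    Vtx (chd N p q (a * p + b * q) r s μ G) 1 0 0
      ((edp G a b p q E).rootMultiplicity μ) := by
  set Q : Polynomial k := Polynomial.X ^ (r * (N + a) + s * b - E) * edp G a b p q E with hQ
  have hne := vtx_edp_ne hE
  have hXne : (Polynomial.X : Polynomial k) ^ (r * (N + a) + s * b - E) ≠ 0 :=
    pow_ne_zero _ Polynomial.X_ne_zero
  have hQ0 : Q ≠ 0 := mul_ne_zero hXne hne
  have hmult : Q.rootMultiplicity μ = (edp G a b p q E).rootMultiplicity μ := by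
    rw [hQ, Polynomial.rootMultiplicity_mul hQ0, Polynomial.rootMultiplicity_eq_zero, zero_add]
    rw [Polynomial.IsRoot.def, Polynomial.eval_pow, Polynomial.eval_X]
    exact pow_ne_zero _ hμ
  have hcomp : Q.comp (Polynomial.X + Polynomial.C μ) ≠ 0 := by
    intro h
    apply hQ0
    have h1 := congrArg (fun P : Polynomial k => P.comp (Polynomial.X - Polynomial.C μ)) h
    simp only [Polynomial.comp_assoc, Polynomial.add_comp, Polynomial.X_comp, Polynomial.C_comp,
      sub_add_cancel, Polynomial.comp_X, Polynomial.zero_comp] at h1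
    exact h1
  have hm2 : (Q.comp (Polynomial.X + Polynomial.C μ)).natTrailingDegree =
      (edp G a b p q E).rootMultiplicity μ := by
    rw [← hmult, Polynomial.rootMultiplicity_eq_natTrailingDegree]
  obtain ⟨F, hF⟩ := chv_dvd (r := r) (s := s) (μ := μ) hE.p0 hE.q0
    (fun i j h => chv_rest hE (i := i) (j := j) h)
  have hsub := chv_hasSubst hE.p0 hE.q0 r s μ
  have hdec : MvPowerSeries.subst (tov p q r s μ) G =
      MvPowerSeries.subst (tov p q r s μ) (chv_edge G a b p q E) +
        MvPowerSeries.X 0 ^ (a * p + b * q + 1) * F := by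
    rw [← hF, ← MvPowerSeries.subst_add hsub, add_sub_cancel]
  have hchd : chd N p q (a * p + b * q) r s μ G =
      Polynomial.aeval (MvPowerSeries.X 1 : PS k) (Q.comp (Polynomial.X + Polynomial.C μ)) +
        MvPowerSeries.X 0 ^ 1 * ((MvPowerSeries.C μ + MvPowerSeries.X 1) ^ (r * N) * F) := by
    unfold chd
    rw [hdec, mul_add, chv_subst_edge hE hrs μ N, ← hQ]
    have h1 : MvPowerSeries.X 0 ^ (a * p + b * q) * Polynomial.aeval (MvPowerSeries.X 1 : PS k)
          (Q.comp (Polynomial.X + Polynomial.C μ)) +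
        (MvPowerSeries.C μ + MvPowerSeries.X 1) ^ (r * N) *
          (MvPowerSeries.X 0 ^ (a * p + b * q + 1) * F) =
        MvPowerSeries.X 0 ^ (a * p + b * q) * (Polynomial.aeval (MvPowerSeries.X 1 : PS k)
          (Q.comp (Polynomial.X + Polynomial.C μ)) +
        MvPowerSeries.X 0 ^ 1 * ((MvPowerSeries.C μ + MvPowerSeries.X 1) ^ (r * N) * F)) := by
      ring
    rw [h1, chv_dvX]
  have hcf : ∀ j, cf (chd N p q (a * p + b * q) r s μ G) 0 j =
      (Q.comp (Polynomial.X + Polynomial.C μ)).coeff j := by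
    intro j
    rw [hchd]
    have h1 : ∀ A B : PS k, cf (A + B) 0 j = cf A 0 j + cf B 0 j := by
      intro A B
      unfold cf
      rw [map_add]
    rw [h1, chv_cf_av, if_pos rfl, chv_cf_mul_lt 1 _ j (by norm_num), add_zero]
  refine ⟨?_, fun i j hij => ⟨by omega, fun h => ?_⟩⟩
  · rw [hcf, ← hm2]
    exact Polynomial.trailingCoeff_nonzero_iff_nonzero.2 hcomp
  · have hi : i = 0 := by omega
    subst hi
    rw [hcf] at hij
    rw [← hm2]
    exact Polynomial.natTrailingDegree_le_of_ne_zero hij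

end CHV

end Pool.Agent.H75.Mono
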