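import Pool.Agent.H75.Plc.DER
import Pool.Agent.H75.Plc.CHV
import Pool.Agent.H75.Plc.CH1

/-! # PLC, module CH2: charts: transform at a point of a divisor -/

set_option autoImplicit false

namespace Pool.Agent.H75.Mono

open MvPolynomial Pool.Agent.H39.MonoR

section CH2

variable {k : Type} [Field k] {F : MvPolynomial (Fin 2) k} {P : Fin 2 → k} {G : PS k}

theorem Cht.chd {N ν p q c r s : ℕ} (hC : Cht F P N ν G) (hν : 0 < ν) (hp : 0 < p) (hq : 0 < q)
    (hrs : p * s = q * r + 1) {μ : k} (hμ : μ ≠ 0)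
    (hc : ∀ i j, cf G i j ≠ 0 → c ≤ i * p + j * q) :
    Cht F P (N * p + c) (ν * p + q) (Mono.chd N p q c r s μ G) := by
  have e0 : tov p q r s μ 0 =
      MvPowerSeries.X 0 ^ p * (MvPowerSeries.C μ + MvPowerSeries.X 1) ^ r := rfl
  have e1 : tov p q r s μ 1 =
      MvPowerSeries.X 0 ^ q * (MvPowerSeries.C μ + MvPowerSeries.X 1) ^ s := rfl
  have ha0 : ∀ i, MvPowerSeries.constantCoeff (tov p q r s μ i) = 0 := by
    intro i
    fin_cases i
    · show MvPowerSeries.constantCoeff (tov p q r s μ 0) = 0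
      rw [e0, map_mul, map_pow, MvPowerSeries.constantCoeff_X, zero_pow hp.ne', zero_mul]
    · show MvPowerSeries.constantCoeff (tov p q r s μ 1) = 0
      rw [e1, map_mul, map_pow, MvPowerSeries.constantCoeff_X, zero_pow hq.ne', zero_mul]
  have hs := MvPowerSeries.hasSubst_of_constantCoeff_zero ha0
  have hs1 : 1 ≤ s := by
    rcases Nat.eq_zero_or_pos s with h | h
    · rw [h, mul_zero] at hrs; omega
    · exact h
  refine ch1_comp hC ha0 ?_ ⟨(MvPowerSeries.C μ + MvPowerSeries.X 1) ^ (r * (ν - 1) + (r + s - 1)),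
    ?_, ?_⟩
  · rw [MvPowerSeries.subst_mul hs, MvPowerSeries.subst_pow hs, MvPowerSeries.subst_X hs, e0,
      pow_add, mul_assoc, chd_spec hp hq hc]
    ring
  · rw [map_pow, map_add, MvPowerSeries.constantCoeff_C, MvPowerSeries.constantCoeff_X, add_zero]
    exact pow_ne_zero _ hμ
  · rw [MvPowerSeries.subst_pow hs, MvPowerSeries.subst_X hs]
    have hJ : ch1J (tov p q r s μ) = MvPowerSeries.X 0 ^ (p + q - 1) *
        (MvPowerSeries.C μ + MvPowerSeries.X 1) ^ (r + s - 1) := by
      unfold ch1J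
      have hW0 : MvPowerSeries.pderiv k 0 (MvPowerSeries.C μ + MvPowerSeries.X 1 : PS k) = 0 := by
        rw [map_add, MvPowerSeries.pderiv_C, MvPowerSeries.pderiv_X_of_ne (by decide), add_zero]
      have hW1 : MvPowerSeries.pderiv k 1 (MvPowerSeries.C μ + MvPowerSeries.X 1 : PS k) = 1 := by
        rw [map_add, MvPowerSeries.pderiv_C, MvPowerSeries.pderiv_X_self, zero_add]
      have hX0 : MvPowerSeries.pderiv k 0 (MvPowerSeries.X 0 : PS k) = 1 :=
        MvPowerSeries.pderiv_X_self
      have hX1 : MvPowerSeries.pderiv k 1 (MvPowerSeries.X 0 : PS k) = 0 :=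
        MvPowerSeries.pderiv_X_of_ne (by decide)
      rw [e0, e1]
      set W : PS k := MvPowerSeries.C μ + MvPowerSeries.X 1
      simp only [Derivation.leibniz, MvPowerSeries.pderiv_pow, smul_eq_mul, hW0, hW1, hX0, hX1]
      have hcast : (p : PS k) * s = q * r + 1 := by
        have := congrArg (Nat.cast : ℕ → PS k) hrs
        push_cast at this
        exact this
      have hXq : (MvPowerSeries.X 0 : PS k) ^ (p - 1) * MvPowerSeries.X 0 ^ q =
          MvPowerSeries.X 0 ^ (p + q - 1) := by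
        rw [← pow_add]; congr 1; omega
      have hXp : (MvPowerSeries.X 0 : PS k) ^ (q - 1) * MvPowerSeries.X 0 ^ p =
          MvPowerSeries.X 0 ^ (p + q - 1) := by
        rw [← pow_add]; congr 1; omega
      have hWs : W ^ r * W ^ (s - 1) = W ^ (r + s - 1) := by
        rw [← pow_add]; congr 1; omega
      have hWr : (r : PS k) * (W ^ s * W ^ (r - 1)) = r * W ^ (r + s - 1) := by
        rcases Nat.eq_zero_or_pos r with h | h
        · rw [h]; simp
        · rw [← pow_add]; congr 2; omega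
      calc _ = ((p : PS k) * (s : PS k)) *
              ((MvPowerSeries.X 0 : PS k) ^ (p - 1) * (MvPowerSeries.X 0 : PS k) ^ q) *
            (W ^ r * W ^ (s - 1)) -
              (q : PS k) * ((MvPowerSeries.X 0 : PS k) ^ (q - 1) * (MvPowerSeries.X 0 : PS k) ^ p) *
            ((r : PS k) * (W ^ s * W ^ (r - 1))) := by ring
        _ = _ := by rw [hXq, hXp, hWs, hWr, hcast]; ring
    rw [hJ, e0]
    have e3 : ν * p + q - 1 = p * (ν - 1) + (p + q - 1) := by
      obtain ⟨n, rfl⟩ : ∃ n, ν = n + 1 := ⟨ν - 1, by omega⟩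
      rw [Nat.add_sub_cancel]
      have : (n + 1) * p = p * n + p := by ring
      omega
    rw [e3, pow_add, pow_add (MvPowerSeries.C μ + MvPowerSeries.X 1 : PS k), pow_mul, pow_mul]
    ring

end CH2

end Pool.Agent.H75.Mono
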