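import Pool.Agent.H75.Plc.P0

/-! # PLC, module SRM: roots given by multiple components -/

set_option autoImplicit false

namespace Pool.Agent.H75.Mono

open MvPolynomial Pool.Agent.H39.MonoR

section SRM

variable {k : Type} [Field k] [CharZero k] {σ : Type}

/-- the local ring of the prime `P`, as a subspace of the field of rational functions -/
noncomputable def srmO {P : MvPolynomial σ k} (hP : Prime P) :
    Submodule k (FractionRing (MvPolynomial σ k)) where
  carrier := {x | ∃ v u : MvPolynomial σ k, ¬ P ∣ v ∧ x * algebraMap _ _ v = algebraMap _ _ u}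
  zero_mem' := ⟨1, 0, fun h => hP.not_unit (isUnit_of_dvd_one h), by simp⟩
  add_mem' := by
    rintro x y ⟨v, u, hv, hx⟩ ⟨w, z, hw, hy⟩
    refine ⟨v * w, u * w + z * v, fun h => (hP.dvd_or_dvd h).elim hv hw, ?_⟩
    rw [map_mul, map_add, map_mul, map_mul, ← hx, ← hy]
    ring
  smul_mem' := by
    rintro c x ⟨v, u, hv, hx⟩
    refine ⟨v, C c * u, hv, ?_⟩
    rw [map_mul, ← hx, Algebra.smul_def, mul_assoc]
    rfl

theorem SRs.of_pow {F P Q : MvPolynomial σ k} {m : ℕ} (hF : F = P ^ m * Q)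
    (hP : Irreducible P) (hQ : ¬ P ∣ Q) (hm : 2 ≤ m) : SRs k F ((1 : ℚ) / m) := by
  have hpr : Prime P := hP.prime
  choose D hD using fun i : σ => exists_der (k := k) i
  set η : (FractionRing (MvPolynomial σ k)) := algebraMap _ _ P with hη
  set θ : (FractionRing (MvPolynomial σ k)) := algebraMap _ _ Q with hθ
  have hinj := IsFractionRing.injective (MvPolynomial σ k) (FractionRing (MvPolynomial σ k))
  have hη0 : η ≠ 0 := (map_ne_zero_iff _ hinj).mpr hpr.ne_zero
  have hQ0 : Q ≠ 0 := fun h => hQ (h ▸ dvd_zero _)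
  have hθ0 : θ ≠ 0 := (map_ne_zero_iff _ hinj).mpr hQ0
  have hm0 : (m : k) ≠ 0 := by
    have : m ≠ 0 := by omega
    exact_mod_cast this
  have hmK : (m : (FractionRing (MvPolynomial σ k))) ≠ 0 := by
    have := (map_ne_zero_iff _ (algebraMap k (FractionRing (MvPolynomial σ k))).injective).mpr hm0
    rwa [map_natCast] at this
  let N : Submodule k (FractionRing (MvPolynomial σ k)) := srmO hpr
  let q : (FractionRing (MvPolynomial σ k)) →ₗ[k] (FractionRing (MvPolynomial σ k)) ⧸ N := N.mkQ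
  have hinv : ∀ i (j : ℕ), D i (η⁻¹ ^ j) =
      -((j : (FractionRing (MvPolynomial σ k))) * (algebraMap _ (FractionRing (MvPolynomial σ k)) (pderiv i P) * η⁻¹ ^ (j + 1))) := by
    intro i j
    rw [Derivation.leibniz_pow, Derivation.leibniz_inv, hη, hD]
    simp only [smul_eq_mul, nsmul_eq_mul]
    cases j with
    | zero => simp
    | succ j =>
      simp only [Nat.add_sub_cancel]
      ring
  have hinvQ : ∀ i (j : ℕ), D i (θ⁻¹ ^ j) =
      -((j : (FractionRing (MvPolynomial σ k))) * (algebraMap _ (FractionRing (MvPolynomial σ k)) (pderiv i Q) * θ⁻¹ ^ (j + 1))) := by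
    intro i j
    rw [Derivation.leibniz_pow, Derivation.leibniz_inv, hθ, hD]
    simp only [smul_eq_mul, nsmul_eq_mul]
    cases j with
    | zero => simp
    | succ j =>
      simp only [Nat.add_sub_cancel]
      ring
  let μ : σ → (FractionRing (MvPolynomial σ k)) := fun i => (m : (FractionRing (MvPolynomial σ k)))⁻¹ * (algebraMap _ (FractionRing (MvPolynomial σ k)) (pderiv i Q) * θ⁻¹)
  let T : σ → (FractionRing (MvPolynomial σ k)) →ₗ[k] (FractionRing (MvPolynomial σ k)) := fun i => (D i : (FractionRing (MvPolynomial σ k)) →ₗ[k] (FractionRing (MvPolynomial σ k))) - LinearMap.mulLeft k (μ i)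
  have hT : ∀ i x, T i x = D i x - μ i * x := fun i x => rfl
  have hTN : ∀ i, N ≤ N.comap (T i) := by
    rintro i x ⟨v, u, hv, hx⟩
    refine ⟨v * v * Q, pderiv i u * v * Q - u * pderiv i v * Q - C ((m : k)⁻¹) * pderiv i Q * u * v,
      fun h => ?_, ?_⟩
    · rcases hpr.dvd_or_dvd h with h | h
      · exact (hpr.dvd_or_dvd h).elim hv hv
      · exact hQ h
    · have h1 := congrArg (D i) hx
      rw [Derivation.leibniz, hD, hD] at h1
      simp only [smul_eq_mul] at h1
      rw [hT]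
      have hC : algebraMap (MvPolynomial σ k) (FractionRing (MvPolynomial σ k)) (C ((m : k)⁻¹)) = (m : (FractionRing (MvPolynomial σ k)))⁻¹ := by
        have h2 : algebraMap (MvPolynomial σ k) (FractionRing (MvPolynomial σ k)) (C ((m : k)⁻¹)) = algebraMap k (FractionRing (MvPolynomial σ k)) ((m : k)⁻¹) := rfl
        rw [h2, map_inv₀, map_natCast]
      simp only [map_mul, map_sub, hC, μ, ← hθ]
      have h3 : θ⁻¹ * θ = 1 := inv_mul_cancel₀ hθ0
      set v' := algebraMap (MvPolynomial σ k) (FractionRing (MvPolynomial σ k)) v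
      set u' := algebraMap (MvPolynomial σ k) (FractionRing (MvPolynomial σ k)) u
      set dv := algebraMap (MvPolynomial σ k) (FractionRing (MvPolynomial σ k)) (pderiv i v)
      set du := algebraMap (MvPolynomial σ k) (FractionRing (MvPolynomial σ k)) (pderiv i u)
      set dq := algebraMap (MvPolynomial σ k) (FractionRing (MvPolynomial σ k)) (pderiv i Q)
      rw [← h1, ← hx]
      calc _ = D i x * v' * v' * θ - (m : (FractionRing (MvPolynomial σ k)))⁻¹ * dq * x * v' * v' * (θ⁻¹ * θ) := by ring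
        _ = _ := by rw [h3]; ring
  have hsN : ∀ p : MvPolynomial σ k, N ≤ N.comap (Algebra.lsmul k k (FractionRing (MvPolynomial σ k)) p) := by
    rintro p x ⟨v, u, hv, hx⟩
    refine ⟨v, p * u, hv, ?_⟩
    show (p • x) * _ = _
    rw [map_mul, ← hx, Algebra.smul_def]
    ring
  let ρ : MvPolynomial σ k →ₐ[k] Module.End k ((FractionRing (MvPolynomial σ k)) ⧸ N) :=
    AlgHom.ofLinearMap
      { toFun := fun p => N.mapQ N (Algebra.lsmul k k (FractionRing (MvPolynomial σ k)) p) (hsN p)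
        map_add' := fun p r => by
          ext x
          simp
        map_smul' := fun c p => by
          ext x
          simp }
      (by ext x; simp)
      (fun p r => by
        ext x
        simp)
  have hρ : ∀ p x, ρ p (q x) = q (algebraMap _ (FractionRing (MvPolynomial σ k)) p * x) := by
    intro p x
    show N.mapQ N (Algebra.lsmul k k (FractionRing (MvPolynomial σ k)) p) (hsN p) (q x) = _
    rw [← Algebra.smul_def]
    rfl
  let Δ : σ → Module.End k ((FractionRing (MvPolynomial σ k)) ⧸ N) := fun i => N.mapQ N (T i) (hTN i)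
  have hΔ : ∀ i x, Δ i (q x) = q (T i x) := fun i x => rfl
  have hq0 : ∀ p : MvPolynomial σ k, q (algebraMap _ (FractionRing (MvPolynomial σ k)) p) = 0 := by
    intro p
    rw [Submodule.mkQ_apply, Submodule.Quotient.mk_eq_zero]
    exact ⟨1, p, fun h => hpr.not_unit (isUnit_of_dvd_one h), by simp⟩
  have hdF : ∀ i, algebraMap (MvPolynomial σ k) (FractionRing (MvPolynomial σ k)) (pderiv i F) =
      (m : (FractionRing (MvPolynomial σ k))) * η ^ (m - 1) * θ * algebraMap _ (FractionRing (MvPolynomial σ k)) (pderiv i P) +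
        η ^ m * algebraMap _ (FractionRing (MvPolynomial σ k)) (pderiv i Q) := by
    intro i
    rw [hF, Derivation.leibniz, Derivation.leibniz_pow]
    simp only [smul_eq_mul, nsmul_eq_mul, map_add, map_mul, map_pow, map_natCast]
    ring
  have hηm : ∀ n : ℕ, η ^ n * η⁻¹ ^ n = 1 := fun n => by
    rw [← mul_pow, mul_inv_cancel₀ hη0, one_pow]
  have hθ1 : θ * θ⁻¹ = 1 := mul_inv_cancel₀ hθ0
  obtain ⟨m', rfl⟩ : ∃ m', m = m' + 1 := ⟨m - 1, by omega⟩
  let c : Chain k F ((1 : ℚ) / ((m' + 1 : ℕ) : ℚ)) :=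
    { V := (FractionRing (MvPolynomial σ k)) ⧸ N
      ρ := ρ
      D := Δ
      leib := fun i p v => by
        obtain ⟨x, rfl⟩ := N.mkQ_surjective v
        show Δ i (ρ p (q x)) = ρ _ (q x) + ρ p (Δ i (q x))
        rw [hρ, hΔ, hρ, hΔ, hρ, ← map_add, hT, hT, Derivation.leibniz, hD]
        simp only [smul_eq_mul]
        congr 1
        ring
      e := fun j => q (η⁻¹ ^ ((m' + 1) * j + 1) * θ⁻¹ ^ j)
      mul := fun j => by
        rw [hρ, hF]
        congr 1
        rw [map_mul, map_pow, ← hη, ← hθ]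
        have h1 : (m' + 1) * (j + 1) + 1 = (m' + 1) + ((m' + 1) * j + 1) := by ring
        rw [h1, pow_add η⁻¹ (m' + 1), pow_succ' θ⁻¹ j]
        calc _ = (η ^ (m' + 1) * η⁻¹ ^ (m' + 1)) * (θ * θ⁻¹) *
              (η⁻¹ ^ ((m' + 1) * j + 1) * θ⁻¹ ^ j) := by ring
          _ = _ := by rw [hηm, hθ1]; ring
      der := fun i j => by
        rw [hΔ, hρ, hdF, ← map_smul, Algebra.smul_def]
        congr 1
        rw [hT, Derivation.leibniz, hinv, hinvQ]
        simp only [smul_eq_mul, μ]
        have h1 : algebraMap k (FractionRing (MvPolynomial σ k)) (-((((1 : ℚ) / ((m' + 1 : ℕ) : ℚ) : ℚ) : k) + j)) =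
            -(((m' + 1 : ℕ) : (FractionRing (MvPolynomial σ k)))⁻¹ + (j : (FractionRing (MvPolynomial σ k)))) := by
          rw [map_neg, map_add, map_natCast]
          congr 2
          rw [Rat.cast_div, Rat.cast_one, Rat.cast_natCast, one_div, map_inv₀, map_natCast]
        rw [h1]
        have e1 : (m' + 1) * (j + 1) + 1 = m' + ((m' + 1) * j + 1 + 1) := by ring
        have e2 : m' + 1 - 1 = m' := rfl
        have hM : (((m' + 1 : ℕ) : (FractionRing (MvPolynomial σ k)))⁻¹ + (j : (FractionRing (MvPolynomial σ k)))) * ((m' + 1 : ℕ) : (FractionRing (MvPolynomial σ k))) =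
            (((m' + 1) * j + 1 : ℕ) : (FractionRing (MvPolynomial σ k))) := by
          rw [add_mul, inv_mul_cancel₀ hmK]
          push_cast
          ring_nf
        rw [e1, pow_add η⁻¹ m', pow_succ' θ⁻¹ j, e2]
        set dp := algebraMap (MvPolynomial σ k) (FractionRing (MvPolynomial σ k)) (pderiv i P)
        set dq := algebraMap (MvPolynomial σ k) (FractionRing (MvPolynomial σ k)) (pderiv i Q)
        rw [pow_succ η m']
        calc _ = -(((m' + 1) * j + 1 : ℕ) : (FractionRing (MvPolynomial σ k))) * dp * η⁻¹ ^ ((m' + 1) * j + 1 + 1) * θ⁻¹ ^ j -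
              (((m' + 1 : ℕ) : (FractionRing (MvPolynomial σ k)))⁻¹ + j) * dq * η⁻¹ ^ ((m' + 1) * j + 1) * (θ⁻¹ * θ⁻¹ ^ j) := by ring
          _ = -((((m' + 1 : ℕ) : (FractionRing (MvPolynomial σ k)))⁻¹ + (j : (FractionRing (MvPolynomial σ k)))) * ((m' + 1 : ℕ) : (FractionRing (MvPolynomial σ k)))) * dp *
                η⁻¹ ^ ((m' + 1) * j + 1 + 1) * θ⁻¹ ^ j -
              (((m' + 1 : ℕ) : (FractionRing (MvPolynomial σ k)))⁻¹ + j) * dq * η⁻¹ ^ ((m' + 1) * j + 1) * (θ⁻¹ * θ⁻¹ ^ j) := by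
              rw [hM]
          _ = -((((m' + 1 : ℕ) : (FractionRing (MvPolynomial σ k)))⁻¹ + (j : (FractionRing (MvPolynomial σ k)))) * ((m' + 1 : ℕ) : (FractionRing (MvPolynomial σ k)))) * dp *
                (η ^ m' * η⁻¹ ^ m') * (θ * θ⁻¹) *
                η⁻¹ ^ ((m' + 1) * j + 1 + 1) * θ⁻¹ ^ j -
              (((m' + 1 : ℕ) : (FractionRing (MvPolynomial σ k)))⁻¹ + j) * dq * (η ^ m' * η⁻¹ ^ m') * (η * η⁻¹) *
                η⁻¹ ^ ((m' + 1) * j + 1) * (θ⁻¹ * θ⁻¹ ^ j) := by
              rw [hηm, hθ1, mul_inv_cancel₀ hη0]; ring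
          _ = _ := by
              rw [pow_succ' η⁻¹ ((m' + 1) * j + 1)]
              ring
      ne := by
        intro h0
        rw [Submodule.mkQ_apply, Submodule.Quotient.mk_eq_zero] at h0
        obtain ⟨v, u, hv, h1⟩ := h0
        apply hv
        refine ⟨u, hinj ?_⟩
        rw [map_mul, ← h1, ← hη, mul_zero, zero_add, pow_one, pow_zero, _root_.mul_one, ← mul_assoc,
          mul_inv_cancel₀ hη0, one_mul] }
  refine ⟨c, ?_, fun i => ?_⟩
  · show ρ F (q (η⁻¹ ^ ((m' + 1) * 0 + 1) * θ⁻¹ ^ 0)) = 0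
    rw [hρ, hF]
    have h1 : algebraMap (MvPolynomial σ k) (FractionRing (MvPolynomial σ k)) (P ^ (m' + 1) * Q) *
        (η⁻¹ ^ ((m' + 1) * 0 + 1) * θ⁻¹ ^ 0) = algebraMap (MvPolynomial σ k) (FractionRing (MvPolynomial σ k)) (P ^ m' * Q) := by
      rw [mul_zero, zero_add, pow_one, pow_zero, _root_.mul_one, map_mul, map_mul, map_pow, map_pow,
        ← hη, pow_succ]
      calc _ = η ^ m' * algebraMap (MvPolynomial σ k) (FractionRing (MvPolynomial σ k)) Q * (η * η⁻¹) := by ring
        _ = _ := by rw [mul_inv_cancel₀ hη0, _root_.mul_one]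
    rw [h1, hq0]
  · show ρ (pderiv i F) (q (η⁻¹ ^ ((m' + 1) * 0 + 1) * θ⁻¹ ^ 0)) = 0
    obtain ⟨n, rfl⟩ : ∃ n, m' = n + 1 := ⟨m' - 1, by omega⟩
    obtain ⟨z, hz⟩ : ∃ z : MvPolynomial σ k, algebraMap (MvPolynomial σ k) (FractionRing (MvPolynomial σ k)) z =
        ((n + 1 + 1 : ℕ) : (FractionRing (MvPolynomial σ k))) := ⟨((n + 1 + 1 : ℕ) : MvPolynomial σ k), map_natCast _ _⟩
    have h1 : algebraMap (MvPolynomial σ k) (FractionRing (MvPolynomial σ k)) (pderiv i F) *
        (η⁻¹ ^ ((n + 1 + 1) * 0 + 1) * θ⁻¹ ^ 0) =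
        algebraMap (MvPolynomial σ k) (FractionRing (MvPolynomial σ k)) (z * P ^ n * Q * pderiv i P + P ^ (n + 1) * pderiv i Q) := by
      have e2 : n + 1 + 1 - 1 = n + 1 := rfl
      rw [hdF, mul_zero, zero_add, pow_one, pow_zero, _root_.mul_one, e2, map_add, map_mul, map_mul,
        map_mul, map_mul, map_pow, map_pow, ← hη, ← hθ, hz]
      generalize ((n + 1 + 1 : ℕ) : (FractionRing (MvPolynomial σ k))) = m1
      generalize algebraMap (MvPolynomial σ k) (FractionRing (MvPolynomial σ k)) (pderiv i P) = dp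
      generalize algebraMap (MvPolynomial σ k) (FractionRing (MvPolynomial σ k)) (pderiv i Q) = dq
      calc _ = m1 * η ^ n * θ * dp * (η * η⁻¹) + η ^ n * η * dq * (η * η⁻¹) := by ring
        _ = _ := by rw [mul_inv_cancel₀ hη0]; ring
    rw [hρ]
    rw [h1, hq0]

end SRM

end Pool.Agent.H75.Mono
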