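import Pool.Agent.H75.Plc.P0

/-! # PLC, module DER: derivations and substitutions -/

set_option autoImplicit false
set_option linter.unusedVariables false

namespace Pool.Agent.H75.Mono

open MvPolynomial Pool.Agent.H39.MonoR

section DER

variable {k : Type} [Field k]

/-- decomposition of a power series -/
private theorem der_decomp (G : PS k) : ∃ G0 G1 : PS k,
    G = MvPowerSeries.C (MvPowerSeries.constantCoeff G) + MvPowerSeries.X 0 * G0 +
      MvPowerSeries.X 1 * G1 := by
  classical
  set A : PS k := fun n => if n 0 = 0 then 0 else MvPowerSeries.coeff n G with hA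
  set B : PS k := fun n => if n 0 = 0 ∧ n 1 ≠ 0 then MvPowerSeries.coeff n G else 0 with hB
  have h0 : MvPowerSeries.X 0 ∣ A := by
    rw [MvPowerSeries.X_dvd_iff]
    intro m hm
    show A m = 0
    rw [hA]
    simp [hm]
  have h1 : MvPowerSeries.X 1 ∣ B := by
    rw [MvPowerSeries.X_dvd_iff]
    intro m hm
    show B m = 0
    rw [hB]
    simp [hm]
  obtain ⟨G0, e0⟩ := h0
  obtain ⟨G1, e1⟩ := h1
  refine ⟨G0, G1, ?_⟩
  rw [← e0, ← e1]
  ext n
  rw [map_add, map_add, MvPowerSeries.coeff_C]
  have a : MvPowerSeries.coeff n A = if n 0 = 0 then 0 else MvPowerSeries.coeff n G := rfl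
  have b : MvPowerSeries.coeff n B = if n 0 = 0 ∧ n 1 ≠ 0 then MvPowerSeries.coeff n G else 0 := rfl
  rw [a, b]
  by_cases h0 : n 0 = 0
  · by_cases h1 : n 1 = 0
    · have hn : n = 0 := by
        ext i
        fin_cases i
        · exact h0
        · exact h1
      subst hn
      simp
    · have hn : n ≠ 0 := by
        rintro rfl
        exact h1 rfl
      simp [h0, h1, hn]
  · have hn : n ≠ 0 := by
      rintro rfl
      exact h0 rfl
    simp [h0, hn]

/-- a map along a ring homomorphism which behaves like a derivation that vanishes on the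
variables and the constants is zero -/
private theorem der_zero {B : Type} [CommRing B] (E : PS k → B) (a0 a1 : B)
    (hadd : ∀ G H, E (G + H) = E G + E H) (hC : ∀ c, E (MvPowerSeries.C c) = 0)
    (h0 : ∀ G, E (MvPowerSeries.X 0 * G) = a0 * E G)
    (h1 : ∀ G, E (MvPowerSeries.X 1 * G) = a1 * E G) (Q : ℕ → B → Prop)
    (hQ0 : ∀ b, Q 0 b) (hQa : ∀ n b c, Q n b → Q n c → Q n (b + c))
    (hQ1 : ∀ n b, Q n b → Q (n + 1) (a0 * b)) (hQ2 : ∀ n b, Q n b → Q (n + 1) (a1 * b))
    (hQ : ∀ b, (∀ n, Q n b) → b = 0) : ∀ G, E G = 0 := by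
  have key : ∀ n, ∀ G, Q n (E G) := by
    intro n
    induction n with
    | zero => exact fun G => hQ0 _
    | succ n ih =>
      intro G
      obtain ⟨G0, G1, e⟩ := der_decomp G
      rw [e, hadd, hadd, hC, zero_add, h0, h1]
      exact hQa _ _ _ (hQ1 _ _ (ih G0)) (hQ2 _ _ (ih G1))
  exact fun G => hQ _ (fun n => key n G)

theorem pderiv_subst {a : Fin 2 → PS k} (ha : ∀ i, MvPowerSeries.constantCoeff (a i) = 0)
    (G : PS k) (i : Fin 2) : MvPowerSeries.pderiv k i (MvPowerSeries.subst a G) =
      MvPowerSeries.subst a (MvPowerSeries.pderiv k 0 G) * MvPowerSeries.pderiv k i (a 0) +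
      MvPowerSeries.subst a (MvPowerSeries.pderiv k 1 G) * MvPowerSeries.pderiv k i (a 1) := by
  have hs : MvPowerSeries.HasSubst a := MvPowerSeries.hasSubst_of_constantCoeff_zero ha
  have h := der_zero (k := k) (B := PS k) (fun G => MvPowerSeries.pderiv k i (MvPowerSeries.subst a G) -
      (MvPowerSeries.subst a (MvPowerSeries.pderiv k 0 G) * MvPowerSeries.pderiv k i (a 0) +
      MvPowerSeries.subst a (MvPowerSeries.pderiv k 1 G) * MvPowerSeries.pderiv k i (a 1)))
      (a 0) (a 1) ?_ ?_ ?_ ?_ (fun n b => (n : ℕ∞) ≤ b.order) ?_ ?_ ?_ ?_ ?_ G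
  · exact sub_eq_zero.1 h
  · intro G H
    simp only [MvPowerSeries.subst_add hs, map_add]
    ring
  · intro c
    have e : MvPowerSeries.subst a (MvPowerSeries.C c : PS k) = (MvPowerSeries.C c : PS k) :=
      MvPowerSeries.subst_C c
    have e0 : MvPowerSeries.subst a (0 : PS k) = (0 : PS k) := by
      rw [← MvPowerSeries.coe_substAlgHom hs, map_zero]
    simp only [e, MvPowerSeries.pderiv_C, e0]
    ring
  · intro G
    simp only [MvPowerSeries.subst_mul hs, Derivation.leibniz, MvPowerSeries.subst_X hs,
      MvPowerSeries.subst_add hs, MvPowerSeries.pderiv_X_self, smul_eq_mul,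
      MvPowerSeries.pderiv_X_of_ne (show (0 : Fin 2) ≠ 1 by decide), mul_one, mul_zero, add_zero]
    ring
  · intro G
    simp only [MvPowerSeries.subst_mul hs, Derivation.leibniz, MvPowerSeries.subst_X hs,
      MvPowerSeries.subst_add hs, MvPowerSeries.pderiv_X_self, smul_eq_mul,
      MvPowerSeries.pderiv_X_of_ne (show (1 : Fin 2) ≠ 0 by decide), mul_one, mul_zero, add_zero]
    ring
  · intro b
    simp
  · intro n b c h1 h2
    exact (le_min h1 h2).trans MvPowerSeries.min_order_le_add
  · intro n b h1
    refine le_trans ?_ MvPowerSeries.le_order_mul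
    rw [Nat.cast_add, add_comm]
    exact add_le_add (MvPowerSeries.one_le_order_iff_constCoeff_eq_zero.2 (ha 0)) h1
  · intro n b h1
    refine le_trans ?_ MvPowerSeries.le_order_mul
    rw [Nat.cast_add, add_comm]
    exact add_le_add (MvPowerSeries.one_le_order_iff_constCoeff_eq_zero.2 (ha 1)) h1
  · intro b hb
    rw [← MvPowerSeries.order_eq_top_iff]
    exact ENat.eq_top_iff_forall_ge.2 hb


theorem deriv_subst {K : Type} [Field K] [Algebra k K] {x y : PowerSeries K}
    (hx : PowerSeries.constantCoeff x = 0) (hy : PowerSeries.constantCoeff y = 0)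
    (D : Derivation k (PowerSeries K) (PowerSeries K))
    (hD : ∀ (n : ℕ) (f : PowerSeries K), PowerSeries.X ^ (n + 1) ∣ f → PowerSeries.X ^ n ∣ D f)
    (G : PS k) : D (MvPowerSeries.subst (![x, y] : Fin 2 → MvPowerSeries Unit K) G) =
      (MvPowerSeries.subst (![x, y] : Fin 2 → MvPowerSeries Unit K)
        (MvPowerSeries.pderiv k 0 G) : PowerSeries K) * D x +
      (MvPowerSeries.subst (![x, y] : Fin 2 → MvPowerSeries Unit K)
        (MvPowerSeries.pderiv k 1 G) : PowerSeries K) * D y := by
  set a : Fin 2 → MvPowerSeries Unit K := ![x, y] with ha'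
  have ha : ∀ i, MvPowerSeries.constantCoeff (a i) = 0 := by
    intro i
    fin_cases i
    · exact hx
    · exact hy
  have hs : MvPowerSeries.HasSubst a := MvPowerSeries.hasSubst_of_constantCoeff_zero ha
  have hX0 : MvPowerSeries.subst (R := k) a (MvPowerSeries.X 0) = x := MvPowerSeries.subst_X hs 0
  have hX1 : MvPowerSeries.subst (R := k) a (MvPowerSeries.X 1) = y := MvPowerSeries.subst_X hs 1
  have h := der_zero (k := k) (B := PowerSeries K) (fun G => D (MvPowerSeries.subst a G) -
      ((MvPowerSeries.subst a (MvPowerSeries.pderiv k 0 G) : PowerSeries K) * D x +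
      (MvPowerSeries.subst a (MvPowerSeries.pderiv k 1 G) : PowerSeries K) * D y))
      x y ?_ ?_ ?_ ?_ (fun n b => PowerSeries.X ^ n ∣ b) ?_ ?_ ?_ ?_ ?_ G
  · exact sub_eq_zero.1 h
  · intro G H
    have e1 := MvPowerSeries.subst_add hs G H
    have e2 := MvPowerSeries.subst_add hs (MvPowerSeries.pderiv k 0 G) (MvPowerSeries.pderiv k 0 H)
    have e3 := MvPowerSeries.subst_add hs (MvPowerSeries.pderiv k 1 G) (MvPowerSeries.pderiv k 1 H)
    simp only [map_add, e1, e2, e3]
    ring
  · intro c
    have e : (MvPowerSeries.subst a (MvPowerSeries.C c : PS k) : PowerSeries K) =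
        algebraMap k (PowerSeries K) c := by
      have e1 := (MvPowerSeries.substAlgHom (R := k) hs).commutes c
      rw [MvPowerSeries.coe_substAlgHom] at e1
      exact e1
    have e0 : (MvPowerSeries.subst a (0 : PS k) : PowerSeries K) = 0 := by
      rw [← MvPowerSeries.coe_substAlgHom hs]
      exact map_zero _
    have e2 : D (MvPowerSeries.subst a (MvPowerSeries.C c : PS k)) = 0 := by
      rw [e]
      exact D.map_algebraMap c
    simp only [MvPowerSeries.pderiv_C, e0, e2]
    ring
  · intro G
    have e1 : (MvPowerSeries.subst a (MvPowerSeries.X 0 * G) : PowerSeries K) =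
        x * MvPowerSeries.subst a G := by
      have := MvPowerSeries.subst_mul hs (MvPowerSeries.X 0) G
      rw [hX0] at this
      exact this
    have e2 : (MvPowerSeries.subst a (MvPowerSeries.pderiv k 0 (MvPowerSeries.X 0 * G)) :
        PowerSeries K) = x * MvPowerSeries.subst a (MvPowerSeries.pderiv k 0 G) +
          MvPowerSeries.subst a G := by
      rw [Derivation.leibniz, MvPowerSeries.pderiv_X_self, smul_eq_mul, smul_eq_mul, mul_one]
      have h1 := MvPowerSeries.subst_add hs (MvPowerSeries.X 0 * MvPowerSeries.pderiv k 0 G) G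
      have h2 := MvPowerSeries.subst_mul hs (MvPowerSeries.X 0) (MvPowerSeries.pderiv k 0 G)
      rw [hX0] at h2
      rw [h2] at h1
      exact h1
    have e3 : (MvPowerSeries.subst a (MvPowerSeries.pderiv k 1 (MvPowerSeries.X 0 * G)) :
        PowerSeries K) = x * MvPowerSeries.subst a (MvPowerSeries.pderiv k 1 G) := by
      rw [Derivation.leibniz, MvPowerSeries.pderiv_X_of_ne (by decide), smul_eq_mul, smul_zero,
        add_zero]
      have h2 := MvPowerSeries.subst_mul hs (MvPowerSeries.X 0) (MvPowerSeries.pderiv k 1 G)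
      rw [hX0] at h2
      exact h2
    simp only [e1, e2, e3]
    rw [Derivation.leibniz]
    simp only [smul_eq_mul]
    ring
  · intro G
    have e1 : (MvPowerSeries.subst a (MvPowerSeries.X 1 * G) : PowerSeries K) =
        y * MvPowerSeries.subst a G := by
      have := MvPowerSeries.subst_mul hs (MvPowerSeries.X 1) G
      rw [hX1] at this
      exact this
    have e2 : (MvPowerSeries.subst a (MvPowerSeries.pderiv k 1 (MvPowerSeries.X 1 * G)) :
        PowerSeries K) = y * MvPowerSeries.subst a (MvPowerSeries.pderiv k 1 G) +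
          MvPowerSeries.subst a G := by
      rw [Derivation.leibniz, MvPowerSeries.pderiv_X_self, smul_eq_mul, smul_eq_mul, mul_one]
      have h1 := MvPowerSeries.subst_add hs (MvPowerSeries.X 1 * MvPowerSeries.pderiv k 1 G) G
      have h2 := MvPowerSeries.subst_mul hs (MvPowerSeries.X 1) (MvPowerSeries.pderiv k 1 G)
      rw [hX1] at h2
      rw [h2] at h1
      exact h1
    have e3 : (MvPowerSeries.subst a (MvPowerSeries.pderiv k 0 (MvPowerSeries.X 1 * G)) :
        PowerSeries K) = y * MvPowerSeries.subst a (MvPowerSeries.pderiv k 0 G) := by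
      rw [Derivation.leibniz, MvPowerSeries.pderiv_X_of_ne (by decide), smul_eq_mul, smul_zero,
        add_zero]
      have h2 := MvPowerSeries.subst_mul hs (MvPowerSeries.X 1) (MvPowerSeries.pderiv k 0 G)
      rw [hX1] at h2
      exact h2
    simp only [e1, e2, e3]
    rw [Derivation.leibniz]
    simp only [smul_eq_mul]
    ring
  · intro b
    simp
  · intro n b c h1 h2
    exact dvd_add h1 h2
  · intro n b h1
    rw [pow_succ']
    exact mul_dvd_mul (PowerSeries.X_dvd_iff.2 hx) h1
  · intro n b h1
    rw [pow_succ']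
    exact mul_dvd_mul (PowerSeries.X_dvd_iff.2 hy) h1
  · intro b hb
    ext n
    have := hb (n + 1)
    rw [PowerSeries.X_pow_dvd_iff] at this
    rw [this n (Nat.lt_succ_self n)]
    simp

theorem pderiv_comm (G : PS k) : MvPowerSeries.pderiv k 0 (MvPowerSeries.pderiv k 1 G) =
    MvPowerSeries.pderiv k 1 (MvPowerSeries.pderiv k 0 G) := by
  ext n
  rw [MvPowerSeries.coeff_pderiv, MvPowerSeries.coeff_pderiv, MvPowerSeries.coeff_pderiv,
    MvPowerSeries.coeff_pderiv]
  have e : n + Finsupp.single 0 1 + Finsupp.single 1 1 =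
      n + Finsupp.single 1 1 + Finsupp.single 0 1 := by
    rw [add_assoc, add_comm (Finsupp.single 0 1), ← add_assoc]
  rw [e]
  simp
  ring


theorem cdr_comm {K : Type} [Field K] [Algebra k K] (δ : Derivation k K K) (f : PowerSeries K) :
    PowerSeries.derivative K (cdr δ f) = cdr δ (PowerSeries.derivative K f) := by
  ext n
  rw [PowerSeries.coeff_derivative, coeff_cdr, coeff_cdr, PowerSeries.coeff_derivative]
  have e : ((n : K) + 1) = (((n + 1 : ℕ)) : K) := by push_cast; ring
  rw [e, Derivation.leibniz, Derivation.map_natCast]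
  simp [mul_comm]

private noncomputable def der_hom (k : Type) [Field k] : Polynomial k →+*
    TrivSqZeroExt (FractionRing (Polynomial k)) (FractionRing (Polynomial k)) where
  toFun := fun p => TrivSqZeroExt.inl (algebraMap _ _ p) +
    TrivSqZeroExt.inr (algebraMap _ _ (Polynomial.derivative p))
  map_one' := by
    rw [map_one, Polynomial.derivative_one, map_zero, TrivSqZeroExt.inr_zero, add_zero,
      TrivSqZeroExt.inl_one]
  map_zero' := by
    rw [map_zero, map_zero, map_zero, TrivSqZeroExt.inr_zero, add_zero, TrivSqZeroExt.inl_zero]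
  map_add' := fun p q => by
    rw [map_add, map_add, map_add, TrivSqZeroExt.inl_add, TrivSqZeroExt.inr_add]
    abel
  map_mul' := fun p q => by
    ext
    · simp only [TrivSqZeroExt.fst_add, TrivSqZeroExt.fst_inl, TrivSqZeroExt.fst_inr,
        TrivSqZeroExt.fst_mul, add_zero, map_mul]
    · rw [TrivSqZeroExt.snd_mul]
      simp only [TrivSqZeroExt.snd_add, TrivSqZeroExt.snd_inl, TrivSqZeroExt.snd_inr,
        TrivSqZeroExt.fst_add, TrivSqZeroExt.fst_inl, TrivSqZeroExt.fst_inr,
        add_zero, zero_add, Polynomial.derivative_mul, smul_eq_mul, map_mul, map_add,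
        op_smul_eq_mul]
      ring

private theorem der_hom_fst (p : Polynomial k) : (der_hom k p).fst = algebraMap _ _ p := by
  show (TrivSqZeroExt.inl (algebraMap _ _ p) +
    TrivSqZeroExt.inr (algebraMap _ _ (Polynomial.derivative p)) :
    TrivSqZeroExt (FractionRing (Polynomial k)) (FractionRing (Polynomial k))).fst = _
  rw [TrivSqZeroExt.fst_add, TrivSqZeroExt.fst_inl, TrivSqZeroExt.fst_inr, add_zero]

private theorem der_hom_snd (p : Polynomial k) :
    (der_hom k p).snd = algebraMap _ _ (Polynomial.derivative p) := by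
  show (TrivSqZeroExt.inl (algebraMap _ _ p) +
    TrivSqZeroExt.inr (algebraMap _ _ (Polynomial.derivative p)) :
    TrivSqZeroExt (FractionRing (Polynomial k)) (FractionRing (Polynomial k))).snd = _
  rw [TrivSqZeroExt.snd_add, TrivSqZeroExt.snd_inl, TrivSqZeroExt.snd_inr, zero_add]

private theorem der_unit (y : nonZeroDivisors (Polynomial k)) :
    IsUnit (der_hom k (y : Polynomial k)) := by
  rw [TrivSqZeroExt.isUnit_iff_isUnit_fst, der_hom_fst]
  exact IsLocalization.map_units (FractionRing (Polynomial k)) y

private noncomputable def der_ext (k : Type) [Field k] : FractionRing (Polynomial k) →+*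
    TrivSqZeroExt (FractionRing (Polynomial k)) (FractionRing (Polynomial k)) :=
  IsLocalization.lift (M := nonZeroDivisors (Polynomial k)) der_unit

private theorem der_ext_alg (p : Polynomial k) :
    der_ext k (algebraMap _ _ p) = der_hom k p := by
  unfold der_ext
  exact IsLocalization.lift_eq _ _

private noncomputable def der_fst (k : Type) [Field k] :
    TrivSqZeroExt (FractionRing (Polynomial k)) (FractionRing (Polynomial k)) →+*
    FractionRing (Polynomial k) where
  toFun := TrivSqZeroExt.fst
  map_one' := TrivSqZeroExt.fst_one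
  map_zero' := TrivSqZeroExt.fst_zero
  map_add' := TrivSqZeroExt.fst_add
  map_mul' := TrivSqZeroExt.fst_mul

private theorem der_ext_fst (x : FractionRing (Polynomial k)) : (der_ext k x).fst = x := by
  have h : (der_fst k).comp (der_ext k) = RingHom.id _ := by
    refine IsLocalization.ringHom_ext (nonZeroDivisors (Polynomial k)) (RingHom.ext fun p => ?_)
    show (der_ext k (algebraMap _ _ p)).fst = algebraMap _ _ p
    rw [der_ext_alg, der_hom_fst]
  exact congrArg (fun g => g x) h

/-- the derivation of the field of rational functions -/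
theorem exists_ratder [CharZero k] : ∃ δ : Derivation k (FractionRing (Polynomial k))
    (FractionRing (Polynomial k)), ∀ f : Polynomial k,
      δ (algebraMap _ _ f) = algebraMap _ _ (Polynomial.derivative f) := by
  have hmul : ∀ x y : FractionRing (Polynomial k),
      (der_ext k (x * y)).snd = x * (der_ext k y).snd + y * (der_ext k x).snd := by
    intro x y
    rw [map_mul, TrivSqZeroExt.snd_mul, der_ext_fst, der_ext_fst, op_smul_eq_mul,
      smul_eq_mul, mul_comm y]
  have halg : ∀ p : Polynomial k,
      (der_ext k (algebraMap _ (FractionRing (Polynomial k)) p)).snd =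
      algebraMap _ _ (Polynomial.derivative p) := by
    intro p
    rw [der_ext_alg, der_hom_snd]
  let L : FractionRing (Polynomial k) →ₗ[k] FractionRing (Polynomial k) :=
    { toFun := fun x => (der_ext k x).snd
      map_add' := fun x y => by rw [map_add, TrivSqZeroExt.snd_add]
      map_smul' := fun c x => by
        have h1 : c • x = algebraMap (Polynomial k) _ (Polynomial.C c) * x := by
          rw [Algebra.smul_def]
          rfl
        rw [h1, hmul, halg, Polynomial.derivative_C, map_zero, mul_zero, add_zero,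
          RingHom.id_apply, Algebra.smul_def]
        rfl }
  exact ⟨Derivation.mk' L hmul, halg⟩

end DER

end Pool.Agent.H75.Mono
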