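import Pool.Agent.H75.Plc.P0

/-! # PLC, module EXA: forms which are not exact -/

set_option autoImplicit false
set_option linter.unusedSectionVars false

namespace Pool.Agent.H75.Mono


section EXA

open Polynomial in
/-- `(z - c) (d/dz) ((z - c)^m q)` -/
theorem exa_der {k : Type} [Field k] (c : k) (m : ℕ) (q : Polynomial k) :
    (X - C c) * derivative ((X - C c) ^ m * q) =
      (X - C c) ^ m * ((m : Polynomial k) * q + (X - C c) * derivative q) := by
  rw [derivative_mul, derivative_pow, derivative_sub, derivative_X, derivative_C]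
  rcases m with _ | m
  · simp
  · simp only [Nat.add_sub_cancel, Nat.cast_add, Nat.cast_one, map_add, map_natCast, map_one]
    ring

open Polynomial in
theorem exa_fac {k : Type} [Field k] {v : Polynomial k} (hv : v ≠ 0) (c : k) :
    ∃ (n : ℕ) (v1 : Polynomial k), v = (X - C c) ^ n * v1 ∧ v1.eval c ≠ 0 ∧
      (X - C c) * derivative v = (X - C c) ^ n * ((n : Polynomial k) * v1 +
      (X - C c) * derivative v1) := by
  obtain ⟨v1, hv1, hv1'⟩ := exists_eq_pow_rootMultiplicity_mul_and_not_dvd v hv c
  refine ⟨_, v1, hv1, fun h => hv1' (dvd_iff_isRoot.mpr h), ?_⟩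
  conv_lhs => rw [hv1]
  exact exa_der c _ v1

variable {k : Type} [Field k] [CharZero k]

open Polynomial in
/-- no poles: a solution `u / v` in lowest terms has constant denominator -/
theorem exa_nopole {u v f0 : Polynomial k} {r : Polynomial k} {s : ℚ} (hs : 0 < s)
    (hv : v ≠ 0) (hf : f0 ≠ 0) (huv : IsCoprime u v)
    (h : (derivative u * v - u * derivative v) * f0 - C (s : k) * derivative f0 * u * v =
      r * v ^ 2 * f0) (c : k) : v.eval c ≠ 0 := by
  intro hc
  obtain ⟨n, v1, hv1, hv1', e1⟩ := exa_fac hv c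
  obtain ⟨m, f1, hf1, hf1', e2⟩ := exa_fac hf c
  obtain ⟨n', rfl⟩ : ∃ n', n = n' + 1 := by
    rcases n with _ | n
    · rw [pow_zero, one_mul] at hv1
      exact absurd (hv1 ▸ hc) hv1'
    · exact ⟨n, rfl⟩
  have hX : (X - C c : Polynomial k) ≠ 0 := X_sub_C_ne_zero c
  have hu : u.eval c ≠ 0 := by
    intro hu
    obtain ⟨a, b, hab⟩ := huv
    have := congrArg (eval c) hab
    rw [eval_add, eval_mul, eval_mul, hu, hc, mul_zero, mul_zero, add_zero, eval_one] at this
    exact zero_ne_one this
  have h2 : (X - C c) ^ (n' + 1 + m) * ((X - C c) * derivative u * v1 * f1 -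
      u * (((n' + 1 : ℕ) : Polynomial k) * v1 + (X - C c) * derivative v1) * f1 -
      C (s : k) * ((m : Polynomial k) * f1 + (X - C c) * derivative f1) * u * v1) =
      (X - C c) ^ (n' + 1 + m) * (r * (X - C c) ^ (n' + 2) * v1 ^ 2 * f1) := by
    have h3 : (X - C c) * ((derivative u * v - u * derivative v) * f0 -
      C (s : k) * derivative f0 * u * v) = (X - C c) * (r * v ^ 2 * f0) := by rw [h]
    have h4 : (X - C c) * derivative u * v * f0 - u * ((X - C c) * derivative v) * f0 -
      C (s : k) * ((X - C c) * derivative f0) * u * v = (X - C c) * (r * v ^ 2 * f0) := by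
      rw [← h3]; ring
    rw [e1, e2] at h4
    rw [pow_add]
    rw [hv1, hf1] at h4
    linear_combination h4
  have h3 := mul_left_cancel₀ (pow_ne_zero _ hX) h2
  have h4 := congrArg (eval c) h3
  simp only [eval_sub, eval_mul, eval_add, eval_X, eval_C, sub_self, zero_mul, zero_sub,
    add_zero, eval_pow, eval_natCast] at h4
  rw [zero_pow (by omega), mul_zero, zero_mul, zero_mul] at h4
  have h5 : (((n' + 1 : ℕ) : k) + (s : k) * m) * (u.eval c * v1.eval c * f1.eval c) = 0 := by
    linear_combination -h4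
  rcases mul_eq_zero.mp h5 with h6 | h6
  · have h7 : (((n' + 1 : ℕ) : ℚ) + s * m : ℚ) = 0 := by
      have : (((((n' + 1 : ℕ) : ℚ) + s * m : ℚ)) : k) = 0 := by
        push_cast
        push_cast at h6
        exact h6
      exact_mod_cast this
    have h8 : 0 ≤ s * m := by positivity
    have h9 : (0 : ℚ) < ((n' + 1 : ℕ) : ℚ) := by positivity
    linarith
  · exact mul_ne_zero (mul_ne_zero hu hv1') hf1' h6

open Polynomial in
/-- a polynomial solution vanishes at the roots of `f0` other than `0` -/
theorem exa_zero {y f0 : Polynomial k} {r : Polynomial k} {s : ℚ} (hs : 0 < s) (hf : f0 ≠ 0)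
    (h : derivative y * f0 - C (s : k) * derivative f0 * y = r * f0) (c : k)
    (hc : f0.eval c = 0) : y.eval c = 0 := by
  obtain ⟨m, f1, hf1, hf1', e2⟩ := exa_fac hf c
  obtain ⟨n', rfl⟩ : ∃ n', m = n' + 1 := by
    rcases m with _ | m
    · rw [pow_zero, one_mul] at hf1
      exact absurd (hf1 ▸ hc) hf1'
    · exact ⟨m, rfl⟩
  have hX : (X - C c : Polynomial k) ≠ 0 := X_sub_C_ne_zero c
  have h2 : (X - C c) ^ (n' + 1) * ((X - C c) * derivative y * f1 -
      C (s : k) * (((n' + 1 : ℕ) : Polynomial k) * f1 + (X - C c) * derivative f1) * y) =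
      (X - C c) ^ (n' + 1) * (r * (X - C c) * f1) := by
    have h4 : (X - C c) * derivative y * f0 -
      C (s : k) * ((X - C c) * derivative f0) * y = (X - C c) * (r * f0) := by
      rw [← h]; ring
    rw [e2] at h4
    rw [hf1] at h4
    linear_combination h4
  have h3 := mul_left_cancel₀ (pow_ne_zero _ hX) h2
  have h4 := congrArg (eval c) h3
  simp only [eval_sub, eval_mul, eval_add, eval_X, eval_C, sub_self, zero_mul, mul_zero, zero_sub,
    add_zero, eval_natCast] at h4
  have h5 : (s : k) * ((n' + 1 : ℕ) : k) * f1.eval c * y.eval c = 0 := by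
    linear_combination -h4
  rcases mul_eq_zero.mp h5 with h6 | h6
  · exfalso
    refine mul_ne_zero (mul_ne_zero ?_ ?_) hf1' h6
    · exact_mod_cast hs.ne'
    · exact_mod_cast n'.succ_ne_zero
  · exact h6

open Polynomial in
/-- the order at `0` of a polynomial solution -/
theorem exa_ord {y Q : Polynomial k} {A B : ℕ} {s : ℚ} (hQ : Q.eval 0 ≠ 0) (hAB : (B : ℚ) < s * A)
    (h : derivative y * (X ^ A * Q) - C (s : k) * derivative (X ^ A * Q) * y =
      X ^ B * (X ^ A * Q)) : X ^ (B + 1) ∣ y := by
  by_cases hy : y = 0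
  · rw [hy]; exact dvd_zero _
  obtain ⟨n, y1, hy1, hy1', e1⟩ := exa_fac hy 0
  rw [C_0, sub_zero] at hy1 e1
  have e2 : X * derivative (X ^ A * Q) = X ^ A * ((A : Polynomial k) * Q + X * derivative Q) := by
    have := exa_der (0 : k) A Q
    rwa [C_0, sub_zero] at this
  have h2 : X ^ A * (X ^ n * (((n : Polynomial k) * y1 + X * derivative y1) * Q -
      C (s : k) * ((A : Polynomial k) * Q + X * derivative Q) * y1)) =
      X ^ A * (X ^ (B + 1) * Q) := by
    have h4 : (X * derivative y) * (X ^ A * Q) - C (s : k) * (X * derivative (X ^ A * Q)) * y =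
      X * (X ^ B * (X ^ A * Q)) := by rw [← h]; ring
    rw [e1, e2] at h4
    rw [hy1] at h4
    linear_combination h4
  have h3 := mul_left_cancel₀ (pow_ne_zero _ X_ne_zero) h2
  by_cases hn : B + 1 ≤ n
  · rw [hy1]
    exact Dvd.dvd.mul_right (pow_dvd_pow _ hn) _
  · exfalso
    rw [not_le] at hn
    obtain ⟨d, hd⟩ : ∃ d, B + 1 = n + (d + 1) := ⟨B - n, by omega⟩
    rw [hd, pow_add, mul_assoc (X ^ n)] at h3
    have h4 := mul_left_cancel₀ (pow_ne_zero _ X_ne_zero) h3
    have h5 := congrArg (eval 0) h4
    simp only [eval_sub, eval_mul, eval_add, eval_X, eval_C, zero_mul, add_zero, eval_natCast,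
      eval_pow] at h5
    rw [zero_pow (by omega), zero_mul] at h5
    have h6 : ((n : k) - (s : k) * A) * (y1.eval 0 * Q.eval 0) = 0 := by
      linear_combination h5
    rcases mul_eq_zero.mp h6 with h7 | h7
    · have h8 : ((n : ℚ) - s * A : ℚ) = 0 := by
        have : ((((n : ℚ) - s * A : ℚ)) : k) = 0 := by
          push_cast
          exact h7
        exact_mod_cast this
      have h9 : (n : ℚ) ≤ B := by exact_mod_cast (by omega : n ≤ B)
      linarith
    · exact mul_ne_zero hy1' hQ h7

open Polynomial in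
theorem exa_coeff (p : Polynomial k) (n : ℕ) : (X * derivative p).coeff n = n * p.coeff n := by
  rcases n with _ | n
  · simp
  · rw [coeff_X_mul, coeff_derivative]
    push_cast
    ring

open Polynomial in
theorem exa_natDegree (p : Polynomial k) : (X * derivative p).natDegree ≤ p.natDegree := by
  rw [natDegree_le_iff_coeff_eq_zero]
  intro N hN
  rw [exa_coeff, coeff_eq_zero_of_natDegree_lt hN, mul_zero]

variable [IsAlgClosed k]

open Polynomial in
/-- the roots of `Q` among the roots of `y` -/
theorem exa_card {y Q : Polynomial k} (hy : y ≠ 0) (h : ∀ c, Q.eval c = 0 → y.eval c = 0) :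
    (rts Q).card ≤ y.natDegree := by
  classical
  have h1 : rts Q ⊆ y.roots.toFinset := by
    intro c hc
    unfold rts at hc
    rw [Multiset.mem_toFinset] at hc ⊢
    exact (mem_roots hy).mpr (h c (isRoot_of_mem_roots hc))
  exact (Finset.card_le_card h1).trans ((Multiset.toFinset_card_le _).trans (card_roots' y))

open Polynomial in
theorem exa_pos {Q : Polynomial k} (hE : 0 < Q.natDegree) : 1 ≤ (rts Q).card := by
  classical
  obtain ⟨c, hc⟩ := IsAlgClosed.exists_root Q (by
    rw [degree_eq_natDegree (ne_zero_of_natDegree_gt hE)]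
    exact_mod_cast hE.ne')
  apply Finset.card_pos.mpr
  refine ⟨c, ?_⟩
  unfold rts
  rw [Multiset.mem_toFinset]
  exact (mem_roots (ne_zero_of_natDegree_gt hE)).mpr hc

open Polynomial in
/-- there is no polynomial solution, first case -/
theorem exa_case1 {y Q : Polynomial k} (hQ : Q.eval 0 ≠ 0) (hE : 0 < Q.natDegree) {A B : ℕ}
    {s : ℚ} (hs : 0 < s) (h0 : (B : ℚ) + 1 - s * A < 1)
    (h1 : s * Q.natDegree - ((B : ℚ) + 1 - s * A) < (rts Q).card)
    (h : derivative y * (X ^ A * Q) - C (s : k) * derivative (X ^ A * Q) * y =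
      X ^ B * (X ^ A * Q)) : False := by
  have hQ0 : Q ≠ 0 := ne_zero_of_natDegree_gt hE
  have hz : ∀ c, Q.eval c = 0 → y.eval c = 0 := fun c hc =>
    exa_zero hs (mul_ne_zero (pow_ne_zero _ X_ne_zero) hQ0) h c (by
      rw [eval_mul, hc, mul_zero])
  obtain ⟨w, hw⟩ := exa_ord hQ (by linarith) h
  have e2 : X * derivative (X ^ A * Q) = X ^ A * ((A : Polynomial k) * Q + X * derivative Q) := by
    have := exa_der (0 : k) A Q
    rwa [C_0, sub_zero] at this
  have e1 : X * derivative y = X ^ (B + 1) * (((B + 1 : ℕ) : Polynomial k) * w +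
      X * derivative w) := by
    have := exa_der (0 : k) (B + 1) w
    rw [C_0, sub_zero] at this
    rw [hw]
    exact this
  have h2 : X ^ (A + (B + 1)) * ((((B + 1 : ℕ) : Polynomial k) * w + X * derivative w) * Q -
      C (s : k) * ((A : Polynomial k) * Q + X * derivative Q) * w) =
      X ^ (A + (B + 1)) * Q := by
    have h4 : (X * derivative y) * (X ^ A * Q) - C (s : k) * (X * derivative (X ^ A * Q)) * y =
      X * (X ^ B * (X ^ A * Q)) := by rw [← h]; ring
    rw [e1, e2] at h4
    rw [hw] at h4
    rw [pow_add]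
    linear_combination h4
  have h3 := mul_left_cancel₀ (pow_ne_zero _ X_ne_zero) h2
  have hw0 : w ≠ 0 := by
    rintro rfl
    rw [derivative_zero, mul_zero, mul_zero, mul_zero, add_zero, zero_mul, sub_zero] at h3
    exact hQ0 h3.symm
  have hcard : (rts Q).card ≤ w.natDegree := exa_card hw0 fun c hc => by
    have h5 := hz c hc
    rw [hw, eval_mul, eval_pow, eval_X] at h5
    rcases mul_eq_zero.mp h5 with h6 | h6
    · exfalso
      have : c = 0 := pow_eq_zero_iff (n := B + 1) (by omega) |>.mp h6
      rw [this] at hc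
      exact hQ hc
    · exact h6
  have hpos := exa_pos hE
  -- leading coefficients
  have h5 : (((((B + 1 : ℕ) : Polynomial k) * w + X * derivative w) * Q -
      C (s : k) * ((A : Polynomial k) * Q + X * derivative Q) * w)).coeff
      (w.natDegree + Q.natDegree) = Q.coeff (w.natDegree + Q.natDegree) := by rw [h3]
  have c0 : Q.coeff (w.natDegree + Q.natDegree) = 0 :=
    coeff_eq_zero_of_natDegree_lt (by omega)
  have c1 : (w * Q).coeff (w.natDegree + Q.natDegree) = w.leadingCoeff * Q.leadingCoeff :=
    coeff_mul_degree_add_degree w Q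
  have c2 : (X * derivative w * Q).coeff (w.natDegree + Q.natDegree) =
      (w.natDegree : k) * (w.leadingCoeff * Q.leadingCoeff) := by
    rw [coeff_mul_add_eq_of_natDegree_le (exa_natDegree w) le_rfl, exa_coeff, coeff_natDegree,
      coeff_natDegree, mul_assoc]
  have c4 : (w * (X * derivative Q)).coeff (w.natDegree + Q.natDegree) =
      (Q.natDegree : k) * (w.leadingCoeff * Q.leadingCoeff) := by
    rw [coeff_mul_add_eq_of_natDegree_le le_rfl (exa_natDegree Q), exa_coeff, coeff_natDegree,
      coeff_natDegree]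
    ring
  have h6 : (((B + 1 : ℕ) : Polynomial k) * w + X * derivative w) * Q -
      C (s : k) * ((A : Polynomial k) * Q + X * derivative Q) * w =
      C ((B + 1 : ℕ) : k) * (w * Q) + X * derivative w * Q -
      (C (s * A : k) * (w * Q) + C (s : k) * (w * (X * derivative Q))) := by
    rw [C_mul, map_natCast, map_natCast]
    ring
  rw [h6, coeff_sub, coeff_add, coeff_add, coeff_C_mul, coeff_C_mul, coeff_C_mul, c1, c2, c4,
    c0] at h5
  have hlc : w.leadingCoeff * Q.leadingCoeff ≠ 0 :=
    mul_ne_zero (leadingCoeff_ne_zero.mpr hw0) (leadingCoeff_ne_zero.mpr hQ0)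
  have h7 : (((B + 1 : ℕ) : k) + w.natDegree - s * A - s * Q.natDegree) *
      (w.leadingCoeff * Q.leadingCoeff) = 0 := by linear_combination h5
  have h8 := (mul_eq_zero.mp h7).resolve_right hlc
  have h9 : ((B : ℚ) + 1 + w.natDegree - s * A - s * Q.natDegree : ℚ) = 0 := by
    have : ((((B : ℚ) + 1 + w.natDegree - s * A - s * Q.natDegree : ℚ)) : k) = 0 := by
      push_cast
      push_cast at h8
      exact h8
    exact_mod_cast this
  have h10 : ((rts Q).card : ℚ) ≤ w.natDegree := by exact_mod_cast hcard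
  linarith

open Polynomial in
/-- there is no polynomial solution, second case -/
theorem exa_case2 {y Q : Polynomial k} (hE : 0 < Q.natDegree)
    {s : ℚ} (hs : 0 < s) (h2r : 2 ≤ (rts Q).card) (h1 : s * Q.natDegree < (rts Q).card)
    (h : derivative y * Q - C (s : k) * derivative Q * y = Q) : False := by
  have hQ0 : Q ≠ 0 := ne_zero_of_natDegree_gt hE
  have hz : ∀ c, Q.eval c = 0 → y.eval c = 0 := fun c hc =>
    exa_zero (r := 1) hs hQ0 (by rw [h, one_mul]) c hc
  have hy0 : y ≠ 0 := by
    rintro rfl
    rw [derivative_zero, mul_zero, zero_mul, sub_zero] at h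
    exact hQ0 h.symm
  have hcard : (rts Q).card ≤ y.natDegree := exa_card hy0 hz
  have h3 : X * derivative y * Q - C (s : k) * (y * (X * derivative Q)) = X * Q := by
    linear_combination X * h
  have h5 : (X * derivative y * Q - C (s : k) * (y * (X * derivative Q))).coeff
      (y.natDegree + Q.natDegree) = (X * Q).coeff (y.natDegree + Q.natDegree) := by rw [h3]
  have c0 : (X * Q).coeff (y.natDegree + Q.natDegree) = 0 := by
    obtain ⟨m, hm⟩ : ∃ m, y.natDegree + Q.natDegree = m + 1 :=
      ⟨y.natDegree + Q.natDegree - 1, by omega⟩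
    rw [hm, coeff_X_mul]
    exact coeff_eq_zero_of_natDegree_lt (by omega)
  have c2 : (X * derivative y * Q).coeff (y.natDegree + Q.natDegree) =
      (y.natDegree : k) * (y.leadingCoeff * Q.leadingCoeff) := by
    rw [coeff_mul_add_eq_of_natDegree_le (exa_natDegree y) le_rfl, exa_coeff, coeff_natDegree,
      coeff_natDegree, mul_assoc]
  have c4 : (y * (X * derivative Q)).coeff (y.natDegree + Q.natDegree) =
      (Q.natDegree : k) * (y.leadingCoeff * Q.leadingCoeff) := by
    rw [coeff_mul_add_eq_of_natDegree_le le_rfl (exa_natDegree Q), exa_coeff, coeff_natDegree,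
      coeff_natDegree]
    ring
  rw [coeff_sub, coeff_C_mul, c2, c4, c0] at h5
  have hlc : y.leadingCoeff * Q.leadingCoeff ≠ 0 :=
    mul_ne_zero (leadingCoeff_ne_zero.mpr hy0) (leadingCoeff_ne_zero.mpr hQ0)
  have h7 : ((y.natDegree : k) - s * Q.natDegree) *
      (y.leadingCoeff * Q.leadingCoeff) = 0 := by linear_combination h5
  have h8 := (mul_eq_zero.mp h7).resolve_right hlc
  have h9 : ((y.natDegree : ℚ) - s * Q.natDegree : ℚ) = 0 := by
    have : ((((y.natDegree : ℚ) - s * Q.natDegree : ℚ)) : k) = 0 := by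
      push_cast
      exact h8
    exact_mod_cast this
  have h10 : ((rts Q).card : ℚ) ≤ y.natDegree := by exact_mod_cast hcard
  linarith

theorem exists_lam {δ : Derivation k (FractionRing (Polynomial k)) (FractionRing (Polynomial k))}
    (hδ : ∀ f : Polynomial k, δ (algebraMap _ _ f) = algebraMap _ _ (Polynomial.derivative f))
    {Q : Polynomial k} (hQ : Q.eval 0 ≠ 0) (hE : 0 < Q.natDegree) {A B : ℕ} {s : ℚ}
    (hs : 0 < s) (h : ((B : ℚ) + 1 - s * A < 1 ∧
      s * Q.natDegree - ((B : ℚ) + 1 - s * A) < (rts Q).card) ∨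
      (A = 0 ∧ B = 0 ∧ 2 ≤ (rts Q).card ∧ s * Q.natDegree < (rts Q).card)) :
    ∃ lam : FractionRing (Polynomial k) →ₗ[k] k,
      (∀ h : FractionRing (Polynomial k), lam (δ h - ((s : ℚ) : FractionRing (Polynomial k)) *
        (δ (algebraMap _ _ (Polynomial.X ^ A * Q)) /
          algebraMap _ _ (Polynomial.X ^ A * Q)) * h) = 0) ∧
      lam (algebraMap (Polynomial k) (FractionRing (Polynomial k)) (Polynomial.X ^ B)) ≠ 0 := by
  set K := FractionRing (Polynomial k) with hK
  set f0 : Polynomial k := Polynomial.X ^ A * Q with hf0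
  have hQ0 : Q ≠ 0 := Polynomial.ne_zero_of_natDegree_gt hE
  have hf : f0 ≠ 0 := mul_ne_zero (pow_ne_zero _ Polynomial.X_ne_zero) hQ0
  have hinj : Function.Injective (algebraMap (Polynomial k) K) :=
    IsFractionRing.injective (Polynomial k) K
  have hfK : algebraMap (Polynomial k) K f0 ≠ 0 := (map_ne_zero_iff _ hinj).mpr hf
  set η : K := δ (algebraMap _ _ f0) / algebraMap _ _ f0 with hη
  let L : K →ₗ[k] K := (δ : K →ₗ[k] K) - LinearMap.mulLeft k ((s : K) * η)
  have hL : ∀ h, L h = δ h - (s : K) * η * h := by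
    intro h
    simp only [L, LinearMap.sub_apply, LinearMap.mulLeft_apply, Derivation.coeFn_coe]
  have hsK : (s : K) = algebraMap (Polynomial k) K (Polynomial.C (s : k)) := by
    have : algebraMap (Polynomial k) K (Polynomial.C (s : k)) =
      ((algebraMap (Polynomial k) K).comp Polynomial.C) (s : k) := rfl
    rw [this, map_ratCast]
  have hnot : algebraMap (Polynomial k) K (Polynomial.X ^ B) ∉ LinearMap.range L := by
    rintro ⟨h', hh'⟩
    rw [hL] at hh'
    -- write `h' = u / v`
    obtain ⟨u, v, huv, hfrac⟩ := IsFractionRing.exists_reduced_fraction (A := Polynomial k) h'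
    have hv : (v : Polynomial k) ≠ 0 := nonZeroDivisors.coe_ne_zero v
    have huv' : IsCoprime u (v : Polynomial k) := huv.isCoprime
    have hvu : algebraMap (Polynomial k) K v * h' = algebraMap (Polynomial k) K u := by
      rw [← hfrac, mul_comm]
      exact IsLocalization.mk'_spec K u v
    have hδv := congrArg δ hvu
    rw [Derivation.leibniz, hδ, hδ, smul_eq_mul, smul_eq_mul] at hδv
    have hη' : η * algebraMap (Polynomial k) K f0 =
        algebraMap (Polynomial k) K (Polynomial.derivative f0) := by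
      rw [hη, hδ, div_mul_cancel₀ _ hfK]
    have hmain : (Polynomial.derivative u * (v : Polynomial k) -
        u * Polynomial.derivative (v : Polynomial k)) * f0 -
        Polynomial.C (s : k) * Polynomial.derivative f0 * u * (v : Polynomial k) =
        Polynomial.X ^ B * (v : Polynomial k) ^ 2 * f0 := by
      apply hinj
      simp only [map_sub, map_mul, map_pow]
      rw [map_pow] at hh'
      rw [← hsK, ← hη', ← hvu, ← hh', ← hδv]
      ring
    have hvc : ∀ c, (v : Polynomial k).eval c ≠ 0 := exa_nopole hs hv hf huv' hmain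
    have hv0 : (v : Polynomial k).degree ≤ 0 := by
      by_contra hlt
      obtain ⟨c, hc⟩ := IsAlgClosed.exists_root (v : Polynomial k) (fun h => hlt h.le)
      exact hvc c hc
    obtain ⟨a, ha⟩ : ∃ a, (v : Polynomial k) = Polynomial.C a :=
      ⟨_, Polynomial.eq_C_of_degree_le_zero hv0⟩
    have ha0 : a ≠ 0 := by
      rintro rfl
      rw [Polynomial.C_0] at ha
      exact hv ha
    have hy : Polynomial.derivative (Polynomial.C a⁻¹ * u) * f0 - Polynomial.C (s : k) *
        Polynomial.derivative f0 * (Polynomial.C a⁻¹ * u) = Polynomial.X ^ B * f0 := by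
      rw [ha, Polynomial.derivative_C, mul_zero, sub_zero] at hmain
      have h1 : Polynomial.C a⁻¹ * Polynomial.C a = (1 : Polynomial k) := by
        rw [← Polynomial.C_mul, inv_mul_cancel₀ ha0, Polynomial.C_1]
      rw [Polynomial.derivative_C_mul]
      have h2 : (Polynomial.C a⁻¹ * Polynomial.C a) * (Polynomial.C a⁻¹ *
          (Polynomial.derivative u * f0 - Polynomial.C (s : k) * Polynomial.derivative f0 * u)) =
          (Polynomial.C a⁻¹ * Polynomial.C a) ^ 2 * (Polynomial.X ^ B * f0) := by
        linear_combination Polynomial.C a⁻¹ ^ 2 * hmain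
      rw [h1] at h2
      linear_combination h2
    rcases h with ⟨h1, h2⟩ | ⟨rfl, rfl, h1, h2⟩
    · exact exa_case1 hQ hE hs h1 h2 hy
    · refine exa_case2 (y := Polynomial.C a⁻¹ * u) hE hs h1 h2 ?_
      rw [hf0, pow_zero, one_mul] at hy
      linear_combination hy
  obtain ⟨lam, hlam1, hlam2⟩ := Submodule.exists_le_ker_of_notMem (p := LinearMap.range L) hnot
  refine ⟨lam, fun h => ?_, hlam1⟩
  have := hlam2 (LinearMap.mem_range_self L h)
  rw [LinearMap.mem_ker, hL] at this
  exact this

end EXA

end Pool.Agent.H75.Mono
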