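import Pool.Agent.H75.Plc.EV1

/-! # PLC, module EV2: evaluation and weights -/

set_option autoImplicit false

namespace Pool.Agent.H75.Mono

open MvPolynomial Pool.Agent.H39.MonoR

section EV2

variable {k : Type} [Field k] [Algebra k ℂ]

private theorem ev2_cc {u : ℕ} (hu : 0 < u) (U : PowerSeries ℂ) :
    PowerSeries.constantCoeff (PowerSeries.X ^ u * U) = 0 := by
  rw [map_mul, map_pow, PowerSeries.constantCoeff_X, zero_pow hu.ne', zero_mul]

/-- the coefficients as finite sums -/
private theorem ev2_coeff {u v : ℕ} (hu : 0 < u) (hv : 0 < v) (G : PS k) (U V : PowerSeries ℂ)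
    (l : ℕ) : PowerSeries.coeff l (ev G (PowerSeries.X ^ u * U) (PowerSeries.X ^ v * V)) =
      ∑ i ∈ Finset.range (l + 1), ∑ j ∈ Finset.range (l + 1),
        algebraMap k ℂ (cf G i j) * (if i * u + j * v ≤ l then
          PowerSeries.coeff (l - (i * u + j * v)) (U ^ i * V ^ j) else 0) := by
  rw [coeff_ev (ev2_cc hu U) (ev2_cc hv V) G (le_refl l)]
  unfold tp
  rw [map_sum, map_sum]
  refine Finset.sum_congr rfl fun i _ => ?_
  rw [map_sum, map_sum]
  refine Finset.sum_congr rfl fun j _ => ?_
  rw [aeval_monomial]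
  have e1 : ((ix i j).prod fun s n => (![PowerSeries.X ^ u * U, PowerSeries.X ^ v * V] :
      Fin 2 → PowerSeries ℂ) s ^ n) = PowerSeries.X ^ (i * u + j * v) * (U ^ i * V ^ j) := by
    have h := ev1_prod (x := PowerSeries.X ^ u * U) (y := PowerSeries.X ^ v * V) (ix i j)
    have h0 : ix i j 0 = i := by simp [ix]
    have h1 : ix i j 1 = j := by simp [ix]
    rw [h0, h1] at h
    rw [h, mul_pow, mul_pow, ← pow_mul, ← pow_mul, mul_comm u i, mul_comm v j, pow_add]
    ring
  rw [e1, PowerSeries.algebraMap_apply, PowerSeries.coeff_C_mul, PowerSeries.coeff_X_pow_mul']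

private theorem ev2_congr {n m : ℕ} (hm : m ≤ n) (i j : ℕ) {U V U' V' : PowerSeries ℂ}
    (h0 : ∀ l, l ≤ n → PowerSeries.coeff l U = PowerSeries.coeff l U')
    (h1 : ∀ l, l ≤ n → PowerSeries.coeff l V = PowerSeries.coeff l V') :
    PowerSeries.coeff m (U ^ i * V ^ j) = PowerSeries.coeff m (U' ^ i * V' ^ j) := by
  have h := ev1_aeval_congr (k := ℂ) (X 0 ^ i * X 1 ^ j) (n := m)
    (fun l hl => h0 l (hl.trans hm)) (fun l hl => h1 l (hl.trans hm))
  simpa using h

/-- if all monomials of `G` have weight at least `c`, then `G(t^u U, t^v V) = t^c W(U, V)` -/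
theorem ev_wt {u v c : ℕ} (hu : 0 < u) (hv : 0 < v) (G : PS k)
    (h : ∀ i j, cf G i j ≠ 0 → c ≤ i * u + j * v) :
    ∃ W : PowerSeries ℂ → PowerSeries ℂ → PowerSeries ℂ,
      (∀ U V, ev G (PowerSeries.X ^ u * U) (PowerSeries.X ^ v * V) =
        PowerSeries.X ^ c * W U V) ∧
      (∀ U V, PowerSeries.constantCoeff (W U V) =
        ∑ i ∈ Finset.range (c + 1), ∑ j ∈ Finset.range (c + 1),
          if i * u + j * v = c then algebraMap k ℂ (cf G i j) *
            PowerSeries.constantCoeff U ^ i * PowerSeries.constantCoeff V ^ j else 0) ∧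
      ∀ (n : ℕ) (U V U' V' : PowerSeries ℂ),
        (∀ l, l ≤ n → PowerSeries.coeff l U = PowerSeries.coeff l U') →
        (∀ l, l ≤ n → PowerSeries.coeff l V = PowerSeries.coeff l V') →
        PowerSeries.coeff n (W U V) = PowerSeries.coeff n (W U' V') := by
  refine ⟨fun U V => PowerSeries.mk fun n => PowerSeries.coeff (n + c)
    (ev G (PowerSeries.X ^ u * U) (PowerSeries.X ^ v * V)), ?_, ?_, ?_⟩
  · intro U V
    ext l
    rw [PowerSeries.coeff_X_pow_mul']
    split_ifs with hl
    · rw [PowerSeries.coeff_mk, Nat.sub_add_cancel hl]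
    · rw [ev2_coeff hu hv]
      refine Finset.sum_eq_zero fun i _ => Finset.sum_eq_zero fun j _ => ?_
      by_cases h0 : cf G i j = 0
      · rw [h0, map_zero, zero_mul]
      · have := h i j h0
        rw [if_neg (by omega), mul_zero]
  · intro U V
    rw [← PowerSeries.coeff_zero_eq_constantCoeff_apply, PowerSeries.coeff_mk, zero_add,
      ev2_coeff hu hv]
    refine Finset.sum_congr rfl fun i _ => Finset.sum_congr rfl fun j _ => ?_
    by_cases h0 : cf G i j = 0
    · rw [h0, map_zero, zero_mul]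
      simp
    · have := h i j h0
      by_cases h1 : i * u + j * v = c
      · rw [if_pos (by omega), if_pos h1, h1, Nat.sub_self,
          PowerSeries.coeff_zero_eq_constantCoeff_apply, map_mul, map_pow, map_pow, mul_assoc]
      · rw [if_neg (by omega), if_neg h1, mul_zero]
  · intro n U V U' V' hU hV
    rw [PowerSeries.coeff_mk, PowerSeries.coeff_mk, ev2_coeff hu hv, ev2_coeff hu hv]
    refine Finset.sum_congr rfl fun i _ => Finset.sum_congr rfl fun j _ => ?_
    by_cases h0 : cf G i j = 0
    · rw [h0, map_zero, zero_mul, zero_mul]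
    · have := h i j h0
      split_ifs with h1
      · rw [ev2_congr (n := n) (by omega) i j hU hV]
      · rfl

end EV2

end Pool.Agent.H75.Mono
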