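import Pool.Agent.H75.Plc.EV2

/-! # PLC, module ZSH: shears -/

set_option autoImplicit false

namespace Pool.Agent.H75.Mono

open MvPolynomial Pool.Agent.H39.MonoR

section ZSH

variable {k : Type} [Field k] [Algebra k ℂ]

theorem zsh_ix_inj {i j i' j' : ℕ} (h : ix i j = ix i' j') : i = i' ∧ j = j' := by
  constructor
  · have := DFunLike.congr_fun h 0
    simpa [ix] using this
  · have := DFunLike.congr_fun h 1
    simpa [ix] using this

omit [Algebra k ℂ] in
theorem zsh_aeval_ix {A : Type*} [CommRing A] [Algebra k A] (f : Fin 2 → A) (i j : ℕ) (c : k) :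
    aeval f (monomial (ix i j) c) = algebraMap k A c * (f 0 ^ i * f 1 ^ j) := by
  rw [aeval_monomial]
  congr 1
  unfold ix
  rw [Finsupp.prod_add_index' (by simp) (by intro a b c; rw [pow_add]),
    Finsupp.prod_single_index (by simp), Finsupp.prod_single_index (by simp)]

omit [Algebra k ℂ] in
theorem zsh_cf (h : PowerSeries k) (i j : ℕ) :
    cf (PowerSeries.subst (MvPowerSeries.X 0 : PS k) h) i j =
      if j = 0 then PowerSeries.coeff i h else 0 := by
  unfold cf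
  rw [PowerSeries.coeff_subst (PowerSeries.HasSubst.X 0)]
  simp only [MvPowerSeries.coeff_X_pow]
  by_cases hj : j = 0
  · subst hj
    rw [if_pos rfl, finsum_eq_single _ i]
    · rw [if_pos (by simp [ix])]
      simp
    · intro d hd
      rw [if_neg, smul_zero]
      intro h1
      have := zsh_ix_inj (h1.trans (by simp [ix] : Finsupp.single 0 d = ix d 0))
      exact hd this.1.symm
  · rw [if_neg hj]
    apply finsum_eq_zero_of_forall_eq_zero
    intro d
    rw [if_neg, smul_zero]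
    intro h1
    have := zsh_ix_inj (h1.trans (by simp [ix] : Finsupp.single 0 d = ix d 0))
    exact hj this.2

/-- the value of the truncated shear -/
theorem zsh_tp (h : PowerSeries k) (d : ℕ) (f : Fin 2 → PowerSeries ℂ) :
    aeval f (tp d (PowerSeries.subst (MvPowerSeries.X 0 : PS k) h)) =
      ∑ i ∈ Finset.range (d + 1), algebraMap k (PowerSeries ℂ) (PowerSeries.coeff i h) * f 0 ^ i := by
  unfold tp
  rw [map_sum]
  refine Finset.sum_congr rfl fun i _ => ?_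
  rw [map_sum, Finset.sum_eq_single 0]
  · rw [zsh_aeval_ix, zsh_cf, if_pos rfl, pow_zero, mul_one]
  · intro j _ hj
    rw [zsh_aeval_ix, zsh_cf, if_neg hj, map_zero, zero_mul]
  · intro h1
    exact absurd (Finset.mem_range.2 (Nat.succ_pos d)) h1

/-- the shear of arcs -/
noncomputable def zsp {d : ℕ} (h : PowerSeries k) (s : ℂ) (φ : Fin 2 × Fin (d + 1) → ℂ) :
    Fin 2 × Fin (d + 1) → ℂ :=
  fun p => if p.1 = 1 then φ p + s * PowerSeries.coeff p.2 (arcEval k φ
    (tp d (PowerSeries.subst (MvPowerSeries.X 0 : PS k) h))) else φ p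

theorem zsp_zero {d : ℕ} (h : PowerSeries k) (s : ℂ) (φ : Fin 2 × Fin (d + 1) → ℂ)
    (l : Fin (d + 1)) : zsp h s φ (0, l) = φ (0, l) := by
  simp [zsp]

theorem zsp_one {d : ℕ} (h : PowerSeries k) (s : ℂ) (φ : Fin 2 × Fin (d + 1) → ℂ)
    (l : Fin (d + 1)) : zsp h s φ (1, l) = φ (1, l) + s * PowerSeries.coeff l (arcEval k φ
    (tp d (PowerSeries.subst (MvPowerSeries.X 0 : PS k) h))) := by
  simp [zsp]

theorem zsh_arc_congr {d : ℕ} {φ ψ : Fin 2 × Fin (d + 1) → ℂ} (h : ∀ l, φ (0, l) = ψ (0, l)) :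
    arc φ 0 = arc ψ 0 := by
  unfold arc
  exact Finset.sum_congr rfl fun l _ => by rw [h l]

theorem zsh_eval_congr {d : ℕ} (h : PowerSeries k) {φ ψ : Fin 2 × Fin (d + 1) → ℂ}
    (h0 : ∀ l, φ (0, l) = ψ (0, l)) :
    arcEval k φ (tp d (PowerSeries.subst (MvPowerSeries.X 0 : PS k) h)) =
      arcEval k ψ (tp d (PowerSeries.subst (MvPowerSeries.X 0 : PS k) h)) := by
  unfold arcEval
  rw [zsh_tp, zsh_tp, zsh_arc_congr h0]

theorem zsp_zsp {d : ℕ} (h : PowerSeries k) (s s' : ℂ) (φ : Fin 2 × Fin (d + 1) → ℂ) :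
    zsp h s (zsp h s' φ) = zsp h (s + s') φ := by
  funext p
  obtain ⟨i, l⟩ := p
  fin_cases i
  · show zsp h s (zsp h s' φ) (0, l) = zsp h (s + s') φ (0, l)
    rw [zsp_zero, zsp_zero, zsp_zero]
  · show zsp h s (zsp h s' φ) (1, l) = zsp h (s + s') φ (1, l)
    rw [zsp_one, zsp_one, zsp_one, zsh_eval_congr h (zsp_zero h s' φ)]
    ring

theorem zsp_s0 {d : ℕ} (h : PowerSeries k) (φ : Fin 2 × Fin (d + 1) → ℂ) :
    zsp h 0 φ = φ := by
  funext p
  unfold zsp
  split_ifs <;> ring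

theorem PMap.zsp {d : ℕ} (h : PowerSeries k) (s : k) :
    PMap k (fun φ : Fin 2 × Fin (d + 1) → ℂ => Mono.zsp h (algebraMap k ℂ s) φ) := by
  refine PMap.pi fun p => ?_
  unfold Mono.zsp
  by_cases hp : p.1 = 1
  · simp only [hp, if_true]
    exact (PFun.apply (k := k) p).add ((PFun.const s).mul (PFun.coeff_arcEval p.2 _ PMap.id'))
  · simp only [hp, if_false]
    exact PFun.apply (k := k) p

/-- low coefficients of the shear vanish -/
theorem zsh_low {p q m d : ℕ} (hm : 0 < m) {h : PowerSeries k}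
    (hh : ∀ i, PowerSeries.coeff i h ≠ 0 → q < i * p) {φ : Fin 2 × Fin (d + 1) → ℂ}
    (hφ : ∀ l : Fin (d + 1), (l : ℕ) < m → φ (0, l) = 0) {l : ℕ} (hl : l * p ≤ q * m) :
    PowerSeries.coeff l (arcEval k φ (tp d (PowerSeries.subst (MvPowerSeries.X 0 : PS k) h))) =
      0 := by
  unfold arcEval
  rw [zsh_tp, map_sum]
  apply Finset.sum_eq_zero
  intro i _
  by_cases hi : PowerSeries.coeff i h = 0
  · rw [hi, map_zero, zero_mul, map_zero]
  · have h1 := hh i hi
    have hdvd : (PowerSeries.X : PowerSeries ℂ) ^ m ∣ arc φ 0 := by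
      rw [PowerSeries.X_pow_dvd_iff]
      intro n hn
      rw [coeff_arc]
      by_cases hn2 : n < d + 1
      · rw [dif_pos hn2, hφ ⟨n, hn2⟩ hn]
      · rw [dif_neg hn2]
    have h2 : (PowerSeries.X : PowerSeries ℂ) ^ (m * i) ∣
        algebraMap k (PowerSeries ℂ) (PowerSeries.coeff i h) * arc φ 0 ^ i := by
      rw [pow_mul]
      exact Dvd.dvd.mul_left (pow_dvd_pow_of_dvd hdvd i) _
    rw [PowerSeries.X_pow_dvd_iff] at h2
    apply h2
    by_contra h3
    have h4 : m * i ≤ l := by omega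
    have h5 : m * i * p ≤ l * p := Nat.mul_le_mul_right p h4
    have h6 : q * m < i * p * m := Nat.mul_lt_mul_of_pos_right h1 hm
    nlinarith

theorem zsp_rgn {p q m d : ℕ} (hm : 0 < m) {h : PowerSeries k}
    (hh : ∀ i, PowerSeries.coeff i h ≠ 0 → q < i * p) (s : ℂ) {φ : Fin 2 × Fin (d + 1) → ℂ}
    (hφ : rgn p q m φ) : rgn p q m (zsp h s φ) := by
  obtain ⟨⟨h0, hlt, h1⟩, h2⟩ := hφ
  refine ⟨⟨?_, hlt, ?_⟩, ?_⟩
  · intro l hl
    rw [zsp_zero]
    exact h0 l hl
  · rw [zsp_zero]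
    exact h1
  · intro l hl
    rw [zsp_one, h2 l hl, zsh_low hm hh h0 hl]
    ring

theorem zsh_rgn_org {p q m d : ℕ} (hm : 0 < m) {φ : Fin 2 × Fin (d + 1) → ℂ}
    (hφ : rgn p q m φ) : org φ = 0 := by
  funext i
  fin_cases i
  · exact hφ.1.1 0 hm
  · exact hφ.2 0 (by simp)

theorem zsh_cc_arc {σ : Type} {d : ℕ} (φ : σ × Fin (d + 1) → ℂ) (j : σ) :
    PowerSeries.constantCoeff (arc φ j) = org φ j := by
  rw [← PowerSeries.coeff_zero_eq_constantCoeff_apply, coeff_arc, dif_pos (Nat.succ_pos d)]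
  rfl

theorem zsh_hit {p q m d : ℕ} (hm : 0 < m) {h : PowerSeries k}
    (hh : ∀ i, PowerSeries.coeff i h ≠ 0 → q < i * p) (N : ℕ) (G : PS k)
    {φ : Fin 2 × Fin (d + 1) → ℂ} (hφ : rgn p q m φ) (c : ℂ) :
    Hit (X 0 ^ N * tp d (shr h G)) d φ c ↔ Hit (X 0 ^ N * tp d G) d (zsp h 1 φ) c := by
  have ho := zsh_rgn_org hm hφ
  have hr := zsp_rgn hm hh 1 hφ
  have ho' := zsh_rgn_org hm hr
  have hx : PowerSeries.constantCoeff (arc φ 0) = 0 := by rw [zsh_cc_arc, ho]; rfl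
  have hy : PowerSeries.constantCoeff (arc φ 1) = 0 := by rw [zsh_cc_arc, ho]; rfl
  have hx' : PowerSeries.constantCoeff (arc (zsp h 1 φ) 0) = 0 := by
    rw [zsh_cc_arc, ho']; rfl
  have hy' : PowerSeries.constantCoeff (arc (zsp h 1 φ) 1) = 0 := by
    rw [zsh_cc_arc, ho']; rfl
  rw [hit_ev N (shr h G) φ ho c, hit_ev N G (zsp h 1 φ) ho' c]
  set H : PS k := PowerSeries.subst (MvPowerSeries.X 0 : PS k) h with hH
  have h00 : PowerSeries.constantCoeff h = 0 := by
    by_contra h1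
    have := hh 0 (by rwa [PowerSeries.coeff_zero_eq_constantCoeff_apply])
    omega
  have hH0 : MvPowerSeries.constantCoeff H = 0 :=
    PowerSeries.constantCoeff_subst_eq_zero (by simp) h h00
  have e0 : arc (zsp h 1 φ) 0 = arc φ 0 := zsh_arc_congr (zsp_zero h 1 φ)
  have e1 : ev (shr h G) (arc φ 0) (arc φ 1) =
      ev G (arc φ 0) (arc φ 1 + ev H (arc φ 0) (arc φ 1)) := by
    unfold shr
    rw [ev_subst hx hy]
    · have a0 : shv h 0 = MvPowerSeries.X 0 := rfl
      have a1 : shv h 1 = MvPowerSeries.X 1 + H := rfl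
      rw [a0, a1, ev_X0 hx hy, ev_add hx hy, ev_X1 hx hy]
    · intro i
      fin_cases i
      · show MvPowerSeries.constantCoeff (MvPowerSeries.X 0 : PS k) = 0
        simp
      · show MvPowerSeries.constantCoeff (MvPowerSeries.X 1 + H : PS k) = 0
        rw [map_add, hH0]
        simp
  have hc : PowerSeries.constantCoeff (arc φ 1 + ev H (arc φ 0) (arc φ 1)) = 0 := by
    rw [map_add, hy, constantCoeff_ev hx hy, hH0, map_zero, add_zero]
  have e2 : ∀ l, l ≤ d → PowerSeries.coeff l (arc φ 1 + ev H (arc φ 0) (arc φ 1)) =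
      PowerSeries.coeff l (arc (zsp h 1 φ) 1) := by
    intro l hl
    have hl' : l < d + 1 := by omega
    rw [map_add, coeff_arc (zsp h 1 φ), dif_pos hl', zsp_one, one_mul, coeff_arc φ, dif_pos hl',
      coeff_ev hx hy H hl]
    congr 2
    unfold arcEval
    rw [hH, zsh_tp, zsh_tp]
    rfl
  have e3 : ∀ l, l ≤ d → PowerSeries.coeff l (arc φ 0 ^ N * ev (shr h G) (arc φ 0) (arc φ 1)) =
      PowerSeries.coeff l (arc (zsp h 1 φ) 0 ^ N *
        ev G (arc (zsp h 1 φ) 0) (arc (zsp h 1 φ) 1)) := by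
    intro l hl
    rw [e0, e1, PowerSeries.coeff_mul, PowerSeries.coeff_mul]
    refine Finset.sum_congr rfl fun x hxx => ?_
    have hx2 : x.2 ≤ l := by
      have := Finset.HasAntidiagonal.mem_antidiagonal.1 hxx
      omega
    congr 1
    exact coeff_ev_congr hx hc hx hy' G (fun _ _ => rfl) (fun n hn => e2 n (by omega))
  constructor
  · intro h1 l hl
    rw [← e3 l hl]
    exact h1 l hl
  · intro h1 l hl
    rw [e3 l hl]
    exact h1 l hl

theorem zsh_icons_ordc {N : ℕ} (i : Fin 2) (n : ℕ) :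
    ICons k {φ : Fin 2 × Fin N → ℂ | ordc φ i n} := by
  unfold ordc
  refine ICons.and ?_ ?_
  · apply ICons.forall_fin
    intro l
    by_cases h : (l : ℕ) < n
    · simp only [h, true_implies]
      exact ICons.eq (PFun.apply (k := k) (i, l)) PFun.zero
    · simp only [h, false_implies]
      exact ICons.univ
  · by_cases h : n < N
    · have e : {φ : Fin 2 × Fin N → ℂ | ∃ h : n < N, φ (i, ⟨n, h⟩) ≠ 0} =
          {φ | φ (i, ⟨n, h⟩) ≠ 0} := by
        ext φ
        exact ⟨fun ⟨_, h1⟩ => h1, fun h1 => ⟨h, h1⟩⟩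
      rw [e]
      exact ICons.ne (PFun.apply (k := k) (i, (⟨n, h⟩ : Fin N))) PFun.zero
    · have e : {φ : Fin 2 × Fin N → ℂ | ∃ h : n < N, φ (i, ⟨n, h⟩) ≠ 0} = ∅ := by
        ext φ
        exact ⟨fun ⟨h2, _⟩ => absurd h2 h, fun h1 => absurd h1 (Set.notMem_empty _)⟩
      rw [e]
      exact ICons.empty

theorem zsh_icons_rgn {N : ℕ} (p q m : ℕ) :
    ICons k {φ : Fin 2 × Fin N → ℂ | rgn p q m φ} := by
  unfold rgn
  refine ICons.and (zsh_icons_ordc 0 m) ?_
  apply ICons.forall_fin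
  intro l
  by_cases h : (l : ℕ) * p ≤ q * m
  · simp only [h, true_implies]
    exact ICons.eq (PFun.apply (k := k) (1, l)) PFun.zero
  · simp only [h, false_implies]
    exact ICons.univ

theorem zsh_icons_dm (N : ℕ) (G : PS k) (p q m d : ℕ) (t : Test k) :
    ICons k {x : (Fin 2 × Fin (d + 1) → ℂ) × t.E | x.2 ∈ t.W ∧ rgn p q m x.1 ∧
      Hit (X 0 ^ N * tp d G) d x.1 (t.c x.2)} :=
  (t.cW.mem PMap.snd).and (((zsh_icons_rgn p q m).mem PMap.fst).and
    (ICons.hit d _ PMap.fst (t.pf.comp PMap.snd)))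

theorem zsh_dm_shr {p q m d : ℕ} (hm : 0 < m) {h : PowerSeries k}
    (hh : ∀ i, PowerSeries.coeff i h ≠ 0 → q < i * p) (N : ℕ) (G : PS k) (t : Test k) :
    dm N (shr h G) p q m d t = dm N G p q m d t := by
  have e1 : (algebraMap k ℂ 1) = 1 := map_one _
  have e2 : (algebraMap k ℂ (-1)) = -1 := by rw [map_neg, map_one]
  unfold dm
  refine mo_bij (zsh_icons_dm N (shr h G) p q m d t) (zsh_icons_dm N G p q m d t)
    (f := fun x => (zsp h (algebraMap k ℂ 1) x.1, x.2))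
    (PMap.prodMk (PMap.comp (PMap.zsp h 1) PMap.fst) PMap.snd) ⟨?_, ?_, ?_⟩
  · rintro ⟨φ, w⟩ ⟨h1, h2, h3⟩
    simp only at h1 h2 h3
    refine ⟨h1, ?_, ?_⟩
    · simp only
      exact zsp_rgn hm hh _ h2
    · simp only
      rw [e1]
      exact (zsh_hit hm hh N G h2 _).1 h3
  · rintro ⟨φ, w⟩ _ ⟨φ', w'⟩ _ hxy
    simp only [Prod.mk.injEq] at hxy
    obtain ⟨h1, h2⟩ := hxy
    have h3 : zsp h (-1) (zsp h 1 φ) = zsp h (-1) (zsp h 1 φ') := by
      rw [e1] at h1
      rw [h1]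
    rw [zsp_zsp, zsp_zsp, neg_add_cancel, zsp_s0, zsp_s0] at h3
    rw [h3, h2]
  · rintro ⟨φ, w⟩ ⟨h1, h2, h3⟩
    simp only at h1 h2 h3
    have h4 : zsp h 1 (zsp h (-1) φ) = φ := by
      rw [zsp_zsp, add_neg_cancel, zsp_s0]
    refine ⟨(zsp h (-1) φ, w), ⟨h1, ?_, ?_⟩, ?_⟩
    · simp only
      exact zsp_rgn hm hh _ h2
    · simp only
      rw [zsh_hit hm hh N G (zsp_rgn hm hh _ h2), h4]
      exact h3
    · simp only
      rw [e1, h4]

theorem bey_shr {p q : ℕ} (hp : 0 < p) {h : PowerSeries k}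
    (hh : ∀ i, PowerSeries.coeff i h ≠ 0 → q < i * p) (N ν : ℕ) (G : PS k) (a b d : ℕ)
    (t : Test k) : bey N ν (shr h G) p q a b d t = bey N ν G p q a b d t := by
  unfold bey
  refine Finset.sum_congr rfl fun m hm => ?_
  have hm1 : 0 < m := by
    have := (Finset.mem_Icc.1 (Finset.mem_filter.1 hm).1).1
    omega
  rw [zsh_dm_shr hm1 hh, zsh_dm_shr hm1 hh]

end ZSH

end Pool.Agent.H75.Mono
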