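import Pool.Agent.H75.Plc.P0

/-! # PLC, module SHC: shifted cylinders -/

set_option autoImplicit false

namespace Pool.Agent.H75.Mono

open MvPolynomial Pool.Agent.H39.MonoR

section SHC

variable {k : Type} [Field k] [Algebra k ℂ] {E : Type} [Aff E]

/-- the arc `ψ` with `φ_i = t^(e_i) ψ_i` -/
def sft {K N : ℕ} (e : Fin 2 → ℕ) (φ : Fin 2 × Fin N → ℂ) : Fin 2 × Fin K → ℂ :=
  fun p => if h : e p.1 + p.2 < N then φ (p.1, ⟨e p.1 + p.2, h⟩) else 0

theorem PMap.shc_sft {K N : ℕ} (e : Fin 2 → ℕ) :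
    PMap k (fun φ : Fin 2 × Fin N → ℂ => Mono.sft (K := K) e φ) := by
  refine PMap.pi fun p => ?_
  unfold Mono.sft
  by_cases h : e p.1 + p.2 < N
  · simp only [h, dif_pos]
    exact PFun.apply (k := k) (p.1, (⟨e p.1 + p.2, h⟩ : Fin N))
  · simp only [h, dif_neg, not_false_iff]
    exact PFun.zero

theorem shc_icons_low {N : ℕ} (e : Fin 2 → ℕ) : ICons k {φ : Fin 2 × Fin N → ℂ |
    ∀ (i : Fin 2) (l : Fin N), (l : ℕ) < e i → φ (i, l) = 0} := by
  apply ICons.forall_fin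
  intro i
  apply ICons.forall_fin
  intro l
  by_cases h : (l : ℕ) < e i
  · simp only [h, true_implies]
    exact ICons.eq (PFun.apply (k := k) (i, l)) PFun.zero
  · simp only [h, false_implies]
    exact ICons.univ

theorem shc_icons_sft {K N : ℕ} (e : Fin 2 → ℕ) {A : Set ((Fin 2 × Fin K → ℂ) × E)}
    (hA : ICons k A) : ICons k {x : (Fin 2 × Fin N → ℂ) × E |
      (∀ (i : Fin 2) (l : Fin N), (l : ℕ) < e i → x.1 (i, l) = 0) ∧ (sft e x.1, x.2) ∈ A} :=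
  ICons.and ((shc_icons_low e).mem PMap.fst)
    (hA.mem (PMap.prodMk (PMap.comp (PMap.shc_sft e) PMap.fst) PMap.snd))

theorem mo_sft {K N : ℕ} {e : Fin 2 → ℕ} (h : ∀ i, e i + K ≤ N)
    {A : Set ((Fin 2 × Fin K → ℂ) × E)} (hA : ICons k A) :
    mo k {x : (Fin 2 × Fin N → ℂ) × E |
      (∀ (i : Fin 2) (l : Fin N), (l : ℕ) < e i → x.1 (i, l) = 0) ∧ (sft e x.1, x.2) ∈ A} =
    ↑(Lu k ^ ((N - e 0 - K) + (N - e 1 - K) : ℕ)) * mo k A := by
  have hlt : ∀ (i : Fin 2) (l : Fin (N - e i - K)), e i + K + (l : ℕ) < N := by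
    intro i l
    have := h i
    have := l.2
    omega
  let hi : (Fin 2 × Fin N → ℂ) → ((Σ i : Fin 2, Fin (N - e i - K)) → ℂ) :=
    fun φ p => φ (p.1, ⟨e p.1 + K + p.2, hlt p.1 p.2⟩)
  have hhi : PMap k (fun x : (Fin 2 × Fin N → ℂ) × E => hi x.1) :=
    PMap.pi fun p => (PFun.apply (k := k)
      ((p.1, ⟨e p.1 + K + p.2, hlt p.1 p.2⟩) : Fin 2 × Fin N)).comp PMap.fst
  have hlo : PMap k (fun x : (Fin 2 × Fin N → ℂ) × E => (sft (K := K) e x.1, x.2)) :=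
    PMap.prodMk (PMap.comp (PMap.shc_sft e) PMap.fst) PMap.snd
  have hf := hlo.prodMk hhi
  have hB : ICons k {y : ((Fin 2 × Fin K → ℂ) × E) × ((Σ i : Fin 2, Fin (N - e i - K)) → ℂ) |
      y.1 ∈ A ∧ y.2 ∈ (Set.univ : Set ((Σ i : Fin 2, Fin (N - e i - K)) → ℂ))} :=
    ICons.prod hA ICons.univ
  rw [mo_bij (shc_icons_sft e hA) hB hf ⟨?_, ?_, ?_⟩, mo_prod hA ICons.univ, mo_univ_pi, mul_comm,
    zpow_natCast]
  · congr 3
    simp [Nat.card_eq_fintype_card, Fin.sum_univ_two]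
  · intro x hx
    exact ⟨hx.2, Set.mem_univ _⟩
  · rintro ⟨φ, w⟩ ⟨h0, -⟩ ⟨φ', w'⟩ ⟨h0', -⟩ hxy
    simp only [Prod.mk.injEq] at hxy
    obtain ⟨⟨h1, h2⟩, h3⟩ := hxy
    refine Prod.ext ?_ h2
    funext p
    obtain ⟨i, l, hl⟩ := p
    by_cases hl1 : l < e i
    · exact (h0 i ⟨l, hl⟩ hl1).trans (h0' i ⟨l, hl⟩ hl1).symm
    by_cases hl2 : l < e i + K
    · have h4 := congrFun h1 (i, ⟨l - e i, by omega⟩)
      have h5 : e i + (l - e i) < N := by omega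
      simp only [sft, h5, dif_pos] at h4
      have h6 : (⟨e i + (l - e i), h5⟩ : Fin N) = ⟨l, hl⟩ := by
        simp only [Fin.mk.injEq]; omega
      rw [h6] at h4
      exact h4
    · have h4 := congrFun h3 ⟨i, ⟨l - (e i + K), by omega⟩⟩
      have h5 : (⟨e i + K + (l - (e i + K)), by omega⟩ : Fin N) = ⟨l, hl⟩ := by
        simp only [Fin.mk.injEq]; omega
      simp only [hi, h5] at h4
      exact h4
  · rintro ⟨⟨φ, w⟩, χ⟩ ⟨hy, -⟩
    let x : Fin 2 × Fin N → ℂ := fun p => if h1 : (p.2 : ℕ) < e p.1 then 0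
      else if h2 : (p.2 : ℕ) < e p.1 + K then φ (p.1, ⟨p.2 - e p.1, by omega⟩)
      else χ ⟨p.1, ⟨p.2 - (e p.1 + K), by have := p.2.2; omega⟩⟩
    have h1 : sft e x = φ := by
      funext p
      obtain ⟨i, l, hl⟩ := p
      have h5 : e i + l < N := by have := h i; omega
      simp [x, sft, h5, hl]
    have h2 : hi x = χ := by
      funext p
      obtain ⟨i, l, hl⟩ := p
      have h6 : ¬ (e i + K + l < e i) := by omega
      simp [x, hi, h6]
    refine ⟨(x, w), ⟨?_, ?_⟩, ?_⟩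
    · intro i l hl
      simp [x, hl]
    · simp only
      rw [h1]
      exact hy
    · simp only [h1, h2]

end SHC

end Pool.Agent.H75.Mono
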