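import Pool.Agent.H75.Plc.ZTP
import Pool.Agent.H75.Plc.ZLO
import Pool.Agent.H75.Plc.ZCH

/-! # PLC, module ZRC: the recursion -/

set_option autoImplicit false

namespace Pool.Agent.H75.Mono

open MvPolynomial Pool.Agent.H39.MonoR

section ZRC

variable {k : Type} [Field k] [Algebra k ℂ] {N ν a b p q p' q' E r s : ℕ} {G : PS k}

private theorem zrc_lin {J R : Type*} [CommRing R] (s : Finset J) (f g : J → R) (c x y : R) :
    c * (x + ∑ i ∈ s, f i - (y + ∑ i ∈ s, g i)) =
      c * (x - y) + ∑ i ∈ s, c * (f i - g i) := by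
  rw [← Finset.mul_sum, Finset.sum_sub_distrib]
  ring

private theorem zrc_sum {J R : Type*} [CommRing R] [DecidableEq J] (S : Finset J)
    (A B : Finset ℕ) (hAB : Disjoint A B) (F F' : ℕ → R) (H : J → ℕ → R) (P : ℕ → Prop)
    [DecidablePred P]
    (h : ∀ m ∈ B, F m = F' m + if P m then ∑ μ ∈ S, H μ m else 0) :
    ∑ m ∈ A ∪ B, F m = ∑ m ∈ A, F m + ∑ μ ∈ S, ∑ m ∈ B with P m, H μ m + ∑ m ∈ B, F' m := by
  rw [Finset.sum_union hAB, Finset.sum_congr rfl h, Finset.sum_add_distrib,
    ← Finset.sum_filter, Finset.sum_comm, add_assoc]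
  congr 1
  exact add_comm _ _

/-- the exponent at the top level -/
private theorem zrc_top {m d x y : ℕ} (hmd : m ≤ d) (hy : y ≤ d) (hx : x = y) (A : M k) :
    ↑(Lu k ^ (-(((ν : ℤ) - 1) * m + 2 * d))) * (↑(Lu k ^ ((d - m) + (d - x) : ℕ)) * A) =
      (↑(Lu k ^ (-((ν : ℤ) * m + (y : ℕ)))) : M k) * A := by
  subst hx
  rw [← mul_assoc, ← Units.val_mul, ← zpow_natCast, ← zpow_add]
  congr 3
  push_cast [Nat.cast_sub hmd, Nat.cast_sub hy]
  ring

private theorem zrc_ceil {b x d : ℕ} (hb : 0 < b) (hx : x ≤ d) : (x + b - 1) / b ≤ d := by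
  refine le_trans ?_ hx
  rcases Nat.eq_zero_or_pos x with h | h
  · subst h
    have : 0 + b - 1 < b := by omega
    rw [Nat.div_eq_of_lt this]
  · rw [Nat.div_le_iff_le_mul_add_pred hb]
    have : x ≤ b * x := Nat.le_mul_of_pos_left x hb
    omega

/-- the exponent in the chart -/
private theorem zrc_low {m d : ℕ} (hp' : 0 < p') (A : M k) :
    ↑(Lu k ^ (-(((ν : ℤ) - 1) * ((p' * m : ℕ) : ℤ) + 2 * d))) *
      (↑(Lu k ^ (-((m * (p' + q' - 1) : ℕ) : ℤ))) * A) =
    (↑(Lu k ^ (-((((ν * p' + q' : ℕ) : ℤ) - 1) * m + 2 * d))) : M k) * A := by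
  rw [← mul_assoc, ← Units.val_mul, ← zpow_add]
  congr 3
  have h1 : 1 ≤ p' + q' := by omega
  push_cast [Nat.cast_sub h1]
  ring

theorem bey_edge [IsAlgClosed k] (hp : 0 < p) (hV : Vtx G p q a b) (hE : Edge G a b p' q' E)
    (hκ : q * p' < q' * p) (hN : 1 ≤ N + a) (hrs : p' * s = q' * r + 1) (d : ℕ) (t : Test k) :
    bey N ν G p q a b d t = cne N ν G p q a b p' q' E d t +
      ∑ μ ∈ rts (edp G a b p' q' E),
        bey (N * p' + (a * p' + b * q')) (ν * p' + q') (chd N p' q' (a * p' + b * q') r s μ G)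
          1 0 0 ((edp G a b p' q' E).rootMultiplicity μ) d t +
      bey N ν G p' q' (a + q' * E) (b - p' * E) d t := by
  classical
  have hp' := hE.p0
  have hq' := hE.q0
  have hb : 0 < b := lt_of_lt_of_le (Nat.mul_pos hE.p0 hE.e0) hE.eb
  have hc : N * p' + (a * p' + b * q') = (N + a) * p' + b * q' := by ring
  -- the lower levels
  have hfil : (Finset.Icc 1 d).filter (fun m => ((N + a) * p + b * q) * m < p * d) =
      (Finset.Icc 1 d).filter (fun m => ((N + a) * p + b * q) * m < p * d ∧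
        p' * d ≤ ((N + a) * p' + b * q') * m) ∪
      (Finset.Icc 1 d).filter (fun m => ((N + a) * p' + b * q') * m < p' * d) := by
    ext m
    simp only [Finset.mem_filter, Finset.mem_union]
    constructor
    · rintro ⟨h1, h2⟩
      by_cases h3 : p' * d ≤ ((N + a) * p' + b * q') * m
      · exact Or.inl ⟨h1, h2, h3⟩
      · exact Or.inr ⟨h1, by omega⟩
    · rintro (⟨h1, h2, -⟩ | ⟨h1, h2⟩)
      · exact ⟨h1, h2⟩
      · refine ⟨h1, ?_⟩
        have h3 : p' * (((N + a) * p + b * q) * m) < p' * (p * d) := by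
          calc p' * (((N + a) * p + b * q) * m) =
              (N + a) * p * p' * m + b * (q * p') * m := by ring
            _ ≤ (N + a) * p * p' * m + b * (q' * p) * m :=
              Nat.add_le_add_left (Nat.mul_le_mul_right m (Nat.mul_le_mul_left b hκ.le)) _
            _ = p * (((N + a) * p' + b * q') * m) := by ring
            _ < p * (p' * d) := Nat.mul_lt_mul_of_pos_left h2 hp
            _ = p' * (p * d) := by ring
        exact lt_of_mul_lt_mul_left h3 (Nat.zero_le _)
  have hdisj : Disjoint ((Finset.Icc 1 d).filter (fun m => ((N + a) * p + b * q) * m < p * d ∧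
        p' * d ≤ ((N + a) * p' + b * q') * m))
      ((Finset.Icc 1 d).filter (fun m => ((N + a) * p' + b * q') * m < p' * d)) := by
    rw [Finset.disjoint_left]
    intro m h1 h2
    have h3 := (Finset.mem_filter.1 h1).2.2
    have h4 := (Finset.mem_filter.1 h2).2
    omega
  have hlow : ∀ m ∈ (Finset.Icc 1 d).filter (fun m => ((N + a) * p' + b * q') * m < p' * d),
      (↑(Lu k ^ (-(((ν : ℤ) - 1) * m + 2 * d))) : M k) *
        (dm N G p q m d t - dm N G p q m d t.zr) =
      ↑(Lu k ^ (-(((ν : ℤ) - 1) * m + 2 * d))) *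
        (dm N G p' q' m d t - dm N G p' q' m d t.zr) +
      if p' ∣ m then ∑ μ ∈ rts (edp G a b p' q' E),
        ↑(Lu k ^ (-(((ν : ℤ) - 1) * m + 2 * d))) *
          (rpt N G p' q' μ (m / p') d t - rpt N G p' q' μ (m / p') d t.zr) else 0 := by
    intro m hm
    obtain ⟨h1, h2⟩ := Finset.mem_filter.1 hm
    have h3 := (Finset.mem_Icc.1 h1).1
    rw [dm_low hp hV hE hκ h3 h2 t, dm_low hp hV hE hκ h3 h2 t.zr]
    split_ifs with h4
    · exact zrc_lin _ _ _ _ _ _
    · rw [add_zero, add_zero, add_zero]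
  have e3 : bey N ν G p' q' (a + q' * E) (b - p' * E) d t =
      ∑ m ∈ (Finset.Icc 1 d).filter (fun m => ((N + a) * p' + b * q') * m < p' * d),
        ↑(Lu k ^ (-(((ν : ℤ) - 1) * m + 2 * d))) *
          (dm N G p' q' m d t - dm N G p' q' m d t.zr) := by
    unfold bey
    have : (N + (a + q' * E)) * p' + (b - p' * E) * q' = (N + a) * p' + b * q' := by
      have := hE.eb
      zify [this]
      ring
    rw [this]
  have e2 : (∑ μ ∈ rts (edp G a b p' q' E),
        ∑ m ∈ ((Finset.Icc 1 d).filter (fun m => ((N + a) * p' + b * q') * m < p' * d)) with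
          p' ∣ m, (↑(Lu k ^ (-(((ν : ℤ) - 1) * m + 2 * d))) : M k) *
          (rpt N G p' q' μ (m / p') d t - rpt N G p' q' μ (m / p') d t.zr)) =
      ∑ μ ∈ rts (edp G a b p' q' E),
        bey (N * p' + (a * p' + b * q')) (ν * p' + q') (chd N p' q' (a * p' + b * q') r s μ G)
          1 0 0 ((edp G a b p' q' E).rootMultiplicity μ) d t := by
    apply Finset.sum_congr rfl
    intro μ hμ
    have hμ0 : μ ≠ 0 := by
      rintro rfl
      unfold rts at hμ
      rw [Multiset.mem_toFinset] at hμ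
      exact hE.edp_zero (Polynomial.isRoot_of_mem_roots hμ)
    unfold bey
    have hNp : p' ≤ N * p' + (a * p' + b * q') := by
      rw [hc]
      have : 1 * p' ≤ (N + a) * p' := Nat.mul_le_mul_right p' hN
      omega
    have hNq : q' ≤ N * p' + (a * p' + b * q') := by
      have : 1 * q' ≤ b * q' := Nat.mul_le_mul_right q' hb
      omega
    symm
    refine Finset.sum_bij (fun m' _ => p' * m') ?_ ?_ ?_ ?_
    · intro m' hm'
      obtain ⟨h1, h2⟩ := Finset.mem_filter.1 hm'
      have h3 := Finset.mem_Icc.1 h1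
      simp only [add_zero, mul_one, mul_zero, one_mul] at h2
      have h4 : p' * m' ≤ d := (le_trans (Nat.mul_le_mul_right m' hNp) h2.le)
      have h5 : 1 ≤ p' * m' := Nat.mul_pos hp' h3.1
      rw [Finset.mem_filter, Finset.mem_filter, Finset.mem_Icc]
      refine ⟨⟨⟨h5, h4⟩, ?_⟩, Dvd.intro _ rfl⟩
      calc ((N + a) * p' + b * q') * (p' * m') =
          p' * ((N * p' + (a * p' + b * q')) * m') := by ring
        _ < p' * d := Nat.mul_lt_mul_of_pos_left h2 hp'
    · intro x _ y _ hxy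
      exact Nat.eq_of_mul_eq_mul_left hp' hxy
    · intro m hm
      rw [Finset.mem_filter, Finset.mem_filter, Finset.mem_Icc] at hm
      obtain ⟨⟨⟨h1, h2⟩, h3⟩, m', rfl⟩ := hm
      refine ⟨m', ?_, rfl⟩
      rw [Finset.mem_filter, Finset.mem_Icc]
      have h4 : 0 < m' := by
        rcases Nat.eq_zero_or_pos m' with h | h
        · rw [h, mul_zero] at h1; omega
        · exact h
      have h5 : m' ≤ p' * m' := Nat.le_mul_of_pos_left m' hp'
      refine ⟨⟨h4, by omega⟩, ?_⟩
      simp only [add_zero, mul_one, mul_zero, one_mul]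
      have h6 : p' * ((N * p' + (a * p' + b * q')) * m') < p' * d := by
        calc p' * ((N * p' + (a * p' + b * q')) * m') =
            ((N + a) * p' + b * q') * (p' * m') := by ring
          _ < p' * d := h3
      exact lt_of_mul_lt_mul_left h6 (Nat.zero_le _)
    · intro m' hm'
      obtain ⟨h1, h2⟩ := Finset.mem_filter.1 hm'
      have h3 := Finset.mem_Icc.1 h1
      simp only [add_zero, mul_one, mul_zero, one_mul] at h2
      rw [Nat.mul_div_cancel_left m' hp',
        rpt_chd hp' hq' hrs hE.wt hNp hNq hμ0 h3.1 h2 t,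
        rpt_chd hp' hq' hrs hE.wt hNp hNq hμ0 h3.1 h2 t.zr, ← mul_sub, zrc_low hp']
  rw [e3, ← e2]
  unfold bey cne
  rw [hfil]
  refine (zrc_sum (rts (edp G a b p' q' E)) _ _ hdisj _ _ _ _ hlow).trans ?_
  refine congrArg (fun z => z + _ + _) ?_
  apply Finset.sum_congr rfl
  intro m hm
  obtain ⟨h1, h2, h3⟩ := Finset.mem_filter.1 hm
  have h4 := Finset.mem_Icc.1 h1
  rw [dm_top hp hV hE hκ h4.1 h4.2 h2 h3 t]
  exact zrc_top h4.2 (zrc_ceil hb (Nat.sub_le _ _)) rfl _

theorem bey_div (hp : 0 < p) (hb : 0 < b) (hV : Vtx G p q a b)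
    (hD : ∀ i j, cf G i j ≠ 0 → b ≤ j) (d : ℕ) (t : Test k) :
    bey N ν G p q a b d t = cnd N ν G p q a b d t := by
  unfold bey cnd
  apply Finset.sum_congr rfl
  intro m hm
  obtain ⟨h1, h2⟩ := Finset.mem_filter.1 hm
  have h4 := Finset.mem_Icc.1 h1
  rw [dm_top_div hp hb hV hD h4.1 h4.2 h2 t]
  exact zrc_top h4.2 (zrc_ceil hb (Nat.sub_le _ _)) rfl _

end ZRC

end Pool.Agent.H75.Mono
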