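import Pool.Agent.H75.Plc.VTX

/-! # PLC, module LIN: normal forms of tangent cones -/

set_option autoImplicit false
set_option linter.unusedSectionVars false

namespace Pool.Agent.H75.Mono

section LIN

variable {k : Type} [Field k]

theorem lin_deg (i j : ℕ) : (ix i j).degree = i + j := by
  unfold ix
  rw [map_add, Finsupp.degree_single, Finsupp.degree_single]

theorem lin_ix0 (i j : ℕ) : ix i j 0 = i := by
  unfold ix
  simp

theorem lin_ix1 (i j : ℕ) : ix i j 1 = j := by
  unfold ix
  simp

theorem lin_ix (d : Fin 2 →₀ ℕ) : d = ix (d 0) (d 1) := by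
  ext i
  fin_cases i
  · exact (lin_ix0 _ _).symm
  · exact (lin_ix1 _ _).symm

/-- coefficients of homogeneous polynomials -/
theorem lin_coeff {n : ℕ} {q : MvPolynomial (Fin 2) k} (hq : q.IsHomogeneous n) {i j : ℕ}
    (hij : i + j = n) : MvPolynomial.coeff (ix i j) q =
      (MvPolynomial.aeval (![Polynomial.X, 1] : Fin 2 → Polynomial k) q).coeff i := by
  conv_lhs => rw [← Polynomial.homogenize_eq_of_isHomogeneous hq rfl]
  rw [Polynomial.coeff_homogenize, lin_ix0, lin_ix1, if_pos hij]

/-- the initial form -/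
noncomputable def lin_form (G : PS k) (n : ℕ) (b0 b1 : MvPolynomial (Fin 2) k) :
    MvPolynomial (Fin 2) k :=
  ∑ l ∈ Finset.range (n + 1), MvPolynomial.C (cf G (n - l) l) * b0 ^ (n - l) * b1 ^ l

/-- the polynomial of the initial form -/
noncomputable def lin_pol (G : PS k) (n : ℕ) : Polynomial k :=
  ∑ l ∈ Finset.range (n + 1), Polynomial.C (cf G (n - l) l) * Polynomial.X ^ l

theorem lin_pol_coeff (G : PS k) {n l : ℕ} (hl : l ≤ n) :
    (lin_pol G n).coeff l = cf G (n - l) l := by
  unfold lin_pol
  rw [Polynomial.finsetSum_coeff, Finset.sum_eq_single l]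
  · rw [Polynomial.coeff_C_mul, Polynomial.coeff_X_pow_self, mul_one]
  · intro m _ hm
    rw [Polynomial.coeff_C_mul, Polynomial.coeff_X_pow, if_neg (Ne.symm hm), mul_zero]
  · intro h
    exact absurd (Finset.mem_range.mpr (Nat.lt_succ_of_le hl)) h

theorem lin_pol_degree (G : PS k) (n : ℕ) : (lin_pol G n).natDegree ≤ n := by
  unfold lin_pol
  refine Polynomial.natDegree_sum_le_of_forall_le _ _ fun l hl => ?_
  refine (Polynomial.natDegree_C_mul_X_pow_le _ _).trans ?_
  exact Nat.lt_succ_iff.mp (Finset.mem_range.mp hl)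

theorem lin_form_homog (G : PS k) (n : ℕ) {b0 b1 : MvPolynomial (Fin 2) k}
    (h0 : b0.IsHomogeneous 1) (h1 : b1.IsHomogeneous 1) : (lin_form G n b0 b1).IsHomogeneous n := by
  unfold lin_form
  refine MvPolynomial.IsHomogeneous.sum _ _ _ fun l hl => ?_
  have hl' := Nat.lt_succ_iff.mp (Finset.mem_range.mp hl)
  have := ((MvPolynomial.isHomogeneous_C (Fin 2) (cf G (n - l) l)).mul (h0.pow (n - l))).mul
    (h1.pow l)
  have e : 0 + 1 * (n - l) + 1 * l = n := by omega
  rwa [e] at this

/-- the values of the form in terms of the polynomial -/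
theorem lin_form_eq (G : PS k) (n : ℕ) (b0 b1 : MvPolynomial (Fin 2) k) :
    lin_form G n b0 b1 = MvPolynomial.aeval (![b1, b0] : Fin 2 → MvPolynomial (Fin 2) k)
      ((lin_pol G n).homogenize n) := by
  unfold lin_form Polynomial.homogenize
  rw [map_sum, Finset.Nat.sum_antidiagonal_eq_sum_range_succ_mk]
  refine Finset.sum_congr rfl fun l hl => ?_
  have hl' := Nat.lt_succ_iff.mp (Finset.mem_range.mp hl)
  rw [lin_pol_coeff G hl']
  rw [MvPolynomial.aeval_monomial, Finsupp.prod_fintype _ _ (fun i => pow_zero _),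
    Fin.prod_univ_two]
  simp only [MvPolynomial.algebraMap_eq, Matrix.cons_val_zero, Matrix.cons_val_one]
  simp
  ring

/-- all coefficients of total degree less than `n` vanish -/
theorem lin_lower {G : PS k} {n : ℕ} (h : ∀ i j, cf G i j ≠ 0 → n ≤ i + j) {a : Fin 2 → PS k}
    (ha : ∀ i, MvPowerSeries.constantCoeff (a i) = 0) (i j : ℕ)
    (hij : cf (MvPowerSeries.subst a G) i j ≠ 0) : n ≤ i + j := by
  have hs : MvPowerSeries.HasSubst a := MvPowerSeries.hasSubst_of_constantCoeff_zero ha
  have h1 : (n : ℕ∞) ≤ G.order := by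
    apply MvPowerSeries.nat_le_order
    intro d hd
    by_contra hne
    rw [lin_ix d] at hne hd
    have := h _ _ hne
    rw [lin_deg] at hd
    omega
  have h2 : (1 : ℕ∞) ≤ ⨅ i, (a i).order := by
    apply le_iInf
    intro i
    exact MvPowerSeries.one_le_order_iff_constCoeff_eq_zero.mpr (ha i)
  have h3 := MvPowerSeries.le_order_subst hs G
  have h4 : (n : ℕ∞) ≤ (MvPowerSeries.subst a G).order := by
    refine le_trans ?_ h3
    calc (n : ℕ∞) = 1 * n := (one_mul _).symm
      _ ≤ _ := mul_le_mul' h2 h1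
  have h5 := MvPowerSeries.order_le hij
  rw [lin_deg] at h5
  exact_mod_cast h4.trans h5

theorem lin_form_coeff (G : PS k) {n i j : ℕ} (hij : i + j = n) :
    MvPolynomial.coeff (ix i j) (lin_form G n (MvPolynomial.X 0) (MvPolynomial.X 1)) =
      cf G i j := by
  rw [lin_coeff (lin_form_homog G n (MvPolynomial.isHomogeneous_X k 0)
    (MvPolynomial.isHomogeneous_X k 1)) hij]
  unfold lin_form
  rw [map_sum, Polynomial.finsetSum_coeff, Finset.sum_eq_single j]
  · simp only [map_mul, map_pow, MvPolynomial.aeval_C, MvPolynomial.aeval_X,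
      Matrix.cons_val_zero, Matrix.cons_val_one, one_pow, mul_one, Polynomial.algebraMap_apply,
      Algebra.algebraMap_self, RingHom.id_apply, Polynomial.coeff_C_mul, Polynomial.coeff_X_pow]
    have : n - j = i := by omega
    rw [this, if_pos rfl, mul_one]
  · intro l hl hlj
    have hl' := Nat.lt_succ_iff.mp (Finset.mem_range.mp hl)
    simp only [map_mul, map_pow, MvPolynomial.aeval_C, MvPolynomial.aeval_X,
      Matrix.cons_val_zero, Matrix.cons_val_one, one_pow, mul_one, Polynomial.algebraMap_apply,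
      Algebra.algebraMap_self, RingHom.id_apply, Polynomial.coeff_C_mul, Polynomial.coeff_X_pow]
    rw [if_neg (by omega), mul_zero]
  · intro h
    exact absurd (Finset.mem_range.mpr (by omega)) h

theorem lin_top {G : PS k} {n : ℕ} (h : ∀ i j, cf G i j ≠ 0 → n ≤ i + j)
    {b0 b1 : MvPolynomial (Fin 2) k} (h0 : MvPolynomial.constantCoeff b0 = 0)
    (h1 : MvPolynomial.constantCoeff b1 = 0) {i j : ℕ} (hij : i + j = n) :
    cf (MvPowerSeries.subst (![(b0 : PS k), (b1 : PS k)] : Fin 2 → PS k) G) i j =
      MvPolynomial.coeff (ix i j) (lin_form G n b0 b1) := by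
  set a : Fin 2 → PS k := ![(b0 : PS k), (b1 : PS k)] with ha
  have hac : ∀ i, MvPowerSeries.constantCoeff (a i) = 0 := by
    intro i
    fin_cases i
    · show MvPowerSeries.constantCoeff (b0 : PS k) = 0
      rw [← MvPowerSeries.coeff_zero_eq_constantCoeff_apply, MvPolynomial.coeff_coe]
      exact h0
    · show MvPowerSeries.constantCoeff (b1 : PS k) = 0
      rw [← MvPowerSeries.coeff_zero_eq_constantCoeff_apply, MvPolynomial.coeff_coe]
      exact h1
  have hs : MvPowerSeries.HasSubst a := MvPowerSeries.hasSubst_of_constantCoeff_zero hac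
  set P := lin_form G n (MvPolynomial.X 0) (MvPolynomial.X 1) with hP
  have hR : ∀ i j, cf (G - (P : PS k)) i j ≠ 0 → n + 1 ≤ i + j := by
    intro i j hne
    by_contra hlt
    apply hne
    unfold cf
    rw [map_sub, MvPolynomial.coeff_coe]
    rcases lt_or_eq_of_le (Nat.lt_succ_iff.mp (not_le.mp hlt)) with h2 | h2
    · have h3 : MvPowerSeries.coeff (ix i j) G = 0 := by
        by_contra hc
        have := h i j hc
        omega
      have h4 : MvPolynomial.coeff (ix i j) P = 0 := by
        refine (lin_form_homog G n (MvPolynomial.isHomogeneous_X k 0)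
          (MvPolynomial.isHomogeneous_X k 1)).coeff_eq_zero ?_
        rw [lin_deg]
        omega
      rw [h3, h4, sub_zero]
    · rw [hP, lin_form_coeff G h2]
      exact sub_self _
  have hG : G = (P : PS k) + (G - (P : PS k)) := by ring
  have h2 : MvPowerSeries.subst a (P : PS k) = ((lin_form G n b0 b1 : MvPolynomial (Fin 2) k) :
      PS k) := by
    rw [MvPowerSeries.subst_coe, hP]
    unfold lin_form
    have hc : ∀ q : MvPolynomial (Fin 2) k, (q : PS k) =
      MvPolynomial.coeToMvPowerSeries.ringHom q := fun q => rfl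
    rw [map_sum, hc, map_sum]
    refine Finset.sum_congr rfl fun l _ => ?_
    rw [map_mul, map_mul, map_mul, map_mul, map_pow, map_pow, map_pow, map_pow,
      MvPolynomial.aeval_X, MvPolynomial.aeval_X, MvPolynomial.aeval_C, ← hc, ← hc, ← hc,
      MvPolynomial.coe_C]
    rfl
  have h3 : cf (MvPowerSeries.subst a (G - (P : PS k))) i j = 0 := by
    by_contra hne
    have := lin_lower hR hac i j hne
    omega
  rw [hG, MvPowerSeries.subst_add hs, h2]
  unfold cf at h3 ⊢
  rw [map_add, h3, add_zero, MvPolynomial.coeff_coe, ← hG]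

variable [CharZero k] [IsAlgClosed k]

/-- the number `n` of `z` in the polynomial of the initial form -/
theorem lin_edge {G : PS k} {n : ℕ} (hn : 0 < n) (h : ∀ i j, cf G i j ≠ 0 → n ≤ i + j)
    (ht : cf G 0 n ≠ 0) (h3 : 3 ≤ (rts (lin_pol G n)).card) :
    ∃ E, Edge G 0 n 1 1 E ∧ ((E < n ∧ 2 ≤ (rts (edp G 0 n 1 1 E)).card) ∨
      3 ≤ (rts (edp G 0 n 1 1 E)).card) := by
  classical
  set p := lin_pol G n with hp
  have hpn : p.coeff n = cf G 0 n := by rw [hp, lin_pol_coeff G le_rfl, Nat.sub_self]
  have hp0 : p ≠ 0 := by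
    intro h0
    rw [h0, Polynomial.coeff_zero] at hpn
    exact ht hpn.symm
  obtain ⟨q, hq, hq'⟩ := Polynomial.exists_eq_pow_rootMultiplicity_mul_and_not_dvd p hp0 0
  rw [Polynomial.C_0, sub_zero] at hq hq'
  obtain ⟨v, hv⟩ : ∃ v, v = Polynomial.rootMultiplicity 0 p := ⟨_, rfl⟩
  rw [← hv] at hq
  have hq0 : q.coeff 0 ≠ 0 := by
    intro h0
    exact hq' (Polynomial.X_dvd_iff.mpr h0)
  have hqne : q ≠ 0 := by
    rintro rfl
    exact hq0 (Polynomial.coeff_zero 0)
  have hdeg : p.natDegree = n := le_antisymm (lin_pol_degree G n)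
    (Polynomial.le_natDegree_of_ne_zero (by rw [hpn]; exact ht))
  have hdeg2 : v + q.natDegree = n := by
    rw [← hdeg]
    conv_rhs => rw [hq]
    rw [Polynomial.natDegree_X_pow_mul _ hqne, add_comm]
  have hrq : (rts p).card ≤ (rts q).card + (if v = 0 then 0 else 1) := by
    split_ifs with hv0
    · rw [hv0, pow_zero, one_mul] at hq
      rw [hq, add_zero]
    · have : rts p ⊆ insert 0 (rts q) := by
        intro c hc
        unfold rts at hc ⊢
        rw [Multiset.mem_toFinset, Polynomial.mem_roots hp0, Polynomial.IsRoot.def, hq,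
          Polynomial.eval_mul, Polynomial.eval_pow, Polynomial.eval_X] at hc
        rw [Finset.mem_insert, Multiset.mem_toFinset, Polynomial.mem_roots hqne,
          Polynomial.IsRoot.def]
        rcases mul_eq_zero.mp hc with h1 | h1
        · left
          exact pow_eq_zero_iff hv0 |>.mp h1
        · right; exact h1
      exact (Finset.card_le_card this).trans (Finset.card_insert_le _ _)
  have hqd : 0 < q.natDegree := by
    by_contra hle
    have h1 : q.natDegree = 0 := by omega
    have h2 : (rts q).card ≤ 0 := by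
      unfold rts
      refine (Multiset.toFinset_card_le _).trans ((Polynomial.card_roots' q).trans ?_)
      omega
    split_ifs at hrq <;> omega
  -- coefficients
  have hcoef : ∀ i j, i + j = n → cf G i j = p.coeff j := by
    intro i j hij
    rw [hp, lin_pol_coeff G (by omega)]
    congr 1
    omega
  have hlow : ∀ j, j < v → p.coeff j = 0 := by
    intro j hj
    rw [hq, Polynomial.coeff_X_pow_mul', if_neg (by omega)]
  have hup : ∀ j, p.coeff (j + v) = q.coeff j := by
    intro j
    rw [hq, Polynomial.coeff_X_pow_mul]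
  have hedp : edp G 0 n 1 1 q.natDegree = q := by
    ext m
    unfold edp
    rw [Polynomial.finsetSum_coeff]
    simp only [Polynomial.coeff_C_mul, Polynomial.coeff_X_pow]
    by_cases hm : m ≤ q.natDegree
    · rw [Finset.sum_eq_single (q.natDegree - m)]
      · rw [if_pos (by omega), mul_one, hcoef _ _ (by omega), ← hup m]
        congr 1
        omega
      · intro l hl hne
        have := Finset.mem_range.mp hl
        rw [if_neg (by omega), mul_zero]
      · intro hne
        exact absurd (Finset.mem_range.mpr (by omega)) hne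
    · rw [Polynomial.coeff_eq_zero_of_natDegree_lt (by omega)]
      refine Finset.sum_eq_zero fun l hl => ?_
      have := Finset.mem_range.mp hl
      rw [if_neg (by omega), mul_zero]
  refine ⟨q.natDegree, ⟨Nat.one_pos, Nat.one_pos, Nat.coprime_one_left 1, hqd, by omega, ht,
    ?_, ?_, ?_⟩, ?_⟩
  · rw [hcoef _ _ (by omega)]
    have : n - 1 * q.natDegree = 0 + v := by omega
    rw [this, hup]
    exact hq0
  · intro i j hij
    have := h i j hij
    omega
  · intro i j hij he
    have h1 : i + j = n := by omega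
    refine ⟨?_, by omega⟩
    by_contra hlt
    apply hij
    rw [hcoef i j h1]
    exact hlow j (by omega)
  · rw [hedp]
    split_ifs at hrq with hv0
    · right
      omega
    · left
      omega

/-- a linear form -/
noncomputable def lin2 (α β : k) : MvPolynomial (Fin 2) k :=
  MvPolynomial.C α * MvPolynomial.X 0 + MvPolynomial.C β * MvPolynomial.X 1

theorem lin2_homog (α β : k) : (lin2 α β).IsHomogeneous 1 := by
  unfold lin2
  have h0 := (MvPolynomial.isHomogeneous_C (Fin 2) α).mul (MvPolynomial.isHomogeneous_X k (0 : Fin 2))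
  have h1 := (MvPolynomial.isHomogeneous_C (Fin 2) β).mul (MvPolynomial.isHomogeneous_X k (1 : Fin 2))
  rw [zero_add] at h0 h1
  exact h0.add h1

theorem lin2_const (α β : k) : MvPolynomial.constantCoeff (lin2 α β) = 0 := by
  unfold lin2
  simp

theorem lin2_cf0 (α β : k) : cf (lin2 α β : PS k) 1 0 = α := by
  unfold cf
  rw [MvPolynomial.coeff_coe, lin_coeff (lin2_homog α β) rfl]
  unfold lin2
  simp only [map_add, map_mul, MvPolynomial.aeval_C, MvPolynomial.aeval_X,
      Matrix.cons_val_zero, Matrix.cons_val_one, mul_one, Polynomial.algebraMap_apply,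
      Algebra.algebraMap_self, RingHom.id_apply, Polynomial.coeff_add, Polynomial.coeff_C_mul,
      Polynomial.coeff_X_one, Polynomial.coeff_C, one_ne_zero, if_false, add_zero]

theorem lin2_cf1 (α β : k) : cf (lin2 α β : PS k) 0 1 = β := by
  unfold cf
  rw [MvPolynomial.coeff_coe, lin_coeff (lin2_homog α β) rfl]
  unfold lin2
  simp only [map_add, map_mul, MvPolynomial.aeval_C, MvPolynomial.aeval_X,
      Matrix.cons_val_zero, Matrix.cons_val_one, mul_one, Polynomial.algebraMap_apply,
      Algebra.algebraMap_self, RingHom.id_apply, Polynomial.coeff_add, Polynomial.coeff_C_mul,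
      Polynomial.coeff_X_zero, Polynomial.coeff_C, if_true, mul_zero, zero_add]

theorem lin2_cc (α β : k) : MvPowerSeries.constantCoeff (lin2 α β : PS k) = 0 := by
  rw [← MvPowerSeries.coeff_zero_eq_constantCoeff_apply, MvPolynomial.coeff_coe]
  exact lin2_const α β

/-- polynomials with at most two roots -/
theorem lin_two {p : Polynomial k} (hn : 0 < p.natDegree) (h : (rts p).card ≤ 2) :
    ∃ (μ μ' : k) (m b : ℕ), μ ≠ μ' ∧ 0 < b ∧ m + b = p.natDegree ∧
      p = Polynomial.C p.leadingCoeff * (Polynomial.X - Polynomial.C μ) ^ m *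
        (Polynomial.X - Polynomial.C μ') ^ b := by
  classical
  have hp0 : p ≠ 0 := Polynomial.ne_zero_of_natDegree_gt hn
  have h1 := (IsAlgClosed.splits p).eq_prod_roots
  rw [Polynomial.prod_multiset_root_eq_finset_root] at h1
  have hsum : p.natDegree = ∑ a ∈ p.roots.toFinset, p.rootMultiplicity a := by
    rw [(IsAlgClosed.splits p).natDegree_eq_card_roots]
    have := Multiset.toFinset_sum_count_eq p.roots
    rw [← this]
    exact Finset.sum_congr rfl fun a _ => Polynomial.count_roots p
  have hr : rts p = p.roots.toFinset := by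
    unfold rts
    congr!
  rw [hr] at h
  have hc : p.roots.toFinset.card = 0 ∨ p.roots.toFinset.card = 1 ∨
    p.roots.toFinset.card = 2 := by omega
  rcases hc with hc | hc | hc
  · rw [Finset.card_eq_zero] at hc
    rw [hc, Finset.sum_empty] at hsum
    omega
  · obtain ⟨μ', hμ⟩ := Finset.card_eq_one.mp hc
    rw [hμ, Finset.prod_singleton] at h1
    rw [hμ, Finset.sum_singleton] at hsum
    refine ⟨μ' + 1, μ', 0, p.natDegree, by simp, hn, by omega, ?_⟩
    rw [pow_zero, mul_one, hsum]
    exact h1
  · obtain ⟨μ, μ', hne, hμ⟩ := Finset.card_eq_two.mp hc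
    rw [hμ, Finset.prod_pair hne] at h1
    rw [hμ, Finset.sum_pair hne] at hsum
    have hmem : μ' ∈ p.roots := by
      rw [← Multiset.mem_toFinset, hμ]
      simp
    refine ⟨μ, μ', _, _, hne, ?_, hsum.symm, by rw [mul_assoc]; exact h1⟩
    exact (Polynomial.rootMultiplicity_pos hp0).mpr (Polynomial.isRoot_of_mem_roots hmem)

theorem exists_cone {G : PS k} {n : ℕ} (hn : 0 < n) (h : ∀ i j, cf G i j ≠ 0 → n ≤ i + j)
    (h' : ∃ i j, i + j = n ∧ cf G i j ≠ 0) : ∃ a : Fin 2 → PS k,
    (∀ i, MvPowerSeries.constantCoeff (a i) = 0) ∧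
    cf (a 0) 1 0 * cf (a 1) 0 1 - cf (a 0) 0 1 * cf (a 1) 1 0 ≠ 0 ∧
    ((∃ E, Edge (MvPowerSeries.subst a G) 0 n 1 1 E ∧
      ((E < n ∧ 2 ≤ (rts (edp (MvPowerSeries.subst a G) 0 n 1 1 E)).card) ∨
        3 ≤ (rts (edp (MvPowerSeries.subst a G) 0 n 1 1 E)).card)) ∨
    ∃ m b, m + b = n ∧ 0 < b ∧ cf (MvPowerSeries.subst a G) m b ≠ 0 ∧
      ∀ i j, cf (MvPowerSeries.subst a G) i j ≠ 0 → n ≤ i + j ∧
        (i + j = n → i = m ∧ j = b)) := by
  classical
  -- the first change of coordinates
  have hp : lin_pol G n ≠ 0 := by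
    obtain ⟨i, j, hij, hne⟩ := h'
    intro h0
    have := lin_pol_coeff G (show j ≤ n by omega)
    rw [h0, Polynomial.coeff_zero] at this
    apply hne
    rw [this]
    congr 1
    omega
  obtain ⟨c, hc⟩ : ∃ c : k, (lin_pol G n).eval c ≠ 0 := by
    by_contra hcon
    push Not at hcon
    exact hp (Polynomial.funext fun c => by rw [hcon c, Polynomial.eval_zero])
  set a1 : Fin 2 → PS k := ![((lin2 (0 : k) (1 : k) : MvPolynomial (Fin 2) k) : PS k), ((lin2 (1 : k) c : MvPolynomial (Fin 2) k) : PS k)] with ha1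
  have ha1c : ∀ i, MvPowerSeries.constantCoeff (a1 i) = 0 := by
    intro i
    fin_cases i
    · exact lin2_cc 0 1
    · exact lin2_cc 1 c
  have hs1 : MvPowerSeries.HasSubst a1 := MvPowerSeries.hasSubst_of_constantCoeff_zero ha1c
  set G1 := MvPowerSeries.subst a1 G with hG1
  have hlow : ∀ i j, cf G1 i j ≠ 0 → n ≤ i + j := fun i j => lin_lower h ha1c i j
  have htop : cf G1 0 n ≠ 0 := by
    rw [hG1, ha1, lin_top h (lin2_const 0 1) (lin2_const 1 c) (by omega),
      lin_coeff (lin_form_homog G n (lin2_homog 0 1) (lin2_homog 1 c)) (by omega),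
      Polynomial.coeff_zero_eq_eval_zero]
    unfold lin_form lin2
    have : Polynomial.eval 0 (MvPolynomial.aeval (![Polynomial.X, 1] : Fin 2 → Polynomial k)
        (∑ l ∈ Finset.range (n + 1), MvPolynomial.C (cf G (n - l) l) *
          (MvPolynomial.C (0 : k) * MvPolynomial.X 0 + MvPolynomial.C 1 * MvPolynomial.X 1) ^
            (n - l) * (MvPolynomial.C (1 : k) * MvPolynomial.X 0 +
              MvPolynomial.C c * MvPolynomial.X 1) ^ l)) = (lin_pol G n).eval c := by
      unfold lin_pol
      rw [map_sum, Polynomial.eval_finsetSum, Polynomial.eval_finsetSum]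
      refine Finset.sum_congr rfl fun l _ => ?_
      simp
    rw [this]
    exact hc
  by_cases h3 : 3 ≤ (rts (lin_pol G1 n)).card
  · refine ⟨a1, ha1c, ?_, Or.inl (lin_edge hn hlow htop h3)⟩
    show cf ((lin2 (0 : k) (1 : k) : MvPolynomial (Fin 2) k) : PS k) 1 0 * cf ((lin2 (1 : k) c : MvPolynomial (Fin 2) k) : PS k) 0 1 -
      cf ((lin2 (0 : k) (1 : k) : MvPolynomial (Fin 2) k) : PS k) 0 1 * cf ((lin2 (1 : k) c : MvPolynomial (Fin 2) k) : PS k) 1 0 ≠ 0
    rw [lin2_cf0, lin2_cf0, lin2_cf1, lin2_cf1]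
    simp
  · -- at most two lines
    have hdeg : (lin_pol G1 n).natDegree = n := by
      refine le_antisymm (lin_pol_degree G1 n) (Polynomial.le_natDegree_of_ne_zero ?_)
      rw [lin_pol_coeff G1 le_rfl, Nat.sub_self]
      exact htop
    obtain ⟨μ, μ', m, b, hne, hb, hmb, hfac⟩ := lin_two (by rw [hdeg]; exact hn)
      (by omega : (rts (lin_pol G1 n)).card ≤ 2)
    rw [hdeg] at hmb
    set lc := (lin_pol G1 n).leadingCoeff with hlc
    have hlc0 : lc ≠ 0 := Polynomial.leadingCoeff_ne_zero.mpr
      (Polynomial.ne_zero_of_natDegree_gt (by rw [hdeg]; exact hn))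
    have hd : μ' - μ ≠ 0 := sub_ne_zero.mpr (Ne.symm hne)
    obtain ⟨ℓ, hℓ⟩ : ∃ ℓ : k, ℓ = (μ' - μ)⁻¹ := ⟨_, rfl⟩
    have hℓ1 : (μ' - μ) * ℓ = 1 := by rw [hℓ, mul_inv_cancel₀ hd]
    have hℓ0 : ℓ ≠ 0 := by rw [hℓ]; exact inv_ne_zero hd
    set b0 : MvPolynomial (Fin 2) k := lin2 ℓ (-ℓ) with hb0
    set b1 : MvPolynomial (Fin 2) k := lin2 (1 + μ * ℓ) (-(μ * ℓ)) with hb1
    set a2 : Fin 2 → PS k := ![(b0 : PS k), (b1 : PS k)] with ha2
    have ha2c : ∀ i, MvPowerSeries.constantCoeff (a2 i) = 0 := by
      intro i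
      fin_cases i
      · exact lin2_cc _ _
      · exact lin2_cc _ _
    have hs2 : MvPowerSeries.HasSubst a2 := MvPowerSeries.hasSubst_of_constantCoeff_zero ha2c
    have hform : lin_form G1 n b0 b1 = MvPolynomial.C lc * MvPolynomial.X 0 ^ m *
        MvPolynomial.X 1 ^ b := by
      have hh : (lin_pol G1 n).homogenize n = MvPolynomial.C lc *
          (MvPolynomial.X 0 - MvPolynomial.C μ * MvPolynomial.X 1) ^ m *
          (MvPolynomial.X 0 - MvPolynomial.C μ' * MvPolynomial.X 1) ^ b := by
        apply Polynomial.homogenize_eq_of_isHomogeneous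
        · have hl : ∀ μ : k, (MvPolynomial.X 0 - MvPolynomial.C μ * MvPolynomial.X 1 :
              MvPolynomial (Fin 2) k).IsHomogeneous 1 := by
            intro μ
            have h1 := (MvPolynomial.isHomogeneous_C (Fin 2) μ).mul
              (MvPolynomial.isHomogeneous_X k (1 : Fin 2))
            rw [zero_add] at h1
            exact (MvPolynomial.isHomogeneous_X k (0 : Fin 2)).sub h1
          have := ((MvPolynomial.isHomogeneous_C (Fin 2) lc).mul ((hl μ).pow m)).mul
            ((hl μ').pow b)
          have e : 0 + 1 * m + 1 * b = n := by omega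
          rwa [e] at this
        · conv_rhs => rw [hfac]
          simp
      rw [lin_form_eq, hh]
      simp only [map_mul, map_pow, map_sub, MvPolynomial.aeval_C, MvPolynomial.aeval_X,
        Matrix.cons_val_zero, Matrix.cons_val_one, MvPolynomial.algebraMap_eq]
      have e1 : b1 - MvPolynomial.C μ * b0 = MvPolynomial.X 0 := by
        rw [hb0, hb1]
        unfold lin2
        simp only [map_add, map_neg, map_mul, map_one]
        ring
      have e2 : b1 - MvPolynomial.C μ' * b0 = MvPolynomial.X 1 := by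
        have e3 : b1 - MvPolynomial.C μ' * b0 = MvPolynomial.X 0 - MvPolynomial.C ((μ' - μ) * ℓ) *
            (MvPolynomial.X 0 - MvPolynomial.X 1) := by
          rw [hb0, hb1]
          unfold lin2
          simp only [map_add, map_neg, map_mul, map_one, map_sub]
          ring
        rw [e3, hℓ1, map_one]
        ring
      rw [e1, e2]
    have hcomp : MvPowerSeries.subst a2 G1 = MvPowerSeries.subst
        (fun i => MvPowerSeries.subst a2 (a1 i)) G := by
      rw [hG1, MvPowerSeries.subst_comp_subst_apply hs1 hs2]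
    have hsl : ∀ α β : k, MvPowerSeries.subst a2 (lin2 α β : PS k) =
        ((MvPolynomial.C α * b0 + MvPolynomial.C β * b1 : MvPolynomial (Fin 2) k) : PS k) := by
      intro α β
      rw [MvPowerSeries.subst_coe]
      unfold lin2
      have hc : ∀ q : MvPolynomial (Fin 2) k, (q : PS k) =
        MvPolynomial.coeToMvPowerSeries.ringHom q := fun q => rfl
      rw [hc, map_add, map_add, map_mul, map_mul, map_mul, map_mul, MvPolynomial.aeval_X,
        MvPolynomial.aeval_X, MvPolynomial.aeval_C, MvPolynomial.aeval_C, ← hc, ← hc, ← hc, ← hc,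
        MvPolynomial.coe_C, MvPolynomial.coe_C]
      rfl
    have g0 : MvPowerSeries.subst a2 (a1 0) = (lin2 (1 + μ * ℓ) (-(μ * ℓ)) : PS k) := by
      show MvPowerSeries.subst a2 ((lin2 (0 : k) (1 : k) : MvPolynomial (Fin 2) k) : PS k) = _
      rw [hsl, hb1]
      congr 1
      rw [map_zero, map_one]
      ring
    have g1 : MvPowerSeries.subst a2 (a1 1) =
        (lin2 (ℓ + c * (1 + μ * ℓ)) (-ℓ - c * (μ * ℓ)) : PS k) := by
      show MvPowerSeries.subst a2 ((lin2 (1 : k) c : MvPolynomial (Fin 2) k) : PS k) = _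
      rw [hsl, hb0, hb1]
      congr 1
      unfold lin2
      simp only [map_add, map_neg, map_mul, map_one, map_sub]
      ring
    refine ⟨fun i => MvPowerSeries.subst a2 (a1 i), ?_, ?_, Or.inr ⟨m, b, hmb, hb, ?_, ?_⟩⟩
    · intro i
      fin_cases i
      · show MvPowerSeries.constantCoeff (MvPowerSeries.subst a2 (a1 0)) = 0
        rw [g0]
        exact lin2_cc _ _
      · show MvPowerSeries.constantCoeff (MvPowerSeries.subst a2 (a1 1)) = 0
        rw [g1]
        exact lin2_cc _ _
    · simp only [g0, g1, lin2_cf0, lin2_cf1]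
      have : (1 + μ * ℓ) * (-ℓ - c * (μ * ℓ)) - -(μ * ℓ) * (ℓ + c * (1 + μ * ℓ)) = -ℓ := by ring
      rw [this]
      exact neg_ne_zero.mpr hℓ0
    · rw [← hcomp, ha2, lin_top hlow (lin2_const _ _) (lin2_const _ _) hmb, hform,
        lin_coeff (by
          have := ((MvPolynomial.isHomogeneous_C (Fin 2) lc).mul
            ((MvPolynomial.isHomogeneous_X k (0 : Fin 2)).pow m)).mul
            ((MvPolynomial.isHomogeneous_X k (1 : Fin 2)).pow b)
          have e : 0 + 1 * m + 1 * b = n := by omega
          rwa [e] at this) hmb]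
      simp
      exact hlc0
    · intro i j hij
      rw [← hcomp] at hij
      refine ⟨lin_lower hlow ha2c i j hij, fun he => ?_⟩
      rw [ha2, lin_top hlow (lin2_const _ _) (lin2_const _ _) he, hform,
        lin_coeff (by
          have := ((MvPolynomial.isHomogeneous_C (Fin 2) lc).mul
            ((MvPolynomial.isHomogeneous_X k (0 : Fin 2)).pow m)).mul
            ((MvPolynomial.isHomogeneous_X k (1 : Fin 2)).pow b)
          have e : 0 + 1 * m + 1 * b = n := by omega
          rwa [e] at this) he] at hij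
      have hi : i = m := by
        by_contra hne'
        apply hij
        simp only [map_mul, map_pow, MvPolynomial.aeval_C, MvPolynomial.aeval_X,
          Matrix.cons_val_zero, Matrix.cons_val_one, one_pow, mul_one,
          Polynomial.algebraMap_apply, Algebra.algebraMap_self, RingHom.id_apply,
          Polynomial.coeff_C_mul, Polynomial.coeff_X_pow]
        rw [if_neg hne', mul_zero]
      exact ⟨hi, by omega⟩

end LIN

end Pool.Agent.H75.Mono
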