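import Pool.Agent.H75.Plc.GAU

/-! # PLC, module ABS: chains given by residues -/

set_option autoImplicit false
set_option linter.unusedSectionVars false

namespace Pool.Agent.H75.Mono

open MvPolynomial Pool.Agent.H39.MonoR

section ABS

variable {k : Type} [Field k] [CharZero k] {K : Type} [Field K] [CharZero K] [Algebra k K]

theorem abs_ind {g : PowerSeries K} (hg : g ≠ 0) {W : ℕ → PowerSeries K}
    (hW : ∀ j, g * W (j + 1) = W j) (D : PowerSeries K → PowerSeries K)
    (hD : ∀ a b, D (a * b) = a * D b + b * D a) (κ s : PowerSeries K)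
    (h0 : g * D (W 0) = κ * g * W 0 - s * D g * W 0) (j : ℕ) :
    D (W j) = κ * W j - (s + (j : PowerSeries K)) * D g * W (j + 1) := by
  induction j with
  | zero =>
    apply mul_left_cancel₀ hg
    rw [h0, Nat.cast_zero, add_zero]
    linear_combination (s * D g) * (hW 0)
  | succ j ih =>
    apply mul_left_cancel₀ hg
    have h1 := congrArg D (hW j)
    rw [hD, ih] at h1
    push_cast
    linear_combination h1 - κ * (hW j) + (s + (j : PowerSeries K) + 1) * D g * (hW (j + 1))

/-- the elements `W_j = g^(-j) V` -/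
theorem abs_w (δ : Derivation k K K) {g : PowerSeries K}
    (hg0 : PowerSeries.constantCoeff g ≠ 0) (s : ℚ) : ∃ W : ℕ → PowerSeries K,
      PowerSeries.constantCoeff (W 0) = 1 ∧ (∀ j, g * W (j + 1) = W j) ∧
      (∀ j, PowerSeries.derivative K (W j) = -((PowerSeries.C (s : K) + (j : PowerSeries K)) *
        PowerSeries.derivative K g * W (j + 1))) ∧
      (∀ j, cdr δ (W j) = PowerSeries.C ((s : K) * (δ (PowerSeries.constantCoeff g) /
        PowerSeries.constantCoeff g)) * W j - (PowerSeries.C (s : K) + (j : PowerSeries K)) *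
          cdr δ g * W (j + 1)) := by
  obtain ⟨V, hV0, hV1, hV2⟩ := exists_gauge δ hg0 s
  have hg : g * g⁻¹ = 1 := PowerSeries.mul_inv_cancel g hg0
  have hgne : g ≠ 0 := by
    rintro rfl
    exact hg0 (map_zero _)
  obtain ⟨W, hW⟩ : ∃ W : ℕ → PowerSeries K, W = fun j => g⁻¹ ^ j * V := ⟨_, rfl⟩
  have hmul : ∀ j, g * W (j + 1) = W j := by
    intro j
    simp only [hW]
    rw [pow_succ]
    linear_combination (g⁻¹ ^ j * V) * hg
  have hW0 : W 0 = V := by simp only [hW, pow_zero, one_mul]
  refine ⟨W, by rw [hW0, hV0], hmul, fun j => ?_, fun j => ?_⟩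
  · have h := abs_ind hgne hmul (PowerSeries.derivative K) (fun a b => by
      rw [Derivation.leibniz, smul_eq_mul, smul_eq_mul]) 0 (PowerSeries.C (s : K)) (by
      rw [hW0, hV1]; ring) j
    rw [h]
    ring
  · exact abs_ind hgne hmul (cdr δ) (fun a b => by
      rw [Derivation.leibniz, smul_eq_mul, smul_eq_mul]) _ (PowerSeries.C (s : K)) (by
      rw [hW0, hV2]) j

/-- chain rule for polynomials -/
theorem abs_chain {B : Type} [CommRing B] [Algebra k B] (x : Fin 2 → B) (D : B → B)
    (hD : ∀ a b, D (a * b) = a * D b + b * D a) (hadd : ∀ a b, D (a + b) = D a + D b)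
    (hC : ∀ c : k, D (algebraMap k B c) = 0) (p : MvPolynomial (Fin 2) k) :
    D (aeval x p) = aeval x (pderiv 0 p) * D (x 0) + aeval x (pderiv 1 p) * D (x 1) := by
  induction p using MvPolynomial.induction_on with
  | C a => simp [hC, algHom_C]
  | add p q hp hq =>
    rw [map_add, hadd, hp, hq, map_add, map_add, map_add, map_add]
    ring
  | mul_X p i hp =>
    rw [map_mul, aeval_X, hD, hp, Derivation.leibniz, Derivation.leibniz]
    fin_cases i <;> simp [pderiv_X] <;> ring

/-- the basic identity: integration by parts -/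
theorem abs_parts {B : Type} [CommRing B] {D1 D2 : B → B}
    (h1 : ∀ a b, D1 (a * b) = a * D1 b + b * D1 a) (h2 : ∀ a b, D2 (a * b) = a * D2 b + b * D2 a)
    (hc : ∀ y, D1 (D2 y) = D2 (D1 y)) {g s κ W W' A y : B}
    (e1 : D1 W = -(s * D1 g * W')) (e2 : D2 W = κ * W - s * D2 g * W') :
    (D1 A * D2 y - D2 A * D1 y) * W = D1 (A * D2 y * W) - D2 (A * D1 y * W) +
      s * (A * W' * (D2 y * D1 g - D1 y * D2 g)) + κ * (A * D1 y * W) := by
  rw [h1, h1, h2, h2, e1, e2, hc]
  ring

/-- the identity for one coordinate -/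
theorem abs_key (δ : Derivation k K K) {g : PowerSeries K} {N ν : ℕ} (hN : 0 < N) (hν : 0 < ν)
    {W : ℕ → PowerSeries K} (hW : ∀ j, g * W (j + 1) = W j) (κ : K)
    (hW1 : ∀ j : ℕ, PowerSeries.derivative K (W j) =
      -((PowerSeries.C ((((ν : ℚ) / N : ℚ) : K)) + (j : PowerSeries K)) *
        PowerSeries.derivative K g * W (j + 1)))
    (hW2 : ∀ j : ℕ, cdr δ (W j) = PowerSeries.C κ * W j -
      (PowerSeries.C ((((ν : ℚ) / N : ℚ) : K)) + (j : PowerSeries K)) * cdr δ g * W (j + 1))
    (hcomm : ∀ f : PowerSeries K, PowerSeries.derivative K (cdr δ f) =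
      cdr δ (PowerSeries.derivative K f)) (A y : PowerSeries K) (m : ℕ) :
    PowerSeries.coeff (N * m + ν - 1) ((PowerSeries.derivative K A * cdr δ y -
      cdr δ A * PowerSeries.derivative K y) * W m) =
    ((((ν : ℚ) / N : ℚ) : K) + m) * PowerSeries.coeff (N * m + ν - 1 + N)
      ((PowerSeries.derivative K (PowerSeries.X ^ N * g) * cdr δ y -
        cdr δ (PowerSeries.X ^ N * g) * PowerSeries.derivative K y) * A * W (m + 1)) -
    (δ (PowerSeries.coeff (N * m + ν - 1) (A * PowerSeries.derivative K y * W m)) -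
      κ * PowerSeries.coeff (N * m + ν - 1) (A * PowerSeries.derivative K y * W m)) := by
  set s : K := (((ν : ℚ) / N : ℚ) : K) with hs
  have hX : cdr δ (PowerSeries.X ^ N : PowerSeries K) = 0 := by
    ext n
    rw [coeff_cdr, PowerSeries.coeff_X_pow, map_zero]
    split_ifs
    · exact Derivation.map_one_eq_zero δ
    · exact map_zero δ
  obtain ⟨N', rfl⟩ : ∃ N', N = N' + 1 := ⟨N - 1, by omega⟩
  have h1 := abs_parts (D1 := PowerSeries.derivative K) (D2 := cdr δ)
    (fun a b => by rw [Derivation.leibniz, smul_eq_mul, smul_eq_mul])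
    (fun a b => by rw [Derivation.leibniz, smul_eq_mul, smul_eq_mul]) hcomm (hW1 m) (hW2 m)
    (A := A) (y := y)
  have h2 : (PowerSeries.derivative K (PowerSeries.X ^ (N' + 1) * g) * cdr δ y -
        cdr δ (PowerSeries.X ^ (N' + 1) * g) * PowerSeries.derivative K y) * A * W (m + 1) =
      PowerSeries.X ^ N' * (PowerSeries.C ((N' + 1 : ℕ) : K) * (A * cdr δ y * W m)) +
      PowerSeries.X ^ (N' + 1) * (A * W (m + 1) * (cdr δ y * PowerSeries.derivative K g -
        PowerSeries.derivative K y * cdr δ g)) := by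
    rw [Derivation.leibniz, Derivation.leibniz, hX, Derivation.leibniz_pow,
      PowerSeries.derivative_X, ← hW m]
    simp only [smul_eq_mul, nsmul_eq_mul, Nat.add_sub_cancel, map_natCast, mul_zero, add_zero,
      mul_one]
    ring
  rw [h1, h2]
  have h3 : (N' + 1) * m + ν - 1 + (N' + 1) = ((N' + 1) * m + ν - 1 + 1) + N' := by ring
  rw [map_add (PowerSeries.coeff _) (PowerSeries.X ^ N' * _) _, PowerSeries.coeff_X_pow_mul, h3,
    PowerSeries.coeff_X_pow_mul, PowerSeries.coeff_C_mul, map_add, map_add, map_sub, coeff_cdr,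
    PowerSeries.coeff_derivative, PowerSeries.coeff_C_mul]
  have h4 : (PowerSeries.C s + (m : PowerSeries K)) = PowerSeries.C (s + m) := by
    rw [map_add, map_natCast]
  rw [h4, PowerSeries.coeff_C_mul]
  have h5 : (((N' + 1) * m + ν - 1 : ℕ) : K) + 1 = (s + m) * ((N' + 1 : ℕ) : K) := by
    have h6 : ((N' + 1 : ℕ) : K) ≠ 0 := by exact_mod_cast N'.succ_ne_zero
    have h7 : (((N' + 1) * m + ν - 1 : ℕ) : K) + 1 = (((N' + 1) * m + ν : ℕ) : K) := by
      have : (N' + 1) * m + ν - 1 + 1 = (N' + 1) * m + ν := by omega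
      exact_mod_cast congrArg (Nat.cast (R := K)) this
    rw [h7, hs]
    push_cast at h6 ⊢
    field_simp
    ring
  rw [h5]
  ring

theorem SRs.of_res (δ : Derivation k K K) {F : MvPolynomial (Fin 2) k} {P : Fin 2 → k}
    (hP : ∀ i, eval P (pderiv i F) = 0) {x : Fin 2 → PowerSeries K}
    (hx : ∀ i, PowerSeries.constantCoeff (x i) = algebraMap k K (P i)) {N ν : ℕ} (hN : 0 < N)
    (hν : 0 < ν) {g : PowerSeries K} (hg : aeval x F = PowerSeries.X ^ N * g)
    (hg0 : PowerSeries.constantCoeff g ≠ 0) {j : PowerSeries K}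
    (hj : PowerSeries.derivative K (x 0) * cdr δ (x 1) -
      cdr δ (x 0) * PowerSeries.derivative K (x 1) = PowerSeries.X ^ (ν - 1) * j)
    (lam : K →ₗ[k] k) (hl : ∀ h : K, lam (δ h - (((ν : ℚ) / N : ℚ) : K) *
      (δ (PowerSeries.constantCoeff g) / PowerSeries.constantCoeff g) * h) = 0)
    (hl1 : lam (PowerSeries.constantCoeff j) ≠ 0) : SRs k F ((ν : ℚ) / N) := by
  obtain ⟨W, hW0, hW, hW1, hW2⟩ := abs_w δ hg0 ((ν : ℚ) / N)
  set J := PowerSeries.X ^ (ν - 1) * j with hJ
  have hCK : ∀ c : k, PowerSeries.derivative K (algebraMap k (PowerSeries K) c) = 0 := by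
    intro c
    rw [PowerSeries.algebraMap_apply, PowerSeries.derivative_C]
  have hCδ : ∀ c : k, cdr δ (algebraMap k (PowerSeries K) c) = 0 := fun c =>
    Derivation.map_algebraMap (cdr δ) c
  have ch1 := abs_chain x (PowerSeries.derivative K) (fun a b => by
      rw [Derivation.leibniz, smul_eq_mul, smul_eq_mul]) (fun a b => map_add _ a b) hCK
  have ch2 := abs_chain x (cdr δ) (fun a b => by
      rw [Derivation.leibniz, smul_eq_mul, smul_eq_mul]) (fun a b => map_add _ a b) hCδ
  -- the module
  let V := MvPolynomial (Fin 2) k →ₗ[k] k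
  let ρ : MvPolynomial (Fin 2) k →ₐ[k] Module.End k V :=
    AlgHom.ofLinearMap
      { toFun := fun p =>
          { toFun := fun v => v ∘ₗ LinearMap.mulLeft k p
            map_add' := fun v w => rfl
            map_smul' := fun c v => rfl }
        map_add' := fun p q => LinearMap.ext fun v => LinearMap.ext fun A => by
          show v ((p + q) * A) = v (p * A) + v (q * A)
          rw [add_mul, map_add]
        map_smul' := fun c p => LinearMap.ext fun v => LinearMap.ext fun A => by
          show v ((c • p) * A) = c • v (p * A)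
          rw [smul_mul_assoc, map_smul] }
      (LinearMap.ext fun v => LinearMap.ext fun A => by
        show v (1 * A) = v A
        rw [one_mul])
      (fun p q => LinearMap.ext fun v => LinearMap.ext fun A => by
        show v ((p * q) * A) = v (q * (p * A))
        congr 1
        ring)
  have hρ : ∀ p v A, ρ p v A = v (p * A) := fun p v A => rfl
  let D : Fin 2 → Module.End k V := fun i =>
    { toFun := fun v => -(v ∘ₗ (pderiv i : Derivation k _ _).toLinearMap)
      map_add' := fun v w => LinearMap.ext fun A => by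
        show -(v (pderiv i A) + w (pderiv i A)) = -v (pderiv i A) + -w (pderiv i A)
        ring
      map_smul' := fun c v => LinearMap.ext fun A => by
        show -(c • v (pderiv i A)) = c • -v (pderiv i A)
        rw [smul_neg] }
  have hD : ∀ i v A, D i v A = -v (pderiv i A) := fun i v A => rfl
  let e : ℕ → V := fun m =>
    lam ∘ₗ ((PowerSeries.coeff (R := K) (N * m + ν - 1)).restrictScalars k) ∘ₗ
      (LinearMap.mulRight k (J * W m)) ∘ₗ (aeval x : MvPolynomial (Fin 2) k →ₐ[k] _).toLinearMap
  have he : ∀ m A, e m A = lam (PowerSeries.coeff (N * m + ν - 1) (aeval x A * (J * W m))) :=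
    fun m A => rfl
  have hmul : ∀ m A, e (m + 1) (F * A) = e m A := by
    intro m A
    rw [he, he, map_mul (aeval x), hg]
    have h1 : PowerSeries.X ^ N * g * aeval x A * (J * W (m + 1)) =
        PowerSeries.X ^ N * (aeval x A * (J * W m)) := by
      rw [← hW m]; ring
    have h2 : N * (m + 1) + ν - 1 = (N * m + ν - 1) + N := by
      rw [mul_add, _root_.mul_one]; omega
    rw [h1, h2, PowerSeries.coeff_X_pow_mul]
  have hcomm : ∀ f : PowerSeries K, PowerSeries.derivative K (cdr δ f) =
      cdr δ (PowerSeries.derivative K f) := fun f => cdr_comm δ f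
  have hlam : ∀ (m : ℕ) (z h : K), lam (((((ν : ℚ) / N : ℚ) : K) + m) * z -
      (δ h - (((ν : ℚ) / N : ℚ) : K) * (δ (PowerSeries.constantCoeff g) /
        PowerSeries.constantCoeff g) * h)) = (((((ν : ℚ) / N : ℚ)) : k) + m) * lam z := by
    intro m z h
    have h1 : ((((ν : ℚ) / N : ℚ) : K) + m) * z = ((((ν : ℚ) / N : ℚ) : k) + (m : k)) • z := by
      rw [Algebra.smul_def, map_add, map_natCast, map_ratCast]
    rw [map_sub, hl, sub_zero, h1, map_smul, smul_eq_mul]
  have hder : ∀ i m A, -e m (pderiv i A) = (-(((((ν : ℚ) / N : ℚ)) : k) + m)) *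
      e (m + 1) (pderiv i F * A) := by
    have h2 : ∀ m, N * (m + 1) + ν - 1 = (N * m + ν - 1) + N := by
      intro m
      rw [mul_add, _root_.mul_one]; omega
    intro i m A
    rw [neg_mul, neg_inj, he, he, h2]
    have c1 := ch1 F
    have c2 := ch2 F
    rw [hg] at c1 c2
    have d1 := ch1 A
    have d2 := ch2 A
    fin_cases i
    · have h3 := abs_key δ hN hν hW _ hW1 hW2 hcomm (aeval x A) (x 1) m
      have h4 : (PowerSeries.derivative K (aeval x A) * cdr δ (x 1) -
          cdr δ (aeval x A) * PowerSeries.derivative K (x 1)) * W m =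
          aeval x (pderiv 0 A) * (J * W m) := by
        rw [d1, d2, ← hj]; ring
      have h5 : (PowerSeries.derivative K (PowerSeries.X ^ N * g) * cdr δ (x 1) -
          cdr δ (PowerSeries.X ^ N * g) * PowerSeries.derivative K (x 1)) * aeval x A * W (m + 1) =
          aeval x (pderiv 0 F * A) * (J * W (m + 1)) := by
        rw [c1, c2, ← hj, map_mul]; ring
      rw [h4, h5] at h3
      show lam (PowerSeries.coeff _ (aeval x (pderiv 0 A) * (J * W m))) = _ * lam
        (PowerSeries.coeff _ (aeval x (pderiv 0 F * A) * (J * W (m + 1))))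
      rw [h3, hlam]
    · have h3 := abs_key δ hN hν hW _ hW1 hW2 hcomm (aeval x A) (x 0) m
      have h4 : (PowerSeries.derivative K (aeval x A) * cdr δ (x 0) -
          cdr δ (aeval x A) * PowerSeries.derivative K (x 0)) * W m =
          -(aeval x (pderiv 1 A) * (J * W m)) := by
        rw [d1, d2, ← hj]; ring
      have h5 : (PowerSeries.derivative K (PowerSeries.X ^ N * g) * cdr δ (x 0) -
          cdr δ (PowerSeries.X ^ N * g) * PowerSeries.derivative K (x 0)) * aeval x A * W (m + 1) =
          -(aeval x (pderiv 1 F * A) * (J * W (m + 1))) := by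
        rw [c1, c2, ← hj, map_mul]; ring
      rw [h4, h5, map_neg, map_neg] at h3
      show lam (PowerSeries.coeff _ (aeval x (pderiv 1 A) * (J * W m))) = _ * lam
        (PowerSeries.coeff _ (aeval x (pderiv 1 F * A) * (J * W (m + 1))))
      have h6 := congrArg lam h3
      rw [hlam, map_neg, map_neg] at h6
      linear_combination -h6
  -- values on `J`
  have hlow : ∀ B : PowerSeries K, PowerSeries.coeff (N * 0 + ν - 1) (B * (J * W 0)) =
      PowerSeries.constantCoeff B * PowerSeries.constantCoeff j := by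
    intro B
    have h1 : B * (J * W 0) = PowerSeries.X ^ (ν - 1) * (B * (j * W 0)) := by rw [hJ]; ring
    have h2 : N * 0 + ν - 1 = 0 + (ν - 1) := by rw [mul_zero, zero_add, zero_add]
    rw [h1, h2, PowerSeries.coeff_X_pow_mul, PowerSeries.coeff_zero_eq_constantCoeff_apply,
      map_mul, map_mul, hW0, _root_.mul_one]
  have hcc : ∀ p : MvPolynomial (Fin 2) k, PowerSeries.constantCoeff (aeval x p) =
      algebraMap k K (eval P p) := by
    intro p
    induction p using MvPolynomial.induction_on with
    | C a => rw [algHom_C, PowerSeries.algebraMap_apply, PowerSeries.constantCoeff_C, eval_C]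
    | add p q hp hq => rw [map_add, map_add, hp, hq, map_add, map_add]
    | mul_X p i hp => rw [map_mul, map_mul, hp, aeval_X, hx, eval_mul, eval_X, map_mul]
  refine ⟨{ V := V
            ρ := ρ
            D := D
            leib := fun i p v => LinearMap.ext fun A => ?_
            e := e
            mul := fun m => LinearMap.ext fun A => ?_
            der := fun i m => LinearMap.ext fun A => ?_
            ne := ?_ }, ?_, ?_⟩
  · show -v (p * pderiv i A) = v (pderiv i p * A) + -v (pderiv i (p * A))
    rw [Derivation.leibniz, map_add, smul_eq_mul, smul_eq_mul, mul_comm A]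
    ring
  · exact hmul m A
  · exact hder i m A
  · intro h0
    have h1 : e 0 1 = 0 := by rw [h0]; rfl
    rw [he, hlow, map_one, map_one, one_mul] at h1
    exact hl1 h1
  · refine LinearMap.ext fun A => ?_
    show e 0 (F * A) = 0
    rw [he, hlow, map_mul (aeval x), map_mul PowerSeries.constantCoeff, hg,
      map_mul PowerSeries.constantCoeff, map_pow PowerSeries.constantCoeff,
      PowerSeries.constantCoeff_X, zero_pow hN.ne', zero_mul, zero_mul, zero_mul, map_zero]
  · intro i
    refine LinearMap.ext fun A => ?_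
    show e 0 (pderiv i F * A) = 0
    rw [he, hlow, map_mul (aeval x), map_mul PowerSeries.constantCoeff, hcc, hP, map_zero,
      zero_mul, zero_mul, map_zero]

end ABS

end Pool.Agent.H75.Mono
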