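import Pool.Agent.H75.Plc.GO1
import Pool.Agent.H75.Plc.VTX

/-! # PLC, module GO2: good shears -/

set_option autoImplicit false

namespace Pool.Agent.H75.Mono

open MvPolynomial Pool.Agent.H39.MonoR

section GO2aux

variable {k : Type} [Field k] {G : PS k} {p q a b : ℕ}

/-- the next edge -/
private theorem go2_edge (hp : 0 < p) (hV : Vtx G p q a b)
    (hj : ∃ i j, cf G i j ≠ 0 ∧ j < b) :
    ∃ p' q' E : ℕ, Edge G a b p' q' E ∧ q * p' < q' * p := by
  classical
  have key : ∀ i j, cf G i j ≠ 0 → j < b → a < i ∧ q * (b - j) < (i - a) * p := by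
    intro i j h1 h2
    obtain ⟨h3, h4⟩ := hV.2 i j h1
    have h5 : a * p + b * q < i * p + j * q := by
      rcases Nat.lt_or_ge (a * p + b * q) (i * p + j * q) with h | h
      · exact h
      · have := h4 (by omega)
        omega
    obtain ⟨c, rfl⟩ : ∃ c, b = j + c := ⟨b - j, by omega⟩
    have h6 : a < i := by
      by_contra hc
      have h7 : i * p ≤ a * p := Nat.mul_le_mul_right _ (by omega)
      have h8 : j * q ≤ (j + c) * q := Nat.mul_le_mul_right _ (by omega)
      omega
    refine ⟨h6, ?_⟩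
    obtain ⟨e, rfl⟩ : ∃ e, i = a + e := ⟨i - a, by omega⟩
    simp only [Nat.add_sub_cancel_left]
    nlinarith
  let P : ℕ → Prop := fun w => ∃ i j, cf G i j ≠ 0 ∧ j < b ∧ w = (i - a) * (b.factorial / (b - j))
  have hP : ∃ w, P w := by
    obtain ⟨i, j, h1, h2⟩ := hj
    exact ⟨_, i, j, h1, h2, rfl⟩
  obtain ⟨i0, j0, h1, h2, h3⟩ := Nat.find_spec hP
  have hmin : ∀ i j, cf G i j ≠ 0 → j < b → (i0 - a) * (b - j) ≤ (i - a) * (b - j0) := by
    intro i j h4 h5
    have h6 : Nat.find hP ≤ (i - a) * (b.factorial / (b - j)) :=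
      Nat.find_min' hP ⟨i, j, h4, h5, rfl⟩
    rw [h3] at h6
    have d1 : (b - j0) ∣ b.factorial := Nat.dvd_factorial (by omega) (by omega)
    have d2 : (b - j) ∣ b.factorial := Nat.dvd_factorial (by omega) (by omega)
    obtain ⟨c1, hc1⟩ := d1
    obtain ⟨c2, hc2⟩ := d2
    have hf : 0 < b.factorial := Nat.factorial_pos b
    rw [show b.factorial / (b - j0) = c1 by
      rw [hc1]; exact Nat.mul_div_cancel_left _ (by omega),
      show b.factorial / (b - j) = c2 by
      rw [hc2]; exact Nat.mul_div_cancel_left _ (by omega)] at h6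
    have h7 : (i0 - a) * (b - j) * b.factorial ≤ (i - a) * (b - j0) * b.factorial := by
      calc (i0 - a) * (b - j) * b.factorial = (i0 - a) * (b - j) * ((b - j0) * c1) := by rw [hc1]
        _ = ((i0 - a) * c1) * ((b - j) * (b - j0)) := by ring
        _ ≤ ((i - a) * c2) * ((b - j) * (b - j0)) := Nat.mul_le_mul_right _ h6
        _ = (i - a) * (b - j0) * ((b - j) * c2) := by ring
        _ = (i - a) * (b - j0) * b.factorial := by rw [← hc2]
    exact Nat.le_of_mul_le_mul_right h7 hf
  obtain ⟨ha0, hs0⟩ := key i0 j0 h1 h2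
  set g := Nat.gcd (i0 - a) (b - j0) with hg
  have hg0 : 0 < g := Nat.gcd_pos_of_pos_left _ (by omega)
  obtain ⟨q', hq'⟩ : g ∣ i0 - a := Nat.gcd_dvd_left _ _
  obtain ⟨p', hp'⟩ : g ∣ b - j0 := Nat.gcd_dvd_right _ _
  have hq'0 : 0 < q' := by
    rcases Nat.eq_zero_or_pos q' with h | h
    · rw [h] at hq'; omega
    · exact h
  have hp'0 : 0 < p' := by
    rcases Nat.eq_zero_or_pos p' with h | h
    · rw [h] at hp'; omega
    · exact h
  have hcop : Nat.Coprime p' q' := by
    have h4 := Nat.coprime_div_gcd_div_gcd (m := i0 - a) (n := b - j0) (by rw [← hg]; exact hg0)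
    rw [← hg] at h4
    rw [hq', hp', Nat.mul_div_cancel_left _ hg0, Nat.mul_div_cancel_left _ hg0] at h4
    exact h4.symm
  have hsl : q * p' < q' * p := by
    have h4 : g * (q * p') < g * (q' * p) := by
      calc g * (q * p') = q * (b - j0) := by rw [hp']; ring
        _ < (i0 - a) * p := hs0
        _ = g * (q' * p) := by rw [hq']; ring
    exact Nat.lt_of_mul_lt_mul_left h4
  -- weights
  have hwt : ∀ i j, cf G i j ≠ 0 → (a * p' + b * q' ≤ i * p' + j * q') ∧
      (i * p' + j * q' = a * p' + b * q' → j ≤ b) := by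
    intro i j h4
    rcases Nat.lt_or_ge j b with h5 | h5
    · have h6 := hmin i j h4 h5
      obtain ⟨h7, -⟩ := key i j h4 h5
      rw [hq', hp'] at h6
      have h8 : q' * (b - j) ≤ (i - a) * p' := by
        have : g * (q' * (b - j)) ≤ g * ((i - a) * p') := by
          calc g * (q' * (b - j)) = g * q' * (b - j) := by ring
            _ ≤ (i - a) * (g * p') := h6
            _ = g * ((i - a) * p') := by ring
        exact Nat.le_of_mul_le_mul_left this hg0
      obtain ⟨c, rfl⟩ : ∃ c, b = j + c := ⟨b - j, by omega⟩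
      obtain ⟨e, rfl⟩ : ∃ e, i = a + e := ⟨i - a, by omega⟩
      simp only [Nat.add_sub_cancel_left] at h8
      refine ⟨by nlinarith, fun _ => by omega⟩
    · obtain ⟨h6, -⟩ := hV.2 i j h4
      obtain ⟨c, rfl⟩ : ∃ c, j = b + c := ⟨j - b, by omega⟩
      rcases Nat.eq_zero_or_pos c with hc | hc
      · subst hc
        have h7 : a ≤ i := by
          have h8 : a * p ≤ i * p := by
            simpa using h6
          exact Nat.le_of_mul_le_mul_right h8 hp
        have h8 : a * p' ≤ i * p' := Nat.mul_le_mul_right _ h7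
        refine ⟨by simpa using h8, fun _ => by omega⟩
      · have h7 : a * p' + b * q' < i * p' + (b + c) * q' := by
          rcases Nat.lt_or_ge i a with h8 | h8
          · obtain ⟨e, rfl⟩ : ∃ e, a = i + e := ⟨a - i, by omega⟩
            have h9 : e * p ≤ c * q := by nlinarith
            have h10 : e * p' * p < c * q' * p := by
              calc e * p' * p = e * p * p' := by ring
                _ ≤ c * q * p' := Nat.mul_le_mul_right _ h9
                _ = c * (q * p') := by ring
                _ < c * (q' * p) := Nat.mul_lt_mul_of_pos_left hsl hc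
                _ = c * q' * p := by ring
            have h11 : e * p' < c * q' := Nat.lt_of_mul_lt_mul_right h10
            nlinarith
          · have h9 : a * p' ≤ i * p' := Nat.mul_le_mul_right _ h8
            have h10 : 0 < c * q' := Nat.mul_pos hc hq'0
            nlinarith
        exact ⟨h7.le, fun h => by omega⟩
  let R : ℕ → Prop := fun n => p' * n ≤ b ∧ cf G (a + q' * n) (b - p' * n) ≠ 0
  have hRg : R g := by
    refine ⟨by rw [mul_comm, ← hp']; omega, ?_⟩
    have e1 : a + q' * g = i0 := by rw [mul_comm, ← hq']; omega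
    have e2 : b - p' * g = j0 := by rw [mul_comm, ← hp']; omega
    rw [e1, e2]; exact h1
  have hgb : g ≤ b := by
    have : g * 1 ≤ g * p' := Nat.mul_le_mul_left _ hp'0
    have h5 : g * p' ≤ b := by rw [← hp']; omega
    omega
  have hE1 : g ≤ Nat.findGreatest R b := Nat.le_findGreatest hgb hRg
  have hE2 : R (Nat.findGreatest R b) := Nat.findGreatest_spec hgb hRg
  refine ⟨p', q', Nat.findGreatest R b, ?_, hsl⟩
  refine ⟨hp'0, hq'0, hcop, by omega, hE2.1, hV.1, hE2.2, fun i j h => (hwt i j h).1, ?_⟩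
  intro i j h4 h5
  have h6 := (hwt i j h4).2 h5
  refine ⟨?_, h6⟩
  obtain ⟨c, hc⟩ : ∃ c, b = j + c := ⟨b - j, by omega⟩
  have h7 : i * p' = a * p' + c * q' := by
    rw [hc] at h5; nlinarith
  have h8 : a ≤ i := by
    by_contra hcon
    have : i * p' < a * p' := Nat.mul_lt_mul_of_pos_right (by omega) hp'0
    omega
  obtain ⟨e, rfl⟩ : ∃ e, i = a + e := ⟨i - a, by omega⟩
  have h9 : e * p' = c * q' := by nlinarith
  have h10 : p' ∣ c := by
    have : p' ∣ c * q' := ⟨e, by rw [← h9]; ring⟩
    exact Nat.Coprime.dvd_of_dvd_mul_right hcop this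
  obtain ⟨n, rfl⟩ := h10
  have h11 : e = q' * n := by
    have : e * p' = (q' * n) * p' := by rw [h9]; ring
    exact Nat.eq_of_mul_eq_mul_right hp'0 this
  subst h11
  have hRn : R n := by
    refine ⟨by omega, ?_⟩
    have : b - p' * n = j := by omega
    rw [this]; exact h4
  have hnb : n ≤ b := by
    have : 1 * n ≤ p' * n := Nat.mul_le_mul_right _ hp'0
    omega
  have hn : n ≤ Nat.findGreatest R b := Nat.le_findGreatest hnb hRn
  have : p' * n ≤ p' * Nat.findGreatest R b := Nat.mul_le_mul_left _ hn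
  omega

/-- the shear by a monomial -/
private theorem go2_sub (Q : ℕ) (μ : k) :
    PowerSeries.subst (MvPowerSeries.X 0 : PS k) (PowerSeries.monomial Q μ) =
      MvPowerSeries.C μ * MvPowerSeries.X 0 ^ Q := by
  have hX : PowerSeries.HasSubst (MvPowerSeries.X 0 : PS k) := PowerSeries.HasSubst.X 0
  rw [PowerSeries.monomial_eq_mk, ← PowerSeries.monomial_eq_mk,
    PowerSeries.monomial_eq_C_mul_X_pow, PowerSeries.subst_mul hX, PowerSeries.subst_pow hX,
    PowerSeries.subst_X hX, PowerSeries.subst_C]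

private theorem go2_has {h : PowerSeries k} (hh : PowerSeries.constantCoeff h = 0) :
    MvPowerSeries.HasSubst (shv h) := by
  refine MvPowerSeries.hasSubst_of_constantCoeff_zero fun i => ?_
  fin_cases i
  · simp [shv]
  · simp only [shv]
    rw [show (⟨1, by norm_num⟩ : Fin 2) = 1 from rfl]
    simp only [Matrix.cons_val_one, Matrix.cons_val_fin_one, map_add, MvPowerSeries.constantCoeff_X,
      zero_add]
    exact PowerSeries.constantCoeff_subst_eq_zero (by simp) _ hh

private theorem go2_cfw (i j Q : ℕ) : Finsupp.weight (![1, Q] : Fin 2 → ℕ) (ix i j) = i + j * Q := by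
  rw [ix, map_add, Finsupp.weight_single, Finsupp.weight_single]
  simp

private theorem go2_ix (d : Fin 2 →₀ ℕ) : d = ix (d 0) (d 1) := by
  ext i
  fin_cases i <;> simp [ix]

/-- weights in the shear -/
private theorem go2_wt {Q : ℕ} (hQ : 0 < Q) (μ : k) {c : ℕ} {R : PS k}
    (hR : ∀ i j, cf R i j ≠ 0 → c ≤ i + j * Q) (i j : ℕ)
    (hij : cf (shr (PowerSeries.monomial Q μ) R) i j ≠ 0) : c ≤ i + j * Q := by
  have hh : PowerSeries.constantCoeff (PowerSeries.monomial Q μ) = 0 := by
    rw [← PowerSeries.coeff_zero_eq_constantCoeff_apply, PowerSeries.coeff_monomial,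
      if_neg (by omega)]
  have h1 := MvPowerSeries.le_weightedOrder_subst (![1, Q] : Fin 2 → ℕ) (go2_has hh) R
  have h2 : ((i + j * Q : ℕ) : ℕ∞) ≥ MvPowerSeries.weightedOrder (![1, Q] : Fin 2 → ℕ)
      (shr (PowerSeries.monomial Q μ) R) := by
    rw [← go2_cfw]
    exact MvPowerSeries.weightedOrder_le _ hij
  have h3 := h1.trans h2
  have h4 : (c : ℕ∞) ≤ ⨅ (d : Fin 2 →₀ ℕ) (_ : MvPowerSeries.coeff d R ≠ 0),
      Finsupp.weight (MvPowerSeries.weightedOrder (![1, Q] : Fin 2 → ℕ) ∘
        (shv (PowerSeries.monomial Q μ))) d := by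
    refine le_iInf₂ fun d hd => ?_
    have h5 := hR (d 0) (d 1) (by rw [cf, ← go2_ix]; exact hd)
    have w0 : (1 : ℕ∞) ≤ MvPowerSeries.weightedOrder (![1, Q] : Fin 2 → ℕ)
        (shv (PowerSeries.monomial Q μ) 0) := by
      refine MvPowerSeries.le_weightedOrder _ fun e he => ?_
      have he' : Finsupp.weight (![1, Q] : Fin 2 → ℕ) e < 1 := by exact_mod_cast he
      rw [go2_ix e, go2_cfw] at he'
      show MvPowerSeries.coeff e (MvPowerSeries.X 0 : PS k) = 0
      rw [MvPowerSeries.coeff_X, if_neg]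
      intro h6
      rw [h6] at he'
      simp at he'
    have w1 : (Q : ℕ∞) ≤ MvPowerSeries.weightedOrder (![1, Q] : Fin 2 → ℕ)
        (shv (PowerSeries.monomial Q μ) 1) := by
      show _ ≤ MvPowerSeries.weightedOrder (![1, Q] : Fin 2 → ℕ)
        (MvPowerSeries.X 1 + PowerSeries.subst (MvPowerSeries.X 0 : PS k)
          (PowerSeries.monomial Q μ))
      rw [go2_sub]
      refine MvPowerSeries.le_weightedOrder _ fun e he => ?_
      have he' : Finsupp.weight (![1, Q] : Fin 2 → ℕ) e < Q := by exact_mod_cast he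
      rw [go2_ix e, go2_cfw] at he'
      rw [map_add, MvPowerSeries.coeff_X, MvPowerSeries.coeff_C_mul, MvPowerSeries.coeff_X_pow,
        if_neg, if_neg, mul_zero, add_zero]
      · intro h6
        rw [h6] at he'
        simp at he'
      · intro h6
        rw [h6] at he'
        simp at he'
    rw [Finsupp.weight_apply, Finsupp.sum_fintype _ _ (fun i => by simp), Fin.sum_univ_two]
    calc (c : ℕ∞) ≤ ((d 0 + d 1 * Q : ℕ) : ℕ∞) := by exact_mod_cast h5
      _ = d 0 • (1 : ℕ∞) + d 1 • (Q : ℕ∞) := by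
        simp
      _ ≤ _ := add_le_add (nsmul_le_nsmul_right w0 _) (nsmul_le_nsmul_right w1 _)
  exact_mod_cast h4.trans h3

private theorem go2_step {Q : ℕ} (hE : Edge G a b 1 Q b) (μ : k)
    (hed : edp G a b 1 Q b = Polynomial.C (cf G a b) * (Polynomial.X - Polynomial.C μ) ^ b) :
    Vtx (shr (PowerSeries.monomial Q μ) G) 1 Q a b := by
  classical
  have hQ := hE.q0
  have hh : PowerSeries.constantCoeff (PowerSeries.monomial Q μ) = 0 := by
    rw [← PowerSeries.coeff_zero_eq_constantCoeff_apply, PowerSeries.coeff_monomial,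
      if_neg (by omega)]
  have hs := go2_has hh
  set A : PS k := ∑ n ∈ Finset.range (b + 1),
    MvPowerSeries.monomial (ix (a + Q * n) (b - n)) (cf G (a + Q * n) (b - n)) with hA
  have hc : ∀ n ∈ Finset.range (b + 1), cf G (a + Q * n) (b - n) =
      cf G a b * ((-μ) ^ n * (b.choose n : k)) := by
    intro n hn
    have hn' : n ≤ b := by simpa [Nat.lt_succ_iff] using hn
    have h1 := hE.edp_coeff hn'
    rw [one_mul] at h1
    rw [← h1, hed, Polynomial.coeff_C_mul, sub_eq_add_neg, ← Polynomial.C_neg,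
      Polynomial.coeff_X_add_C_pow, show b - (b - n) = n by omega, Nat.choose_symm hn']
  have hA2 : shr (PowerSeries.monomial Q μ) A = MvPowerSeries.C (cf G a b) *
      (MvPowerSeries.X 0 ^ a * MvPowerSeries.X 1 ^ b) := by
    have h1 : ∀ n ∈ Finset.range (b + 1), shr (PowerSeries.monomial Q μ)
        (MvPowerSeries.monomial (ix (a + Q * n) (b - n)) (cf G (a + Q * n) (b - n))) =
        MvPowerSeries.C (cf G a b) * MvPowerSeries.X 0 ^ a *
          ((-(MvPowerSeries.C μ * MvPowerSeries.X 0 ^ Q)) ^ n *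
          (MvPowerSeries.X 1 + MvPowerSeries.C μ * MvPowerSeries.X 0 ^ Q) ^ (b - n) *
            (b.choose n : PS k)) := by
      intro n hn
      rw [shr, MvPowerSeries.subst_monomial hs, hc n hn]
      rw [Finsupp.prod_fintype _ _ (fun i => pow_zero _), Fin.prod_univ_two]
      have e0 : (ix (a + Q * n) (b - n)) 0 = a + Q * n := by simp [ix]
      have e1 : (ix (a + Q * n) (b - n)) 1 = b - n := by simp [ix]
      have e2 : shv (PowerSeries.monomial Q μ) 0 = (MvPowerSeries.X 0 : PS k) := rfl
      have e3 : shv (PowerSeries.monomial Q μ) 1 = (MvPowerSeries.X 1 : PS k) +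
        MvPowerSeries.C μ * MvPowerSeries.X 0 ^ Q := by
        rw [← go2_sub]; rfl
      rw [e0, e1, e2, e3, ← MvPowerSeries.c_eq_algebraMap]
      simp only [map_mul, map_pow, map_neg, map_natCast]
      ring
    have h2 : shr (PowerSeries.monomial Q μ) A = ∑ n ∈ Finset.range (b + 1),
        shr (PowerSeries.monomial Q μ)
        (MvPowerSeries.monomial (ix (a + Q * n) (b - n)) (cf G (a + Q * n) (b - n))) := by
      simp only [hA, shr, ← MvPowerSeries.coe_substAlgHom hs, map_sum]
    rw [h2, Finset.sum_congr rfl h1, ← Finset.mul_sum, ← add_pow]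
    ring
  have hR : ∀ i j, cf (G - A) i j ≠ 0 → a + b * Q + 1 ≤ i + j * Q := by
    intro i j hij
    by_contra hcon
    apply hij
    have h0 : cf (G - A) i j = cf G i j - cf A i j := by simp [cf]
    have h1 : cf A i j = ∑ n ∈ Finset.range (b + 1),
        if ix i j = ix (a + Q * n) (b - n) then cf G (a + Q * n) (b - n) else 0 := by
      rw [cf, hA, map_sum]
      exact Finset.sum_congr rfl fun n _ => MvPowerSeries.coeff_monomial _ _ _
    have hinj : ∀ i j i' j' : ℕ, ix i j = ix i' j' → i = i' ∧ j = j' := by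
      intro i j i' j' h
      constructor
      · simpa [ix] using congrArg (fun f => f 0) h
      · simpa [ix] using congrArg (fun f => f 1) h
    by_cases hlin : i + j * Q = a + b * Q
    · by_cases h2 : ∃ n, n ≤ b ∧ i = a + Q * n ∧ j = b - n
      · obtain ⟨n, hn, rfl, rfl⟩ := h2
        rw [h0, h1, Finset.sum_eq_single n]
        · simp
        · intro m hm hmn
          rw [if_neg]
          intro h3
          have h4 := (hinj _ _ _ _ h3).2
          have : m ≤ b := by simpa [Nat.lt_succ_iff] using hm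
          omega
        · intro h3
          exact absurd (Finset.mem_range.2 (by omega)) h3
      · have h3 : cf G i j = 0 := by
          by_contra h4
          obtain ⟨n, hn, h5, h6⟩ := hE.support h4 (by simpa using hlin)
          exact h2 ⟨n, hn, h5, by simpa using h6⟩
        rw [h0, h1, h3, Finset.sum_eq_zero, sub_zero]
        intro n hn
        rw [if_neg]
        intro h4
        exact h2 ⟨n, by simpa [Nat.lt_succ_iff] using hn, (hinj _ _ _ _ h4).1,
          (hinj _ _ _ _ h4).2⟩
    · have h3 : cf G i j = 0 := by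
        by_contra h4
        have := hE.wt i j h4
        simp only [mul_one] at this
        omega
      rw [h0, h1, h3, Finset.sum_eq_zero, sub_zero]
      intro n hn
      rw [if_neg]
      intro h4
      obtain ⟨rfl, rfl⟩ := hinj _ _ _ _ h4
      have hn' : n ≤ b := by simpa [Nat.lt_succ_iff] using hn
      apply hlin
      obtain ⟨c, rfl⟩ : ∃ c, b = n + c := ⟨b - n, by omega⟩
      rw [Nat.add_sub_cancel_left]
      ring
  have hsum : shr (PowerSeries.monomial Q μ) G = MvPowerSeries.C (cf G a b) *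
      (MvPowerSeries.X 0 ^ a * MvPowerSeries.X 1 ^ b) +
        shr (PowerSeries.monomial Q μ) (G - A) := by
    rw [← hA2, shr, shr, shr, ← MvPowerSeries.subst_add hs]
    congr 1
    ring
  have hmon : (MvPowerSeries.X 0 ^ a * MvPowerSeries.X 1 ^ b : PS k) =
      MvPowerSeries.monomial (ix a b) 1 := by
    rw [MvPowerSeries.X_pow_eq, MvPowerSeries.X_pow_eq, MvPowerSeries.monomial_mul_monomial,
      one_mul]
    rfl
  have hcf : ∀ i j, cf (shr (PowerSeries.monomial Q μ) G) i j =
      (if ix i j = ix a b then cf G a b else 0) +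
        cf (shr (PowerSeries.monomial Q μ) (G - A)) i j := by
    intro i j
    rw [cf, hsum, map_add, hmon, MvPowerSeries.coeff_C_mul, MvPowerSeries.coeff_monomial]
    simp only [mul_ite, mul_one, mul_zero]
    rfl
  constructor
  · have h1 : cf (shr (PowerSeries.monomial Q μ) (G - A)) a b = 0 := by
      by_contra h2
      have := go2_wt hQ μ hR a b h2
      omega
    rw [hcf, if_pos rfl, h1, add_zero]
    exact hE.top
  · intro i j hij
    rw [hcf] at hij
    by_cases h1 : ix i j = ix a b
    · have h2 : i = a := by simpa [ix] using congrArg (fun f => f 0) h1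
      have h3 : j = b := by simpa [ix] using congrArg (fun f => f 1) h1
      subst h2 h3
      exact ⟨le_refl _, fun _ => le_refl _⟩
    · rw [if_neg h1, zero_add] at hij
      have := go2_wt hQ μ hR i j hij
      simp only [mul_one]
      exact ⟨by omega, fun h => by omega⟩

/-- the states of the recursion -/
private def go2_St (G : PS k) (p q a b : ℕ) (x : PowerSeries k × ℕ) : Prop :=
  (∀ i, PowerSeries.coeff i x.1 ≠ 0 → q < i * p) ∧ q < x.2 * p ∧
    Vtx (shr x.1 G) 1 x.2 a b

/-- a good shear -/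
private def go2_Gd (G : PS k) (q p a b : ℕ) (h : PowerSeries k) : Prop :=
  (∀ i j, cf (shr h G) i j ≠ 0 → b ≤ j) ∨ ∃ p' q' E : ℕ, Edge (shr h G) a b p' q' E ∧
      q * p' < q' * p ∧ ¬ (p' = 1 ∧ E = b ∧ ∃ μ : k, edp (shr h G) a b p' q' E =
        Polynomial.C (cf (shr h G) a b) * (Polynomial.X - Polynomial.C μ) ^ b)

private theorem go2_next (hp : 0 < p)
    (hbad : ∀ h : PowerSeries k, (∀ i, PowerSeries.coeff i h ≠ 0 → q < i * p) →
      ¬ go2_Gd G q p a b h) {P R : ℕ} (hP : 0 < P) (hPR : q * P ≤ R * p) {h : PowerSeries k}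
    (hh : ∀ i, PowerSeries.coeff i h ≠ 0 → q < i * p) (hV : Vtx (shr h G) P R a b) :
    ∃ (Q : ℕ) (μ : k), R < Q * P ∧ go2_St G p q a b (h + PowerSeries.monomial Q μ, Q) := by
  have h1 := hbad h hh
  rw [go2_Gd, not_or] at h1
  obtain ⟨h1, h2⟩ := h1
  push Not at h1 h2
  obtain ⟨p', Q, E, hE, hs⟩ := go2_edge hP hV h1
  have hs' : q * p' < Q * p := by
    have : (q * p') * P < (Q * p) * P := by
      calc (q * p') * P = (q * P) * p' := by ring
        _ ≤ (R * p) * p' := Nat.mul_le_mul_right _ hPR
        _ = (R * p') * p := by ring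
        _ < (Q * P) * p := Nat.mul_lt_mul_of_pos_right hs hp
        _ = (Q * p) * P := by ring
    exact Nat.lt_of_mul_lt_mul_right this
  obtain ⟨rfl, rfl, μ, hμ⟩ := h2 p' Q E hE hs'
  have hQ := hE.q0
  simp only [mul_one] at hs hs'
  have h0 : PowerSeries.constantCoeff h = 0 := by
    by_contra h3
    have := hh 0 (by rwa [PowerSeries.coeff_zero_eq_constantCoeff_apply])
    omega
  have h0' : PowerSeries.constantCoeff (PowerSeries.monomial Q μ) = 0 := by
    rw [← PowerSeries.coeff_zero_eq_constantCoeff_apply, PowerSeries.coeff_monomial,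
      if_neg (by omega)]
  refine ⟨Q, μ, hs, ?_, hs', ?_⟩
  · intro i hi
    by_cases h3 : i = Q
    · rw [h3]; exact hs'
    · rw [map_add, PowerSeries.coeff_monomial, if_neg h3, add_zero] at hi
      exact hh i hi
  · have := go2_step hE μ hμ
    rw [shr_shr h0 h0'] at this
    exact this

end GO2aux

section GO2

variable {k : Type} [Field k] [CharZero k] [IsAlgClosed k] {G : PS k} {p q a b : ℕ}

/-- after a shear the next edge is not of the form `(Y - μ X^q)^b`, or there is no next edge -/
theorem exists_good (hp : 0 < p) (hb : 0 < b) (hV : Vtx G p q a b) : ∃ h : PowerSeries k,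
    (∀ i, PowerSeries.coeff i h ≠ 0 → q < i * p) ∧
    ((∀ i j, cf (shr h G) i j ≠ 0 → b ≤ j) ∨ ∃ p' q' E : ℕ, Edge (shr h G) a b p' q' E ∧
      q * p' < q' * p ∧ ¬ (p' = 1 ∧ E = b ∧ ∃ μ : k, edp (shr h G) a b p' q' E =
        Polynomial.C (cf (shr h G) a b) * (Polynomial.X - Polynomial.C μ) ^ b)) := by
  classical
  by_contra hcon
  have hbad : ∀ h : PowerSeries k, (∀ i, PowerSeries.coeff i h ≠ 0 → q < i * p) →
      ¬ go2_Gd G q p a b h := by
    intro h hh hg
    exact hcon ⟨h, hh, hg⟩
  -- the first state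
  have hV0 : Vtx (shr 0 G) p q a b := Vtx.shr hV hp (fun i hi => absurd (by simp) hi)
  obtain ⟨Q0, μ0, -, hS0⟩ := go2_next hp hbad hp le_rfl (h := 0)
    (fun i hi => absurd (by simp) hi) hV0
  have step : ∀ x : {x : PowerSeries k × ℕ // go2_St G p q a b x},
      ∃ y : {x : PowerSeries k × ℕ // go2_St G p q a b x}, x.1.2 < y.1.2 ∧
        ∀ i, i ≤ x.1.2 → PowerSeries.coeff i y.1.1 = PowerSeries.coeff i x.1.1 := by
    rintro ⟨⟨h, Q⟩, hx1, hx2, hx3⟩
    obtain ⟨Q', μ, h1, h2⟩ := go2_next hp hbad (P := 1) (R := Q) one_pos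
      (by simpa using hx2.le) hx1 hx3
    refine ⟨⟨_, h2⟩, by simpa using h1, fun i hi => ?_⟩
    simp only [mul_one] at h1
    simp only at hi ⊢
    rw [map_add, PowerSeries.coeff_monomial, if_neg (by omega), add_zero]
  choose f hf1 hf2 using step
  let s : ℕ → {x : PowerSeries k × ℕ // go2_St G p q a b x} := fun n => f^[n] ⟨_, hS0⟩
  have hs : ∀ n, s (n + 1) = f (s n) := fun n => Function.iterate_succ_apply' f n _
  have hlt : ∀ n, (s n).1.2 < (s (n + 1)).1.2 := by
    intro n
    rw [hs]; exact hf1 _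
  have hge : ∀ n, n ≤ (s n).1.2 := by
    intro n
    induction n with
    | zero => exact Nat.zero_le _
    | succ n ih =>
      have := hlt n
      omega
  have hmono : ∀ n m, (s n).1.2 ≤ (s (n + m)).1.2 := by
    intro n m
    induction m with
    | zero => exact le_rfl
    | succ m ih => exact ih.trans (hlt (n + m)).le
  have hco : ∀ n m i, i ≤ (s n).1.2 → PowerSeries.coeff i (s (n + m)).1.1 =
      PowerSeries.coeff i (s n).1.1 := by
    intro n m i hi
    induction m with
    | zero => rfl
    | succ m ih =>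
      rw [← add_assoc, hs, hf2 _ i (hi.trans (hmono n m))]
      exact ih
  have hco' : ∀ n i, i ≤ (s n).1.2 → PowerSeries.coeff i (s i).1.1 =
      PowerSeries.coeff i (s n).1.1 := by
    intro n i hi
    have h1 := hco n i i hi
    have h2 := hco i n i (hge i)
    rw [← h1, ← h2, add_comm]
  let H : PowerSeries k := PowerSeries.mk fun i => PowerSeries.coeff i (s i).1.1
  have hH : ∀ i, PowerSeries.coeff i H ≠ 0 → q < i * p := by
    intro i hi
    rw [PowerSeries.coeff_mk] at hi
    exact (s i).2.1 i hi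
  have h00 : ∀ h : PowerSeries k, (∀ i, PowerSeries.coeff i h ≠ 0 → q < i * p) →
      PowerSeries.constantCoeff h = 0 := by
    intro h hh
    by_contra h3
    have := hh 0 (by rwa [PowerSeries.coeff_zero_eq_constantCoeff_apply])
    omega
  have hVn : ∀ n, Vtx (shr H G) 1 (s n).1.2 a b := by
    intro n
    have h1 : ∀ i, PowerSeries.coeff i (H - (s n).1.1) ≠ 0 → (s n).1.2 < i * 1 := by
      intro i hi
      by_contra h2
      apply hi
      rw [map_sub, PowerSeries.coeff_mk, hco' n i (by omega), sub_self]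
    have h2 := Vtx.shr (s n).2.2.2 one_pos h1
    have h3 : PowerSeries.constantCoeff (H - (s n).1.1) = 0 := by
      rw [map_sub, h00 _ hH, h00 _ (s n).2.1, sub_zero]
    rw [shr_shr (h00 _ (s n).2.1) h3] at h2
    rwa [add_sub_cancel] at h2
  apply hbad H hH
  left
  intro i j hij
  by_contra hj
  have h1 := ((hVn (i + 1)).2 i j hij).1
  have h2 := hge (i + 1)
  obtain ⟨c, rfl⟩ : ∃ c, b = j + 1 + c := ⟨b - (j + 1), by omega⟩
  nlinarith [Nat.zero_le (c * (s (i + 1)).1.2)]

end GO2

end Pool.Agent.H75.Mono
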