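import Pool.Agent.H75.Plc.ZRC
import Pool.Agent.H75.Plc.ZB
import Pool.Agent.H75.Plc.ZSH
import Pool.Agent.H75.Plc.CN2
import Pool.Agent.H75.Plc.SRE
import Pool.Agent.H75.Plc.SRM
import Pool.Agent.H75.Plc.PRM
import Pool.Agent.H75.Plc.CH1
import Pool.Agent.H75.Plc.CH2
import Pool.Agent.H75.Plc.GO2

/-! # PLC: rationality beyond a ray (assembly) -/

set_option autoImplicit false

namespace Pool.Agent.H75.Mono

open MvPolynomial Pool.Agent.H39.MonoR

section BEY

theorem RatF.fsum {R : Type*} [CommRing R] {u : Rˣ} {S : Set (ℤ × ℕ)} {T J : Type*}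
    (s : Finset J) {F : J → T → PowerSeries R} (h : ∀ j ∈ s, RatF u S (F j)) :
    RatF u S fun t => ∑ j ∈ s, F j t := by
  classical
  induction s using Finset.induction_on with
  | empty =>
    refine (RatF.of_fin 0 fun t n _ => ?_ : RatF u ∅ _).mono (Set.empty_subset _)
    simp
  | insert a s ha ih =>
    have h1 := (h a (Finset.mem_insert_self a s)).add
      (ih fun j hj => h j (Finset.mem_insert_of_mem hj))
    rw [Set.union_self] at h1
    refine h1.congr fun t => ?_
    rw [Finset.sum_insert ha]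

variable {k : Type} [Field k] [Algebra k ℂ] [IsAlgClosed k]

/-- the values of the divisors are positive, `ν / N` -/
theorem gds_pair {F : MvPolynomial (Fin 2) k} {n m : ℕ} (hn : 0 < n) (hm : 0 < m)
    (h : SRs k F ((n : ℚ) / m)) : Gds F {(-(n : ℤ), m)} := by
  intro p hp
  rw [Finset.mem_singleton] at hp
  subst hp
  refine ⟨by simpa using hn, hm, ?_⟩
  have : -(((-(n : ℤ), m) : ℤ × ℕ).1 : ℚ) / ((-(n : ℤ), m) : ℤ × ℕ).2 = (n : ℚ) / m := by
    push_cast
    ring
  rw [this]
  exact h

theorem Gds.union {F : MvPolynomial (Fin 2) k} [DecidableEq (ℤ × ℕ)] {S S' : Finset (ℤ × ℕ)}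
    (h : Gds F S) (h' : Gds F S') : Gds F (S ∪ S') := by
  intro p hp
  rcases Finset.mem_union.1 hp with hp | hp
  · exact h p hp
  · exact h' p hp

omit [Algebra k ℂ] [IsAlgClosed k] in
theorem exists_rs {p q : ℕ} (h : Nat.Coprime p q) (hp : 0 < p) (hq : 0 < q) :
    ∃ r s : ℕ, p * s = q * r + 1 := by
  rcases Nat.lt_or_ge 1 q with h1 | h1
  · obtain ⟨m, -, hm⟩ := Nat.exists_mul_mod_eq_one_of_coprime h h1
    refine ⟨p * m / q, m, ?_⟩
    have := Nat.div_add_mod (p * m) q
    rw [hm] at this
    exact this.symm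
  · have : q = 1 := by omega
    subst this
    exact ⟨p - 1, 1, by omega⟩

open Classical in
theorem bey_rat {F : MvPolynomial (Fin 2) k} {P : Fin 2 → k}
    (hP : ∀ i, eval P (pderiv i F) = 0) : ∀ (b N ν p q a : ℕ) (G : PS k), 0 < p → 0 < ν →
    1 ≤ N + a → (ν = 1 ∨ ν * b ≤ 2 * (N + a)) → Vtx G p q a b → Cht F P N ν G →
    SRs k F (((ν * p + q : ℕ) : ℚ) / ((N + a) * p + b * q : ℕ)) →
    ∃ S : Finset (ℤ × ℕ), Gds F S ∧ RatF (Lu k) (S : Set (ℤ × ℕ))
      (fun t : Test k => PowerSeries.mk fun d => bey N ν G p q a b d t) := by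
  have := charZero k
  intro b
  induction b using Nat.strong_induction_on with
  | _ b ih =>
  intro N ν p q a G hp hν hN hK hV hC hSR
  -- small b
  rcases Nat.lt_or_ge b 2 with hb2 | hb2
  · refine ⟨∅, fun p hp => absurd hp (by simp), ?_⟩
    refine RatF.congr (RatF.mono (RatF.of_fin 0 fun (t : Test k) n _ => ?_) (Set.empty_subset _) :
      RatF (Lu k) _ fun _ : Test k => (0 : PowerSeries (M k))) fun t => ?_
    · simp
    · ext d
      rw [PowerSeries.coeff_mk, map_zero]
      have : b = 0 ∨ b = 1 := by omega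
      rcases this with rfl | rfl
      · rw [bey_zero hp hV]
      · rw [bey_one hp hV]
  have hb : 0 < b := by omega
  obtain ⟨h, hh, hgood⟩ := exists_good hp hb hV
  have hh0 : PowerSeries.constantCoeff h = 0 := by
    by_contra h0
    have := hh 0 (by rwa [PowerSeries.coeff_zero_eq_constantCoeff_apply])
    omega
  have hsh := fun d (t : Test k) => bey_shr hp hh N ν G a b d t
  set G' := shr h G with hG'
  have hV' : Vtx G' p q a b := hV.shr hp hh
  have hC' : Cht F P N ν G' := hC.shr hh0
  have hNv : 0 < (N + a) * p + b * q := by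
    have : 0 < (N + a) * p := Nat.mul_pos hN hp
    omega
  have hνv : 0 < ν * p + q := by
    have : 0 < ν * p := Nat.mul_pos hν hp
    omega
  rcases hgood with hD | ⟨p', q', E, hE, hκ, hbad⟩
  · -- no next edge
    have hSb : SRs k F ((1 : ℚ) / b) := by
      obtain ⟨P', Q', h1, h2, h3⟩ := hC'.exists_irred hb hV'.1 hD
      exact SRs.of_pow h1 h2 h3 hb2
    refine ⟨{(-((ν * p + q : ℕ) : ℤ), (N + a) * p + b * q)} ∪ {(-((1 : ℕ) : ℤ), b)},
      (gds_pair hνv hNv hSR).union (gds_pair Nat.one_pos hb (by simpa using hSb)), ?_⟩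
    refine ((cnd_rat (G := G') (ν := ν) (q := q) hp hb hN).mono ?_).congr fun t => ?_
    · intro x hx
      simpa using hx
    · ext d
      rw [PowerSeries.coeff_mk, PowerSeries.coeff_mk, ← hsh, bey_div hp hb hV' hD]
  · -- next edge
    have hp' := hE.p0
    have hq' := hE.q0
    have hE0 := hE.e0
    have heb := hE.eb
    obtain ⟨r, s, hrs⟩ := exists_rs hE.cop hp' hq'
    have hNv' : 0 < (N + a) * p' + b * q' := by
      have : 0 < (N + a) * p' := Nat.mul_pos hN hp'
      omega
    have hνv' : 0 < ν * p' + q' := by omega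
    -- the root of the edge
    have hSR' : SRs k F (((ν * p' + q' : ℕ) : ℚ) / ((N + a) * p' + b * q' : ℕ)) := by
      have key : ((ν : ℚ) - ((ν * p' + q' : ℕ) : ℚ) / ((N + a) * p' + b * q' : ℕ) *
          (N + a : ℕ)) / q' < 1 := by
        have h1 : (0 : ℚ) < ((N + a) * p' + b * q' : ℕ) := by exact_mod_cast hNv'
        have h2 : (0 : ℚ) < q' := by exact_mod_cast hq'
        have h3 : ν * b < (N + a) + ((N + a) * p' + b * q') := by
          have h4 : (N + a) ≤ (N + a) * p' := Nat.le_mul_of_pos_right _ hp'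
          have h5 : 1 ≤ b * q' := Nat.mul_pos hb hq'
          have h6 : b ≤ b * q' := Nat.le_mul_of_pos_right _ hq'
          rcases hK with h7 | h7
          · rw [h7]
            omega
          · omega
        have h4 : ((ν : ℚ)) * b < (N + a : ℕ) + ((N + a) * p' + b * q' : ℕ) := by
          exact_mod_cast h3
        rw [div_lt_one h2, sub_lt_iff_lt_add, div_mul_eq_mul_div, ← sub_lt_iff_lt_add',
          lt_div_iff₀ h1]
        push_cast at h4 ⊢
        nlinarith [mul_lt_mul_of_pos_right h4 h2]
      refine SRs.edge hP hC' hν hE rfl ?_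
      by_cases h1 : p' = 1 ∧ E = b
      · right
        have h2 := hE.card_ne_one hbad h1.1 h1.2
        refine ⟨h1.1, h1.2, h2, ?_⟩
        have h3 : (2 : ℚ) ≤ (rts (edp G' a b p' q' E)).card := by exact_mod_cast h2
        linarith
      · left
        have h2 := hE.card_pos
        have h3 : (1 : ℚ) ≤ (rts (edp G' a b p' q' E)).card := by exact_mod_cast h2
        exact ⟨h1, by linarith⟩
    -- the children
    have hroot : ∀ μ ∈ rts (edp G' a b p' q' E), μ ≠ 0 := by
      intro μ hμ h0
      subst h0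
      have : (edp G' a b p' q' E).IsRoot 0 := by
        have h1 : (0 : k) ∈ (edp G' a b p' q' E).roots := by simpa [rts] using hμ
        exact Polynomial.isRoot_of_mem_roots h1
      exact hE.edp_zero this
    have hchild : ∀ μ ∈ rts (edp G' a b p' q' E), ∃ S : Finset (ℤ × ℕ), Gds F S ∧
        RatF (Lu k) (S : Set (ℤ × ℕ)) (fun t : Test k => PowerSeries.mk fun d =>
          bey (N * p' + (a * p' + b * q')) (ν * p' + q')
            (chd N p' q' (a * p' + b * q') r s μ G') 1 0 0
            ((edp G' a b p' q' E).rootMultiplicity μ) d t) := by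
      intro μ hμ
      have hμ0 := hroot μ hμ
      have e1 : N * p' + (a * p' + b * q') = (N + a) * p' + b * q' := by ring
      refine ih _ (hE.mult_lt hbad μ) _ _ 1 0 0 _ Nat.one_pos hνv' ?_ ?_
        (vtx_chd hE hrs hμ0 N) (hC'.chd hν hp' hq' hrs hμ0 hE.wt) ?_
      · rw [e1]
        omega
      · right
        rw [e1]
        have h1 := hE.mult_le μ
        set e := (edp G' a b p' q' E).rootMultiplicity μ
        have h2 : q' * e ≤ b * q' := by
          have : q' * e ≤ q' * (p' * e) := Nat.mul_le_mul_left _ (Nat.le_mul_of_pos_left _ hp')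
          have h3 : q' * (p' * e) ≤ q' * b := Nat.mul_le_mul_left _ h1
          rw [mul_comm b q']
          omega
        have h4 : (N + a) ≤ (N + a) * p' := Nat.le_mul_of_pos_right _ hp'
        have h6 : b ≤ b * q' := Nat.le_mul_of_pos_right _ hq'
        have h8 : (ν * p' + q') * e = ν * (p' * e) + q' * e := by ring
        rw [h8]
        rcases hK with h7 | h7
        · rw [h7, one_mul]
          omega
        · have h9 : ν * (p' * e) ≤ ν * b := Nat.mul_le_mul_left _ h1
          omega
      · have e2 : (((ν * p' + q') * 1 + 0 : ℕ) : ℚ) /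
            (((N * p' + (a * p' + b * q') + 0) * 1 +
              (edp G' a b p' q' E).rootMultiplicity μ * 0 : ℕ)) =
            ((ν * p' + q' : ℕ) : ℚ) / ((N + a) * p' + b * q' : ℕ) := by
          have e4 : (ν * p' + q') * 1 + 0 = ν * p' + q' := by ring
          have e5 : (N * p' + (a * p' + b * q') + 0) * 1 +
              (edp G' a b p' q' E).rootMultiplicity μ * 0 = (N + a) * p' + b * q' := by ring
          rw [e4, e5]
        rw [e2]
        exact hSR'
    have hchild' : ∀ μ, ∃ S : Finset (ℤ × ℕ), μ ∈ rts (edp G' a b p' q' E) → (Gds F S ∧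
        RatF (Lu k) (S : Set (ℤ × ℕ)) (fun t : Test k => PowerSeries.mk fun d =>
          bey (N * p' + (a * p' + b * q')) (ν * p' + q')
            (chd N p' q' (a * p' + b * q') r s μ G') 1 0 0
            ((edp G' a b p' q' E).rootMultiplicity μ) d t)) := by
      intro μ
      by_cases hμ : μ ∈ rts (edp G' a b p' q' E)
      · obtain ⟨S, hS⟩ := hchild μ hμ
        exact ⟨S, fun _ => hS⟩
      · exact ⟨∅, fun h => absurd h hμ⟩
    choose Sc hSc using hchild'
    -- beyond the next edge
    have hlow : b - p' * E < b := by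
      have : 0 < p' * E := Nat.mul_pos hp' hE0
      omega
    have e3 : (N + (a + q' * E)) * p' + (b - p' * E) * q' = (N + a) * p' + b * q' := by
      obtain ⟨c, hc⟩ : ∃ c, b = p' * E + c := ⟨b - p' * E, by omega⟩
      have : b - p' * E = c := by omega
      rw [this, hc]
      ring
    obtain ⟨S3, hS3, hR3⟩ := ih _ hlow N ν p' q' (a + q' * E) G' hp' hν (by omega) (by
        rcases hK with h1 | h1
        · exact Or.inl h1
        · right
          have h2 : ν * (b - p' * E) ≤ ν * b := Nat.mul_le_mul_left _ (by omega)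
          omega) hE.vtx hC' (by rw [e3]; exact hSR')
    refine ⟨(({(-((ν * p + q : ℕ) : ℤ), (N + a) * p + b * q)} ∪
      {(-((ν * p' + q' : ℕ) : ℤ), (N + a) * p' + b * q')}) ∪
        (rts (edp G' a b p' q' E)).biUnion Sc) ∪ S3, ?_, ?_⟩
    · refine Gds.union (Gds.union ((gds_pair hνv hNv hSR).union (gds_pair hνv' hNv' hSR')) ?_) hS3
      intro x hx
      obtain ⟨μ, hμ, hx⟩ := Finset.mem_biUnion.1 hx
      exact (hSc μ hμ).1 x hx
    · have h1 := cne_rat (G := G') (ν := ν) (E := E) hp hp' hb hκ hN
      have h2 : RatF (Lu k) (((rts (edp G' a b p' q' E)).biUnion Sc : Finset (ℤ × ℕ)) :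
          Set (ℤ × ℕ)) (fun t : Test k => ∑ μ ∈ rts (edp G' a b p' q' E),
            PowerSeries.mk fun d => bey (N * p' + (a * p' + b * q')) (ν * p' + q')
            (chd N p' q' (a * p' + b * q') r s μ G') 1 0 0
            ((edp G' a b p' q' E).rootMultiplicity μ) d t) := by
        refine RatF.fsum _ fun μ hμ => ((hSc μ hμ).2).mono ?_
        intro x hx
        exact Finset.mem_coe.2 (Finset.mem_biUnion.2 ⟨μ, hμ, Finset.mem_coe.1 hx⟩)
      refine (((h1.add h2).add hR3).mono ?_).congr fun t => ?_
      · intro x hx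
        simp only [Finset.coe_union, Finset.coe_singleton, Set.mem_union, Set.mem_insert_iff,
          Set.mem_singleton_iff] at hx ⊢
        tauto
      · ext d
        rw [map_add, map_add, map_sum]
        simp only [PowerSeries.coeff_mk]
        rw [← hsh, bey_edge hp hV' hE hκ hN hrs]

end BEY

end Pool.Agent.H75.Mono
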