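import Pool.Agent.H75.Mono.SB

/-! # PLC, module CN1: generating series of cones -/

set_option autoImplicit false

namespace Pool.Agent.H75.Mono

open MvPolynomial Pool.Agent.H39.MonoR

section CN1

/-- the series of a set `P` of points `(m, x)`, the point counts in degree `n m + x` -/
noncomputable def cn1Ser {R : Type*} [CommRing R] (n : ℕ) (f : ℕ → ℕ → R) (c : R)
    (P : ℕ → ℕ → Prop) [∀ m x, Decidable (P m x)] : PowerSeries R :=
  PowerSeries.mk fun d =>
    c * ∑ m ∈ (Finset.range (d + 1)).filter (fun m => n * m ≤ d ∧ P m (d - n * m)),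
      f m (d - n * m)

/-- multiplication by `1 - u^e T^D` removes the translate -/
theorem cn1_shift {R : Type*} [CommRing R] {u : Rˣ} {e : ℤ} {n p q : ℕ} (hn : 0 < n)
    {f : ℕ → ℕ → R} (hf : ∀ m x, f (m + p) (x + q) = ↑(u ^ e) * f m x) (c : R)
    (P P' P'' : ℕ → ℕ → Prop) [∀ m x, Decidable (P m x)] [∀ m x, Decidable (P' m x)]
    [∀ m x, Decidable (P'' m x)]
    (h' : ∀ m x, P' m x ↔ p ≤ m ∧ q ≤ x ∧ P (m - p) (x - q))
    (hsub : ∀ m x, P' m x → P m x) (h'' : ∀ m x, P'' m x ↔ P m x ∧ ¬ P' m x) :
    den' u (e, n * p + q) * cn1Ser n f c P = cn1Ser n f c P'' := by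
  ext d
  unfold den' cn1Ser
  rw [sub_mul, one_mul, map_sub, mul_assoc, PowerSeries.coeff_C_mul, PowerSeries.coeff_X_pow_mul',
    PowerSeries.coeff_mk, PowerSeries.coeff_mk]
  have hcut : ∀ m k : ℕ, n * m ≤ k → m < k + 1 := by
    intro m k h
    have : m ≤ n * m := Nat.le_mul_of_pos_left m hn
    omega
  have hsum : (∑ m ∈ (Finset.range (d + 1)).filter (fun m => n * m ≤ d ∧ P' m (d - n * m)),
      f m (d - n * m)) = ↑(u ^ e) * (if n * p + q ≤ d then
        ∑ m ∈ (Finset.range (d - (n * p + q) + 1)).filter (fun m => n * m ≤ d - (n * p + q) ∧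
          P m (d - (n * p + q) - n * m)), f m (d - (n * p + q) - n * m) else 0) := by
    split_ifs with hD
    · rw [Finset.mul_sum]
      symm
      refine Finset.sum_bij' (fun m _ => m + p) (fun m _ => m - p) ?_ ?_ ?_ ?_ ?_
      · intro m hm
        rw [Finset.mem_filter] at hm ⊢
        obtain ⟨-, h1, h2⟩ := hm
        have e1 : n * (m + p) = n * m + n * p := Nat.mul_add n m p
        have h3 : n * (m + p) ≤ d := by omega
        refine ⟨Finset.mem_range.2 (hcut _ _ h3), h3, ?_⟩
        rw [h']
        refine ⟨by omega, by omega, ?_⟩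
        have e2 : d - n * (m + p) - q = d - (n * p + q) - n * m := by omega
        rw [Nat.add_sub_cancel, e2]
        exact h2
      · intro m hm
        rw [Finset.mem_filter] at hm ⊢
        obtain ⟨-, h1, h2⟩ := hm
        rw [h'] at h2
        obtain ⟨h3, h4, h5⟩ := h2
        obtain ⟨j, rfl⟩ := Nat.exists_eq_add_of_le h3
        have e1 : n * (p + j) = n * p + n * j := Nat.mul_add n p j
        have e0 : p + j - p = j := by omega
        rw [e0] at h5 ⊢
        have h6 : n * j ≤ d - (n * p + q) := by omega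
        refine ⟨Finset.mem_range.2 (hcut _ _ h6), h6, ?_⟩
        have e2 : d - n * (p + j) - q = d - (n * p + q) - n * j := by omega
        rw [e2] at h5
        exact h5
      · intro m _
        simp
      · intro m hm
        rw [Finset.mem_filter] at hm
        have h2 := (h' _ _).1 hm.2.2
        show m - p + p = m
        omega
      · intro m hm
        rw [Finset.mem_filter] at hm
        obtain ⟨-, h1, h2⟩ := hm
        have e1 : n * (m + p) = n * m + n * p := Nat.mul_add n m p
        have e2 : d - n * (m + p) = (d - (n * p + q) - n * m) + q := by omega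
        rw [e2, hf]
    · rw [mul_zero]
      refine Finset.sum_eq_zero (fun m hm => ?_)
      rw [Finset.mem_filter] at hm
      obtain ⟨-, h1, h2⟩ := hm
      rw [h'] at h2
      obtain ⟨h3, h4, h5⟩ := h2
      obtain ⟨j, rfl⟩ := Nat.exists_eq_add_of_le h3
      have e1 : n * (p + j) = n * p + n * j := Nat.mul_add n p j
      omega
  have hsplit : (∑ m ∈ (Finset.range (d + 1)).filter (fun m => n * m ≤ d ∧ P m (d - n * m)),
      f m (d - n * m)) =
      (∑ m ∈ (Finset.range (d + 1)).filter (fun m => n * m ≤ d ∧ P' m (d - n * m)),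
        f m (d - n * m)) +
      ∑ m ∈ (Finset.range (d + 1)).filter (fun m => n * m ≤ d ∧ P'' m (d - n * m)),
        f m (d - n * m) := by
    rw [← Finset.sum_union]
    · refine Finset.sum_congr ?_ (fun _ _ => rfl)
      ext m
      simp only [Finset.mem_union, Finset.mem_filter]
      rw [h'']
      constructor
      · rintro ⟨h1, h2, h3⟩
        by_cases h4 : P' m (d - n * m)
        · exact Or.inl ⟨h1, h2, h4⟩
        · exact Or.inr ⟨h1, h2, h3, h4⟩
      · rintro (⟨h1, h2, h3⟩ | ⟨h1, h2, h3, -⟩)
        · exact ⟨h1, h2, hsub _ _ h3⟩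
        · exact ⟨h1, h2, h3⟩
    · rw [Finset.disjoint_left]
      intro m h1 h2
      rw [Finset.mem_filter] at h1 h2
      exact ((h'' _ _).1 h2.2.2).2 h1.2.2
  rw [hsplit, hsum]
  split_ifs with hD
  · simp only [PowerSeries.coeff_mk]
    ring
  · simp only [PowerSeries.coeff_mk]
    ring

/-- the series of a half-open cone spanned by `(A, B)` and `(A', B')` -/
theorem RatF.cone {R : Type*} [CommRing R] {u : Rˣ} {T : Type*} {e e' : ℤ} {A B A' B' n θ : ℕ}
    (hn : 0 < n) (hdet : B * A' < A * B') {f : ℕ → ℕ → R}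
    (h1 : ∀ m x, f (m + A) (x + B) = ↑(u ^ e) * f m x)
    (h2 : ∀ m x, f (m + A') (x + B') = ↑(u ^ e') * f m x) (c : T → R) :
    RatF u {(e, n * A + B), (e', n * A' + B')} (fun t : T => PowerSeries.mk fun d =>
      c t * ∑ m ∈ (Finset.range (d + 1)).filter (fun m => n * m ≤ d ∧
        B * m < A * (d - n * m) ∧ A' * (d - n * m) + θ ≤ B' * m), f m (d - n * m)) := by
  obtain ⟨δ, hδ⟩ := Nat.exists_eq_add_of_lt hdet
  -- `A B' = B A' + (δ + 1)`
  have hA : 0 < A := by
    rcases Nat.eq_zero_or_pos A with h | h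
    · rw [h, zero_mul] at hdet; omega
    · exact h
  have hB' : 0 < B' := by
    rcases Nat.eq_zero_or_pos B' with h | h
    · rw [h, mul_zero] at hdet; omega
    · exact h
  have hδz : (A : ℤ) * B' = B * A' + (δ + 1) := by exact_mod_cast hδ
  -- the three sets
  have key1 : ∀ t : T, den' u (e, n * A + B) * cn1Ser n f (c t)
      (fun m x => B * m < A * x ∧ A' * x + θ ≤ B' * m) =
      cn1Ser n f (c t) (fun m x => B * m < A * x ∧ A' * x + θ ≤ B' * m ∧
        B' * m < A' * x + θ + (δ + 1)) := by
    intro t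
    refine cn1_shift hn h1 (c t) _
      (fun m x => B * m < A * x ∧ A' * x + θ + (δ + 1) ≤ B' * m) _ ?_ ?_ ?_
    · intro m x
      constructor
      · rintro ⟨a1, a2⟩
        have a1z : (B : ℤ) * m < A * x := by exact_mod_cast a1
        have a2z : (A' : ℤ) * x + θ + (δ + 1) ≤ B' * m := by exact_mod_cast a2
        -- `m (δ+1) = A (B' m - A' x) + A' (A x - B m)`
        have hm : A ≤ m := by
          have b1 : (A : ℤ) * (δ + 1) ≤ m * (δ + 1) := by
            have b2 : (m : ℤ) * (δ + 1) = A * (B' * m - A' * x) + A' * (A * x - B * m) := by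
              have : (m : ℤ) * (A * B') = m * (B * A' + (δ + 1)) := by rw [hδz]
              linarith
            have b3 : (A : ℤ) * (δ + 1) ≤ A * (B' * m - A' * x) :=
              mul_le_mul_of_nonneg_left (by have : (0 : ℤ) ≤ θ := Int.natCast_nonneg _; linarith)
                (Int.natCast_nonneg _)
            have b4 : (0 : ℤ) ≤ A' * (A * x - B * m) :=
              mul_nonneg (Int.natCast_nonneg _) (by linarith)
            linarith
          have b5 := le_of_mul_le_mul_right b1 (by positivity)
          exact_mod_cast b5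
        have hx : B ≤ x := by
          have b1 : (B : ℤ) * (δ + 1) ≤ x * (δ + 1) := by
            have b2 : (x : ℤ) * (δ + 1) = B * (B' * m - A' * x) + B' * (A * x - B * m) := by
              have : (x : ℤ) * (A * B') = x * (B * A' + (δ + 1)) := by rw [hδz]
              linarith
            have b3 : (B : ℤ) * (δ + 1) ≤ B * (B' * m - A' * x) :=
              mul_le_mul_of_nonneg_left (by have : (0 : ℤ) ≤ θ := Int.natCast_nonneg _; linarith)
                (Int.natCast_nonneg _)
            have b4 : (0 : ℤ) ≤ B' * (A * x - B * m) :=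
              mul_nonneg (Int.natCast_nonneg _) (by linarith)
            linarith
          have b5 := le_of_mul_le_mul_right b1 (by positivity)
          exact_mod_cast b5
        obtain ⟨m', rfl⟩ := Nat.exists_eq_add_of_le hm
        obtain ⟨x', rfl⟩ := Nat.exists_eq_add_of_le hx
        refine ⟨hm, hx, ?_, ?_⟩
        · rw [Nat.add_sub_cancel_left, Nat.add_sub_cancel_left]
          have : B * A + B * m' < A * B + A * x' := by
            rw [← Nat.mul_add, ← Nat.mul_add]; exact a1
          have e3 : B * A = A * B := Nat.mul_comm B A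
          omega
        · rw [Nat.add_sub_cancel_left, Nat.add_sub_cancel_left]
          rw [Nat.mul_add, Nat.mul_add] at a2
          have e3 : B' * A = A * B' := Nat.mul_comm _ _
          have e4 : A' * B = B * A' := Nat.mul_comm _ _
          omega
      · rintro ⟨hm, hx, a1, a2⟩
        obtain ⟨m', rfl⟩ := Nat.exists_eq_add_of_le hm
        obtain ⟨x', rfl⟩ := Nat.exists_eq_add_of_le hx
        rw [Nat.add_sub_cancel_left, Nat.add_sub_cancel_left] at a1 a2
        refine ⟨?_, ?_⟩
        · rw [Nat.mul_add, Nat.mul_add]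
          have e3 : B * A = A * B := Nat.mul_comm B A
          omega
        · rw [Nat.mul_add, Nat.mul_add]
          have e3 : B' * A = A * B' := Nat.mul_comm _ _
          have e4 : A' * B = B * A' := Nat.mul_comm _ _
          omega
    · rintro m x ⟨a1, a2⟩
      exact ⟨a1, by omega⟩
    · intro m x
      constructor
      · rintro ⟨a1, a2, a3⟩
        exact ⟨⟨a1, a2⟩, fun h => by omega⟩
      · rintro ⟨⟨a1, a2⟩, a3⟩
        refine ⟨a1, a2, ?_⟩
        by_contra h
        exact a3 ⟨a1, by omega⟩
  have key2 : ∀ t : T, den' u (e', n * A' + B') * cn1Ser n f (c t)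
      (fun m x => B * m < A * x ∧ A' * x + θ ≤ B' * m ∧ B' * m < A' * x + θ + (δ + 1)) =
      cn1Ser n f (c t) (fun m x => (B * m < A * x ∧ A' * x + θ ≤ B' * m ∧
        B' * m < A' * x + θ + (δ + 1)) ∧ A * x ≤ B * m + (δ + 1)) := by
    intro t
    refine cn1_shift hn h2 (c t) _
      (fun m x => B * m + (δ + 1) < A * x ∧ A' * x + θ ≤ B' * m ∧
        B' * m < A' * x + θ + (δ + 1)) _ ?_ ?_ ?_
    · intro m x
      constructor
      · rintro ⟨a1, a2, a3⟩
        have a1z : (B : ℤ) * m + (δ + 1) < A * x := by exact_mod_cast a1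
        have a2z : (A' : ℤ) * x + θ ≤ B' * m := by exact_mod_cast a2
        have hm : A' ≤ m := by
          have b1 : (A' : ℤ) * (δ + 1) ≤ m * (δ + 1) := by
            have b2 : (m : ℤ) * (δ + 1) = A * (B' * m - A' * x) + A' * (A * x - B * m) := by
              have : (m : ℤ) * (A * B') = m * (B * A' + (δ + 1)) := by rw [hδz]
              linarith
            have b3 : (0 : ℤ) ≤ A * (B' * m - A' * x) :=
              mul_nonneg (Int.natCast_nonneg _)
                (by have : (0 : ℤ) ≤ θ := Int.natCast_nonneg _; linarith)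
            have b4 : (A' : ℤ) * (δ + 1) ≤ A' * (A * x - B * m) :=
              mul_le_mul_of_nonneg_left (by linarith) (Int.natCast_nonneg _)
            linarith
          have b5 := le_of_mul_le_mul_right b1 (by positivity)
          exact_mod_cast b5
        have hx : B' ≤ x := by
          have b1 : (B' : ℤ) * (δ + 1) ≤ x * (δ + 1) := by
            have b2 : (x : ℤ) * (δ + 1) = B * (B' * m - A' * x) + B' * (A * x - B * m) := by
              have : (x : ℤ) * (A * B') = x * (B * A' + (δ + 1)) := by rw [hδz]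
              linarith
            have b3 : (0 : ℤ) ≤ B * (B' * m - A' * x) :=
              mul_nonneg (Int.natCast_nonneg _)
                (by have : (0 : ℤ) ≤ θ := Int.natCast_nonneg _; linarith)
            have b4 : (B' : ℤ) * (δ + 1) ≤ B' * (A * x - B * m) :=
              mul_le_mul_of_nonneg_left (by linarith) (Int.natCast_nonneg _)
            linarith
          have b5 := le_of_mul_le_mul_right b1 (by positivity)
          exact_mod_cast b5
        obtain ⟨m', rfl⟩ := Nat.exists_eq_add_of_le hm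
        obtain ⟨x', rfl⟩ := Nat.exists_eq_add_of_le hx
        rw [Nat.add_sub_cancel_left, Nat.add_sub_cancel_left]
        rw [Nat.mul_add, Nat.mul_add] at a1 a2 a3
        have e3 : B' * A' = A' * B' := Nat.mul_comm _ _
        exact ⟨hm, hx, by omega, by omega, by omega⟩
      · rintro ⟨hm, hx, a1, a2, a3⟩
        obtain ⟨m', rfl⟩ := Nat.exists_eq_add_of_le hm
        obtain ⟨x', rfl⟩ := Nat.exists_eq_add_of_le hx
        rw [Nat.add_sub_cancel_left, Nat.add_sub_cancel_left] at a1 a2 a3
        rw [Nat.mul_add, Nat.mul_add, Nat.mul_add, Nat.mul_add]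
        have e3 : B' * A' = A' * B' := Nat.mul_comm _ _
        exact ⟨by omega, by omega, by omega⟩
    · rintro m x ⟨a1, a2, a3⟩
      exact ⟨by omega, a2, a3⟩
    · intro m x
      constructor
      · rintro ⟨⟨a1, a2, a3⟩, a4⟩
        exact ⟨⟨a1, a2, a3⟩, fun h => by omega⟩
      · rintro ⟨⟨a1, a2, a3⟩, a4⟩
        refine ⟨⟨a1, a2, a3⟩, ?_⟩
        by_contra h
        exact a4 ⟨by omega, a2, a3⟩
  -- the finite set
  have hfin : RatF u (∅ : Set (ℤ × ℕ)) (fun t : T => cn1Ser n f (c t)
      (fun m x => (B * m < A * x ∧ A' * x + θ ≤ B' * m ∧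
        B' * m < A' * x + θ + (δ + 1)) ∧ A * x ≤ B * m + (δ + 1))) := by
    refine RatF.of_fin (n * (A * (θ + (δ + 1)) + A' * (δ + 1)) +
      (B' * (δ + 1) + B * (θ + (δ + 1))) + 1) (fun t d hd => ?_)
    unfold cn1Ser
    rw [PowerSeries.coeff_mk, Finset.sum_eq_zero, mul_zero]
    intro m hm
    exfalso
    rw [Finset.mem_filter] at hm
    obtain ⟨-, b0, ⟨a1, a2, a3⟩, a4⟩ := hm
    obtain ⟨x, hx⟩ := Nat.exists_eq_add_of_le b0
    have hx' : d - n * m = x := by omega
    rw [hx'] at a1 a2 a3 a4
    have a1z : (B : ℤ) * m < A * x := by exact_mod_cast a1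
    have a2z : (A' : ℤ) * x + θ ≤ B' * m := by exact_mod_cast a2
    have a3z : (B' : ℤ) * m < A' * x + θ + (δ + 1) := by exact_mod_cast a3
    have a4z : (A : ℤ) * x ≤ B * m + (δ + 1) := by exact_mod_cast a4
    have hm1 : m ≤ A * (θ + (δ + 1)) + A' * (δ + 1) := by
      have b2 : (m : ℤ) * (δ + 1) = A * (B' * m - A' * x) + A' * (A * x - B * m) := by
        have : (m : ℤ) * (A * B') = m * (B * A' + (δ + 1)) := by rw [hδz]
        linarith
      have b3 : (A : ℤ) * (B' * m - A' * x) ≤ A * (θ + (δ + 1)) :=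
        mul_le_mul_of_nonneg_left (by linarith) (Int.natCast_nonneg _)
      have b4 : (A' : ℤ) * (A * x - B * m) ≤ A' * (δ + 1) :=
        mul_le_mul_of_nonneg_left (by linarith) (Int.natCast_nonneg _)
      have b5 : (m : ℤ) * 1 ≤ m * (δ + 1) :=
        mul_le_mul_of_nonneg_left (by have : (0 : ℤ) ≤ δ := Int.natCast_nonneg _; linarith)
          (Int.natCast_nonneg _)
      have b6 : (m : ℤ) ≤ A * (θ + (δ + 1)) + A' * (δ + 1) := by linarith
      exact_mod_cast b6
    have hx1 : x ≤ B' * (δ + 1) + B * (θ + (δ + 1)) := by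
      have b2 : (x : ℤ) * (δ + 1) = B * (B' * m - A' * x) + B' * (A * x - B * m) := by
        have : (x : ℤ) * (A * B') = x * (B * A' + (δ + 1)) := by rw [hδz]
        linarith
      have b3 : (B : ℤ) * (B' * m - A' * x) ≤ B * (θ + (δ + 1)) :=
        mul_le_mul_of_nonneg_left (by linarith) (Int.natCast_nonneg _)
      have b4 : (B' : ℤ) * (A * x - B * m) ≤ B' * (δ + 1) :=
        mul_le_mul_of_nonneg_left (by linarith) (Int.natCast_nonneg _)
      have b5 : (x : ℤ) * 1 ≤ x * (δ + 1) :=
        mul_le_mul_of_nonneg_left (by have : (0 : ℤ) ≤ δ := Int.natCast_nonneg _; linarith)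
          (Int.natCast_nonneg _)
      have b6 : (x : ℤ) ≤ B' * (δ + 1) + B * (θ + (δ + 1)) := by linarith
      exact_mod_cast b6
    have hm2 : n * m ≤ n * (A * (θ + (δ + 1)) + A' * (δ + 1)) := Nat.mul_le_mul_left n hm1
    omega
  have hstrip := RatF.div hfin (p := (e', n * A' + B')) (fun t => key2 t)
  have hcone := RatF.div hstrip (p := (e, n * A + B)) (fun t => key1 t)
  have hset : insert (e, n * A + B) (insert (e', n * A' + B') (∅ : Set (ℤ × ℕ))) =
      {(e, n * A + B), (e', n * A' + B')} := by
    rw [insert_empty_eq]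
  rw [hset] at hcone
  exact hcone

end CN1

end Pool.Agent.H75.Mono
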