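import Pool.Agent.H75.Plc.EV1

/-! # PLC, module LAU: automorphisms -/

set_option autoImplicit false

namespace Pool.Agent.H75.Mono

open MvPolynomial Pool.Agent.H39.MonoR

section LAU

variable {k : Type} [Field k] [Algebra k ℂ]

/-- the arc map given by two polynomials -/
private noncomputable def lau {d : ℕ} (f : Fin 2 → MvPolynomial (Fin 2) k)
    (φ : Fin 2 × Fin (d + 1) → ℂ) : Fin 2 × Fin (d + 1) → ℂ :=
  fun p => PowerSeries.coeff (p.2 : ℕ) (arcEval k φ (f p.1))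

/-- change of the coefficients of order `n` -/
private noncomputable def lup {d : ℕ} (φ : Fin 2 × Fin (d + 1) → ℂ) (n : ℕ) (hn : n < d + 1)
    (ε : Fin 2 → ℂ) : Fin 2 × Fin (d + 1) → ℂ :=
  Function.update (Function.update φ (0, ⟨n, hn⟩) (φ (0, ⟨n, hn⟩) + ε 0)) (1, ⟨n, hn⟩)
    ((Function.update φ (0, ⟨n, hn⟩) (φ (0, ⟨n, hn⟩) + ε 0)) (1, ⟨n, hn⟩) + ε 1)

private theorem lup_self {d : ℕ} (φ : Fin 2 × Fin (d + 1) → ℂ) (n : ℕ) (hn : n < d + 1)
    (ε : Fin 2 → ℂ) (i : Fin 2) : lup φ n hn ε (i, ⟨n, hn⟩) = φ (i, ⟨n, hn⟩) + ε i := by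
  unfold lup
  fin_cases i
  · simp [Function.update]
  · simp [Function.update]

private theorem lup_ne {d : ℕ} (φ : Fin 2 × Fin (d + 1) → ℂ) (n : ℕ) (hn : n < d + 1)
    (ε : Fin 2 → ℂ) (i : Fin 2) (l : Fin (d + 1)) (hl : (l : ℕ) ≠ n) :
    lup φ n hn ε (i, l) = φ (i, l) := by
  have h : l ≠ ⟨n, hn⟩ := fun e => hl (congrArg Fin.val e)
  unfold lup
  rw [Function.update_of_ne, Function.update_of_ne]
  · intro e
    exact h (congrArg Prod.snd e)
  · intro e
    exact h (congrArg Prod.snd e)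

private theorem org_upd {d : ℕ} (φ : Fin 2 × Fin (d + 1) → ℂ) (n : ℕ) (hn : n < d + 1)
    (h0 : 0 < n) (i : Fin 2) (a : ℂ) : org (Function.update φ (i, ⟨n, hn⟩) a) = org φ := by
  funext j
  unfold org
  rw [Function.update_of_ne]
  intro h
  have := congrArg (fun p => (p.2 : ℕ)) h
  have h2 : (0 : ℕ) = n := this
  omega

private theorem lup_org {d : ℕ} (φ : Fin 2 × Fin (d + 1) → ℂ) (n : ℕ) (hn : n < d + 1)
    (h0 : 0 < n) (ε : Fin 2 → ℂ) : org (lup φ n hn ε) = org φ := by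
  unfold lup
  rw [org_upd _ _ _ h0, org_upd _ _ _ h0]

private theorem lup_coeff {d : ℕ} (f : MvPolynomial (Fin 2) k) (φ : Fin 2 × Fin (d + 1) → ℂ)
    (n : ℕ) (hn : n < d + 1) (h0 : 0 < n) (ε : Fin 2 → ℂ) :
    (∀ l, l < n → PowerSeries.coeff l (arcEval k (lup φ n hn ε) f) =
      PowerSeries.coeff l (arcEval k φ f)) ∧
    PowerSeries.coeff n (arcEval k (lup φ n hn ε) f) = PowerSeries.coeff n (arcEval k φ f) +
      ε 0 * aeval (org φ) (pderiv 0 f) + ε 1 * aeval (org φ) (pderiv 1 f) := by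
  have h1 := coeff_arcEval_add h0 hn f φ 0 (ε 0)
  have h2 := coeff_arcEval_add h0 hn f (Function.update φ (0, ⟨n, hn⟩) (φ (0, ⟨n, hn⟩) + ε 0)) 1
    (ε 1)
  constructor
  · intro l hl
    exact (h2.1 l hl).trans (h1.1 l hl)
  · refine h2.2.trans ?_
    rw [h1.2, org_upd _ _ _ h0]

private theorem arc_agree {d : ℕ} {φ φ' : Fin 2 × Fin (d + 1) → ℂ} {n : ℕ} (hn : n < d + 1)
    (h : ∀ (i : Fin 2) (l : Fin (d + 1)), (l : ℕ) ≤ n → φ (i, l) = φ' (i, l))
    (f : MvPolynomial (Fin 2) k) :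
    PowerSeries.coeff n (arcEval k φ f) = PowerSeries.coeff n (arcEval k φ' f) := by
  refine coeff_arcEval_congr f φ φ' (n + 1) ?_ (Nat.lt_succ_self n)
  intro j l hl
  rw [coeff_arc, coeff_arc, dif_pos (by omega), dif_pos (by omega)]
  exact h j ⟨l, by omega⟩ (by simp only; omega)

/-- a linear system -/
private theorem lin_inj {a b c e : ℂ} (h : a * e - b * c ≠ 0) {u v : ℂ} (h1 : u * a + v * b = 0)
    (h2 : u * c + v * e = 0) : u = 0 ∧ v = 0 := by
  constructor
  · have : u * (a * e - b * c) = 0 := by linear_combination e * h1 - b * h2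
    rcases mul_eq_zero.1 this with h3 | h3
    · exact h3
    · exact absurd h3 h
  · have : v * (a * e - b * c) = 0 := by linear_combination a * h2 - c * h1
    rcases mul_eq_zero.1 this with h3 | h3
    · exact h3
    · exact absurd h3 h

private theorem lin_sur {a b c e : ℂ} (h : a * e - b * c ≠ 0) (r s : ℂ) :
    ∃ u v : ℂ, u * a + v * b = r ∧ u * c + v * e = s := by
  refine ⟨(r * e - b * s) / (a * e - b * c), (a * s - c * r) / (a * e - b * c), ?_, ?_⟩
  · rw [div_mul_eq_mul_div, div_mul_eq_mul_div, ← add_div, div_eq_iff h]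
    ring
  · rw [div_mul_eq_mul_div, div_mul_eq_mul_div, ← add_div, div_eq_iff h]
    ring

private theorem lau_inj {d : ℕ} {f : Fin 2 → MvPolynomial (Fin 2) k}
    (hJ : 0 < d → aeval (0 : Fin 2 → ℂ) (pderiv 0 (f 0)) * aeval (0 : Fin 2 → ℂ) (pderiv 1 (f 1)) -
      aeval (0 : Fin 2 → ℂ) (pderiv 1 (f 0)) * aeval (0 : Fin 2 → ℂ) (pderiv 0 (f 1)) ≠ 0)
    {φ φ' : Fin 2 × Fin (d + 1) → ℂ} (hφ : org φ = 0) (hφ' : org φ' = 0)
    (h : lau f φ = lau f φ') : φ = φ' := by
  have key : ∀ n : ℕ, ∀ (i : Fin 2) (l : Fin (d + 1)), (l : ℕ) = n → φ (i, l) = φ' (i, l) := by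
    intro n
    induction n using Nat.strong_induction_on with
    | _ n IH =>
    intro i l hl
    obtain ⟨l, hld⟩ := l
    simp only at hl
    subst hl
    rcases Nat.eq_zero_or_pos l with h0 | h0
    · subst h0
      have h1 := congrFun hφ i
      have h2 := congrFun hφ' i
      exact h1.trans h2.symm
    · set ε : Fin 2 → ℂ := fun i => φ' (i, ⟨l, hld⟩) - φ (i, ⟨l, hld⟩) with hε
      have hk : ∀ i : Fin 2, ε 0 * aeval (0 : Fin 2 → ℂ) (pderiv 0 (f i)) +
          ε 1 * aeval (0 : Fin 2 → ℂ) (pderiv 1 (f i)) = 0 := by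
        intro i
        have h1 := (lup_coeff (f i) φ l hld h0 ε).2
        have h2 : PowerSeries.coeff l (arcEval k (lup φ l hld ε) (f i)) =
            PowerSeries.coeff l (arcEval k φ' (f i)) := by
          refine arc_agree hld ?_ (f i)
          intro j m hm
          by_cases hml : (m : ℕ) = l
          · have e : m = ⟨l, hld⟩ := Fin.ext hml
            rw [e, lup_self, hε]
            ring
          · rw [lup_ne φ l hld ε j m hml]
            exact IH m (by omega) j m rfl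
        have h3 : PowerSeries.coeff l (arcEval k φ (f i)) =
            PowerSeries.coeff l (arcEval k φ' (f i)) := congrFun h (i, ⟨l, hld⟩)
        rw [h2, h3, hφ] at h1
        linear_combination -h1
      obtain ⟨e0, e1⟩ := lin_inj (hJ (by omega)) (hk 0) (hk 1)
      fin_cases i
      · have h4 : φ' (0, ⟨l, hld⟩) - φ (0, ⟨l, hld⟩) = 0 := e0
        exact (sub_eq_zero.1 h4).symm
      · have h4 : φ' (1, ⟨l, hld⟩) - φ (1, ⟨l, hld⟩) = 0 := e1
        exact (sub_eq_zero.1 h4).symm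
  funext p
  exact key p.2 p.1 p.2 rfl

private theorem lau_sur {d : ℕ} {f : Fin 2 → MvPolynomial (Fin 2) k}
    (hf : ∀ i, aeval (0 : Fin 2 → ℂ) (f i) = 0)
    (hJ : 0 < d → aeval (0 : Fin 2 → ℂ) (pderiv 0 (f 0)) * aeval (0 : Fin 2 → ℂ) (pderiv 1 (f 1)) -
      aeval (0 : Fin 2 → ℂ) (pderiv 1 (f 0)) * aeval (0 : Fin 2 → ℂ) (pderiv 0 (f 1)) ≠ 0)
    {ψ : Fin 2 × Fin (d + 1) → ℂ} (hψ : org ψ = 0) :
    ∃ φ : Fin 2 × Fin (d + 1) → ℂ, org φ = 0 ∧ lau f φ = ψ := by
  have key : ∀ n : ℕ, n ≤ d → ∃ φ : Fin 2 × Fin (d + 1) → ℂ, org φ = 0 ∧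
      ∀ (i : Fin 2) (l : Fin (d + 1)), (l : ℕ) ≤ n → lau f φ (i, l) = ψ (i, l) := by
    intro n
    induction n with
    | zero =>
      intro _
      refine ⟨0, rfl, ?_⟩
      intro i l hl
      have e : l = 0 := Fin.ext (by simpa using hl)
      subst e
      have h1 : PowerSeries.coeff 0 (arcEval k (0 : Fin 2 × Fin (d + 1) → ℂ) (f i)) = 0 := by
        rw [coeff_zero_arcEval]
        exact hf i
      exact h1.trans (congrFun hψ i).symm
    | succ n ih =>
      intro hn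
      obtain ⟨φ, h0, h1⟩ := ih (by omega)
      have hn' : n + 1 < d + 1 := by omega
      obtain ⟨u, v, hu, hv⟩ := lin_sur (hJ (by omega))
        (ψ (0, ⟨n + 1, hn'⟩) - PowerSeries.coeff (n + 1) (arcEval k φ (f 0)))
        (ψ (1, ⟨n + 1, hn'⟩) - PowerSeries.coeff (n + 1) (arcEval k φ (f 1)))
      refine ⟨lup φ (n + 1) hn' ![u, v], by rw [lup_org _ _ _ (by omega), h0], ?_⟩
      intro i l hl
      obtain ⟨l, hld⟩ := l
      simp only at hl
      have h2 := lup_coeff (f i) φ (n + 1) hn' (by omega) ![u, v]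
      rcases Nat.lt_or_ge l (n + 1) with h3 | h3
      · exact (h2.1 l h3).trans (h1 i ⟨l, hld⟩ (by simp only; omega))
      · have e : l = n + 1 := by omega
        subst e
        refine h2.2.trans ?_
        rw [h0]
        simp only [Matrix.cons_val_zero, Matrix.cons_val_one]
        fin_cases i
        · simp only [Fin.zero_eta]
          linear_combination hu
        · simp only [Fin.mk_one]
          linear_combination hv
  obtain ⟨φ, h0, h1⟩ := key d le_rfl
  exact ⟨φ, h0, funext fun p => h1 p.1 p.2 (by have := p.2.2; omega)⟩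

omit [Algebra k ℂ] in
private theorem lau_cc (d : ℕ) (A : PS k) (hA : MvPowerSeries.constantCoeff A = 0) :
    constantCoeff (tp d A) = 0 := by
  have e : ix 0 0 = 0 := by
    ext i
    simp [ix]
  have h := ev1_coeff_tp d A 0 0
  rw [e, if_pos ⟨Nat.zero_le _, Nat.zero_le _⟩] at h
  rw [constantCoeff_eq, h]
  unfold cf
  rw [e]
  simpa using hA

private theorem lau_p0 {d : ℕ} (hd : 0 < d) (A : PS k) :
    aeval (0 : Fin 2 → ℂ) (pderiv 0 (tp d A)) = algebraMap k ℂ (cf A 1 0) := by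
  rw [aeval_zero, constantCoeff_eq, coeff_pderiv]
  have e : (0 : Fin 2 →₀ ℕ) + Finsupp.single 0 1 = ix 1 0 := by
    simp [ix]
  rw [e, ev1_coeff_tp, if_pos ⟨by omega, by omega⟩]
  simp

private theorem lau_p1 {d : ℕ} (hd : 0 < d) (A : PS k) :
    aeval (0 : Fin 2 → ℂ) (pderiv 1 (tp d A)) = algebraMap k ℂ (cf A 0 1) := by
  rw [aeval_zero, constantCoeff_eq, coeff_pderiv]
  have e : (0 : Fin 2 →₀ ℕ) + Finsupp.single 1 1 = ix 0 1 := by
    simp [ix]
  rw [e, ev1_coeff_tp, if_pos ⟨by omega, by omega⟩]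
  simp

theorem loc_aut {a : Fin 2 → PS k} (ha : ∀ i, MvPowerSeries.constantCoeff (a i) = 0)
    (hJ : cf (a 0) 1 0 * cf (a 1) 0 1 - cf (a 0) 0 1 * cf (a 1) 1 0 ≠ 0) (G : PS k) (d : ℕ)
    (t : Test k) : loc (MvPowerSeries.subst a G) d t = loc G d t := by
  set f : Fin 2 → MvPolynomial (Fin 2) k := fun i => tp d (a i) with hf
  have hf0 : ∀ i, aeval (0 : Fin 2 → ℂ) (f i) = 0 := by
    intro i
    rw [aeval_zero, hf]
    simp only
    rw [lau_cc d (a i) (ha i), map_zero]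
  have hJ' : 0 < d → aeval (0 : Fin 2 → ℂ) (pderiv 0 (f 0)) *
      aeval (0 : Fin 2 → ℂ) (pderiv 1 (f 1)) -
      aeval (0 : Fin 2 → ℂ) (pderiv 1 (f 0)) * aeval (0 : Fin 2 → ℂ) (pderiv 0 (f 1)) ≠ 0 := by
    intro hd
    rw [hf]
    simp only
    rw [lau_p0 hd, lau_p1 hd, lau_p1 hd, lau_p0 hd, ← map_mul, ← map_mul, ← map_sub]
    intro h
    rw [map_eq_zero] at h
    exact hJ h
  have harc : ∀ φ : Fin 2 × Fin (d + 1) → ℂ, org φ = 0 → ∀ (i : Fin 2) (l : ℕ), l ≤ d →
      PowerSeries.coeff l (arc (lau f φ) i) =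
        PowerSeries.coeff l (ev (a i) (arc φ 0) (arc φ 1)) := by
    intro φ hφ i l hl
    have e1 : (![arc φ 0, arc φ 1] : Fin 2 → PowerSeries ℂ) = arc φ := by
      funext i
      fin_cases i <;> rfl
    rw [coeff_arc, dif_pos (by omega), coeff_ev (ev1_arc φ hφ 0) (ev1_arc φ hφ 1) (a i) hl, e1]
    rfl
  have horg : ∀ φ : Fin 2 × Fin (d + 1) → ℂ, org φ = 0 → org (lau f φ) = 0 := by
    intro φ hφ
    funext i
    show PowerSeries.coeff 0 (arcEval k φ (f i)) = 0
    rw [coeff_zero_arcEval, hφ]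
    exact hf0 i
  have hhit : ∀ (φ : Fin 2 × Fin (d + 1) → ℂ) (c : ℂ), org φ = 0 →
      (Hit (tp d (MvPowerSeries.subst a G)) d φ c ↔ Hit (tp d G) d (lau f φ) c) := by
    intro φ c hφ
    have h0 := ev1_arc φ hφ 0
    have h1 := ev1_arc φ hφ 1
    have k0 := ev1_arc (lau f φ) (horg φ hφ) 0
    have k1 := ev1_arc (lau f φ) (horg φ hφ) 1
    have A1 := hit_ev 0 (MvPowerSeries.subst a G) φ hφ c
    have A2 := hit_ev 0 G (lau f φ) (horg φ hφ) c
    simp only [pow_zero, one_mul] at A1 A2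
    rw [A1, A2]
    have hcc : ∀ i, PowerSeries.constantCoeff (ev (a i) (arc φ 0) (arc φ 1)) = 0 := by
      intro i
      rw [constantCoeff_ev h0 h1, ha i, map_zero]
    have key : ∀ l, l ≤ d → PowerSeries.coeff l (ev (MvPowerSeries.subst a G) (arc φ 0) (arc φ 1)) =
        PowerSeries.coeff l (ev G (arc (lau f φ) 0) (arc (lau f φ) 1)) := by
      intro l hl
      rw [ev_subst h0 h1 ha]
      exact coeff_ev_congr (hcc 0) (hcc 1) k0 k1 G
        (fun m hm => (harc φ hφ 0 m (hm.trans hl)).symm)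
        (fun m hm => (harc φ hφ 1 m (hm.trans hl)).symm)
    constructor
    · intro h l hl
      rw [← key l hl]
      exact h l hl
    · intro h l hl
      rw [key l hl]
      exact h l hl
  unfold loc
  congr 1
  have hor : ICons k {x : (Fin 2 × Fin (d + 1) → ℂ) × t.E | org x.1 = 0} := by
    have h := ICons.forall_fin (k := k) (J := Fin 2)
      (p := fun i (x : (Fin 2 × Fin (d + 1) → ℂ) × t.E) => x.1 (i, 0) = 0)
      (fun i => ICons.eq (PFun.comp (f := fun y : Fin 2 × Fin (d + 1) → ℂ => y (i, 0))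
        (PFun.apply (k := k) (i, 0)) PMap.fst) PFun.zero)
    have e : {x : (Fin 2 × Fin (d + 1) → ℂ) × t.E | org x.1 = 0} =
        {x : (Fin 2 × Fin (d + 1) → ℂ) × t.E | ∀ i, x.1 (i, 0) = 0} := by
      ext x
      constructor
      · intro h i
        exact congrFun h i
      · intro h
        exact funext h
    rw [e]
    exact h
  have hA : ∀ F : MvPolynomial (Fin 2) k, ICons k {x : (Fin 2 × Fin (d + 1) → ℂ) × t.E |
      x.2 ∈ t.W ∧ org x.1 = 0 ∧ Hit F d x.1 (t.c x.2)} := fun F =>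
    ICons.and (t.cW.mem PMap.snd) (ICons.and hor (ICons.hit d F PMap.fst (t.pf.comp PMap.snd)))
  refine mo_bij (hA _) (hA _) (f := fun x => (lau f x.1, x.2)) (PMap.prodMk (PMap.pi fun p =>
    PFun.coeff_arcEval (p.2 : ℕ) (f p.1) PMap.fst) PMap.snd) ⟨?_, ?_, ?_⟩
  · rintro ⟨φ, w⟩ ⟨h1, h2, h3⟩
    exact ⟨h1, horg φ h2, (hhit φ _ h2).1 h3⟩
  · rintro ⟨φ, w⟩ ⟨h1, h2, h3⟩ ⟨φ', w'⟩ ⟨h1', h2', h3'⟩ he
    simp only [Prod.mk.injEq] at he
    exact Prod.ext (lau_inj hJ' h2 h2' he.1) he.2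
  · rintro ⟨ψ, w⟩ ⟨h1, h2, h3⟩
    obtain ⟨φ, h4, h5⟩ := lau_sur hf0 hJ' h2
    refine ⟨(φ, w), ⟨h1, h4, (hhit φ _ h4).2 ?_⟩, ?_⟩
    · rw [h5]
      exact h3
    · simp only [h5]

omit [Algebra k ℂ] in
private theorem lau_cfX0 (i j : ℕ) : cf (MvPowerSeries.X 0 : PS k) i j =
    if i = 1 ∧ j = 0 then 1 else 0 := by
  classical
  unfold cf
  rw [MvPowerSeries.coeff_X]
  by_cases h : i = 1 ∧ j = 0
  · rw [if_pos h, if_pos]
    rw [h.1, h.2]
    simp [ix]
  · rw [if_neg h, if_neg]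
    intro e
    have e2 : ix i j = ix 1 0 := by rw [e]; simp [ix]
    exact h (ev1_ix_inj e2)

omit [Algebra k ℂ] in
private theorem lau_cfX1 (i j : ℕ) : cf (MvPowerSeries.X 1 : PS k) i j =
    if i = 0 ∧ j = 1 then 1 else 0 := by
  classical
  unfold cf
  rw [MvPowerSeries.coeff_X]
  by_cases h : i = 0 ∧ j = 1
  · rw [if_pos h, if_pos]
    rw [h.1, h.2]
    simp [ix]
  · rw [if_neg h, if_neg]
    intro e
    have e2 : ix i j = ix 0 1 := by rw [e]; simp [ix]
    exact h (ev1_ix_inj e2)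

theorem loc_shr {h : PowerSeries k} (hh : PowerSeries.constantCoeff h = 0) (G : PS k) (d : ℕ)
    (t : Test k) : loc (shr h G) d t = loc G d t := by
  have hs : PowerSeries.HasSubst (MvPowerSeries.X 0 : PS k) :=
    PowerSeries.HasSubst.of_constantCoeff_zero (MvPowerSeries.constantCoeff_X 0)
  have h1 : MvPowerSeries.constantCoeff (PowerSeries.subst (MvPowerSeries.X 0 : PS k) h) = 0 :=
    PowerSeries.constantCoeff_subst_eq_zero (MvPowerSeries.constantCoeff_X 0) h hh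
  have h2 : cf (PowerSeries.subst (MvPowerSeries.X 0 : PS k) h) 0 1 = 0 := by
    classical
    unfold cf
    rw [PowerSeries.coeff_subst hs]
    apply finsum_eq_zero_of_forall_eq_zero
    intro n
    rw [MvPowerSeries.coeff_X_pow, if_neg, smul_zero]
    intro e
    have e2 : ix 0 1 = ix n 0 := by rw [e]; simp [ix]
    have := (ev1_ix_inj e2).2
    omega
  refine loc_aut (a := shv h) ?_ ?_ G d t
  · intro i
    fin_cases i
    · exact MvPowerSeries.constantCoeff_X 0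
    · show MvPowerSeries.constantCoeff (MvPowerSeries.X 1 +
        PowerSeries.subst (MvPowerSeries.X 0 : PS k) h) = 0
      rw [map_add, h1, MvPowerSeries.constantCoeff_X, add_zero]
  · have e1 : cf (shv h 1) 0 1 = 1 := by
      show cf (MvPowerSeries.X 1 + PowerSeries.subst (MvPowerSeries.X 0 : PS k) h) 0 1 = 1
      have : cf (MvPowerSeries.X 1 + PowerSeries.subst (MvPowerSeries.X 0 : PS k) h) 0 1 =
          cf (MvPowerSeries.X 1 : PS k) 0 1 +
            cf (PowerSeries.subst (MvPowerSeries.X 0 : PS k) h) 0 1 := map_add _ _ _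
      rw [this, h2, lau_cfX1]
      simp
    have e0 : shv h 0 = MvPowerSeries.X 0 := rfl
    rw [e1, e0, lau_cfX0, lau_cfX0]
    simp

theorem loc_swp (G : PS k) (d : ℕ) (t : Test k) : loc (swp G) d t = loc G d t := by
  refine loc_aut (a := ![MvPowerSeries.X 1, MvPowerSeries.X 0]) ?_ ?_ G d t
  · intro i
    fin_cases i
    · exact MvPowerSeries.constantCoeff_X 1
    · exact MvPowerSeries.constantCoeff_X 0
  · simp only [Matrix.cons_val_zero, Matrix.cons_val_one]
    rw [lau_cfX0, lau_cfX0, lau_cfX1, lau_cfX1]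
    simp

end LAU

end Pool.Agent.H75.Mono
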