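import Pool.Agent.H75.Plc.ZRC
import Pool.Agent.H75.Plc.CN2
import Pool.Agent.H75.Plc.ZB

/-! # PLC, module LMO: monomials times units -/

set_option autoImplicit false

namespace Pool.Agent.H75.Mono

open MvPolynomial Pool.Agent.H39.MonoR

section LMOaux

private theorem lmo_alg {R : Type*} [CommRing R] (s : Finset ℕ) (A w B r : R) (f v : ℕ → R)
    (hv : ∀ m, v m = w) (h : A * w = r * B) :
    (A + ∑ m ∈ s, f m) * w = ∑ m ∈ s, v m * f m + r * B := by
  rw [add_mul, h, add_comm, Finset.sum_mul]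
  congr 1
  exact Finset.sum_congr rfl fun m _ => by rw [hv, mul_comm]

private theorem lmo_alg2 {R : Type*} [CommRing R] (s : Finset ℕ) (v f g : ℕ → R) :
    ∑ m ∈ s, v m * (f m - g m) = ∑ m ∈ s, v m * f m - ∑ m ∈ s, v m * g m := by
  rw [← Finset.sum_sub_distrib]
  exact Finset.sum_congr rfl fun _ _ => mul_sub _ _ _

/-- sequences which are periodic up to a factor -/
private theorem lmo_per {R : Type*} [CommRing R] {u : Rˣ} {T : Type*} {b : ℕ} (F : T → ℕ → R)
    (h : ∀ t n, 1 ≤ n → F t (n + b) = ↑(u ^ (-1 : ℤ)) * F t n) :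
    RatF u {(-1, b)} fun t => PowerSeries.mk fun n => if n = 0 then 0 else F t n := by
  refine ⟨{(-1, b)}, fun p hp => by simpa using hp, b + 1, fun t n hn => ?_⟩
  rw [Multiset.map_singleton, Multiset.prod_singleton, den', sub_mul, one_mul, map_sub, mul_assoc,
    PowerSeries.coeff_C_mul, PowerSeries.coeff_X_pow_mul', if_pos (by simp only; omega),
    PowerSeries.coeff_mk, PowerSeries.coeff_mk, if_neg (by omega), if_neg (by simp only; omega)]
  obtain ⟨m, rfl⟩ : ∃ m, n = m + b := ⟨n - b, by omega⟩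
  simp only [Nat.add_sub_cancel]
  rw [h t m (by omega), sub_self]

private theorem lmo_ceil {b : ℕ} (hb : 0 < b) (n : ℕ) :
    (n + b + b - 1) / b = (n + b - 1) / b + 1 := by
  have : n + b + b - 1 = (n + b - 1) + b := by omega
  rw [this, Nat.add_div_right _ hb]

private theorem lmo_ceil_le {b : ℕ} (hb : 0 < b) (d : ℕ) : d ≤ b * ((d + b - 1) / b) := by
  have h1 := Nat.div_add_mod (d + b - 1) b
  have h2 := Nat.mod_lt (d + b - 1) hb
  omega

private theorem lmo_lt_ceil {b : ℕ} (hb : 0 < b) {d n : ℕ} :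
    n < (d + b - 1) / b ↔ b * n < d := by
  rw [← Nat.succ_le_iff, Nat.le_div_iff_mul_le hb]
  constructor
  · intro h
    have : (n + 1) * b = b * n + b := by ring
    rw [Nat.succ_eq_add_one] at h
    omega
  · intro h
    have : (n + 1) * b = b * n + b := by ring
    rw [Nat.succ_eq_add_one]
    omega

private theorem lmo_ceil_dvd {b : ℕ} (hb : 0 < b) {d : ℕ} (h : b ∣ d) :
    b * ((d + b - 1) / b) = d := by
  obtain ⟨c, rfl⟩ := h
  have : (b * c + b - 1) / b = c := by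
    refine Nat.div_eq_of_lt_le ?_ ?_
    · rw [mul_comm c b]
      omega
    · have : (c + 1) * b = b * c + b := by ring
      rw [this]
      omega
  rw [this]

/-- the coefficients of `y^b V`, `V(0) ≠ 0` -/
private theorem lmo_coeff {b d : ℕ} (hb : 0 < b) (y V : PowerSeries ℂ)
    (hV : PowerSeries.constantCoeff V ≠ 0) (c : ℂ) :
    (∀ l, l ≤ d → PowerSeries.coeff l (y ^ b * V) = if l = d then c else 0) ↔
      (∀ l, l < (d + b - 1) / b → PowerSeries.coeff l y = 0) ∧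
      (if b ∣ d then PowerSeries.constantCoeff V * PowerSeries.coeff ((d + b - 1) / b) y ^ b
        else 0) = c := by
  have hpow : ∀ n (y' : PowerSeries ℂ), (PowerSeries.X ^ n * y') ^ b * V =
      PowerSeries.X ^ (b * n) * (y' ^ b * V) := by
    intro n y'
    rw [mul_pow, ← pow_mul, mul_comm n b, mul_assoc]
  have hcoe : ∀ n (y' : PowerSeries ℂ), PowerSeries.coeff n (PowerSeries.X ^ n * y') =
      PowerSeries.constantCoeff y' := by
    intro n y'
    rw [PowerSeries.coeff_X_pow_mul', if_pos le_rfl, Nat.sub_self,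
      PowerSeries.coeff_zero_eq_constantCoeff_apply]
  have key : (∀ l, l < (d + b - 1) / b → PowerSeries.coeff l y = 0) →
      (∀ l, l < d → PowerSeries.coeff l (y ^ b * V) = 0) ∧
      PowerSeries.coeff d (y ^ b * V) = if b ∣ d then PowerSeries.constantCoeff V *
        PowerSeries.coeff ((d + b - 1) / b) y ^ b else 0 := by
    intro h
    obtain ⟨y', rfl⟩ := PowerSeries.X_pow_dvd_iff.2 h
    rw [hpow, hcoe]
    have h0 := lmo_ceil_le hb d
    refine ⟨fun l hl => ?_, ?_⟩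
    · rw [PowerSeries.coeff_X_pow_mul', if_neg (by omega)]
    · by_cases hbd : b ∣ d
      · rw [if_pos hbd, lmo_ceil_dvd hb hbd, hcoe, map_mul, map_pow, mul_comm]
      · rw [if_neg hbd, PowerSeries.coeff_X_pow_mul', if_neg]
        intro h1
        exact hbd ⟨_, le_antisymm h0 h1⟩
  constructor
  · intro h
    have h1 : ∀ l, l < (d + b - 1) / b → PowerSeries.coeff l y = 0 := by
      intro l
      induction l using Nat.strong_induction_on with
      | _ l ih =>
      intro hl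
      have h2 := (lmo_lt_ceil hb).1 hl
      obtain ⟨y', rfl⟩ := PowerSeries.X_pow_dvd_iff.2 fun m hm => ih m hm (hm.trans hl)
      have h3 := h (b * l) h2.le
      rw [if_neg h2.ne, hpow, hcoe, map_mul, map_pow] at h3
      rw [hcoe]
      rcases mul_eq_zero.1 h3 with h4 | h4
      · exact pow_eq_zero_iff hb.ne' |>.1 h4
      · exact absurd h4 hV
    refine ⟨h1, ?_⟩
    rw [← (key h1).2, h d le_rfl, if_pos rfl]
  · rintro ⟨h1, h2⟩ l hl
    obtain ⟨h3, h4⟩ := key h1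
    by_cases hld : l = d
    · rw [if_pos hld, hld, h4, h2]
    · rw [if_neg hld, h3 l (by omega)]

variable {k : Type} [Field k] {a b : ℕ} {G : PS k}

private theorem lmo_ix (n : Fin 2 →₀ ℕ) : ix (n 0) (n 1) = n := by
  ext i
  unfold ix
  fin_cases i <;> simp

private noncomputable def lmoDv (b : ℕ) (G : PS k) : PS k :=
  fun n => MvPowerSeries.coeff (n + Finsupp.single 1 b) G

private theorem lmo_dv_spec (hs : ∀ i j, cf G i j ≠ 0 → b ≤ j) :
    G = MvPowerSeries.X 1 ^ b * lmoDv b G := by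
  ext n
  rw [MvPowerSeries.X_pow_eq, MvPowerSeries.coeff_monomial_mul, one_mul]
  split_ifs with h
  · show _ = MvPowerSeries.coeff (n - Finsupp.single 1 b + Finsupp.single 1 b) G
    rw [tsub_add_cancel_of_le h]
  · by_contra h1
    apply h
    have h2 := hs (n 0) (n 1) (by rwa [cf, lmo_ix])
    intro i
    fin_cases i
    · simp
    · simpa using h2

private theorem lmo_dv_cc (G : PS k) :
    MvPowerSeries.constantCoeff (lmoDv b G) = cf G 0 b := by
  show MvPowerSeries.coeff (0 + Finsupp.single 1 b) G = _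
  rw [cf, ix, Finsupp.single_zero]

end LMOaux

section LMO

variable {k : Type} [Field k] [Algebra k ℂ] {a b : ℕ} {G : PS k}

private theorem lmo_org {d : ℕ} (φ : Fin 2 × Fin (d + 1) → ℂ) :
    org φ = 0 ↔ φ (0, 0) = 0 ∧ φ (1, 0) = 0 := by
  constructor
  · intro h
    exact ⟨congrFun h 0, congrFun h 1⟩
  · rintro ⟨h0, h1⟩
    funext i
    fin_cases i
    · exact h0
    · exact h1

private theorem lmo_arc_cc {d : ℕ} {φ : Fin 2 × Fin (d + 1) → ℂ} (h : org φ = 0) (i : Fin 2) :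
    PowerSeries.constantCoeff (arc φ i) = 0 := by
  rw [← PowerSeries.coeff_zero_eq_constantCoeff_apply, coeff_arc, dif_pos (Nat.succ_pos d)]
  exact congrFun h i

private theorem lmo_hit_zero (hG : cf G 0 b ≠ 0) (hs : ∀ i j, cf G i j ≠ 0 → b ≤ j) (hb : 0 < b)
    {d : ℕ} (φ : Fin 2 × Fin (d + 1) → ℂ) (h : org φ = 0) (c : ℂ) :
    Hit (tp d G) d φ c ↔ (∀ l, l < (d + b - 1) / b → PowerSeries.coeff l (arc φ 1) = 0) ∧
      (if b ∣ d then algebraMap k ℂ (cf G 0 b) *
        PowerSeries.coeff ((d + b - 1) / b) (arc φ 1) ^ b else 0) = c := by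
  have h1 := hit_ev 0 G φ h c
  rw [pow_zero, one_mul] at h1
  rw [h1]
  have hx := lmo_arc_cc h 0
  have hy := lmo_arc_cc h 1
  have e : arc φ 0 ^ 0 * ev G (arc φ 0) (arc φ 1) =
      arc φ 1 ^ b * ev (lmoDv b G) (arc φ 0) (arc φ 1) := by
    rw [pow_zero, one_mul]
    conv_lhs => rw [lmo_dv_spec hs]
    rw [ev_mul hx hy, ev_pow hx hy, ev_X1 hx hy]
  have hV : PowerSeries.constantCoeff (ev (lmoDv b G) (arc φ 0) (arc φ 1)) =
      algebraMap k ℂ (cf G 0 b) := by
    rw [constantCoeff_ev hx hy, lmo_dv_cc]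
  rw [e, lmo_coeff hb _ _ (by
    rw [hV]
    exact fun h0 => hG ((algebraMap k ℂ).injective (by rw [h0, map_zero]))) c, hV]

private theorem lmo_pf_zero (d b : ℕ) (g : k) {E : Type} [Aff E] :
    PFun k (fun x : (Fin 2 × Fin 1 → ℂ) × E =>
      if b ∣ d then algebraMap k ℂ g * x.1 (1, 0) ^ b else 0) := by
  by_cases h : b ∣ d
  · simp only [if_pos h]
    exact (PFun.const g).mul ((PFun.comp (f := fun φ : Fin 2 × Fin 1 → ℂ => φ (1, 0))
      (PFun.apply (1, 0)) PMap.fst).pow b)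
  · simp only [if_neg h]
    exact PFun.zero

private theorem lmo_loc_zero (hG : cf G 0 b ≠ 0) (hs : ∀ i j, cf G i j ≠ 0 → b ≤ j) (hb : 0 < b)
    {d : ℕ} (hd : 0 < d) (t : Test k) :
    loc G d t = ↑(Lu k ^ (-(1 + ((d + b - 1) / b : ℕ)) : ℤ)) *
      mo k {x : (Fin 2 × Fin 1 → ℂ) × t.E | x.2 ∈ t.W ∧
        (if b ∣ d then algebraMap k ℂ (cf G 0 b) * x.1 (1, 0) ^ b else 0) = t.c x.2} := by
  set l0 := (d + b - 1) / b with hl0
  have hl1 : 0 < l0 := (lmo_lt_ceil hb).2 (by omega)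
  have hl2 : l0 ≤ d := by
    by_contra h
    push Not at h
    have h1 := (lmo_lt_ceil hb).1 h
    have : d ≤ b * d := Nat.le_mul_of_pos_left d hb
    omega
  have hA : ICons k {x : (Fin 2 × Fin 1 → ℂ) × t.E | x.2 ∈ t.W ∧
      (if b ∣ d then algebraMap k ℂ (cf G 0 b) * x.1 (1, 0) ^ b else 0) = t.c x.2} :=
    (t.cW.mem PMap.snd).and (ICons.eq (lmo_pf_zero d b _) (t.pf.comp PMap.snd))
  have hsft := mo_sft (k := k) (K := 1) (N := d + 1) (e := ![1, l0]) (by
    intro i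
    fin_cases i
    · simp
      omega
    · simp
      omega) hA
  have e : {x : (Fin 2 × Fin (d + 1) → ℂ) × t.E | x.2 ∈ t.W ∧ org x.1 = 0 ∧
      Hit (tp d G) d x.1 (t.c x.2)} = {x : (Fin 2 × Fin (d + 1) → ℂ) × t.E |
      (∀ (i : Fin 2) (l : Fin (d + 1)), (l : ℕ) < (![1, l0] : Fin 2 → ℕ) i → x.1 (i, l) = 0) ∧
        (sft ![1, l0] x.1, x.2) ∈ {x : (Fin 2 × Fin 1 → ℂ) × t.E | x.2 ∈ t.W ∧
      (if b ∣ d then algebraMap k ℂ (cf G 0 b) * x.1 (1, 0) ^ b else 0) = t.c x.2}} := by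
    ext ⟨φ, w⟩
    have hs0 : (sft ![1, l0] φ : Fin 2 × Fin 1 → ℂ) (1, 0) = PowerSeries.coeff l0 (arc φ 1) := by
      rw [coeff_arc]
      simp [sft]
    simp only [Set.mem_ofPred_eq]
    rw [hs0]
    constructor
    · rintro ⟨h1, h2, h3⟩
      rw [lmo_hit_zero hG hs hb φ h2] at h3
      refine ⟨fun i l hl => ?_, h1, h3.2⟩
      fin_cases i
      · have : l = 0 := by
          apply Fin.ext
          simpa using hl
        subst this
        exact ((lmo_org φ).1 h2).1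
      · have h4 := h3.1 l (by simpa using hl)
        rw [coeff_arc, dif_pos l.2] at h4
        exact h4
    · rintro ⟨h1, h2, h3⟩
      have h4 : org φ = 0 := (lmo_org φ).2 ⟨h1 0 0 (by simp), h1 1 0 (by simpa using hl1)⟩
      refine ⟨h2, h4, ?_⟩
      rw [lmo_hit_zero hG hs hb φ h4]
      refine ⟨fun l hl => ?_, h3⟩
      rw [coeff_arc, dif_pos (by omega)]
      exact h1 1 ⟨l, by omega⟩ (by simpa using hl)
  rw [loc, e, hsft]
  simp only [Matrix.cons_val_zero, Matrix.cons_val_one]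
  rw [mul_comm, ← mul_assoc]
  congr 1
  rw [← Units.val_mul, ← zpow_natCast, ← zpow_add]
  congr 2
  have : ((d + 1 - 1 - 1 + (d + 1 - l0 - 1) : ℕ) : ℤ) = 2 * d - 1 - l0 := by
    omega
  rw [this]
  push_cast
  ring

theorem loc_mono_zero (hG : cf G 0 b ≠ 0) (hs : ∀ i j, cf G i j ≠ 0 → b ≤ j) (hb : 0 < b) :
    RatF (Lu k) {(-1, b)} (fun t : Test k => PowerSeries.mk fun d =>
      if d = 0 then 0 else loc G d t - loc G d t.zr) := by
  refine lmo_per (fun (t : Test k) d => loc G d t - loc G d t.zr) fun t n hn => ?_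
  rw [lmo_loc_zero hG hs hb (by omega : 0 < n + b), lmo_loc_zero hG hs hb (by omega : 0 < n + b),
    lmo_loc_zero hG hs hb (by omega : 0 < n), lmo_loc_zero hG hs hb (by omega : 0 < n)]
  simp only [Nat.dvd_add_self_right, lmo_ceil hb n]
  have : (Lu k ^ (-(1 + (((n + b - 1) / b + 1 : ℕ) : ℤ))) : (M k)ˣ) =
      Lu k ^ (-1 : ℤ) * Lu k ^ (-(1 + (((n + b - 1) / b : ℕ) : ℤ))) := by
    rw [← zpow_add]
    congr 1
    push_cast
    ring
  rw [this, Units.val_mul]
  ring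

omit [Algebra k ℂ] in
private theorem lmo_monomial (i j : ℕ) (c : k) :
    (monomial (ix i j) c : MvPolynomial (Fin 2) k) = C c * (X 0 ^ i * X 1 ^ j) := by
  rw [X_pow_eq_monomial, X_pow_eq_monomial, monomial_mul, C_mul_monomial, mul_one, mul_one, ix]

private theorem lmo_far (hs : ∀ i j, cf G i j ≠ 0 → a ≤ i ∧ b ≤ j) (ha : 0 < a) (hb : 0 < b)
    {d : ℕ} (φ : Fin 2 × Fin (d + 1) → ℂ)
    (h0 : ∀ l, l < (d + a - 1) / a → PowerSeries.coeff l (arc φ 0) = 0)
    (h1 : PowerSeries.constantCoeff (arc φ 1) = 0) (c : ℂ) : Hit (tp d G) d φ c ↔ c = 0 := by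
  have h2 : (PowerSeries.X : PowerSeries ℂ) ^ (d + 1) ∣ arcEval k φ (tp d G) := by
    obtain ⟨x', hx⟩ := PowerSeries.X_pow_dvd_iff.2 h0
    obtain ⟨y', hy⟩ := PowerSeries.X_dvd_iff.2 h1
    rw [arcEval, tp, map_sum]
    refine Finset.dvd_sum fun i _ => ?_
    rw [map_sum]
    refine Finset.dvd_sum fun j _ => ?_
    by_cases hc : cf G i j = 0
    · rw [hc, monomial_zero, map_zero]
      exact dvd_zero _
    · obtain ⟨h3, h4⟩ := hs i j hc
      rw [lmo_monomial, map_mul, map_mul, map_pow, map_pow, aeval_X, aeval_X, hx, hy, mul_pow,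
        mul_pow, ← pow_mul]
      refine Dvd.dvd.mul_left ?_ _
      have h5 : d + 1 ≤ (d + a - 1) / a * i + j := by
        have h6 := lmo_ceil_le ha d
        have h7 : (d + a - 1) / a * a ≤ (d + a - 1) / a * i := Nat.mul_le_mul_left _ h3
        have h8 : (d + a - 1) / a * a = a * ((d + a - 1) / a) := by ring
        omega
      have h6 : (PowerSeries.X ^ ((d + a - 1) / a * i) * x' ^ i * (PowerSeries.X ^ j * y' ^ j) :
          PowerSeries ℂ) = PowerSeries.X ^ ((d + a - 1) / a * i + j) * (x' ^ i * y' ^ j) := by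
        rw [pow_add]
        ring
      rw [h6]
      exact Dvd.dvd.mul_right (pow_dvd_pow _ h5) _
  have h3 := PowerSeries.X_pow_dvd_iff.1 h2
  rw [hit_iff]
  constructor
  · rintro ⟨-, h4⟩
    rw [← h4, h3 d (by omega)]
  · intro h4
    exact ⟨fun l hl => h3 l (by omega), by rw [h4, h3 d (by omega)]⟩

private theorem lmo_icons_zero {d N : ℕ} (i : Fin 2) (t : Test k) :
    ICons k {x : (Fin 2 × Fin N → ℂ) × t.E | ∀ l : Fin N, (l : ℕ) < d → x.1 (i, l) = 0} := by
  refine ICons.forall_fin fun l => ?_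
  by_cases h : (l : ℕ) < d
  · simp only [h, true_implies]
    exact ICons.eq (PFun.comp (f := fun φ : Fin 2 × Fin N → ℂ => φ (i, l)) (PFun.apply (i, l))
      PMap.fst) PFun.zero
  · simp only [h, false_implies]
    exact ICons.const _

private theorem lmo_icons_ord {N : ℕ} (i : Fin 2) (m : ℕ) (t : Test k) :
    ICons k {x : (Fin 2 × Fin N → ℂ) × t.E | ordc x.1 i m} := by
  refine ICons.and (lmo_icons_zero i t) ?_
  by_cases h : m < N
  · have e : {x : (Fin 2 × Fin N → ℂ) × t.E | ∃ h : m < N, x.1 (i, ⟨m, h⟩) ≠ 0} =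
        {x : (Fin 2 × Fin N → ℂ) × t.E | x.1 (i, ⟨m, h⟩) ≠ 0} := by
      ext x
      constructor
      · rintro ⟨_, h'⟩
        exact h'
      · intro h'
        exact (⟨h, h'⟩ : ∃ h : m < N, x.1 (i, ⟨m, h⟩) ≠ 0)
    rw [e]
    let q : Fin 2 × Fin N := (i, ⟨m, h⟩)
    exact ICons.ne (PFun.comp (f := fun φ : Fin 2 × Fin N → ℂ => φ q)
      (PFun.apply q) PMap.fst) PFun.zero
  · have e : {x : (Fin 2 × Fin N → ℂ) × t.E | ∃ h : m < N, x.1 (i, ⟨m, h⟩) ≠ 0} = ∅ := by
      ext x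
      simp [h]
    rw [e]
    exact ICons.empty

private noncomputable def lmoZ (t : Test k) : M k :=
  mo k {x : (Fin 2 × Fin 0 → ℂ) × t.E | x.2 ∈ t.W ∧ t.c x.2 = 0}

private noncomputable def lmoF (a : ℕ) (t : Test k) (d : ℕ) : M k :=
  ↑(Lu k ^ ((1 : ℤ) - ((d + a - 1) / a : ℕ))) * (lmoZ t - lmoZ t.zr)

/-- the decomposition -/
private theorem lmo_dec (hs : ∀ i j, cf G i j ≠ 0 → a ≤ i ∧ b ≤ j) (ha : 0 < a) (hb : 0 < b)
    {d : ℕ} (hd : 0 < d) (t : Test k) :
    loc G d t - loc G d t.zr = bey 0 1 G 1 0 a b d t + lmoF a t d := by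
  set m0 := (d + a - 1) / a with hm0
  have hm1 : 0 < m0 := (lmo_lt_ceil ha).2 (by omega)
  have hm2 : m0 ≤ d := by
    by_contra h
    push Not at h
    have h1 := (lmo_lt_ceil ha).1 h
    have : d ≤ a * d := Nat.le_mul_of_pos_left d ha
    omega
  have key : ∀ t : Test k, loc G d t = (∑ m ∈ (Finset.Icc 1 d).filter
      (fun m => ((0 + a) * 1 + b * 0) * m < 1 * d), ↑(Lu k ^ (-(((1 : ℕ) - 1 : ℤ) * m + 2 * d))) *
        dm 0 G 1 0 m d t) + ↑(Lu k ^ ((1 : ℤ) - m0)) * lmoZ t := by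
    intro t
    unfold lmoZ
    have hc : ICons k {x : (Fin 2 × Fin (d + 1) → ℂ) × t.E | x.2 ∈ t.W ∧ org x.1 = 0 ∧
        Hit (tp d G) d x.1 (t.c x.2)} := by
      refine (t.cW.mem PMap.snd).and (ICons.and ?_ (ICons.hit d _ PMap.fst (t.pf.comp PMap.snd)))
      have h1 : ∀ q : Fin 2 × Fin (d + 1), ICons k {x : (Fin 2 × Fin (d + 1) → ℂ) × t.E |
          x.1 q = 0} := fun q =>
        ICons.eq (PFun.comp (f := fun φ : Fin 2 × Fin (d + 1) → ℂ => φ q) (PFun.apply q)
          PMap.fst) PFun.zero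
      simp only [lmo_org]
      exact (h1 _).and (h1 _)
    have hD : ∀ m, ICons k {x : (Fin 2 × Fin (d + 1) → ℂ) × t.E | x.2 ∈ t.W ∧
        rgn 1 0 m x.1 ∧ Hit (X 0 ^ 0 * tp d G) d x.1 (t.c x.2)} := by
      intro m
      refine (t.cW.mem PMap.snd).and (ICons.and (ICons.and (lmo_icons_ord 0 m t) ?_)
        (ICons.hit d _ PMap.fst (t.pf.comp PMap.snd)))
      refine ICons.forall_fin fun l => ?_
      by_cases h : (l : ℕ) * 1 ≤ 0 * m
      · simp only [h, true_implies]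
        exact ICons.eq (PFun.comp (f := fun φ : Fin 2 × Fin (d + 1) → ℂ => φ (1, l))
          (PFun.apply (1, l)) PMap.fst) PFun.zero
      · simp only [h, false_implies]
        exact ICons.const _
    have e1 : {x : (Fin 2 × Fin (d + 1) → ℂ) × t.E | x ∈ {x : (Fin 2 × Fin (d + 1) → ℂ) × t.E |
        x.2 ∈ t.W ∧ org x.1 = 0 ∧ Hit (tp d G) d x.1 (t.c x.2)} ∧
        ¬ ∀ l : Fin (d + 1), (l : ℕ) < m0 → x.1 (0, l) = 0} =
        {x | ∃ m ∈ (Finset.Icc 1 d).filter (fun m => ((0 + a) * 1 + b * 0) * m < 1 * d),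
          x ∈ {x : (Fin 2 × Fin (d + 1) → ℂ) × t.E | x.2 ∈ t.W ∧
        rgn 1 0 m x.1 ∧ Hit (X 0 ^ 0 * tp d G) d x.1 (t.c x.2)}} := by
      ext ⟨φ, w⟩
      simp only [Set.mem_ofPred_eq, Finset.mem_filter, Finset.mem_Icc]
      constructor
      · rintro ⟨⟨h1, h2, h3⟩, h4⟩
        push Not at h4
        obtain ⟨l, hl, hl2⟩ := h4
        rw [lmo_org] at h2
        have hex : ∃ n : ℕ, ∃ h : n < d + 1, φ (0, ⟨n, h⟩) ≠ 0 := ⟨l, l.2, hl2⟩
        classical
        have hf := Nat.find_spec hex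
        have hle : Nat.find hex ≤ l := Nat.find_min' hex ⟨l.2, hl2⟩
        refine ⟨Nat.find hex, ⟨⟨?_, ?_⟩, ?_⟩, h1, ⟨⟨?_, hf⟩, ?_⟩, ?_⟩
        · by_contra h5
          have h6 : Nat.find hex = 0 := by omega
          obtain ⟨h7, h8⟩ := hf
          apply h8
          have : (⟨Nat.find hex, h7⟩ : Fin (d + 1)) = 0 := Fin.ext h6
          rw [this]
          exact h2.1
        · omega
        · have h5 := (lmo_lt_ceil ha).1 (lt_of_le_of_lt hle hl)
          simpa using h5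
        · intro l' hl'
          have := Nat.find_min hex hl'
          push Not at this
          exact this l'.2
        · intro l' hl'
          have : l' = 0 := Fin.ext (by simpa using hl')
          rw [this]
          exact h2.2
        · rw [pow_zero, one_mul]
          exact h3
      · rintro ⟨m, ⟨⟨h1, h2⟩, h3⟩, h4, ⟨⟨h5, h6⟩, h7⟩, h8⟩
        rw [pow_zero, one_mul] at h8
        refine ⟨⟨h4, (lmo_org φ).2 ⟨h5 0 (by simpa using Nat.pos_of_ne_zero (by omega)), h7 0 (by simp)⟩, h8⟩, ?_⟩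
        push Not
        obtain ⟨h9, h10⟩ := h6
        exact ⟨⟨m, h9⟩, (lmo_lt_ceil ha).2 (by simpa using h3), h10⟩
    have e2 : {x : (Fin 2 × Fin (d + 1) → ℂ) × t.E | x ∈ {x : (Fin 2 × Fin (d + 1) → ℂ) × t.E |
        x.2 ∈ t.W ∧ org x.1 = 0 ∧ Hit (tp d G) d x.1 (t.c x.2)} ∧
        ∀ l : Fin (d + 1), (l : ℕ) < m0 → x.1 (0, l) = 0} =
        {x : (Fin 2 × Fin (d + 1) → ℂ) × t.E |
      (∀ (i : Fin 2) (l : Fin (d + 1)), (l : ℕ) < (![m0, 1] : Fin 2 → ℕ) i → x.1 (i, l) = 0) ∧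
        (sft ![m0, 1] x.1, x.2) ∈ {x : (Fin 2 × Fin 0 → ℂ) × t.E | x.2 ∈ t.W ∧
          t.c x.2 = 0}} := by
      ext ⟨φ, w⟩
      simp only [Set.mem_ofPred_eq]
      constructor
      · rintro ⟨⟨h1, h2, h3⟩, h4⟩
        refine ⟨fun i l hl => ?_, h1, ?_⟩
        · fin_cases i
          · exact h4 l (by simpa using hl)
          · have : l = 0 := by
              apply Fin.ext
              simpa using hl
            subst this
            exact ((lmo_org φ).1 h2).2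
        · refine (lmo_far hs ha hb φ (fun l hl => ?_) (lmo_arc_cc h2 1) _).1 h3
          rw [coeff_arc, dif_pos (by omega)]
          exact h4 ⟨l, by omega⟩ hl
      · rintro ⟨h1, h2, h3⟩
        have h4 : org φ = 0 := (lmo_org φ).2 ⟨h1 0 0 (by simpa using hm1), h1 1 0 (by simp)⟩
        have h5 : ∀ l : Fin (d + 1), (l : ℕ) < m0 → φ (0, l) = 0 := fun l hl =>
          h1 0 l (by simpa using hl)
        refine ⟨⟨h2, h4, ?_⟩, h5⟩
        refine (lmo_far hs ha hb φ (fun l hl => ?_) (lmo_arc_cc h4 1) _).2 h3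
        rw [coeff_arc, dif_pos (by omega)]
        exact h5 ⟨l, by omega⟩ hl
    have hA : ICons k {x : (Fin 2 × Fin 0 → ℂ) × t.E | x.2 ∈ t.W ∧ t.c x.2 = 0} :=
      (t.cW.mem PMap.snd).and (ICons.eq (t.pf.comp PMap.snd) PFun.zero)
    have hsft := mo_sft (k := k) (K := 0) (N := d + 1) (e := ![m0, 1]) (by
      intro i
      fin_cases i
      · simp
        omega
      · simp) hA
    rw [loc, mo_split hc (lmo_icons_zero 0 t), e1, e2, hsft, mo_biUnion _ (fun m _ => hD m)]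
    · refine lmo_alg _ _ _ _ _ _ _ ?_ ?_
      · intro m
        congr 2
        push_cast
        ring
      · simp only [Matrix.cons_val_zero, Matrix.cons_val_one]
        rw [mul_comm, ← mul_assoc]
        congr 1
        rw [← Units.val_mul, ← zpow_natCast, ← zpow_add]
        congr 2
        have : ((d + 1 - m0 - 0 + (d + 1 - 1 - 0) : ℕ) : ℤ) = 2 * d + 1 - m0 := by
          omega
        rw [this]
        push_cast
        ring
    · intro m _ m' _ hmm
      rw [Set.disjoint_left]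
      rintro ⟨φ, w⟩ ⟨-, ⟨⟨h1, h2, h3⟩, -⟩, -⟩ ⟨-, ⟨⟨h4, h5, h6⟩, -⟩, -⟩
      simp only at h1 h2 h3 h4 h5 h6
      rcases lt_trichotomy m m' with h | h | h
      · exact h3 (h4 ⟨m, h2⟩ h)
      · exact hmm h
      · exact h6 (h1 ⟨m', h5⟩ h)
  rw [key t, key t.zr, bey, lmoF]
  have e : ∀ s : Finset ℕ, ∑ m ∈ s, (↑(Lu k ^ (-(((1 : ℕ) - 1 : ℤ) * m + 2 * d))) *
      (dm 0 G 1 0 m d t - dm 0 G 1 0 m d t.zr)) =
      ∑ m ∈ s, ↑(Lu k ^ (-(((1 : ℕ) - 1 : ℤ) * m + 2 * d))) * dm 0 G 1 0 m d t -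
      ∑ m ∈ s, ↑(Lu k ^ (-(((1 : ℕ) - 1 : ℤ) * m + 2 * d))) * dm 0 G 1 0 m d t.zr := by
    intro s
    exact lmo_alg2 _ _ _ _
  rw [e]
  ring

private theorem lmo_far_rat (ha : 0 < a) :
    RatF (Lu k) {(-1, a)} (fun t : Test k => PowerSeries.mk fun d => if d = 0 then 0 else
      lmoF a t d) := by
  refine lmo_per (fun (t : Test k) d => lmoF a t d) fun t n hn => ?_
  unfold lmoF
  rw [lmo_ceil ha n]
  have : (Lu k ^ ((1 : ℤ) - (((n + a - 1) / a + 1 : ℕ) : ℤ)) : (M k)ˣ) =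
      Lu k ^ (-1 : ℤ) * Lu k ^ ((1 : ℤ) - (((n + a - 1) / a : ℕ) : ℤ)) := by
    rw [← zpow_add]
    congr 1
    push_cast
    ring
  rw [this, Units.val_mul]
  ring

omit [Algebra k ℂ] in
private theorem lmo_vtx (hG : cf G a b ≠ 0) (hs : ∀ i j, cf G i j ≠ 0 → a ≤ i ∧ b ≤ j) :
    Vtx G 1 0 a b := by
  refine ⟨hG, fun i j h => ⟨?_, fun _ => (hs i j h).2⟩⟩
  simpa using (hs i j h).1

theorem loc_mono_one (hG : cf G a 1 ≠ 0) (hs : ∀ i j, cf G i j ≠ 0 → a ≤ i ∧ 1 ≤ j)
    (ha : 0 < a) : RatF (Lu k) {(-1, a)} (fun t : Test k => PowerSeries.mk fun d =>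
      if d = 0 then 0 else loc G d t - loc G d t.zr) := by
  refine (lmo_far_rat ha).congr fun t => ?_
  ext d
  rw [PowerSeries.coeff_mk, PowerSeries.coeff_mk]
  by_cases hd : d = 0
  · rw [if_pos hd, if_pos hd]
  · rw [if_neg hd, if_neg hd, lmo_dec hs ha Nat.one_pos (Nat.pos_of_ne_zero hd),
      bey_one Nat.one_pos (lmo_vtx hG hs), zero_add]

theorem loc_mono (hG : cf G a b ≠ 0) (hs : ∀ i j, cf G i j ≠ 0 → a ≤ i ∧ b ≤ j)
    (ha : 0 < a) (hb : 0 < b) :
    RatF (Lu k) {(-1, a), (-1, b)} (fun t : Test k => PowerSeries.mk fun d =>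
      if d = 0 then 0 else loc G d t - loc G d t.zr) := by
  have h1 := (cnd_rat (G := G) (N := 0) (ν := 1) (a := a) (p := 1) (q := 0) Nat.one_pos hb
    (by omega)).add (lmo_far_rat (k := k) ha)
  refine ((h1.mono ?_).of_eventually 1 fun t d hd => ?_)
  · rintro x hx
    simp only [Set.mem_union, Set.mem_insert_iff, Set.mem_singleton_iff] at hx ⊢
    rcases hx with (hx | hx) | hx
    · left
      rw [hx]
      simp
    · right
      exact hx
    · left
      exact hx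
  · have hd' : d ≠ 0 := by omega
    rw [map_add, PowerSeries.coeff_mk, PowerSeries.coeff_mk, PowerSeries.coeff_mk, if_neg hd',
      if_neg hd', lmo_dec hs ha hb (by omega), bey_div Nat.one_pos hb (lmo_vtx hG hs)
        (fun i j h => (hs i j h).2)]

end LMO

end Pool.Agent.H75.Mono
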