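import Pool.Agent.H75.Plc.DER

/-! # PLC, module SRN: nodes -/

set_option autoImplicit false

namespace Pool.Agent.H75.Mono

open MvPolynomial Pool.Agent.H39.MonoR

section SRN

variable {k : Type} [Field k] [CharZero k]

omit [CharZero k] in
private theorem node_chain {R : Type} [CommRing R] [Algebra k R] (D : Derivation k R R)
    (x : Fin 2 → R) (A : MvPolynomial (Fin 2) k) :
    D (aeval x A) = aeval x (pderiv 0 A) * D (x 0) + aeval x (pderiv 1 A) * D (x 1) := by
  induction A using MvPolynomial.induction_on with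
  | C a => simp
  | add p q hp hq =>
    simp only [map_add, hp, hq]
    ring
  | mul_X p i hp =>
    rw [map_mul, aeval_X, Derivation.leibniz, hp]
    fin_cases i
    · simp [Derivation.leibniz, pderiv_X]
      ring
    · simp [Derivation.leibniz, pderiv_X]
      ring

omit [CharZero k] in
private theorem node_c10 (B : PS k) (i j : ℕ) :
    cf (MvPowerSeries.X 0 * B) (i + 1) j = cf B i j := by
  unfold cf
  have h : ix (i + 1) j = Finsupp.single 0 1 + ix i j := by
    unfold ix
    rw [add_comm i 1, Finsupp.single_add, add_assoc]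
  rw [h, MvPowerSeries.X_def, MvPowerSeries.coeff_add_monomial_mul, one_mul]

omit [CharZero k] in
private theorem node_c01 (B : PS k) (i j : ℕ) :
    cf (MvPowerSeries.X 1 * B) i (j + 1) = cf B i j := by
  unfold cf
  have h : ix i (j + 1) = Finsupp.single 1 1 + ix i j := by
    unfold ix
    rw [add_comm j 1, Finsupp.single_add, add_left_comm]
  rw [h, MvPowerSeries.X_def, MvPowerSeries.coeff_add_monomial_mul, one_mul]

omit [CharZero k] in
private theorem node_d0 (B : PS k) (i j : ℕ) :
    cf (MvPowerSeries.pderiv k 0 B) i j = (i + 1 : k) * cf B (i + 1) j := by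
  unfold cf
  rw [MvPowerSeries.coeff_pderiv]
  have h : ix i j + Finsupp.single 0 1 = ix (i + 1) j := by
    unfold ix
    rw [Finsupp.single_add]
    abel
  have h2 : (ix i j) 0 = i := by simp [ix]
  rw [h, h2, mul_comm]

omit [CharZero k] in
private theorem node_d1 (B : PS k) (i j : ℕ) :
    cf (MvPowerSeries.pderiv k 1 B) i j = (j + 1 : k) * cf B i (j + 1) := by
  unfold cf
  rw [MvPowerSeries.coeff_pderiv]
  have h : ix i j + Finsupp.single 1 1 = ix i (j + 1) := by
    unfold ix
    rw [Finsupp.single_add]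
    abel
  have h2 : (ix i j) 1 = j := by simp [ix]
  rw [h, h2, mul_comm]

private theorem node_ix (m : Fin 2 →₀ ℕ) : m = ix (m 0) (m 1) := by
  ext i
  fin_cases i <;> simp [ix]

omit [CharZero k] in
private theorem node_u {G : PS k} (h1 : cf G 1 1 ≠ 0)
    (hs : ∀ i j, cf G i j ≠ 0 → 1 ≤ i ∧ 1 ≤ j) :
    ∃ u : PS k, G = MvPowerSeries.X 0 * (MvPowerSeries.X 1 * u) ∧
      MvPowerSeries.constantCoeff u ≠ 0 := by
  obtain ⟨u, hu⟩ : ∃ u : PS k, ∀ n, MvPowerSeries.coeff n u = MvPowerSeries.coeff (n + ix 1 1) G :=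
    ⟨fun n => MvPowerSeries.coeff (n + ix 1 1) G, fun n => rfl⟩
  refine ⟨u, ?_, ?_⟩
  · ext m
    rw [← mul_assoc, MvPowerSeries.X_def, MvPowerSeries.X_def, MvPowerSeries.monomial_mul_monomial,
      MvPowerSeries.coeff_monomial_mul]
    by_cases hm : Finsupp.single 0 1 + Finsupp.single 1 1 ≤ m
    · rw [if_pos hm, one_mul, one_mul, hu]
      have : m - (Finsupp.single 0 1 + Finsupp.single 1 1) + ix 1 1 = m := tsub_add_cancel_of_le hm
      rw [this]
    · rw [if_neg hm]
      by_contra hne
      apply hm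
      have h2 := hs (m 0) (m 1) (by unfold cf; rw [← node_ix m]; exact hne)
      intro i
      fin_cases i
      · simpa using h2.1
      · simpa using h2.2
  · rw [← MvPowerSeries.coeff_zero_eq_constantCoeff_apply, hu, zero_add]
    exact h1

/-- the action of the polynomials on the dual space -/
private noncomputable def nodeRho : MvPolynomial (Fin 2) k →ₐ[k]
    Module.End k (MvPolynomial (Fin 2) k →ₗ[k] k) :=
  AlgHom.ofLinearMap
    { toFun := fun p =>
        { toFun := fun v => v ∘ₗ (LinearMap.mulLeft k p)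
          map_add' := fun v w => by ext; rfl
          map_smul' := fun c v => by ext; rfl }
      map_add' := fun p q => by
        apply LinearMap.ext
        intro v
        apply LinearMap.ext
        intro A
        show v ((p + q) * A) = v (p * A) + v (q * A)
        rw [add_mul, map_add]
      map_smul' := fun c p => by
        apply LinearMap.ext
        intro v
        apply LinearMap.ext
        intro A
        show v ((c • p) * A) = c • v (p * A)
        rw [smul_mul_assoc, map_smul] }
    (by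
      apply LinearMap.ext
      intro v
      apply LinearMap.ext
      intro A
      show v (1 * A) = v A
      rw [one_mul])
    (fun p q => by
      apply LinearMap.ext
      intro v
      apply LinearMap.ext
      intro A
      show v ((p * q) * A) = v (q * (p * A))
      rw [← mul_assoc, mul_comm q p])

omit [CharZero k] in
private theorem nodeRho_apply (p : MvPolynomial (Fin 2) k) (v : MvPolynomial (Fin 2) k →ₗ[k] k)
    (A : MvPolynomial (Fin 2) k) : nodeRho p v A = v (p * A) := rfl

/-- the derivations on the dual space -/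
private noncomputable def nodeD (i : Fin 2) : Module.End k (MvPolynomial (Fin 2) k →ₗ[k] k) where
  toFun v := -(v ∘ₗ (pderiv i : Derivation k (MvPolynomial (Fin 2) k) _).toLinearMap)
  map_add' v w := by
    apply LinearMap.ext
    intro A
    show -(v (pderiv i A) + w (pderiv i A)) = -(v (pderiv i A)) + -(w (pderiv i A))
    ring
  map_smul' c v := by
    apply LinearMap.ext
    intro A
    show -(c • v (pderiv i A)) = c • -(v (pderiv i A))
    rw [smul_neg]

omit [CharZero k] in
private theorem nodeD_apply (i : Fin 2) (v : MvPolynomial (Fin 2) k →ₗ[k] k)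
    (A : MvPolynomial (Fin 2) k) : nodeD i v A = -(v (pderiv i A)) := rfl

/-- the functionals -/
private noncomputable def nodeE (x : Fin 2 → PS k) (W : PS k) (j : ℕ) :
    MvPolynomial (Fin 2) k →ₗ[k] k :=
  (MvPowerSeries.coeff (ix j j) : PS k →ₗ[k] k) ∘ₗ (LinearMap.mulRight k W) ∘ₗ
    (aeval x : MvPolynomial (Fin 2) k →ₐ[k] PS k).toLinearMap

omit [CharZero k] in
private theorem nodeE_apply (x : Fin 2 → PS k) (W : PS k) (j : ℕ) (A : MvPolynomial (Fin 2) k) :
    nodeE x W j A = cf (aeval x A * W) j j := rfl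

omit [CharZero k] in
/-- the main computation, in a ring with two derivations -/
private theorem node_main {R : Type} [CommRing R] [Algebra k R] (D1 D2 : Derivation k R R)
    {a y u v : R} (huv : u * v = 1) (j : ℕ) (hc : D1 (D2 y) = D2 (D1 y)) :
    (D1 a * D2 y - D2 a * D1 y) * v ^ (j + 1) = D1 (a * D2 y * v ^ (j + 1)) -
      D2 (a * D1 y * v ^ (j + 1)) + ((j : R) + 1) * (a * v ^ (j + 2) *
        (D2 y * D1 u - D1 y * D2 u)) := by
  have hD : ∀ D : Derivation k R R, D v = -(v ^ 2 * D u) := by
    intro D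
    have h1 : D (u * v) = 0 := by rw [huv, Derivation.map_one_eq_zero]
    rw [Derivation.leibniz, smul_eq_mul, smul_eq_mul] at h1
    have h2 : v * (u * D v + v * D u) = 0 := by rw [h1, mul_zero]
    linear_combination h2 - D v * huv
  have hP : ∀ D : Derivation k R R, D (v ^ (j + 1)) = -(((j : R) + 1) * v ^ (j + 2) * D u) := by
    intro D
    rw [Derivation.leibniz_pow, hD, Nat.add_sub_cancel, smul_eq_mul, nsmul_eq_mul]
    push_cast
    ring
  simp only [Derivation.leibniz, smul_eq_mul, hP, hc]
  ring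

omit [CharZero k] in
private theorem node_der {F : MvPolynomial (Fin 2) k} {x : Fin 2 → PS k} {J u v y : PS k}
    (hF : aeval x F = MvPowerSeries.X 0 * (MvPowerSeries.X 1 * u)) (huv : u * v = 1) (i : Fin 2)
    (hcm : MvPowerSeries.pderiv k 0 (MvPowerSeries.pderiv k 1 y) =
      MvPowerSeries.pderiv k 1 (MvPowerSeries.pderiv k 0 y))
    (hy : ∀ A : MvPolynomial (Fin 2) k,
      aeval x (pderiv i A) * J = MvPowerSeries.pderiv k 0 (aeval x A) *
        MvPowerSeries.pderiv k 1 y - MvPowerSeries.pderiv k 1 (aeval x A) *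
          MvPowerSeries.pderiv k 0 y) (j : ℕ) (A : MvPolynomial (Fin 2) k) :
    cf (aeval x (pderiv i A) * (J * v ^ (j + 1))) j j = ((j : k) + 1) *
      cf (aeval x (pderiv i F) * aeval x A * (J * v ^ (j + 1 + 1))) (j + 1) (j + 1) := by
  have hX0 : MvPowerSeries.pderiv k 0 (MvPowerSeries.X 0 * (MvPowerSeries.X 1 * u)) =
      MvPowerSeries.X 1 * u + MvPowerSeries.X 0 * (MvPowerSeries.X 1 *
        MvPowerSeries.pderiv k 0 u) := by
    rw [Derivation.leibniz, Derivation.leibniz, MvPowerSeries.pderiv_X_self,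
      MvPowerSeries.pderiv_X_of_ne (by decide)]
    simp only [smul_eq_mul]
    ring
  have hX1 : MvPowerSeries.pderiv k 1 (MvPowerSeries.X 0 * (MvPowerSeries.X 1 * u)) =
      MvPowerSeries.X 0 * u + MvPowerSeries.X 0 * (MvPowerSeries.X 1 *
        MvPowerSeries.pderiv k 1 u) := by
    rw [Derivation.leibniz, Derivation.leibniz, MvPowerSeries.pderiv_X_self,
      MvPowerSeries.pderiv_X_of_ne (by decide)]
    simp only [smul_eq_mul]
    ring
  have hyF := hy F
  have hyA := hy A
  rw [hF, hX0, hX1] at hyF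
  have hm := node_main (MvPowerSeries.pderiv k 0) (MvPowerSeries.pderiv k 1) (a := aeval x A)
    (y := y) huv j hcm
  generalize aeval x (pderiv i A) = Ai at *
  generalize aeval x (pderiv i F) = Fi at *
  generalize aeval x A = a at *
  generalize MvPowerSeries.pderiv k 0 u = u0 at *
  generalize MvPowerSeries.pderiv k 1 u = u1 at *
  have h1 : Ai * (J * v ^ (j + 1)) =
      MvPowerSeries.pderiv k 0 (a * MvPowerSeries.pderiv k 1 y * v ^ (j + 1)) -
      MvPowerSeries.pderiv k 1 (a * MvPowerSeries.pderiv k 0 y * v ^ (j + 1)) +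
      (((j : k) + 1) • (a * v ^ (j + 2) * (MvPowerSeries.pderiv k 1 y * u0 -
        MvPowerSeries.pderiv k 0 y * u1))) := by
    rw [← mul_assoc, hyA, hm, Algebra.smul_def, map_add, map_natCast, map_one]
  clear hm hyA
  generalize MvPowerSeries.pderiv k 0 y = y0 at *
  generalize MvPowerSeries.pderiv k 1 y = y1 at *
  have h2 : Fi * a * (J * v ^ (j + 1 + 1)) =
      MvPowerSeries.X 1 * (a * y1 * v ^ (j + 1)) -
      MvPowerSeries.X 0 * (a * y0 * v ^ (j + 1)) +
      MvPowerSeries.X 0 * (MvPowerSeries.X 1 * (a * v ^ (j + 2) * (y1 * u0 - y0 * u1))) := by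
    have h4 : Fi * a * (J * v ^ (j + 1 + 1)) = (Fi * J) * (a * v ^ (j + 2)) := by ring
    rw [h4, hyF]
    linear_combination (MvPowerSeries.X 1 * (a * y1 * v ^ (j + 1)) -
      MvPowerSeries.X 0 * (a * y0 * v ^ (j + 1))) * huv
  have hadd : ∀ (B C : PS k) (m n : ℕ), cf (B + C) m n = cf B m n + cf C m n := fun B C m n => by
    unfold cf; rw [map_add]
  have hsub : ∀ (B C : PS k) (m n : ℕ), cf (B - C) m n = cf B m n - cf C m n := fun B C m n => by
    unfold cf; rw [map_sub]
  have hsmul : ∀ (c : k) (C : PS k) (m n : ℕ), cf (c • C) m n = c * cf C m n := fun c C m n => by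
    unfold cf; rw [map_smul, smul_eq_mul]
  rw [h1, h2, hadd, hsub, hsmul, node_d0, node_d1, hadd, hsub, node_c10, node_c01, node_c10,
    node_c01]
  ring

omit [CharZero k] in
private theorem node_cf0 (B : PS k) : cf B 0 0 = MvPowerSeries.constantCoeff B := by
  unfold cf ix
  rw [Finsupp.single_zero, Finsupp.single_zero, add_zero,
    MvPowerSeries.coeff_zero_eq_constantCoeff_apply]

omit [CharZero k] in
private theorem node_ev {P : Fin 2 → k} {x : Fin 2 → PS k}
    (hx : ∀ i, MvPowerSeries.constantCoeff (x i) = P i) (A : MvPolynomial (Fin 2) k) :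
    MvPowerSeries.constantCoeff (aeval x A) = eval P A := by
  have h4 : (MvPowerSeries.constantCoeff : PS k →+* k).comp
      ((aeval x : MvPolynomial (Fin 2) k →ₐ[k] PS k) : MvPolynomial (Fin 2) k →+* PS k) =
      eval P := by
    apply MvPolynomial.ringHom_ext
    · intro a
      simp [MvPowerSeries.algebraMap_apply]
    · intro l
      simp [hx]
  exact congrArg (fun g => g A) h4

private theorem SRs.node' {F : MvPolynomial (Fin 2) k} {P : Fin 2 → k}
    (hP : ∀ i, eval P (pderiv i F) = 0) {x : Fin 2 → PS k} {J u : PS k}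
    (hx : ∀ i, MvPowerSeries.constantCoeff (x i) = P i)
    (hF : aeval x F = MvPowerSeries.X 0 * (MvPowerSeries.X 1 * u))
    (hu : MvPowerSeries.constantCoeff u ≠ 0)
    (hcm : ∀ G : PS k, MvPowerSeries.pderiv k 0 (MvPowerSeries.pderiv k 1 G) =
      MvPowerSeries.pderiv k 1 (MvPowerSeries.pderiv k 0 G))
    (hJ : MvPowerSeries.pderiv k 0 (x 0) * MvPowerSeries.pderiv k 1 (x 1) -
      MvPowerSeries.pderiv k 1 (x 0) * MvPowerSeries.pderiv k 0 (x 1) = J)
    (hJ0 : MvPowerSeries.constantCoeff J ≠ 0) : SRs k F 1 := by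
  obtain ⟨v, huv⟩ : ∃ v : PS k, u * v = 1 := ⟨u⁻¹, MvPowerSeries.mul_inv_cancel u hu⟩
  -- the vector fields
  obtain ⟨y, hy⟩ : ∃ y : Fin 2 → PS k, ∀ (i : Fin 2) (A : MvPolynomial (Fin 2) k),
      aeval x (pderiv i A) * J = MvPowerSeries.pderiv k 0 (aeval x A) *
        MvPowerSeries.pderiv k 1 (y i) - MvPowerSeries.pderiv k 1 (aeval x A) *
          MvPowerSeries.pderiv k 0 (y i) := by
    refine ⟨![x 1, -(x 0)], fun i A => ?_⟩
    rw [node_chain (MvPowerSeries.pderiv k 0), node_chain (MvPowerSeries.pderiv k 1), ← hJ]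
    fin_cases i
    · show aeval x (pderiv 0 A) * _ = _ * MvPowerSeries.pderiv k 1 (x 1) -
        _ * MvPowerSeries.pderiv k 0 (x 1)
      ring
    · show aeval x (pderiv 1 A) * _ = _ * MvPowerSeries.pderiv k 1 (-(x 0)) -
        _ * MvPowerSeries.pderiv k 0 (-(x 0))
      rw [map_neg, map_neg]
      ring
  refine ⟨{ V := MvPolynomial (Fin 2) k →ₗ[k] k
            ρ := nodeRho
            D := nodeD
            leib := fun i p w => ?_
            e := fun j => nodeE x (J * v ^ (j + 1)) j
            mul := fun j => ?_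
            der := fun i j => ?_
            ne := ?_ }, ?_, fun i => ?_⟩
  · apply LinearMap.ext
    intro A
    rw [LinearMap.add_apply, nodeD_apply, nodeRho_apply, nodeRho_apply, nodeRho_apply, nodeD_apply,
      Derivation.leibniz, map_add, smul_eq_mul, smul_eq_mul, mul_comm A]
    ring
  · apply LinearMap.ext
    intro A
    rw [nodeRho_apply, nodeE_apply, nodeE_apply, map_mul, hF]
    have h1 : MvPowerSeries.X 0 * (MvPowerSeries.X 1 * u) * aeval x A * (J * v ^ (j + 1 + 1)) =
        MvPowerSeries.X 0 * (MvPowerSeries.X 1 * (aeval x A * (J * v ^ (j + 1)))) := by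
      generalize aeval x A = a
      linear_combination (MvPowerSeries.X 0 * (MvPowerSeries.X 1 * (a * (J * v ^ (j + 1))))) * huv
    rw [h1, node_c10, node_c01]
  · apply LinearMap.ext
    intro A
    rw [nodeD_apply, LinearMap.smul_apply, nodeRho_apply, nodeE_apply, nodeE_apply, map_mul,
      node_der hF huv i (hcm (y i)) (hy i), smul_eq_mul]
    push_cast
    ring
  · intro h
    have h1 := congrArg (fun w => w 1) h
    simp only [LinearMap.zero_apply] at h1
    rw [nodeE_apply, map_one, one_mul, node_cf0, map_mul, map_pow] at h1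
    have h3 : MvPowerSeries.constantCoeff v ≠ 0 := by
      intro h4
      have h5 := congrArg MvPowerSeries.constantCoeff huv
      rw [map_mul, h4, mul_zero, map_one] at h5
      exact zero_ne_one h5
    exact mul_ne_zero hJ0 (pow_ne_zero _ h3) h1
  · apply LinearMap.ext
    intro A
    show nodeE x (J * v ^ (0 + 1)) 0 (F * A) = 0
    rw [nodeE_apply, map_mul, hF, node_cf0, map_mul, map_mul, map_mul, MvPowerSeries.constantCoeff_X,
      zero_mul, zero_mul, zero_mul]
  · apply LinearMap.ext
    intro A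
    show nodeE x (J * v ^ (0 + 1)) 0 (pderiv i F * A) = 0
    rw [nodeE_apply, map_mul, node_cf0, map_mul, map_mul, node_ev hx, hP i, zero_mul, zero_mul]

theorem SRs.node {F : MvPolynomial (Fin 2) k} {P : Fin 2 → k}
    (hP : ∀ i, eval P (pderiv i F) = 0) {G : PS k} (hC : Cht F P 0 1 G) (h1 : cf G 1 1 ≠ 0)
    (hs : ∀ i j, cf G i j ≠ 0 → 1 ≤ i ∧ 1 ≤ j) : SRs k F 1 := by
  obtain ⟨x, j, hx, hF, hJ, hj⟩ := hC
  obtain ⟨u, hG, hu⟩ := node_u h1 hs
  rw [pow_zero, one_mul, hG] at hF
  rw [Nat.sub_self, pow_zero, one_mul] at hJ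
  exact SRs.node' hP hx hF hu pderiv_comm hJ hj

end SRN

end Pool.Agent.H75.Mono
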