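import Pool.Agent.H75.Plc.BEY
import Pool.Agent.H75.Plc.LAU
import Pool.Agent.H75.Plc.LE1
import Pool.Agent.H75.Plc.LE2
import Pool.Agent.H75.Plc.LMO
import Pool.Agent.H75.Plc.LIN
import Pool.Agent.H75.Plc.SRN

/-! # PLC: rationality at a singular point (assembly) -/

set_option autoImplicit false

namespace Pool.Agent.H75.Mono

open MvPolynomial Pool.Agent.H39.MonoR

section FST

variable {k : Type} [Field k] [Algebra k ℂ] [IsAlgClosed k]

open Classical in
theorem loc_rat_edge {F : MvPolynomial (Fin 2) k} {P : Fin 2 → k}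
    (hP : ∀ i, eval P (pderiv i F) = 0) {G : PS k} (hC : Cht F P 0 1 G) {a b p q E : ℕ}
    (hE : Edge G a b p q E) (hSR : SRs k F (((p + q : ℕ) : ℚ) / (a * p + b * q : ℕ))) :
    ∃ S : Finset (ℤ × ℕ), Gds F S ∧ RatF (Lu k) (S : Set (ℤ × ℕ))
      (fun t : Test k => PowerSeries.mk fun d => if d = 0 then 0 else
        loc G d t - loc G d t.zr) := by
  have := charZero k
  have hp := hE.p0
  have hq := hE.q0
  have hE0 := hE.e0
  have heb := hE.eb
  have hpE : 0 < p * E := Nat.mul_pos hp hE0
  have hb : 0 < b := by omega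
  obtain ⟨r, s, hrs⟩ := exists_rs hE.cop hp hq
  have hNv : 0 < a * p + b * q := by
    have : 0 < b * q := Nat.mul_pos hb hq
    omega
  -- the children
  have hroot : ∀ μ ∈ rts (edp G a b p q E), μ ≠ 0 := by
    intro μ hμ h0
    subst h0
    have : (edp G a b p q E).IsRoot 0 := by
      have h1 : (0 : k) ∈ (edp G a b p q E).roots := by simpa [rts] using hμ
      exact Polynomial.isRoot_of_mem_roots h1
    exact hE.edp_zero this
  have hchild : ∀ μ, ∃ S : Finset (ℤ × ℕ), μ ∈ rts (edp G a b p q E) → (Gds F S ∧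
      RatF (Lu k) (S : Set (ℤ × ℕ)) (fun t : Test k => PowerSeries.mk fun d =>
        bey (a * p + b * q) (p + q) (chd 0 p q (a * p + b * q) r s μ G) 1 0 0
          ((edp G a b p q E).rootMultiplicity μ) d t)) := by
    intro μ
    by_cases hμ : μ ∈ rts (edp G a b p q E)
    swap
    · exact ⟨∅, fun h => absurd h hμ⟩
    have hμ0 := hroot μ hμ
    obtain ⟨S, hS⟩ := bey_rat hP ((edp G a b p q E).rootMultiplicity μ) (a * p + b * q) (p + q) 1
      0 0 (chd 0 p q (a * p + b * q) r s μ G) Nat.one_pos (by omega) (by omega) (by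
        right
        have h1 := hE.mult_le μ
        set e := (edp G a b p q E).rootMultiplicity μ
        have h2 : q * e ≤ b * q := by
          have : q * e ≤ q * (p * e) := Nat.mul_le_mul_left _ (Nat.le_mul_of_pos_left _ hp)
          have h3 : q * (p * e) ≤ q * b := Nat.mul_le_mul_left _ h1
          rw [mul_comm b q]
          omega
        have h6 : b ≤ b * q := Nat.le_mul_of_pos_right _ hq
        have h8 : (p + q) * e = p * e + q * e := by ring
        rw [h8]
        omega)
      (vtx_chd hE hrs hμ0 0) (by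
        have h1 := hC.chd Nat.one_pos hp hq hrs hμ0 hE.wt
        have e1 : 0 * p + (a * p + b * q) = a * p + b * q := by ring
        have e2 : 1 * p + q = p + q := by ring
        rwa [e1, e2] at h1) (by
        have e4 : (p + q) * 1 + 0 = p + q := by ring
        have e5 : (a * p + b * q + 0) * 1 + (edp G a b p q E).rootMultiplicity μ * 0 =
          a * p + b * q := by ring
        rw [e4, e5]
        exact hSR)
    exact ⟨S, fun _ => hS⟩
  choose Sc hSc using hchild
  -- both sides
  obtain ⟨S1, hS1, hR1⟩ := bey_rat hP (b - p * E) 0 1 p q (a + q * E) G hp Nat.one_pos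
    (by have := Nat.mul_pos hq hE0; omega) (Or.inl rfl) hE.vtx hC (by
      have e3 : (0 + (a + q * E)) * p + (b - p * E) * q = a * p + b * q := by
        obtain ⟨c, hc⟩ : ∃ c, b = p * E + c := ⟨b - p * E, by omega⟩
        have : b - p * E = c := by omega
        rw [this, hc]
        ring
      rw [e3, one_mul]
      exact hSR)
  obtain ⟨S2, hS2, hR2⟩ := bey_rat hP a 0 1 q p b (swp G) hq Nat.one_pos
    (by omega) (Or.inl rfl) hE.vtx_swp hC.swp (by
      have e3 : (0 + b) * q + a * p = a * p + b * q := by ring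
      have e4 : 1 * q + p = p + q := by ring
      rw [e3, e4]
      exact hSR)
  refine ⟨(({(-((p + q : ℕ) : ℤ), a * p + b * q)} ∪
      (rts (edp G a b p q E)).biUnion Sc) ∪ S1) ∪ S2, ?_, ?_⟩
  · refine Gds.union (Gds.union ((gds_pair (by omega) hNv hSR).union ?_) hS1) hS2
    intro x hx
    obtain ⟨μ, hμ, hx⟩ := Finset.mem_biUnion.1 hx
    exact (hSc μ hμ).1 x hx
  · have h1 := tpw_rat hE
    have h2 : RatF (Lu k) (((rts (edp G a b p q E)).biUnion Sc : Finset (ℤ × ℕ)) :
        Set (ℤ × ℕ)) (fun t : Test k => ∑ μ ∈ rts (edp G a b p q E),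
          PowerSeries.mk fun d => bey (a * p + b * q) (p + q)
            (chd 0 p q (a * p + b * q) r s μ G) 1 0 0
            ((edp G a b p q E).rootMultiplicity μ) d t) := by
      refine RatF.fsum _ fun μ hμ => ((hSc μ hμ).2).mono ?_
      intro x hx
      exact Finset.mem_coe.2 (Finset.mem_biUnion.2 ⟨μ, hμ, Finset.mem_coe.1 hx⟩)
    have h3 := ((h1.add h2).add hR1).add hR2
    have h4 := RatF.of_eventually h3 1 (G := fun t : Test k => PowerSeries.mk fun d =>
      if d = 0 then 0 else loc G d t - loc G d t.zr) ?_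
    · refine h4.mono ?_
      intro x hx
      simp only [Finset.coe_union, Finset.coe_singleton, Set.mem_union,
        Set.mem_singleton_iff] at hx ⊢
      tauto
    · intro t d hd
      have hd' : d ≠ 0 := by omega
      rw [map_add, map_add, map_add, map_sum]
      simp only [PowerSeries.coeff_mk]
      rw [if_neg hd', loc_edge hE hrs (by omega)]

theorem srs_edge_first {F : MvPolynomial (Fin 2) k} {P : Fin 2 → k}
    (hP : ∀ i, eval P (pderiv i F) = 0) {G : PS k} (hC : Cht F P 0 1 G) {a b p q E : ℕ}
    (hE : Edge G a b p q E) (hq : 2 ≤ q) (hbad : ¬ (p = 1 ∧ E = b ∧ ∃ μ : k,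
      edp G a b p q E = Polynomial.C (cf G a b) * (Polynomial.X - Polynomial.C μ) ^ b)) :
    SRs k F (((p + q : ℕ) : ℚ) / (a * p + b * q : ℕ)) := by
  have := charZero k
  have hq0 : (0 : ℚ) < q := by
    have := hE.q0
    exact_mod_cast this
  have key : ((1 : ℕ) - ((1 * p + q : ℕ) : ℚ) / ((0 + a) * p + b * q : ℕ) * (0 + a : ℕ)) / q
      < 1 := by
    rw [div_lt_one hq0]
    have h1 : (0 : ℚ) ≤ ((1 * p + q : ℕ) : ℚ) / ((0 + a) * p + b * q : ℕ) * (0 + a : ℕ) := by
      positivity
    have h2 : (2 : ℚ) ≤ q := by exact_mod_cast hq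
    push_cast at h1 ⊢
    linarith
  have h3 := SRs.edge hP hC Nat.one_pos hE rfl (by
    by_cases h1 : p = 1 ∧ E = b
    · right
      have h2 := hE.card_ne_one hbad h1.1 h1.2
      refine ⟨h1.1, h1.2, h2, ?_⟩
      have h3 : (2 : ℚ) ≤ (rts (edp G a b p q E)).card := by exact_mod_cast h2
      linarith
    · left
      have h2 := hE.card_pos
      have h3 : (1 : ℚ) ≤ (rts (edp G a b p q E)).card := by exact_mod_cast h2
      exact ⟨h1, by linarith⟩)
  have e3 : (0 + a) * p + b * q = a * p + b * q := by ring
  have e4 : 1 * p + q = p + q := by ring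
  rwa [e3, e4] at h3

open Classical in
theorem loc_rat {F : MvPolynomial (Fin 2) k} {P : Fin 2 → k}
    (hP : ∀ i, eval P (pderiv i F) = 0) {G : PS k} (hC : Cht F P 0 1 G) {n : ℕ} (hn : 2 ≤ n)
    (h : ∀ i j, cf G i j ≠ 0 → n ≤ i + j) (h' : ∃ i j, i + j = n ∧ cf G i j ≠ 0) :
    ∃ S : Finset (ℤ × ℕ), Gds F S ∧ RatF (Lu k) (S : Set (ℤ × ℕ))
      (fun t : Test k => PowerSeries.mk fun d => if d = 0 then 0 else
        loc G d t - loc G d t.zr) := by
  have := charZero k
  obtain ⟨a, ha, hJ, hcone⟩ := exists_cone (by omega) h h'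
  have hC1 := hC.aut ha hJ
  have hl1 := loc_aut ha hJ G
  set G1 := MvPowerSeries.subst a G with hG1
  suffices hsuf : ∃ S : Finset (ℤ × ℕ), Gds F S ∧ RatF (Lu k) (S : Set (ℤ × ℕ))
      (fun t : Test k => PowerSeries.mk fun d => if d = 0 then 0 else
        loc G1 d t - loc G1 d t.zr) by
    obtain ⟨S, h1, h2⟩ := hsuf
    refine ⟨S, h1, h2.congr fun t => ?_⟩
    simp only [hl1]
  clear_value G1
  rcases hcone with ⟨E, hE, hR⟩ | ⟨m, b, hmb, hb, hcf, honly⟩
  · -- at least three tangent directions
    refine loc_rat_edge hP hC1 hE ?_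
    have h3 := SRs.edge hP hC1 Nat.one_pos hE rfl (by
      have hn0 : (0 : ℚ) < n := by
        have : 0 < n := by omega
        exact_mod_cast this
      by_cases h1 : E = n
      · right
        have h2 : 3 ≤ (rts (edp G1 0 n 1 1 E)).card := by
          rcases hR with hR | hR
          · omega
          · exact hR
        have h4 : (3 : ℚ) ≤ (rts (edp G1 0 n 1 1 E)).card := by exact_mod_cast h2
        refine ⟨rfl, h1, by omega, ?_⟩
        push_cast
        simp only [add_zero, mul_zero, sub_zero, div_one]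
        linarith
      · left
        have h2 : 2 ≤ (rts (edp G1 0 n 1 1 E)).card := by
          rcases hR with hR | hR
          · exact hR.2
          · omega
        have h4 : (2 : ℚ) ≤ (rts (edp G1 0 n 1 1 E)).card := by exact_mod_cast h2
        refine ⟨fun h5 => h1 h5.2, ?_⟩
        push_cast
        simp only [add_zero, mul_zero, sub_zero, div_one]
        linarith)
    have e3 : (0 + 0) * 1 + n * 1 = 0 * 1 + n * 1 := by ring
    have e4 : 1 * 1 + 1 = 1 + 1 := by ring
    rwa [e3, e4] at h3
  · -- the tangent cone is a monomial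
    have hV1 : Vtx G1 1 1 m b := ⟨hcf, fun i j hij => ⟨by
      have := (honly i j hij).1
      omega, fun h1 => by
      have := (honly i j hij).2 (by omega)
      omega⟩⟩
    obtain ⟨h2, hh2, hgood2⟩ := exists_good Nat.one_pos hb hV1
    have hh20 : PowerSeries.constantCoeff h2 = 0 := by
      by_contra h0
      have := hh2 0 (by rwa [PowerSeries.coeff_zero_eq_constantCoeff_apply])
      omega
    have hC2 := hC1.shr hh20
    have hl2 := loc_shr hh20 G1
    have hw2 := shr_wt Nat.one_pos hh2 (G := G1) (c := n) (fun i j hij => by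
      have := (honly i j hij).1
      omega)
    set G2 := shr h2 G1 with hG2
    suffices hsuf : ∃ S : Finset (ℤ × ℕ), Gds F S ∧ RatF (Lu k) (S : Set (ℤ × ℕ))
        (fun t : Test k => PowerSeries.mk fun d => if d = 0 then 0 else
          loc G2 d t - loc G2 d t.zr) by
      obtain ⟨S, h1, h2⟩ := hsuf
      refine ⟨S, h1, h2.congr fun t => ?_⟩
      simp only [hl2]
    have hcf2 : cf G2 m b ≠ 0 := by
      rw [hw2.2 m b (by omega)]
      exact hcf
    have honly2 : ∀ i j, cf G2 i j ≠ 0 → n ≤ i + j ∧ (i + j = n → i = m ∧ j = b) := by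
      intro i j hij
      refine ⟨by have := hw2.1 i j hij; omega, fun h3 => ?_⟩
      rw [hw2.2 i j (by omega)] at hij
      exact (honly i j hij).2 h3
    clear_value G2
    rcases hgood2 with hD2 | ⟨p', q', E, hE, hκ, hbad⟩
    swap
    · exact loc_rat_edge hP hC2 hE (srs_edge_first hP hC2 hE (by have := hE.p0; omega) hbad)
    -- `Y^b` divides `G2`
    have hSb : 2 ≤ b → SRs k F ((1 : ℚ) / b) := fun hb2 => by
      obtain ⟨P', Q', h3, h4, h5⟩ := hC2.exists_irred hb hcf2 hD2
      exact SRs.of_pow h3 h4 h5 hb2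
    rcases Nat.eq_zero_or_pos m with hm | hm
    · subst hm
      refine ⟨{(-((1 : ℕ) : ℤ), b)}, gds_pair Nat.one_pos hb (by
        simpa using hSb (by omega)), ?_⟩
      have h3 := loc_mono_zero (k := k) hcf2 hD2 hb
      refine h3.mono ?_
      intro x hx
      simpa using hx
    · -- two tangent directions
      have hcf3 : ∀ i j, cf (swp G2) i j = cf G2 j i := cf_swp G2
      have hC3 := hC2.swp
      have hl3 := loc_swp G2
      set G3 := swp G2 with hG3
      have hV3 : Vtx G3 1 1 b m := ⟨by rwa [hcf3], fun i j hij => by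
        rw [hcf3] at hij
        have h3 := (honly2 j i hij).1
        exact ⟨by omega, fun h4 => by
          have := (honly2 j i hij).2 (by omega)
          omega⟩⟩
      obtain ⟨h4, hh4, hgood4⟩ := exists_good Nat.one_pos hm hV3
      have hh40 : PowerSeries.constantCoeff h4 = 0 := by
        by_contra h0
        have := hh4 0 (by rwa [PowerSeries.coeff_zero_eq_constantCoeff_apply])
        omega
      have hC4 := hC3.shr hh40
      have hl4 := loc_shr hh40 G3
      have hw4 := shr_wt Nat.one_pos hh4 (G := G3) (c := n) (fun i j hij => by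
        rw [hcf3] at hij
        have := (honly2 j i hij).1
        omega)
      have hleft := fun i j => shr_left (G := G3) (n := b) hh40 (fun i j hij => by
        rw [hcf3] at hij
        exact hD2 j i hij) i j
      set G4 := shr h4 G3 with hG4
      have hl : ∀ d (t : Test k), loc G4 d t = loc G2 d t := fun d t => by rw [hl4, hl3]
      suffices hsuf : ∃ S : Finset (ℤ × ℕ), Gds F S ∧ RatF (Lu k) (S : Set (ℤ × ℕ))
          (fun t : Test k => PowerSeries.mk fun d => if d = 0 then 0 else
            loc G4 d t - loc G4 d t.zr) by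
        obtain ⟨S, h1, h2⟩ := hsuf
        refine ⟨S, h1, h2.congr fun t => ?_⟩
        simp only [hl]
      have hcf4 : cf G4 b m ≠ 0 := by
        rw [hw4.2 b m (by omega), hcf3]
        exact hcf2
      rcases hgood4 with hD4 | ⟨p', q', E, hE, hκ, hbad⟩
      swap
      · exact loc_rat_edge hP hC4 hE (srs_edge_first hP hC4 hE (by have := hE.p0; omega) hbad)
      have hs4 : ∀ i j, cf G4 i j ≠ 0 → b ≤ i ∧ m ≤ j := fun i j hij =>
        ⟨hleft i j hij, hD4 i j hij⟩
      have hSm : 2 ≤ m → SRs k F ((1 : ℚ) / m) := fun hm2 => by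
        obtain ⟨P', Q', h3, h4, h5⟩ := hC4.exists_irred hm hcf4 hD4
        exact SRs.of_pow h3 h4 h5 hm2
      rcases Nat.lt_or_ge m 2 with hm2 | hm2
      · have : m = 1 := by omega
        subst this
        have h5 := loc_mono_one (k := k) hcf4 hs4 hb
        refine ⟨{(-((1 : ℕ) : ℤ), b)}, gds_pair Nat.one_pos hb ?_, ?_⟩
        · rcases Nat.lt_or_ge b 2 with hb2 | hb2
          · have : b = 1 := by omega
            subst this
            have := SRs.node hP hC4 hcf4 hs4
            simpa using this
          · simpa using hSb hb2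
        · refine h5.mono ?_
          intro x hx
          simpa using hx
      · rcases Nat.lt_or_ge b 2 with hb2 | hb2
        · have : b = 1 := by omega
          subst this
          have hcf5 : ∀ i j, cf (swp G4) i j = cf G4 j i := cf_swp G4
          have h5 := loc_mono_one (k := k) (G := swp G4) (a := m) (by rwa [hcf5])
            (fun i j hij => by
              rw [hcf5] at hij
              have := hs4 j i hij
              exact ⟨this.2, this.1⟩) hm
          refine ⟨{(-((1 : ℕ) : ℤ), m)}, gds_pair Nat.one_pos hm (by simpa using hSm hm2), ?_⟩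
          refine (h5.mono ?_).congr fun t => ?_
          · intro x hx
            simpa using hx
          · simp only [loc_swp]
        · refine ⟨{(-((1 : ℕ) : ℤ), b)} ∪ {(-((1 : ℕ) : ℤ), m)},
            (gds_pair Nat.one_pos hb (by simpa using hSb hb2)).union
              (gds_pair Nat.one_pos hm (by simpa using hSm hm2)), ?_⟩
          refine (loc_mono (k := k) hcf4 hs4 hb hm).mono ?_
          intro x hx
          simpa using hx

end FST

end Pool.Agent.H75.Mono
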