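import Pool.Agent.H75.Plc.DER

/-! # PLC, module GAU: powers with rational exponents -/

set_option autoImplicit false
set_option linter.unusedSectionVars false

namespace Pool.Agent.H75.Mono

open MvPolynomial Pool.Agent.H39.MonoR

section GAU

variable {k : Type} [Field k] {K : Type} [Field K] [CharZero K] [Algebra k K]

/-- coefficients of the solution of `V' = c V`, `V(0) = 1` -/
noncomputable def gauCoeff (c : PowerSeries K) : ℕ → K
  | 0 => 1
  | n + 1 => (∑ i : Fin (n + 1), PowerSeries.coeff (n - i) c * gauCoeff c i) / ((n : K) + 1)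
decreasing_by exact i.isLt

theorem gau_ode (c : PowerSeries K) : ∃ V : PowerSeries K, PowerSeries.constantCoeff V = 1 ∧
    PowerSeries.derivative K V = c * V := by
  refine ⟨PowerSeries.mk (gauCoeff c), ?_, ?_⟩
  · rw [← PowerSeries.coeff_zero_eq_constantCoeff_apply, PowerSeries.coeff_mk, gauCoeff]
  · ext n
    rw [PowerSeries.coeff_derivative, PowerSeries.coeff_mk, gauCoeff, PowerSeries.coeff_mul,
      ← Finset.Nat.sum_antidiagonal_swap, Finset.Nat.sum_antidiagonal_eq_sum_range_succ_mk,
      Finset.sum_range]
    have hn : ((n : K) + 1) ≠ 0 := by exact_mod_cast n.succ_ne_zero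
    rw [div_mul_cancel₀ _ hn]
    refine Finset.sum_congr rfl fun i _ => ?_
    simp only [Prod.swap_prod_mk, PowerSeries.coeff_mk]

/-- uniqueness for `g U' = h U`, `U(0) = 0` -/
theorem gau_uniq {g h U : PowerSeries K} (hg : PowerSeries.constantCoeff g ≠ 0)
    (hU : PowerSeries.constantCoeff U = 0) (he : g * PowerSeries.derivative K U = h * U) :
    U = 0 := by
  have key : ∀ n : ℕ, PowerSeries.X ^ (n + 1) ∣ U := by
    intro n
    induction n with
    | zero => simpa [PowerSeries.X_dvd_iff] using hU
    | succ n ih =>
      obtain ⟨w, hw⟩ := ih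
      have h1 : PowerSeries.X ^ n * (g * (((n : PowerSeries K) + 1) * w)) =
          PowerSeries.X ^ n * (PowerSeries.X * (h * w - g * PowerSeries.derivative K w)) := by
        have h2 : PowerSeries.derivative K U = PowerSeries.X ^ (n + 1) *
            PowerSeries.derivative K w + w * (((n : PowerSeries K) + 1) * PowerSeries.X ^ n) := by
          rw [hw, Derivation.leibniz, Derivation.leibniz_pow]
          simp only [smul_eq_mul, nsmul_eq_mul, Nat.add_sub_cancel, PowerSeries.derivative_X]
          push_cast
          ring
        rw [h2, hw] at he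
        linear_combination he
      have h3 := mul_left_cancel₀ (pow_ne_zero n PowerSeries.X_ne_zero) h1
      have h4 : PowerSeries.constantCoeff (g * (((n : PowerSeries K) + 1) * w)) = 0 := by
        rw [h3, map_mul, PowerSeries.constantCoeff_X, zero_mul]
      rw [map_mul, map_mul, map_add, map_one, map_natCast] at h4
      have hn : ((n : K) + 1) ≠ 0 := by exact_mod_cast n.succ_ne_zero
      have h5 : PowerSeries.constantCoeff w = 0 := by
        rcases mul_eq_zero.mp h4 with h | h
        · exact absurd h hg
        · rcases mul_eq_zero.mp h with h | h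
          · exact absurd h hn
          · exact h
      obtain ⟨w', hw'⟩ := PowerSeries.X_dvd_iff.mpr h5
      exact ⟨w', by rw [hw, hw']; ring⟩
  ext n
  rw [map_zero]
  exact (PowerSeries.X_pow_dvd_iff.mp (key n)) n (Nat.lt_succ_self n)

theorem gau_cc (δ : Derivation k K K) (f : PowerSeries K) :
    PowerSeries.constantCoeff (cdr δ f) = δ (PowerSeries.constantCoeff f) := by
  rw [← PowerSeries.coeff_zero_eq_constantCoeff_apply, coeff_cdr,
    PowerSeries.coeff_zero_eq_constantCoeff_apply]

/-- `V = (g / g_0)^(-s)` -/
theorem exists_gauge (δ : Derivation k K K) {g : PowerSeries K}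
    (hg : PowerSeries.constantCoeff g ≠ 0) (s : ℚ) : ∃ V : PowerSeries K,
      PowerSeries.constantCoeff V = 1 ∧
      g * PowerSeries.derivative K V =
        -(PowerSeries.C (s : K) * PowerSeries.derivative K g * V) ∧
      g * cdr δ V = PowerSeries.C ((s : K) * (δ (PowerSeries.constantCoeff g) /
        PowerSeries.constantCoeff g)) * g * V - PowerSeries.C (s : K) * cdr δ g * V := by
  obtain ⟨V, hV0, hV⟩ := gau_ode (-(PowerSeries.C (s : K) * PowerSeries.derivative K g * g⁻¹))
  have hgi : g * g⁻¹ = 1 := PowerSeries.mul_inv_cancel g hg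
  have h1 : g * PowerSeries.derivative K V =
      -(PowerSeries.C (s : K) * PowerSeries.derivative K g * V) := by
    rw [hV]
    linear_combination (-(PowerSeries.C (s : K) * PowerSeries.derivative K g * V)) * hgi
  refine ⟨V, hV0, h1, ?_⟩
  set g0 := PowerSeries.constantCoeff g with hg0
  set κ : K := (s : K) * (δ g0 / g0) with hκ
  have hδC : ∀ (f : PowerSeries K), cdr δ (PowerSeries.C (s : K) * f) =
      PowerSeries.C (s : K) * cdr δ f := by
    intro f
    ext n
    rw [coeff_cdr, PowerSeries.coeff_C_mul, PowerSeries.coeff_C_mul, Derivation.leibniz, coeff_cdr,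
      smul_eq_mul, smul_eq_mul]
    have : δ (s : K) = 0 := by
      rw [Rat.cast_def, Derivation.leibniz_div_const _ _ _ (δ.map_natCast _), δ.map_intCast,
        smul_zero]
    rw [this, mul_zero, add_zero]
  have hDC : ∀ c : K, PowerSeries.derivative K (PowerSeries.C c) = 0 := fun c =>
    PowerSeries.derivative_C
  have hU : g * cdr δ V - PowerSeries.C κ * g * V + PowerSeries.C (s : K) * cdr δ g * V = 0 := by
    apply gau_uniq hg (h := (1 - PowerSeries.C (s : K)) * PowerSeries.derivative K g)
    · simp only [map_add, map_sub, map_mul, gau_cc, hV0, Derivation.map_one_eq_zero,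
        PowerSeries.constantCoeff_C]
      rw [← hg0, hκ]
      field_simp
      ring
    · have h2 : cdr δ (g * PowerSeries.derivative K V) =
        cdr δ (-(PowerSeries.C (s : K) * PowerSeries.derivative K g * V)) := by rw [h1]
      rw [map_neg, mul_assoc, hδC, Derivation.leibniz, Derivation.leibniz] at h2
      simp only [smul_eq_mul] at h2
      rw [← cdr_comm, ← cdr_comm] at h2
      simp only [map_add, map_sub, Derivation.leibniz, smul_eq_mul, hDC]
      linear_combination g * h2 + ((PowerSeries.C (s : K) - 1) * cdr δ g - PowerSeries.C κ * g) * h1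
  linear_combination hU

end GAU

end Pool.Agent.H75.Mono
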