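import Pool.Agent.H75.Plc.P0

/-! # PLC, module TAY: Taylor expansions at singular points -/

set_option autoImplicit false

namespace Pool.Agent.H75.Mono

open MvPolynomial Pool.Agent.H39.MonoR

section TAY

variable {k : Type} [Field k]

private theorem tay_eval (F : MvPolynomial (Fin 2) k) (P : Fin 2 → k) :
    eval (0 : Fin 2 → k) (aeval (fun i => X i + C (P i)) F : MvPolynomial (Fin 2) k) =
      eval P F := by
  rw [← MvPolynomial.coe_aeval_eq_eval, ← MvPolynomial.coe_aeval_eq_eval]
  have : (aeval (0 : Fin 2 → k)).comp (aeval (fun i => X i + C (P i)) :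
      MvPolynomial (Fin 2) k →ₐ[k] MvPolynomial (Fin 2) k) = (aeval P : MvPolynomial (Fin 2) k →ₐ[k] k) := by
    ext i
    simp
  exact congrArg (fun g => g F) this

private theorem tay_pderiv (F : MvPolynomial (Fin 2) k) (P : Fin 2 → k) (i : Fin 2) :
    pderiv i (aeval (fun i => X i + C (P i)) F : MvPolynomial (Fin 2) k) =
      aeval (fun i => X i + C (P i)) (pderiv i F) := by
  induction F using MvPolynomial.induction_on with
  | C a => simp
  | add p q hp hq => rw [map_add, map_add, map_add, map_add, hp, hq]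
  | mul_X p j hp =>
    simp only [map_mul, Derivation.leibniz, aeval_X, map_add, hp, pderiv_C, add_zero, smul_eq_mul]
    by_cases h : j = i
    · subst h
      simp
    · rw [pderiv_X_of_ne h]
      simp

private theorem tay_ne {F : MvPolynomial (Fin 2) k} (hF : F ≠ 0) (P : Fin 2 → k) :
    (aeval (fun i => X i + C (P i)) F : MvPolynomial (Fin 2) k) ≠ 0 := by
  intro h
  apply hF
  have : (aeval (fun i => X i - C (P i)) : MvPolynomial (Fin 2) k →ₐ[k] MvPolynomial (Fin 2) k).comp
      (aeval (fun i => X i + C (P i)) : MvPolynomial (Fin 2) k →ₐ[k] MvPolynomial (Fin 2) k) =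
      AlgHom.id k _ := by
    ext i
    simp
  have h2 := congrArg (fun g => g F) this
  simp only [AlgHom.comp_apply, AlgHom.id_apply] at h2
  rw [h, map_zero] at h2
  exact h2.symm

theorem tay_order {F : MvPolynomial (Fin 2) k} (hF : F ≠ 0) {P : Fin 2 → k}
    (hP0 : eval P F = 0) (hP : ∀ i, eval P (pderiv i F) = 0) :
    ∃ n, 2 ≤ n ∧ (∀ i j, cf (tay F P) i j ≠ 0 → n ≤ i + j) ∧
      ∃ i j, i + j = n ∧ cf (tay F P) i j ≠ 0 := by
  classical
  set T : MvPolynomial (Fin 2) k := aeval (fun i => X i + C (P i)) F with hT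
  have hcf : ∀ i j, cf (tay F P) i j = coeff (ix i j) T := by
    intro i j
    unfold cf tay
    rw [MvPolynomial.coeff_coe]
  have h00 : coeff (ix 0 0) T = 0 := by
    have h1 := tay_eval F P
    rw [hP0] at h1
    have e : ix 0 0 = 0 := by simp [ix]
    rw [e]
    have h2 : coeff 0 T = eval (0 : Fin 2 → k) T := by
      rw [← MvPolynomial.constantCoeff_eq, ← MvPolynomial.coe_aeval_eq_eval]
      simp
    rw [h2]
    exact h1
  have hone : ∀ i : Fin 2, coeff (Finsupp.single i 1) T = 0 := by
    intro i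
    have h1 := tay_eval (pderiv i F) P
    rw [hP i, ← tay_pderiv] at h1
    have h2 : coeff 0 (pderiv i T) = eval (0 : Fin 2 → k) (pderiv i T) := by
      rw [← MvPolynomial.constantCoeff_eq, ← MvPolynomial.coe_aeval_eq_eval]
      simp
    rw [← hT, ← h2, MvPolynomial.coeff_pderiv] at h1
    simpa using h1
  have hex : ∃ n, ∃ i j, i + j = n ∧ cf (tay F P) i j ≠ 0 := by
    have hne := tay_ne hF P
    rw [← hT] at hne
    obtain ⟨d, hd⟩ := MvPolynomial.ne_zero_iff.1 hne
    refine ⟨_, d 0, d 1, rfl, ?_⟩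
    rw [hcf]
    have e : ix (d 0) (d 1) = d := by
      refine Finsupp.ext fun i => ?_
      fin_cases i <;> simp [ix]
    rw [e]
    exact hd
  refine ⟨Nat.find hex, ?_, ?_, Nat.find_spec hex⟩
  · by_contra hlt
    obtain ⟨i, j, hij, hne⟩ := Nat.find_spec hex
    rw [hcf] at hne
    have h3 : i + j ≤ 1 := by omega
    have h4 : (i = 0 ∧ j = 0) ∨ (i = 1 ∧ j = 0) ∨ (i = 0 ∧ j = 1) := by omega
    rcases h4 with ⟨rfl, rfl⟩ | ⟨rfl, rfl⟩ | ⟨rfl, rfl⟩
    · exact hne h00
    · apply hne
      have := hone 0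
      simpa [ix] using this
    · apply hne
      have := hone 1
      simpa [ix] using this
  · intro i j hij
    exact Nat.find_min' hex ⟨i, j, rfl, hij⟩

end TAY

end Pool.Agent.H75.Mono
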