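import Pool.Agent.H75.Plc.FST
import Pool.Agent.H75.Plc.GLO
import Pool.Agent.H75.Plc.TAY
import Pool.Agent.H75.Fib.FIN3

/-! # PLC: plane curves (assembly) -/

set_option autoImplicit false

namespace Pool.Agent.H75.Mono

open MvPolynomial Pool.Agent.H39.MonoR

section PLN

variable {k : Type} [Field k] [Algebra k ℂ] [IsAlgClosed k]

open Classical in
/-- polynomials in two variables are good at all values -/
theorem P3.plane {f : MvPolynomial (Fin 2) k} (hf : Nc f) (a : k) : P3 f a := by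
  have := charZero k
  have hF := hf.sub_C a
  set F := f - C a with hFd
  obtain ⟨Sg, n, Pf, Qf, m, hS⟩ := exists_strata hF
  have key : ∀ P, ∃ S : Finset (ℤ × ℕ), P ∈ Sg → (Gds F S ∧ RatF (Lu k) (S : Set (ℤ × ℕ))
      (fun t : Test k => PowerSeries.mk fun d => if d = 0 then 0 else
        loc (tay F P) d t - loc (tay F P) d t.zr)) := by
    intro P
    by_cases hPS : P ∈ Sg
    swap
    · exact ⟨∅, fun h => absurd h hPS⟩
    obtain ⟨h0, h1⟩ := hS.1 P hPS
    obtain ⟨N, hN, h2, h3⟩ := tay_order hF.ne h0 h1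
    obtain ⟨S, hS'⟩ := loc_rat h1 (Cht.tay F P) hN h2 h3
    exact ⟨S, fun _ => hS'⟩
  choose S hS' using key
  have h1 := Inv.of_local hS (S := fun P => (S P : Set (ℤ × ℕ))) fun P hP => (hS' P hP).2
  refine ⟨Sg.biUnion S ∪ (Finset.univ.filter fun i => 2 ≤ m i).image
    (fun i => ((-1 : ℤ), m i)), ?_, ?_⟩
  · have e : ((Sg.biUnion S ∪ (Finset.univ.filter fun i => 2 ≤ m i).image
        (fun i => ((-1 : ℤ), m i)) : Finset (ℤ × ℕ)) : Set (ℤ × ℕ)) =
        {q | (∃ P ∈ Sg, q ∈ (S P : Set (ℤ × ℕ))) ∨ ∃ i, 2 ≤ m i ∧ q = (-1, m i)} := by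
      ext q
      simp only [Finset.coe_union, Finset.coe_biUnion, Finset.mem_coe, Set.mem_union,
        Set.mem_iUnion, Finset.coe_image, Set.mem_image, Finset.mem_filter, Finset.mem_univ,
        true_and, Set.mem_ofPred_eq, exists_prop]
      constructor
      · rintro (⟨P, hP, hq⟩ | ⟨i, hi, rfl⟩)
        · exact Or.inl ⟨P, hP, hq⟩
        · exact Or.inr ⟨i, hi, rfl⟩
      · rintro (⟨P, hP, hq⟩ | ⟨i, hi, rfl⟩)
        · exact Or.inl ⟨P, hP, hq⟩
        · exact Or.inr ⟨i, hi, rfl⟩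
    rw [e]
    exact h1
  · intro p hp
    rcases Finset.mem_union.1 hp with hp | hp
    · obtain ⟨P, hP, hp⟩ := Finset.mem_biUnion.1 hp
      exact (hS' P hP).1 p hp
    · obtain ⟨i, hi, rfl⟩ := Finset.mem_image.1 hp
      rw [Finset.mem_filter] at hi
      obtain ⟨h2, h3, h4, h5⟩ := hS.2.1 i
      refine ⟨by norm_num, h2, ?_⟩
      have := SRs.of_pow h3 h4 h5 hi.2
      norm_num
      rwa [one_div] at this

end PLN

/-- `Fibp s f a`: `f` is a fibrewise composite of plane curves at the value `a`, in the variables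
`x_i`, `i ∈ s` -/
inductive Fibp {k : Type} [Field k] [Algebra k ℂ] {σ : Type} [DecidableEq σ] :
    Finset σ → MvPolynomial σ k → k → Prop
  | smooth {s : Finset σ} {f : MvPolynomial σ k} {a : k} : f.vars ⊆ s →
      Sm f (algebraMap k ℂ a) → Fibp s f a
  | plane {s : Finset σ} {f : MvPolynomial σ k} (a : k) : IsAlgClosed k → s.card = 2 →
      f.vars ⊆ s → Nc f → Fibp s f a
  | mul {s t : Finset σ} {f g : MvPolynomial σ k} : Disjoint s t → Nc f → Nc g → Fibp s f 0 →
      Fibp t g 0 → Fibp (s ∪ t) (f * g) 0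
  | gate {r : ℕ} {s : Fin (r + 1) → Finset σ} {f : Fin (r + 1) → MvPolynomial σ k}
      {G : MvPolynomial (Fin (r + 1)) k} {a : k} (T : Finset (Fin (r + 1) → k))
      (w : (Fin (r + 1) → k) → Fin (r + 1) → ℕ) (n : (Fin (r + 1) → k) → ℕ)
      (B : (Fin (r + 1) → k) → Finset (Fin (r + 1))) :
      (∀ x : Fin (r + 1) → ℂ, aeval x G = algebraMap k ℂ a →
        (∀ i, aeval x (pderiv i G) = 0 ∨ ¬ Sm (f i) (x i)) →
          ∃ b ∈ T, ∀ i, x i = algebraMap k ℂ (b i)) →
      (∀ b ∈ T, eval b G = a) → (∀ b ∈ T, SWH (w b) (n b) (B b) (shf G b a)) →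
      (∀ b ∈ T, ∀ i ∈ B b, w b i < n b ∧ Sm (f i) (algebraMap k ℂ (b i))) →
      (∀ i j, i ≠ j → Disjoint (s i) (s j)) → (∀ i, Nc (f i)) → (∀ i, (f i).vars ⊆ s i) →
      (∀ b ∈ T, ∀ i, Fibp (s i) (f i) (b i)) → Fibp (Finset.univ.biUnion s) (aeval f G) a

section PLN2

variable {k : Type} [Field k] [Algebra k ℂ] {σ : Type} [Finite σ]

theorem Fibp.p3 [DecidableEq σ] {s : Finset σ} {f : MvPolynomial σ k} {a : k}
    (h : Fibp s f a) : f.vars ⊆ s ∧ P3 (res s f) a := by
  induction h with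
  | smooth h1 h2 =>
    refine ⟨h1, P3.of_sm ?_⟩
    rw [← sm_rename Subtype.val_injective, rename_res h1]
    exact h2
  | @plane s f a hk hs hv hf =>
    refine ⟨hv, ?_⟩
    have e : Fin 2 ≃ {x // x ∈ s} := (Fintype.equivFinOfCardEq (by simpa using hs)).symm
    have h1 : Nc (rename e.symm (res s f)) := by
      rw [nc_rename e.symm.injective, ← nc_rename Subtype.val_injective, rename_res hv]
      exact hf
    have h2 := (P3.plane h1 a).equiv e
    rwa [rename_rename, Equiv.self_comp_symm, rename_id_apply] at h2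
  | @mul s t f g hd hf hg _ _ ih1 ih2 =>
    refine ⟨vars_mul_union ih1.1 ih2.1, ?_⟩
    obtain ⟨e, he⟩ := res_mul hd ih1.1 ih2.1
    rw [he]
    refine (P3.mul ih1.2 ih2.2 ?_ ?_).equiv e
    · rwa [← nc_rename Subtype.val_injective, rename_res ih1.1]
    · rwa [← nc_rename Subtype.val_injective, rename_res ih2.1]
  | @gate r s f G a T w n B h1 h2 h3 h4 hd hN hv _ ih =>
    refine ⟨vars_aeval_biUnion hv G, ?_⟩
    obtain ⟨e, he⟩ := res_aeval hd hv G
    rw [he]
    have hs : ∀ i x, Sm (f i) x ↔ Sm (res (s i) (f i)) x := fun i x => by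
      conv_lhs => rw [← rename_res (hv i)]
      exact sm_rename Subtype.val_injective
    refine (P3.gate (T := T) (w := w) (n := n) (B := B) ?_ h2 h3 ?_ ?_ fun b hb i =>
      (ih b hb i).2).equiv e
    · intro x hx hx'
      exact h1 x hx fun i => by
        rw [hs]
        exact hx' i
    · intro b hb i hi
      rw [← hs]
      exact h4 b hb i hi
    · intro i
      rw [← nc_rename Subtype.val_injective, rename_res (hv i)]
      exact hN i

/-- **The strong motivic monodromy conjecture for fibrewise composites of plane curves.** -/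
theorem Fibp.main [DecidableEq σ] {s : Finset σ} {f : MvPolynomial σ k} (h : Fibp s f 0)
    (hf : Nc f) : ∃ S : Finset (ℤ × ℕ), (∀ p ∈ S, p.1 < 0 ∧ 0 < p.2) ∧
      Zmot k f ∈ RS k (S : Set (ℤ × ℕ)) ∧ ∀ p ∈ S, IsRoot k f (p.1 / p.2) := by
  obtain ⟨h1, h2⟩ := h.p3
  have h3 := h2.final (e := (Subtype.val : {x // x ∈ s} → σ)) (by
    rwa [← nc_rename Subtype.val_injective, rename_res h1]) Subtype.val_injective
  rwa [rename_res h1] at h3

end PLN2

end Pool.Agent.H75.Mono
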