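import Pool.Agent.H75.Plc.BEZ

/-! # PLC, module STR: the strata of a plane curve -/

set_option autoImplicit false

namespace Pool.Agent.H75.Mono

open MvPolynomial Pool.Agent.H39.MonoR

section STR

variable {k : Type} [Field k] [Algebra k ℂ] [IsAlgClosed k]

/-- the strata of `F = 0`: finitely many singular points and smooth parts of the components -/
def Strata (F : MvPolynomial (Fin 2) k) (Sg : Finset (Fin 2 → k)) {n : ℕ}
    (Pf Qf : Fin n → MvPolynomial (Fin 2) k) (m : Fin n → ℕ) : Prop :=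
  (∀ P ∈ Sg, eval P F = 0 ∧ ∀ i, eval P (pderiv i F) = 0) ∧
  (∀ i, 0 < m i ∧ F = Pf i ^ m i * Qf i ∧ Irreducible (Pf i) ∧ ¬ Pf i ∣ Qf i) ∧
  ∀ x : Fin 2 → ℂ, aeval x F = 0 → (¬ ∃ P ∈ Sg, ∀ i, x i = algebraMap k ℂ (P i)) →
    ∃ i, (aeval x (Pf i) = 0 ∧ aeval x (Qf i) ≠ 0 ∧ ∃ j, aeval x (pderiv j (Pf i)) ≠ 0) ∧
      ∀ i', i' ≠ i → aeval x (Pf i') ≠ 0

omit [Algebra k ℂ] [IsAlgClosed k] in
/-- elimination for an irreducible polynomial and a polynomial which it does not divide -/
private theorem str_res {P : MvPolynomial (Fin 2) k} (hP : Irreducible P)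
    (Q : MvPolynomial (Fin 2) k) : Q ≠ 0 → ¬ P ∣ Q → ∀ i : Fin 2,
      ∃ (A B : MvPolynomial (Fin 2) k) (r : Polynomial k),
        r ≠ 0 ∧ A * P + B * Q = Polynomial.aeval (X i : MvPolynomial (Fin 2) k) r := by
  classical
  induction Q using UniqueFactorizationMonoid.induction_on_prime with
  | h₁ => intro h; exact absurd rfl h
  | h₂ u hu =>
    intro _ _ i
    obtain ⟨v, rfl⟩ := hu
    refine ⟨0, ↑v⁻¹, 1, one_ne_zero, ?_⟩
    simp
  | h₃ Q R hQ hR ih =>
    intro h0 hd i
    have hR0 : R ≠ 0 := hR.ne_zero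
    have hdR : ¬ P ∣ R := fun h => hd (h.mul_right _)
    have hdQ : ¬ P ∣ Q := fun h => hd (h.mul_left _)
    have hna : ¬ Associated P R := fun h => hdR h.dvd
    obtain ⟨A1, B1, r1, hr1, e1⟩ := exists_res hP hR.irreducible hna i
    obtain ⟨A2, B2, r2, hr2, e2⟩ := ih hQ hdQ i
    refine ⟨A1 * (A2 * P + B2 * Q) + B1 * R * A2, B1 * B2, r1 * r2, mul_ne_zero hr1 hr2, ?_⟩
    rw [map_mul, ← e1, ← e2]
    ring

omit [Algebra k ℂ] [IsAlgClosed k] in
private theorem str_degreeOf_pderiv (P : MvPolynomial (Fin 2) k) (j : Fin 2)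
    (h : pderiv j P ≠ 0) : degreeOf j (pderiv j P) < degreeOf j P := by
  classical
  have hpos : 0 < degreeOf j P := by
    rcases Nat.eq_zero_or_pos (degreeOf j P) with h0 | h0
    · exfalso
      apply h
      apply pderiv_eq_zero_of_notMem_vars
      intro hm
      rw [mem_vars_iff_mem_support] at hm
      obtain ⟨d, hd, hdj⟩ := hm
      rw [Finsupp.mem_support_iff] at hdj
      have := monomial_le_degreeOf j hd
      omega
    · exact h0
  rw [degreeOf_lt_iff hpos]
  intro m hm
  rw [P.as_sum, map_sum] at hm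
  obtain ⟨s, hs, hms⟩ := Finset.mem_biUnion.1 (MvPolynomial.support_sum hm)
  rw [pderiv_monomial] at hms
  have := MvPolynomial.support_monomial_subset hms
  rw [Finset.mem_singleton] at this
  subst this
  have hsj : s j ≤ degreeOf j P := monomial_le_degreeOf j hs
  have hsj0 : s j ≠ 0 := by
    intro h0
    rw [h0] at hms
    simp at hms
  simp only [Finsupp.coe_tsub, Pi.sub_apply, Finsupp.single_eq_same]
  omega

omit [Algebra k ℂ] [IsAlgClosed k] in
private theorem str_not_dvd_pderiv {P : MvPolynomial (Fin 2) k} {j : Fin 2}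
    (h : pderiv j P ≠ 0) : ¬ P ∣ pderiv j P := by
  rintro ⟨C, hC⟩
  have hlt := str_degreeOf_pderiv P j h
  have hP : P ≠ 0 := by rintro rfl; simp at h
  have hC0 : C ≠ 0 := by rintro rfl; rw [mul_zero] at hC; exact h hC
  rw [hC, degreeOf_mul_eq hP hC0] at hlt
  omega

/-- a root in `ℂ` of a polynomial over `k` lies in `k` -/
private theorem str_root {r : Polynomial k} (hr : r ≠ 0) {z : ℂ}
    (h : Polynomial.aeval z r = 0) : ∃ a ∈ r.roots, z = algebraMap k ℂ a := by
  have hs := IsAlgClosed.splits r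
  rw [hs.eq_prod_roots, map_mul, map_multiset_prod, Multiset.map_map] at h
  rcases mul_eq_zero.1 h with h | h
  · rw [Polynomial.aeval_C] at h
    exfalso
    apply hr
    rw [← Polynomial.leadingCoeff_eq_zero]
    exact (map_eq_zero_iff _ (algebraMap k ℂ).injective).1 h
  · rw [Multiset.prod_eq_zero_iff, Multiset.mem_map] at h
    obtain ⟨a, ha, ha0⟩ := h
    refine ⟨a, ha, ?_⟩
    simp only [Function.comp_apply, map_sub, Polynomial.aeval_X, Polynomial.aeval_C] at ha0
    exact sub_eq_zero.1 ha0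

/-- common zeros of two coprime polynomials -/
private theorem str_common {P Q : MvPolynomial (Fin 2) k} (hP : Irreducible P) (hQ : Q ≠ 0)
    (hd : ¬ P ∣ Q) : {z : Fin 2 → k | eval z P = 0 ∧ eval z Q = 0}.Finite ∧
      ∀ x : Fin 2 → ℂ, aeval x P = 0 → aeval x Q = 0 → ∃ z : Fin 2 → k,
        ∀ i, x i = algebraMap k ℂ (z i) := by
  classical
  choose A B r hr e using str_res hP Q hQ hd
  constructor
  · apply (Set.Finite.pi (fun i : Fin 2 => ((r i).roots.toFinset : Set k).toFinite)).subset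
    intro z hz
    rw [Set.mem_univ_pi]
    intro i
    rw [Finset.mem_coe, Multiset.mem_toFinset, Polynomial.mem_roots (hr i)]
    have := congrArg (eval z) (e i)
    rw [map_add, map_mul, map_mul, hz.1, hz.2, mul_zero, mul_zero, add_zero] at this
    have h2 : eval z (Polynomial.aeval (X i : MvPolynomial (Fin 2) k) (r i)) =
        (r i).eval (z i) := by
      have := Polynomial.aeval_algHom_apply (MvPolynomial.aeval z : MvPolynomial (Fin 2) k →ₐ[k] k)
        (X i) (r i)
      rw [MvPolynomial.aeval_X] at this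
      rw [← Polynomial.coe_aeval_eq_eval, this]
      rfl
    rw [h2] at this
    exact this.symm
  · intro x hx hx'
    have key : ∀ i, ∃ a : k, x i = algebraMap k ℂ a := by
      intro i
      have := congrArg (aeval x) (e i)
      rw [map_add, map_mul, map_mul, hx, hx', mul_zero, mul_zero, add_zero,
        ← Polynomial.aeval_algHom_apply, MvPolynomial.aeval_X] at this
      obtain ⟨a, -, ha⟩ := str_root (hr i) this.symm
      exact ⟨a, ha⟩
    choose z hz using key
    exact ⟨z, hz⟩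

omit [IsAlgClosed k] in
private theorem str_aeval_image (z : Fin 2 → k) (P : MvPolynomial (Fin 2) k) {x : Fin 2 → ℂ}
    (hx : ∀ i, x i = algebraMap k ℂ (z i)) : aeval x P = algebraMap k ℂ (eval z P) := by
  have : x = fun i => algebraMap k ℂ (z i) := funext hx
  rw [this]
  have := MvPolynomial.aeval_algebraMap_apply ℂ z P
  rw [show (fun i => algebraMap k ℂ (z i)) = (algebraMap k ℂ ∘ z) from rfl, this]
  rfl

omit [Algebra k ℂ] [IsAlgClosed k] in
private theorem str_exists_pderiv [CharZero k] {P : MvPolynomial (Fin 2) k}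
    (hP : Irreducible P) : ∃ j, pderiv j P ≠ 0 := by
  by_contra hcon
  push Not at hcon
  have hC : P = C (coeff 0 P) := by
    ext m
    rw [coeff_C]
    split_ifs with h
    · rw [← h]
    · obtain ⟨i, hi⟩ : ∃ i, m i ≠ 0 := by
        by_contra hc
        push Not at hc
        apply h
        ext i
        rw [hc i]
        rfl
      have h1 := coeff_pderiv (i := i) P (m - Finsupp.single i 1)
      rw [hcon i, coeff_zero] at h1
      have h2 : m - Finsupp.single i 1 + Finsupp.single i 1 = m := by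
        apply tsub_add_cancel_of_le
        rw [Finsupp.single_le_iff]
        omega
      rw [h2] at h1
      have h3 : (((m - Finsupp.single i 1 : Fin 2 →₀ ℕ) i : ℕ) : k) + 1 ≠ 0 :=
        Nat.cast_add_one_ne_zero _
      exact (mul_eq_zero.1 h1.symm).resolve_right h3
  rcases eq_or_ne (coeff 0 P) 0 with h0 | h0
  · rw [h0, C_0] at hC
    exact hP.ne_zero hC
  · apply hP.not_isUnit
    rw [hC]
    exact (isUnit_iff_ne_zero.2 h0).map C

theorem exists_strata {F : MvPolynomial (Fin 2) k} (hF : Nc F) :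
    ∃ (Sg : Finset (Fin 2 → k)) (n : ℕ) (Pf Qf : Fin n → MvPolynomial (Fin 2) k)
      (m : Fin n → ℕ), Strata F Sg Pf Qf m := by
  classical
  let _ : StrongNormalizationMonoid (MvPolynomial (Fin 2) k) :=
    UniqueFactorizationMonoid.strongNormalizationMonoid
  have _ : CharZero k := by
    refine ⟨fun a b h => ?_⟩
    have := congrArg (algebraMap k ℂ) h
    simpa using this
  have hF0 : F ≠ 0 := hF.ne
  obtain ⟨S, hS⟩ : ∃ S : Finset (MvPolynomial (Fin 2) k),
    S = (UniqueFactorizationMonoid.normalizedFactors F).toFinset := ⟨_, rfl⟩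
  have hmem : ∀ P, P ∈ S ↔ P ∈ UniqueFactorizationMonoid.normalizedFactors F := by
    intro P
    rw [hS, Multiset.mem_toFinset]
  have hirr : ∀ P ∈ S, Irreducible P := fun P hP =>
    UniqueFactorizationMonoid.irreducible_of_normalized_factor P ((hmem P).1 hP)
  have hdvd : ∀ P ∈ S, P ∣ F := fun P hP =>
    UniqueFactorizationMonoid.dvd_of_mem_normalizedFactors ((hmem P).1 hP)
  have hassoc : ∀ P ∈ S, ∀ P' ∈ S, P ≠ P' → ¬ P ∣ P' := by
    intro P hP P' hP' hne hd
    have ha : Associated P P' := (hirr P hP).associated_of_dvd (hirr P' hP') hd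
    apply hne
    rw [← UniqueFactorizationMonoid.normalize_normalized_factor P ((hmem P).1 hP),
      ← UniqueFactorizationMonoid.normalize_normalized_factor P' ((hmem P').1 hP')]
    exact normalize_eq_normalize ha.dvd ha.symm.dvd
  have hex : ∀ P : S, ∃ (m : ℕ) (Q : MvPolynomial (Fin 2) k),
      0 < m ∧ F = P.1 ^ m * Q ∧ ¬ P.1 ∣ Q := by
    rintro ⟨P, hP⟩
    have hfin : FiniteMultiplicity P F :=
      FiniteMultiplicity.of_not_isUnit (hirr P hP).not_isUnit hF0
    obtain ⟨Q, hQ, hnd⟩ := hfin.exists_eq_pow_mul_and_not_dvd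
    refine ⟨multiplicity P F, Q, ?_, hQ, hnd⟩
    rcases Nat.eq_zero_or_pos (multiplicity P F) with h0 | h0
    · exfalso
      rw [h0, pow_zero, one_mul] at hQ
      exact hnd (hQ ▸ hdvd P hP)
    · exact h0
  -- a zero of `F` or of a divisor of `F`
  have hzero : ∀ (R : MvPolynomial (Fin 2) k), R ∣ F → ∀ x : Fin 2 → ℂ, aeval x R = 0 →
      ∃ P ∈ S, P ∣ R ∧ aeval x P = 0 := by
    intro R hR x hx
    have hR0 : R ≠ 0 := ne_zero_of_dvd_ne_zero hF0 hR
    obtain ⟨u, hu⟩ := UniqueFactorizationMonoid.prod_normalizedFactors hR0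
    rw [← hu, map_mul, map_multiset_prod] at hx
    have hunit : aeval x (↑u : MvPolynomial (Fin 2) k) ≠ (0 : ℂ) :=
      (u.isUnit.map (aeval x : MvPolynomial (Fin 2) k →ₐ[k] ℂ)).ne_zero
    have h2 := (mul_eq_zero.1 hx).resolve_right hunit
    rw [Multiset.prod_eq_zero_iff, Multiset.mem_map] at h2
    obtain ⟨P, hP, hP0⟩ := h2
    refine ⟨P, ?_, UniqueFactorizationMonoid.dvd_of_mem_normalizedFactors hP, hP0⟩
    rw [hmem]
    exact Multiset.mem_of_le
      ((UniqueFactorizationMonoid.dvd_iff_normalizedFactors_le_normalizedFactors hR0 hF0).1 hR) hP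
  choose m Q hm hQ hnd using hex
  obtain ⟨Z, hZ⟩ : ∃ Z : Set (Fin 2 → k), Z = {z | ∃ P ∈ S, eval z P = 0 ∧
    ((∃ P' ∈ S, P ≠ P' ∧ eval z P' = 0) ∨ ∀ j, eval z (pderiv j P) = 0)} := ⟨_, rfl⟩
  have hZfin : Z.Finite := by
    have h1 : ∀ P ∈ S, {z : Fin 2 → k | eval z P = 0 ∧
        ((∃ P' ∈ S, P ≠ P' ∧ eval z P' = 0) ∨ ∀ j, eval z (pderiv j P) = 0)}.Finite := by
      intro P hP
      obtain ⟨j, hj⟩ := str_exists_pderiv (hirr P hP)
      have h2 : ∀ P' ∈ S, {z : Fin 2 → k | P ≠ P' ∧ eval z P = 0 ∧ eval z P' = 0}.Finite := by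
        intro P' hP'
        by_cases hne : P = P'
        · convert Set.finite_empty
          ext z
          simp [hne]
        · exact (str_common (hirr P hP) (hirr P' hP').ne_zero
            (hassoc P hP P' hP' hne)).1.subset fun z hz => hz.2
      have h3 := (str_common (hirr P hP) hj (str_not_dvd_pderiv hj)).1
      refine ((S.finite_toSet.biUnion h2).union h3).subset ?_
      rintro z ⟨hz, h | h⟩
      · left
        obtain ⟨P', hP', hne, hz'⟩ := h
        rw [Set.mem_iUnion₂]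
        exact ⟨P', hP', hne, hz, hz'⟩
      · right
        exact ⟨hz, h j⟩
    refine (S.finite_toSet.biUnion h1).subset ?_
    intro z hz
    rw [hZ] at hz
    obtain ⟨P, hP, h⟩ := hz
    rw [Set.mem_iUnion₂]
    exact ⟨P, hP, h⟩
  refine ⟨hZfin.toFinset, S.card, fun i => (S.equivFin.symm i).1, fun i => Q (S.equivFin.symm i),
    fun i => m (S.equivFin.symm i), ?_, ?_, ?_⟩
  · intro z hz
    rw [Set.Finite.mem_toFinset, hZ] at hz
    obtain ⟨P, hP, hz0, h⟩ := hz
    have e : F = P ^ m ⟨P, hP⟩ * Q ⟨P, hP⟩ := hQ ⟨P, hP⟩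
    have hm0 : m ⟨P, hP⟩ ≠ 0 := (hm ⟨P, hP⟩).ne'
    constructor
    · rw [e, map_mul, map_pow, hz0, zero_pow hm0, zero_mul]
    · intro i
      rw [e, pderiv_mul, pderiv_pow]
      simp only [map_add, map_mul, map_pow, map_natCast]
      rw [hz0, zero_pow hm0, zero_mul, add_zero]
      rcases h with h | h
      · obtain ⟨P', hP', hne, hz'⟩ := h
        have hd : P' ∣ Q ⟨P, hP⟩ := by
          have h1 : P' ∣ P ^ m ⟨P, hP⟩ * Q ⟨P, hP⟩ := e ▸ hdvd P' hP'
          have hpr : Prime P' := (hirr P' hP').prime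
          rcases hpr.dvd_or_dvd h1 with h2 | h2
          · exact absurd (hpr.dvd_of_dvd_pow h2) (hassoc P' hP' P hP (Ne.symm hne))
          · exact h2
        obtain ⟨R, hR⟩ := hd
        rw [hR, map_mul, hz', zero_mul, mul_zero]
      · rw [h i, mul_zero, zero_mul]
  · intro i
    exact ⟨hm _, hQ _, hirr _ (S.equivFin.symm i).2, hnd _⟩
  · intro x hx hnx
    obtain ⟨P, hP, -, hP0⟩ := hzero F dvd_rfl x hx
    have hsing : ∀ z : Fin 2 → k, (∀ i, x i = algebraMap k ℂ (z i)) → z ∉ Z := by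
      intro z hz hzZ
      exact hnx ⟨z, by rw [Set.Finite.mem_toFinset]; exact hzZ, hz⟩
    have hev : ∀ z : Fin 2 → k, (∀ i, x i = algebraMap k ℂ (z i)) →
        ∀ R : MvPolynomial (Fin 2) k, aeval x R = 0 → eval z R = 0 := by
      intro z hz R hR
      rw [str_aeval_image z R hz] at hR
      exact (map_eq_zero_iff _ (algebraMap k ℂ).injective).1 hR
    have hother : ∀ P' ∈ S, P' ≠ P → aeval x P' ≠ 0 := by
      intro P' hP' hne h0
      obtain ⟨z, hz⟩ := (str_common (hirr P hP) (hirr P' hP').ne_zero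
        (hassoc P hP P' hP' (Ne.symm hne))).2 x hP0 h0
      apply hsing z hz
      rw [hZ]
      exact ⟨P, hP, hev z hz P hP0, Or.inl ⟨P', hP', Ne.symm hne, hev z hz P' h0⟩⟩
    refine ⟨S.equivFin ⟨P, hP⟩, ⟨?_, ?_, ?_⟩, ?_⟩
    · simpa using hP0
    · simp only [Equiv.symm_apply_apply]
      intro h0
      have hQF : Q ⟨P, hP⟩ ∣ F := ⟨P ^ m ⟨P, hP⟩, by rw [mul_comm]; exact hQ ⟨P, hP⟩⟩
      obtain ⟨P', hP', hd, h0'⟩ := hzero _ hQF x h0
      by_cases hne : P' = P
      · subst hne
        exact hnd ⟨P', hP⟩ hd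
      · exact hother P' hP' hne h0'
    · simp only [Equiv.symm_apply_apply]
      by_contra hcon
      push Not at hcon
      obtain ⟨j, hj⟩ := str_exists_pderiv (hirr P hP)
      obtain ⟨z, hz⟩ := (str_common (hirr P hP) hj (str_not_dvd_pderiv hj)).2 x hP0 (hcon j)
      apply hsing z hz
      rw [hZ]
      exact ⟨P, hP, hev z hz P hP0, Or.inr fun i => hev z hz _ (hcon i)⟩
    · intro i' hi'
      apply hother _ (S.equivFin.symm i').2
      intro h
      apply hi'
      have : S.equivFin.symm i' = ⟨P, hP⟩ := Subtype.ext h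
      rw [← this, Equiv.apply_symm_apply]

end STR

end Pool.Agent.H75.Mono
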